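import Mathlib

/-!
GamA: generators of `Γ_1(3)` as an induction principle.
PLAN. Right multiplication of `(a b; c d)` by `T^n = (1 n; 0 1)` gives `(a, b+na; c, d+nc)`, by
`V^n = (1 0; 3n 1)` gives `(a+3nb, b; c+3nd, d)`. Strong induction on `|c| + |d|` (natAbs). If
`c = 0`: `ad = 1` and `a ≡ 1 mod 3` give `a = d = 1`; `T^{-b}` reduces to the identity. If
`c ≠ 0`: `d ≠ 0` (`3 ∣ c`, `d ∣ 1` otherwise) and, as `gcd(c,d) = 1`, `3 ∣ c`, we have
`|c| ≠ 2|d|` or so. If `|d| > |c|/2`: replace `d` by `d + nc` with `|d + nc| ≤ |c|/2 < |d|`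
(`Int.emod`/`Int.bmod`). Otherwise `|d| ≤ |c|/2`, then `|c| ≥ 2|d| > 3|d|/2`: replace `c` by
`c + 3nd` with `|c + 3nd| ≤ 3|d|/2 < |c|`. The statement is an equivalence under each move, so that the
moves can be used in both directions (`n ↦ -n`).
-/

namespace Pool.Agent.Lib.SCG

private theorem gam_aux (Q : ℤ → ℤ → ℤ → ℤ → Prop) (h1 : Q 1 0 0 1)
    (hT : ∀ a b c d n : ℤ, a * d - b * c = 1 → 3 ∣ c → Q a b c d → Q a (b + n * a) c (d + n * c))
    (hV : ∀ a b c d n : ℤ, a * d - b * c = 1 → 3 ∣ c → Q a b c d →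
      Q (a + 3 * n * b) b (c + 3 * n * d) d) (N : ℕ) :
    ∀ a b c d : ℤ, c.natAbs + d.natAbs ≤ N → a * d - b * c = 1 → 3 ∣ c → 3 ∣ a - 1 → Q a b c d := by
  induction N with
  | zero =>
    intro a b c d hN hdet
    have hc : c = 0 := by omega
    have hd : d = 0 := by omega
    subst hc hd
    simp at hdet
  | succ N ih =>
    intro a b c d hN hdet hc ha
    -- the moves
    have mT : ∀ n : ℤ, (d + n * c).natAbs < d.natAbs → Q a b c d := by
      intro n hn
      have hdet' : a * (d + n * c) - (b + n * a) * c = 1 := by linear_combination hdet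
      have h2 := ih a (b + n * a) c (d + n * c) (by omega) hdet' hc ha
      have h3 := hT _ _ _ _ (-n) hdet' hc h2
      have e1 : b + n * a + -n * a = b := by ring
      have e2 : d + n * c + -n * c = d := by ring
      rwa [e1, e2] at h3
    have mV : ∀ n : ℤ, (c + 3 * n * d).natAbs < c.natAbs → Q a b c d := by
      intro n hn
      have hdet' : (a + 3 * n * b) * d - b * (c + 3 * n * d) = 1 := by linear_combination hdet
      have hc' : 3 ∣ c + 3 * n * d := dvd_add hc ⟨n * d, by ring⟩
      have ha' : 3 ∣ a + 3 * n * b - 1 := by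
        have : a + 3 * n * b - 1 = (a - 1) + 3 * (n * b) := by ring
        rw [this]
        exact dvd_add ha ⟨n * b, rfl⟩
      have h2 := ih (a + 3 * n * b) b (c + 3 * n * d) d (by omega) hdet' hc' ha'
      have h3 := hV _ _ _ _ (-n) hdet' hc' h2
      have e1 : a + 3 * n * b + 3 * -n * b = a := by ring
      have e2 : c + 3 * n * d + 3 * -n * d = c := by ring
      rwa [e1, e2] at h3
    by_cases hc0 : c = 0
    · subst hc0
      have h2 : a * d = 1 := by linear_combination hdet
      rcases Int.eq_one_or_neg_one_of_mul_eq_one h2 with h3 | h3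
      · subst h3
        have h4 : d = 1 := by linarith
        subst h4
        have h5 := hT 1 0 0 1 b (by norm_num) (dvd_zero _) h1
        simpa using h5
      · subst h3
        norm_num at ha
    · have hd0 : d ≠ 0 := by
        rintro rfl
        obtain ⟨c', rfl⟩ := hc
        have h2 : 3 * (-(b * c')) = 1 := by linear_combination hdet
        omega
      by_cases h : c.natAbs < 2 * d.natAbs
      · -- reduce `d`
        rcases lt_or_gt_of_ne hc0 with h3 | h3 <;> rcases lt_or_gt_of_ne hd0 with h4 | h4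
        · exact mT (-1) (by omega)
        · exact mT 1 (by omega)
        · exact mT 1 (by omega)
        · exact mT (-1) (by omega)
      · rcases lt_or_gt_of_ne hc0 with h3 | h3 <;> rcases lt_or_gt_of_ne hd0 with h4 | h4
        · exact mV (-1) (by omega)
        · exact mV 1 (by omega)
        · exact mV 1 (by omega)
        · exact mV (-1) (by omega)

/-- Induction principle. `Q a b c d` is invariant under right multiplication by powers of `T` and
`V = (1 0; 3 1)`. -/
theorem gam_induction (Q : ℤ → ℤ → ℤ → ℤ → Prop) (h1 : Q 1 0 0 1)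
    (hT : ∀ a b c d n : ℤ, a * d - b * c = 1 → 3 ∣ c → Q a b c d → Q a (b + n * a) c (d + n * c))
    (hV : ∀ a b c d n : ℤ, a * d - b * c = 1 → 3 ∣ c → Q a b c d →
      Q (a + 3 * n * b) b (c + 3 * n * d) d)
    (a b c d : ℤ) (hdet : a * d - b * c = 1) (hc : 3 ∣ c) (ha : 3 ∣ a - 1) : Q a b c d :=
  gam_aux Q h1 hT hV _ a b c d le_rfl hdet hc ha

end Pool.Agent.Lib.SCG
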