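import Pool.Agent.Lib.SCG.ExB
import Pool.Agent.Lib.SCG.GamA

/-!
Act: the action of `Γ_0(3)` on forms.
PLAN. (1) `mob_mob`: composition of Moebius maps is the product matrix; `W (W τ) = τ`.
(2) `T^n`: `f(τ+n) = f τ` from `Ex.T1`. (3) `V^n`, `V^n τ = τ/(3nτ+1)`: `V^n = W T^{-n} W`:
`W τ = -1/(3τ)`, `W τ - n = -(1+3nτ)/(3τ)`, `W` of it `= τ/(1+3nτ)`; so
`f(V^n τ) = ε jW(Wτ - n)^k f(Wτ - n) = ε jW(Wτ-n)^k f(Wτ) = ε² (jW(Wτ - n) jW τ)^k f τ` and
`jW(Wτ-n) jW τ = (-i√3)² (-(1+3nτ)/(3τ)) τ = 1+3nτ`, `ε² = 1`. (4) `gam_induction` with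
`Q a b c d := ∀ τ, f (mob a b c d _ τ) = (cτ+d)^k f τ` (state `Q` with an existential/universal
over the positivity proof of the determinant, e.g. `∀ h : 0 < a*d-b*c, ∀ τ, ...`), cocycle
relation under right multiplication: `mob (M T^n) τ = mob M (τ+n)` etc. This gives `a ≡ 1 mod 3`,
where `χ(d) = 1` (`ad ≡ 1`). (5) if `a ≡ 2 mod 3` apply it to `(-a,-b;-c,-d)`: same Moebius map,
factor `(-1)^k (cτ+d)^k` and `χ(d) = -1`. (`a ≢ 0 mod 3` since `ad ≡ 1`.)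
`chi n = jacobiSym n 3`: `= 0, 1, -1` for `n ≡ 0, 1, 2` (`jacobiSym.mod_left`, `decide`).
-/

namespace Pool.Agent.Lib.SCG

open UpperHalfPlane

lemma mob_mob (a b c d a' b' c' d' : ℤ) (h : 0 < a * d - b * c) (h' : 0 < a' * d' - b' * c')
    (h'' : 0 < (a * a' + b * c') * (c * b' + d * d') - (a * b' + b * d') * (c * a' + d * c'))
    (τ : ℍ) : mob a b c d h (mob a' b' c' d' h' τ)
      = mob (a * a' + b * c') (a * b' + b * d') (c * a' + d * c') (c * b' + d * d') h'' τ := by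
  ext
  rw [coe_mob, coe_mob, coe_mob]
  have h1 := denom_ne a' b' c' d' h' τ
  have h2 := denom_ne _ _ _ _ h'' τ
  have h3 := denom_ne a b c d h (mob a' b' c' d' h' τ)
  rw [coe_mob] at h3
  rw [div_eq_div_iff h3 h2]
  push_cast
  obtain ⟨D, hD⟩ : ∃ D : ℂ, D = (c' : ℂ) * τ + d' := ⟨_, rfl⟩
  rw [← hD] at h1 ⊢
  field_simp
  rw [hD]
  ring

lemma mob_congr {a b c d a' b' c' d' : ℤ} (ha : a = a') (hb : b = b') (hc : c = c') (hd : d = d')
    (h : 0 < a * d - b * c) (h' : 0 < a' * d' - b' * c') (τ : ℍ) :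
    mob a b c d h τ = mob a' b' c' d' h' τ := by subst ha hb hc hd; rfl

lemma W_W (τ : ℍ) : W (W τ) = τ := by
  ext
  have h0 : (τ : ℂ) ≠ 0 := τ.ne_zero
  rw [W, W, coe_mob, coe_mob]
  push_cast
  field_simp
  ring

lemma chi_mod (n : ℤ) : chi n = if n % 3 = 0 then 0 else if n % 3 = 1 then 1 else -1 := by
  have h1 : chi n = jacobiSym (n % 3) 3 := by
    rw [chi, jacobiSym.mod_left]; rfl
  have h2 : n % 3 = 0 ∨ n % 3 = 1 ∨ n % 3 = 2 := by omega
  rw [h1]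
  rcases h2 with h | h | h <;> rw [h] <;> norm_num

lemma chi_mul (m n : ℤ) : chi (m * n) = chi m * chi n := by
  rw [chi, chi, chi, jacobiSym.mul_left]

private lemma f_T {f : ℍ → ℂ} {a : PowerSeries ℂ} (ha : Ex 1 f a) (n : ℤ) (τ : ℍ) :
    f (mob 1 n 0 1 (by norm_num) τ) = f τ := by
  have h1 := ha (mob 1 n 0 1 (by norm_num) τ)
  have h2 : Function.Periodic.qParam ((1 : ℕ) : ℝ) ((mob 1 n 0 1 (by norm_num) τ : ℍ) : ℂ)
      = Function.Periodic.qParam ((1 : ℕ) : ℝ) (τ : ℂ) := by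
    rw [coe_mob, Function.Periodic.qParam, Function.Periodic.qParam]
    have h3 := Complex.exp_periodic.int_mul n
    rw [← h3 (2 * Real.pi * Complex.I * (τ : ℂ) / ((1 : ℕ) : ℝ))]
    congr 1
    push_cast
    ring
  rw [h2] at h1
  exact h1.unique (ha τ)

private lemma f_V {k : ℤ} {ε : ℂ} (hε : ε = 1 ∨ ε = -1) {f : ℍ → ℂ} (hf : Aut k ε f) (n : ℤ)
    (τ : ℍ) (h : 0 < (1 : ℤ) * 1 - 0 * (3 * n)) :
    f (mob 1 0 (3 * n) 1 h τ) = (((3 * n : ℤ) : ℂ) * τ + 1) ^ k * f τ := by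
  obtain ⟨a, ha⟩ := hf.ex
  have h0 : (τ : ℂ) ≠ 0 := τ.ne_zero
  have hden := denom_ne 1 0 (3 * n) 1 h τ
  set σ := mob 1 (-n) 0 1 (by norm_num) (W τ) with hσ
  have h1 : mob 1 0 (3 * n) 1 h τ = W σ := by
    ext
    rw [hσ, W, W, coe_mob, coe_mob, coe_mob, coe_mob]
    push_cast at hden ⊢
    have h3 : (3 * ((1 * ((0 * (τ : ℂ) + -1) / (3 * τ + 0)) + -n) /
        (0 * ((0 * (τ : ℂ) + -1) / (3 * τ + 0)) + 1)) + 0)
        = - ((3 * n * τ + 1) / τ) := by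
      field_simp
      ring
    rw [h3]
    field_simp
    ring
  have h2 : jW σ * jW τ = ((3 * n : ℤ) : ℂ) * τ + 1 := by
    have hs : ((Real.sqrt 3 : ℝ) : ℂ) ^ 2 = 3 := by
      norm_cast
      exact Real.sq_sqrt (by norm_num)
    have hI := Complex.I_sq
    have h4 : (σ : ℂ) = -(1 + 3 * n * τ) / (3 * τ) := by
      rw [hσ, W, coe_mob, coe_mob]
      push_cast
      field_simp
      ring
    have h5 : jW σ * jW τ = Complex.I ^ 2 * ((Real.sqrt 3 : ℝ) : ℂ) ^ 2 * (σ * τ) := by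
      rw [jW, jW]; ring
    rw [h5, hs, hI, h4]
    push_cast
    field_simp
    ring
  have hεε : ε * ε = 1 := by
    rcases hε with h | h <;> rw [h] <;> norm_num
  rw [h1, hf.fr, hσ, f_T ha, ← hσ, hf.fr, ← h2, mul_zpow]
  calc ε * jW σ ^ k * (ε * jW τ ^ k * f τ) = (ε * ε) * (jW σ ^ k * jW τ ^ k * f τ) := by ring
    _ = _ := by rw [hεε]; ring

private lemma act1 {k : ℤ} {ε : ℂ} (hε : ε = 1 ∨ ε = -1) {f : ℍ → ℂ} (hf : Aut k ε f)
    (a b c d : ℤ) (hdet : a * d - b * c = 1) (hc : 3 ∣ c) (ha : 3 ∣ a - 1) :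
    ∀ (h : 0 < a * d - b * c) (τ : ℍ),
      f (mob a b c d h τ) = ((c : ℂ) * τ + d) ^ k * f τ := by
  obtain ⟨A, hA⟩ := hf.ex
  refine gam_induction (fun a b c d => ∀ (h : 0 < a * d - b * c) (τ : ℍ),
      f (mob a b c d h τ) = ((c : ℂ) * τ + d) ^ k * f τ) ?_ ?_ ?_ a b c d hdet hc ha
  · intro h τ
    have h1 : mob 1 0 0 1 h τ = τ := by
      ext
      rw [coe_mob]
      push_cast
      ring
    rw [h1]
    push_cast
    simp
  · intro a b c d n hd _ ih h τ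
    have h0 : 0 < a * d - b * c := by rw [hd]; norm_num
    have h1 : mob a (b + n * a) c (d + n * c) h τ
        = mob a b c d h0 (mob 1 n 0 1 (by norm_num) τ) := by
      rw [mob_mob a b c d 1 n 0 1 h0 (by norm_num) (by
        have : (a * 1 + b * 0) * (c * n + d * 1) - (a * n + b * 1) * (c * 1 + d * 0)
          = a * d - b * c := by ring
        rw [this]; exact h0)]
      exact mob_congr (by ring) (by ring) (by ring) (by ring) _ _ τ
    rw [h1, ih h0, f_T hA, coe_mob]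
    congr 2
    push_cast
    ring
  · intro a b c d n hd _ ih h τ
    have h0 : 0 < a * d - b * c := by rw [hd]; norm_num
    have hV : 0 < (1 : ℤ) * 1 - 0 * (3 * n) := by norm_num
    have h1 : mob (a + 3 * n * b) b (c + 3 * n * d) d h τ
        = mob a b c d h0 (mob 1 0 (3 * n) 1 hV τ) := by
      rw [mob_mob a b c d 1 0 (3 * n) 1 h0 hV (by
        have : (a * 1 + b * (3 * n)) * (c * 0 + d * 1) - (a * 0 + b * 1) * (c * 1 + d * (3 * n))
          = a * d - b * c := by ring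
        rw [this]; exact h0)]
      exact mob_congr (by ring) (by ring) (by ring) (by ring) _ _ τ
    rw [h1, ih h0, f_V hε hf n τ hV, ← mul_assoc, ← mul_zpow, coe_mob]
    congr 2
    have hden := denom_ne 1 0 (3 * n) 1 hV τ
    obtain ⟨D, hD⟩ : ∃ D : ℂ, D = ((3 * n : ℤ) : ℂ) * τ + ((1 : ℤ) : ℂ) := ⟨_, rfl⟩
    have hD' : ((3 * n : ℤ) : ℂ) * τ + 1 = D := by rw [hD]; push_cast; ring
    rw [← hD] at hden ⊢
    rw [hD']
    push_cast
    field_simp
    rw [hD]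
    push_cast
    ring

theorem Aut.act {k : ℤ} {ε : ℂ} (hε : ε = 1 ∨ ε = -1) {f : ℍ → ℂ} (hf : Aut k ε f)
    (a b c d : ℤ) (hdet : a * d - b * c = 1) (hc : 3 ∣ c) (h : 0 < a * d - b * c) (τ : ℍ) :
    f (mob a b c d h τ) = ((chi d : ℤ) : ℂ) ^ k * ((c : ℂ) * τ + d) ^ k * f τ := by
  obtain ⟨c', rfl⟩ := hc
  have hc : (3 : ℤ) ∣ 3 * c' := dvd_mul_right _ _
  have h3 : a % 3 = 0 ∨ a % 3 = 1 ∨ a % 3 = 2 := by omega
  have hmod : (a * d) % 3 = 1 := by
    have : a * d = 1 + 3 * (b * c') := by linarith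
    rw [this]; omega
  have hmod2 : ((a % 3) * (d % 3)) % 3 = 1 := by
    rw [← Int.mul_emod]; exact hmod
  rcases h3 with h3 | h3 | h3
  · rw [h3] at hmod2
    norm_num at hmod2
  · rw [h3] at hmod2
    have hd : d % 3 = 1 := by omega
    have hchi : chi d = 1 := by rw [chi_mod, hd]; norm_num
    rw [act1 hε hf a b (3 * c') d hdet hc (by omega) h τ, hchi]
    simp
  · rw [h3] at hmod2
    have hd : d % 3 = 2 := by omega
    have hchi : chi d = -1 := by rw [chi_mod, hd]; norm_num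
    have hdet' : (-a) * (-d) - (-b) * (-(3 * c')) = 1 := by linarith
    have hpos' : 0 < (-a) * (-d) - (-b) * (-(3 * c')) := by rw [hdet']; norm_num
    have h5 : mob a b (3 * c') d h τ = mob (-a) (-b) (-(3 * c')) (-d) hpos' τ := by
      ext
      rw [coe_mob, coe_mob]
      have hden := denom_ne _ _ _ _ h τ
      have hden' := denom_ne _ _ _ _ hpos' τ
      rw [div_eq_div_iff hden hden']
      push_cast
      ring
    rw [h5, act1 hε hf _ _ _ _ hdet' (by simp) (by omega) hpos' τ, hchi]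
    have h6 : (((-(3 * c') : ℤ) : ℂ) * τ + ((-d : ℤ) : ℂ))
        = (((-1 : ℤ) : ℤ) : ℂ) * (((3 * c' : ℤ) : ℂ) * τ + d) := by push_cast; ring
    rw [h6, mul_zpow]

end Pool.Agent.Lib.SCG
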