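import Pool.Agent.Lib.SCG.KA

/-!
AutA: algebra of `Aut k ε`.
PLAN. The transformation laws multiply (`jW τ ≠ 0`, `zpow_add₀`); expansions by ExA.
-/

namespace Pool.Agent.Lib.SCG

open UpperHalfPlane

lemma jW_ne (τ : ℍ) : jW τ ≠ 0 := by
  unfold jW
  have h3 : ((Real.sqrt 3 : ℝ) : ℂ) ≠ 0 := by
    have : Real.sqrt 3 ≠ 0 := by positivity
    exact_mod_cast this
  exact neg_ne_zero.mpr (mul_ne_zero (mul_ne_zero Complex.I_ne_zero h3) τ.ne_zero)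

lemma Aut.congr {k : ℤ} {ε : ℂ} {f g : ℍ → ℂ} (hf : Aut k ε f) (h : ∀ τ, f τ = g τ) :
    Aut k ε g := by
  obtain ⟨a, ha⟩ := hf.ex
  refine ⟨⟨a, ha.congr h⟩, fun τ => ?_⟩
  rw [← h, ← h]
  exact hf.fr τ

lemma Aut.mul {k k' : ℤ} {ε ε' : ℂ} {f g : ℍ → ℂ} (hf : Aut k ε f) (hg : Aut k' ε' g) :
    Aut (k + k') (ε * ε') (fun τ => f τ * g τ) := by
  obtain ⟨a, ha⟩ := hf.ex
  obtain ⟨b, hb⟩ := hg.ex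
  refine ⟨⟨a * b, ha.mul hb⟩, fun τ => ?_⟩
  show f (W τ) * g (W τ) = _
  rw [hf.fr, hg.fr, zpow_add₀ (jW_ne τ)]
  ring

lemma Aut.pow {k : ℤ} {ε : ℂ} {f : ℍ → ℂ} (hf : Aut k ε f) (n : ℕ) :
    Aut (n * k) (ε ^ n) (fun τ => f τ ^ n) := by
  obtain ⟨a, ha⟩ := hf.ex
  refine ⟨⟨a ^ n, ha.pow n⟩, fun τ => ?_⟩
  show f (W τ) ^ n = ε ^ n * jW τ ^ ((n : ℤ) * k) * f τ ^ n
  rw [hf.fr, mul_pow, mul_pow, mul_comm (n : ℤ) k, zpow_mul, zpow_natCast]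

lemma Aut.add {k : ℤ} {ε : ℂ} {f g : ℍ → ℂ} (hf : Aut k ε f) (hg : Aut k ε g) :
    Aut k ε (fun τ => f τ + g τ) := by
  obtain ⟨a, ha⟩ := hf.ex
  obtain ⟨b, hb⟩ := hg.ex
  refine ⟨⟨a + b, ha.add hb⟩, fun τ => ?_⟩
  show f (W τ) + g (W τ) = _
  rw [hf.fr, hg.fr]
  ring

lemma Aut.sub {k : ℤ} {ε : ℂ} {f g : ℍ → ℂ} (hf : Aut k ε f) (hg : Aut k ε g) :
    Aut k ε (fun τ => f τ - g τ) := by
  obtain ⟨a, ha⟩ := hf.ex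
  obtain ⟨b, hb⟩ := hg.ex
  refine ⟨⟨a - b, ha.sub hb⟩, fun τ => ?_⟩
  show f (W τ) - g (W τ) = _
  rw [hf.fr, hg.fr]
  ring

lemma Aut.smul {k : ℤ} {ε : ℂ} {f : ℍ → ℂ} (c : ℂ) (hf : Aut k ε f) :
    Aut k ε (fun τ => c * f τ) := by
  obtain ⟨a, ha⟩ := hf.ex
  refine ⟨⟨PowerSeries.C c * a, ha.smul c⟩, fun τ => ?_⟩
  show c * f (W τ) = _
  rw [hf.fr]
  ring

end Pool.Agent.Lib.SCG
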