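import Pool.Agent.Lib.SCG.AutA

/-!
AutD: division by `D`.
PLAN. `Aut.divD`: if the constant
coefficient of the expansion `a` of `f` vanishes, `a = toC Ds * b` (`Ds = X * unit`,
`Ds_unit`; so `b` exists in `ℂ⟦X⟧`). The function `g = f / D` is holomorphic (`Ex.mdiff`,
`Df_ne`, `MDifferentiable` of a quotient: use `mdifferentiable_iff` and `DifferentiableOn.div`),
`T1`-periodic, and bounded at `i∞`: `f = q F1(q)`, `D = q u(q)` with `u(0) = 1`, where
`F1 = a/X`, `u = Ds/X`; `Ex.tendsto`-type limits: `q⁻¹ f → coeff 1 a`, `q⁻¹ D → 1`: show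
`Ex 1 (fun τ => f τ / q) (a/X)` (shift of the HasSum, `q ≠ 0`), the same for `D`, so
`g → coeff 1 a` along `atImInfty`, bounded. By `ex_of_mdiff` `g` has an expansion `b'`,
`D g = f` gives `toC Ds * b' = a` (`Ex.unique`). `Aut.divDint`: if `a = toC F` with integral `F`
then `F = Ds * F'` (`Ds = X * unit`, `X ∣ F`) and `b = toC F'` by cancellation in `ℂ⟦X⟧`.
-/

namespace Pool.Agent.Lib.SCG

open UpperHalfPlane
open scoped Manifold

private lemma AutD_shift {f : ℍ → ℂ} {a : PowerSeries ℂ} (hf : Ex 1 f (PowerSeries.X * a)) :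
    Ex 1 (fun τ => f τ / Function.Periodic.qParam ((1 : ℕ) : ℝ) (τ : ℂ)) a := by
  intro τ
  have hq : Function.Periodic.qParam ((1 : ℕ) : ℝ) (τ : ℂ) ≠ 0 := Function.Periodic.qParam_ne_zero _
  have h1 := hf τ
  rw [← hasSum_nat_add_iff' 1] at h1
  have h2 := h1.mul_right (Function.Periodic.qParam ((1 : ℕ) : ℝ) (τ : ℂ))⁻¹
  have h3 : (fun m : ℕ => (PowerSeries.coeff (m + 1) (PowerSeries.X * a)) •
      (Function.Periodic.qParam ((1 : ℕ) : ℝ) (τ : ℂ)) ^ (m + 1) *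
        (Function.Periodic.qParam ((1 : ℕ) : ℝ) (τ : ℂ))⁻¹) = fun m : ℕ => (PowerSeries.coeff m a) •
      (Function.Periodic.qParam ((1 : ℕ) : ℝ) (τ : ℂ)) ^ m := by
    funext m
    rw [PowerSeries.coeff_succ_X_mul, smul_eq_mul, smul_eq_mul, pow_succ]
    field_simp
  rw [h3] at h2
  have h4 : (f τ - ∑ i ∈ Finset.range 1, (PowerSeries.coeff i (PowerSeries.X * a)) •
      (Function.Periodic.qParam ((1 : ℕ) : ℝ) (τ : ℂ)) ^ i) *
        (Function.Periodic.qParam ((1 : ℕ) : ℝ) (τ : ℂ))⁻¹ =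
      f τ / Function.Periodic.qParam ((1 : ℕ) : ℝ) (τ : ℂ) := by
    rw [Finset.sum_range_one]
    simp [div_eq_mul_inv]
  rw [h4] at h2
  exact h2

theorem Aut.divD {k : ℤ} {ε : ℂ} {f : ℍ → ℂ} (hf : Aut k ε f) {a : PowerSeries ℂ}
    (ha : Ex 1 f a) (h0 : PowerSeries.constantCoeff a = 0) :
    ∃ (g : ℍ → ℂ) (b : PowerSeries ℂ), Aut (k - 6) ε g ∧ Ex 1 g b ∧ a = toC Ds * b ∧
      ∀ τ, f τ = Df τ * g τ := by
  obtain ⟨a', rfl⟩ := PowerSeries.X_dvd_iff.mpr h0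
  obtain ⟨u, -, hu1, hu⟩ := Ds_unit
  have hD : Ex 1 Df (PowerSeries.X * toC u) := by
    have h1 : toC Ds = PowerSeries.X * toC u := by
      rw [hu]
      unfold toC
      rw [map_mul, PowerSeries.map_X]
    rw [← h1]
    exact Df_ex
  have hfs := (AutD_shift ha).tendsto one_pos
  have hDs := (AutD_shift hD).tendsto one_pos
  have hcu : PowerSeries.constantCoeff (toC u) = 1 := by
    unfold toC
    rw [← PowerSeries.coeff_zero_eq_constantCoeff_apply, PowerSeries.coeff_map,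
      PowerSeries.coeff_zero_eq_constantCoeff_apply, hu1]
    simp
  rw [hcu] at hDs
  set g : ℍ → ℂ := fun τ => f τ / Df τ with hg
  have hfg : ∀ τ, f τ = Df τ * g τ := by
    intro τ
    have := Df_ne τ
    rw [hg]
    field_simp
  have hlim : Filter.Tendsto g UpperHalfPlane.atImInfty (nhds (PowerSeries.constantCoeff a' / 1)) := by
    refine (hfs.div hDs one_ne_zero).congr fun τ => ?_
    have hq : Function.Periodic.qParam ((1 : ℕ) : ℝ) (τ : ℂ) ≠ 0 := Function.Periodic.qParam_ne_zero _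
    show f τ / _ / (Df τ / _) = f τ / Df τ
    rw [div_div_div_cancel_right₀ hq]
  have hbdd : UpperHalfPlane.IsBoundedAtImInfty g := hlim.isBigO_one ℝ
  have hmd : MDiff g := by
    rw [UpperHalfPlane.mdifferentiable_iff]
    have h1 := UpperHalfPlane.mdifferentiable_iff.mp (ha.mdiff one_pos)
    have h2 := UpperHalfPlane.mdifferentiable_iff.mp (Df_ex.mdiff one_pos)
    exact h1.div h2 fun z _ => Df_ne _
  have hT : ∀ τ, g (T1 τ) = g τ := by
    intro τ
    show f (T1 τ) / Df (T1 τ) = f τ / Df τ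
    rw [ha.T1, Df_ex.T1]
  obtain ⟨b, hb⟩ := ex_of_mdiff hmd hT hbdd
  refine ⟨g, b, ⟨⟨b, hb⟩, fun τ => ?_⟩, hb, ?_, hfg⟩
  · show f (W τ) / Df (W τ) = ε * jW τ ^ (k - 6) * (f τ / Df τ)
    have hj := jW_ne τ
    have hDn := Df_ne τ
    rw [hf.fr, Df_W, zpow_sub₀ hj, show (6 : ℤ) = ((6 : ℕ) : ℤ) by norm_num, zpow_natCast]
    field_simp
  · exact ha.unique one_pos ((Df_ex.mul hb).congr fun τ => (hfg τ).symm)

theorem Aut.divDint {k : ℤ} {ε : ℂ} {f : ℍ → ℂ} (hf : Aut k ε f) {F : PowerSeries ℤ}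
    (hF : Ex 1 f (toC F)) (h0 : PowerSeries.constantCoeff F = 0) :
    ∃ (g : ℍ → ℂ) (F' : PowerSeries ℤ), Aut (k - 6) ε g ∧ Ex 1 g (toC F') ∧ F = Ds * F' ∧
      ∀ τ, f τ = Df τ * g τ := by
  have h1 : PowerSeries.constantCoeff (toC F) = 0 := by
    unfold toC
    rw [← PowerSeries.coeff_zero_eq_constantCoeff_apply, PowerSeries.coeff_map,
      PowerSeries.coeff_zero_eq_constantCoeff_apply, h0]
    simp
  obtain ⟨g, b, hg, hb, hab, hfg⟩ := hf.divD hF h1
  obtain ⟨F1, hF1⟩ := PowerSeries.X_dvd_iff.mpr h0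
  obtain ⟨u, ⟨v, hv⟩, -, hu⟩ := Ds_unit
  have hF' : F = Ds * (F1 * ((v⁻¹ : (PowerSeries ℤ)ˣ) : PowerSeries ℤ)) := by
    rw [hF1, hu, ← hv]
    linear_combination (-PowerSeries.X * F1) * (v.mul_inv)
  have hne : toC Ds ≠ 0 := by
    intro h
    have h2 := congrArg (PowerSeries.coeff 1) h
    unfold toC at h2
    rw [PowerSeries.coeff_map, Ds_one] at h2
    simp at h2
  have hb' : b = toC (F1 * ((v⁻¹ : (PowerSeries ℤ)ˣ) : PowerSeries ℤ)) := by
    apply mul_left_cancel₀ hne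
    rw [← hab]
    conv_lhs => rw [hF']
    unfold toC
    rw [map_mul]
  refine ⟨g, _, hg, ?_, hF', hfg⟩
  rw [← hb']
  exact hb

end Pool.Agent.Lib.SCG
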