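import Pool.Agent.Lib.SCG.Defs

/-!
CongA: from the recursion modulo `m` to the truncated sums.
PLAN. `v n := 108^n * (1/3)_n (1/6)_n / (n!)^2` satisfies `(n+1)^2 v_{n+1} = 6(3n+1)(6n+1) v_n`,
and `binom (-1/3) n * binom (-1/6) n / (-16)^n = v n * (-1/1728)^n` (`C(-a,n) = (-1)^n (a)_n/n!`,
`108/1728 = 1/16`). By induction on `n < p`: `f.coeff n - v n ∈ p^k Z_(p)` where
`m = p^k` (`v n ∈ Z_(p)` for `n < p`; `(n+1)^2` is a unit modulo `p` for `n + 1 < p`). Sum over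
`n < p` against `(-1/1728)^n ∈ Z_(p)` (`p > 3`). The same with `6(3n+2)(6n+5)`,
`v n = 108^n (2/3)_n (5/6)_n/(n!)^2`.
-/

namespace Pool.Agent.Lib.SCG

private def II (p k : ℕ) (a : ℚ) : Prop := ∃ m n : ℤ, ¬ (p : ℤ) ∣ n ∧ a = (p : ℚ) ^ k * m / n

private lemma ne_zero_of_nd {p : ℕ} {n : ℤ} (h : ¬ (p : ℤ) ∣ n) : (n : ℚ) ≠ 0 := by
  intro h0
  have : n = 0 := by exact_mod_cast h0
  exact h (this ▸ dvd_zero _)

private lemma nd_mul {p : ℕ} [hp : Fact p.Prime] {n m : ℤ} (hn : ¬ (p : ℤ) ∣ n) (hm : ¬ (p : ℤ) ∣ m) :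
    ¬ (p : ℤ) ∣ n * m := by
  intro h
  rcases (Nat.prime_iff_prime_int.mp hp.out).dvd_or_dvd h with h | h
  · exact hn h
  · exact hm h

private lemma II_add {p k : ℕ} [Fact p.Prime] {a b : ℚ} (ha : II p k a) (hb : II p k b) : II p k (a + b) := by
  obtain ⟨m, n, hn, rfl⟩ := ha
  obtain ⟨m', n', hn', rfl⟩ := hb
  refine ⟨m * n' + n * m', n * n', nd_mul hn hn', ?_⟩
  have h1 := ne_zero_of_nd hn
  have h2 := ne_zero_of_nd hn'
  push_cast
  field_simp

private lemma II_mul {p k : ℕ} [Fact p.Prime] {a : ℚ} (ha : II p k a) (r s : ℤ) (hs : ¬ (p : ℤ) ∣ s) :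
    II p k ((r : ℚ) / s * a) := by
  obtain ⟨m, n, hn, rfl⟩ := ha
  refine ⟨r * m, s * n, nd_mul hs hn, ?_⟩
  have h1 := ne_zero_of_nd hn
  have h2 := ne_zero_of_nd hs
  push_cast
  field_simp

private lemma II_zero {p k : ℕ} [Fact p.Prime] : II p k 0 := by
  refine ⟨0, 1, ?_, by simp⟩
  intro h
  exact (Nat.prime_iff_prime_int.mp (Fact.out : p.Prime)).not_isUnit (isUnit_of_dvd_one h)

private lemma II_int {p k : ℕ} [Fact p.Prime] {z : ℤ} (h : ((z : ℤ) : ZMod (p ^ k)) = 0) : II p k (z : ℚ) := by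
  have h1 : ((p ^ k : ℕ) : ℤ) ∣ z := (ZMod.intCast_zmod_eq_zero_iff_dvd z (p ^ k)).mp h
  obtain ⟨c, rfl⟩ := h1
  refine ⟨c, 1, ?_, by push_cast; ring⟩
  intro h
  exact (Nat.prime_iff_prime_int.mp (Fact.out : p.Prime)).not_isUnit (isUnit_of_dvd_one h)

private lemma binom_succ (a : ℚ) (n : ℕ) : ((n : ℚ) + 1) * binom a (n + 1) = (a - n) * binom a n := by
  unfold binom
  rw [Finset.prod_range_succ, Nat.factorial_succ]
  have h1 : (n : ℚ) + 1 ≠ 0 := by positivity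
  have h2 : (Nat.factorial n : ℚ) ≠ 0 := by exact_mod_cast Nat.factorial_ne_zero n
  push_cast
  field_simp

private lemma nd_small (p : ℕ) [Fact p.Prime] {n : ℕ} (h : 0 < n) (hn : n < p) : ¬ (p : ℤ) ∣ (n : ℤ) := by
  intro h1
  have h2 : p ∣ n := by exact_mod_cast h1
  exact absurd (Nat.le_of_dvd h h2) (not_le.mpr hn)

private lemma nd_two (p : ℕ) [hp : Fact p.Prime] (h3 : 3 < p) : ¬ (p : ℤ) ∣ 2 := nd_small p (n := 2) (by norm_num) (by omega)

private lemma nd_three (p : ℕ) [hp : Fact p.Prime] (h3 : 3 < p) : ¬ (p : ℤ) ∣ 3 := nd_small p (n := 3) (by norm_num) h3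

private lemma nd_1728 (p : ℕ) [hp : Fact p.Prime] (h3 : 3 < p) : ¬ (p : ℤ) ∣ 1728 := by
  have h2 := nd_two p h3
  have h3' := nd_three p h3
  have h : (1728 : ℤ) = 2 * (2 * (2 * (2 * (2 * (2 * (3 * (3 * 3))))))) := by norm_num
  rw [h]
  exact nd_mul h2 (nd_mul h2 (nd_mul h2 (nd_mul h2 (nd_mul h2 (nd_mul h2 (nd_mul h3' (nd_mul h3' h3')))))))

private lemma nd_pow {p : ℕ} [hp : Fact p.Prime] {n : ℤ} (hn : ¬ (p : ℤ) ∣ n) (j : ℕ) : ¬ (p : ℤ) ∣ n ^ j := by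
  intro h
  exact hn ((Nat.prime_iff_prime_int.mp hp.out).dvd_of_dvd_pow h)

private theorem sum_gen (p : ℕ) [Fact p.Prime] (h3 : 3 < p) (k : ℕ) (f : Polynomial ℤ) (r s : ℤ)
    (hdeg : f.natDegree < p) (h0 : ((f.coeff 0 : ℤ) : ZMod (p ^ k)) = 1)
    (hrec : ∀ n : ℕ, ((n : ZMod (p ^ k)) + 1) ^ 2 * ((f.coeff (n + 1) : ℤ) : ZMod (p ^ k))
      = 6 * (3 * n + (r : ZMod (p ^ k))) * (6 * n + (s : ZMod (p ^ k))) * ((f.coeff n : ℤ) : ZMod (p ^ k))) :
    Cong p k (∑ n ∈ Finset.range p, binom (-(r : ℚ) / 3) n * binom (-(s : ℚ) / 6) n / (-16) ^ n) (evq f) := by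
  have hev : evq f = ∑ n ∈ Finset.range p, (f.coeff n : ℚ) * (-1 / 1728) ^ n := by
    unfold evq
    rw [Polynomial.coe_eval₂RingHom, Polynomial.eval₂_eq_sum_range' _ hdeg]
    rfl
  set w : ℕ → ℚ := fun n => binom (-(r : ℚ) / 3) n * binom (-(s : ℚ) / 6) n / (-16) ^ n with hw
  set c : ℕ → ℚ := fun n => (f.coeff n : ℚ) * (-1 / 1728) ^ n with hc
  have hwrec : ∀ n : ℕ, ((n : ℚ) + 1) ^ 2 * w (n + 1) = -((3 * n + r) * (6 * n + s)) / 288 * w n := by
    intro n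
    have h1 := binom_succ (-(r : ℚ) / 3) n
    have h2 := binom_succ (-(s : ℚ) / 6) n
    simp only [hw]
    calc ((n : ℚ) + 1) ^ 2 * (binom (-(r : ℚ) / 3) (n + 1) * binom (-(s : ℚ) / 6) (n + 1) / (-16) ^ (n + 1))
        = (((n : ℚ) + 1) * binom (-(r : ℚ) / 3) (n + 1)) * (((n : ℚ) + 1) * binom (-(s : ℚ) / 6) (n + 1)) /
          (-16) ^ (n + 1) := by ring
      _ = _ := by
        rw [h1, h2, pow_succ]
        have h4 : ((-16 : ℚ)) ^ n ≠ 0 := pow_ne_zero _ (by norm_num)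
        field_simp
        ring
  have hd : ∀ n : ℕ, n < p → II p k (w n - c n) := by
    intro n
    induction n with
    | zero =>
      intro _
      have h1 : w 0 - c 0 = ((1 - f.coeff 0 : ℤ) : ℚ) := by
        simp only [hw, hc, binom]
        simp
      rw [h1]
      apply II_int
      push_cast
      rw [h0, sub_self]
    | succ n ih =>
      intro hn
      have h1 := ih (by omega)
      have h2 : II p k (((((n : ℤ) + 1) ^ 2 * f.coeff (n + 1) - 6 * (3 * n + r) * (6 * n + s) * f.coeff n : ℤ)) : ℚ) := by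
        apply II_int
        push_cast
        rw [hrec n, sub_self]
      have hn1 : ¬ (p : ℤ) ∣ ((n + 1 : ℕ) : ℤ) := nd_small p (by omega) hn
      have h1728 := nd_1728 p h3
      have h288 : ¬ (p : ℤ) ∣ 288 := by
        intro h
        exact h1728 (dvd_trans h ⟨6, by norm_num⟩)
      -- (n+1)^2 * d_{n+1}
      have h4 : w (n + 1) - c (n + 1) =
          ((-((3 * n + r) * (6 * n + s)) : ℤ) : ℚ) / ((288 * ((n + 1 : ℕ) : ℤ) ^ 2 : ℤ) : ℚ) * (w n - c n) +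
          ((-((-1) ^ (n + 1)) : ℤ) : ℚ) / (((1728 : ℤ) ^ (n + 1) * ((n + 1 : ℕ) : ℤ) ^ 2 : ℤ) : ℚ) *
            (((((n : ℤ) + 1) ^ 2 * f.coeff (n + 1) - 6 * (3 * n + r) * (6 * n + s) * f.coeff n : ℤ)) : ℚ) := by
        have h5 : (n : ℚ) + 1 ≠ 0 := by positivity
        have h6 : w (n + 1) = -((3 * n + r) * (6 * n + s)) / (288 * ((n : ℚ) + 1) ^ 2) * w n := by
          have h7 := hwrec n
          field_simp
          field_simp at h7
          linear_combination h7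
        rw [h6]
        simp only [hc]
        push_cast
        have h8 : ((-1 : ℚ) / 1728) ^ (n + 1) = (-1) ^ (n + 1) / 1728 ^ (n + 1) := by rw [div_pow]
        have h9 : ((-1 : ℚ) / 1728) ^ n = (-1) ^ n / 1728 ^ n := by rw [div_pow]
        rw [h8, h9]
        have h10 : ((1728 : ℚ)) ^ n ≠ 0 := pow_ne_zero _ (by norm_num)
        rw [pow_succ (1728 : ℚ) n, pow_succ (-1 : ℚ) n]
        field_simp
        ring
      rw [h4]
      refine II_add (II_mul h1 _ _ (nd_mul h288 (nd_pow hn1 2))) (II_mul h2 _ _ (nd_mul (nd_pow h1728 _) (nd_pow hn1 2)))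
  have hsum : II p k (∑ n ∈ Finset.range p, (w n - c n)) := by
    have : ∀ m ≤ p, II p k (∑ n ∈ Finset.range m, (w n - c n)) := by
      intro m
      induction m with
      | zero => intro _; simpa using II_zero
      | succ m ih =>
        intro hm
        rw [Finset.sum_range_succ]
        exact II_add (ih (by omega)) (hd m (by omega))
    exact this p le_rfl
  rw [Finset.sum_sub_distrib, ← hev] at hsum
  exact hsum

theorem sum1 (p : ℕ) [Fact p.Prime] (h3 : 3 < p) (k : ℕ) (f : Polynomial ℤ)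
    (hdeg : f.natDegree < p) (h0 : ((f.coeff 0 : ℤ) : ZMod (p ^ k)) = 1)
    (hrec : ∀ n : ℕ, ((n : ZMod (p ^ k)) + 1) ^ 2 * ((f.coeff (n + 1) : ℤ) : ZMod (p ^ k))
      = 6 * (3 * n + 1) * (6 * n + 1) * ((f.coeff n : ℤ) : ZMod (p ^ k))) :
    Cong p k (S1 p) (evq f) := by
  have h := sum_gen p h3 k f 1 1 hdeg h0 (fun n => by rw [hrec n]; push_cast; ring)
  simp only [Int.cast_one] at h
  exact h

theorem sum2 (p : ℕ) [Fact p.Prime] (h3 : 3 < p) (k : ℕ) (f : Polynomial ℤ)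
    (hdeg : f.natDegree < p) (h0 : ((f.coeff 0 : ℤ) : ZMod (p ^ k)) = 1)
    (hrec : ∀ n : ℕ, ((n : ZMod (p ^ k)) + 1) ^ 2 * ((f.coeff (n + 1) : ℤ) : ZMod (p ^ k))
      = 6 * (3 * n + 2) * (6 * n + 5) * ((f.coeff n : ℤ) : ZMod (p ^ k))) :
    Cong p k (S2 p) (evq f) := by
  have h := sum_gen p h3 k f 2 5 hdeg h0 (fun n => by rw [hrec n]; push_cast; ring)
  simp only [Int.cast_ofNat] at h
  exact h

end Pool.Agent.Lib.SCG
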