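import Pool.Agent.Lib.SCG.Defs

/-!
Hom: algebra of `hom` and `sgh`.
PLAN. `hom_eval`: if `6 deg P ≤ k` then `hom k P g δ = g^k P(δ/g^6)`: with `y g^6 = δ`,
`δ^j g^{k-6j} = y^j g^k`. The others: direct, or (`hom_mul`) by comparing coefficients:
`(∑ p_i δ^i g^{k-6i})(∑ q_j δ^j g^{k'-6j}) = ∑_m (∑_{i+j=m} p_i q_j) δ^m g^{k+k'-6m}` using
`6i ≤ k`, `6j ≤ k'`. A clean way: prove all identities first in the universal ring (fraction field
or `A[g, g⁻¹]`) or use `Finset.sum` over the support: `hom k P g δ = ∑ j ∈ range (natDegree P + 1)`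
when `6 natDegree P ≤ k` (terms beyond the degree vanish).
-/

namespace Pool.Agent.Lib.SCG

lemma hom_eval {A : Type*} [CommRing A] (k : ℕ) (P : Polynomial ℤ) (hP : 6 * P.natDegree ≤ k)
    (g δ y : A) (hy : y * g ^ 6 = δ) :
    hom k P g δ = g ^ k * Polynomial.eval₂ (Int.castRingHom A) y P := by
  have h1 : P.natDegree < k / 6 + 1 := by omega
  rw [Polynomial.eval₂_eq_sum_range' _ h1, hom, Finset.mul_sum]
  refine Finset.sum_congr rfl fun j hj => ?_
  have h2 : 6 * j ≤ k := by
    have := Finset.mem_range.mp hj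
    omega
  have h3 : g ^ k = g ^ (6 * j) * g ^ (k - 6 * j) := by rw [← pow_add]; congr 1; omega
  rw [h3, ← hy, mul_pow, ← pow_mul, eq_intCast]
  ring

lemma hom_map {A B : Type*} [CommRing A] [CommRing B] (φ : A →+* B) (k : ℕ) (P : Polynomial ℤ)
    (g δ : A) : φ (hom k P g δ) = hom k P (φ g) (φ δ) := by
  unfold hom
  rw [map_sum]
  refine Finset.sum_congr rfl fun j _ => ?_
  rw [map_mul, map_mul, map_pow, map_pow, map_intCast]

lemma sgh_map {A B : Type*} [CommRing A] [CommRing B] (φ : A →+* B) (ε : ℤ) (k : ℕ)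
    (P : Polynomial ℤ) (g δ κ : A) :
    φ (sgh ε k P g δ κ) = sgh ε k P (φ g) (φ δ) (φ κ) := by
  unfold sgh
  split_ifs
  · rw [hom_map]
  · rw [map_mul, hom_map]

lemma hom_add {A : Type*} [CommRing A] (k : ℕ) (P Q : Polynomial ℤ) (g δ : A) :
    hom k (P + Q) g δ = hom k P g δ + hom k Q g δ := by
  unfold hom
  rw [← Finset.sum_add_distrib]
  refine Finset.sum_congr rfl fun j _ => ?_
  rw [Polynomial.coeff_add]
  push_cast
  ring

lemma hom_sub {A : Type*} [CommRing A] (k : ℕ) (P Q : Polynomial ℤ) (g δ : A) :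
    hom k (P - Q) g δ = hom k P g δ - hom k Q g δ := by
  unfold hom
  rw [← Finset.sum_sub_distrib]
  refine Finset.sum_congr rfl fun j _ => ?_
  rw [Polynomial.coeff_sub]
  push_cast
  ring

lemma hom_C_mul {A : Type*} [CommRing A] (k : ℕ) (n : ℤ) (P : Polynomial ℤ) (g δ : A) :
    hom k (Polynomial.C n * P) g δ = (n : A) * hom k P g δ := by
  unfold hom
  rw [Finset.mul_sum]
  refine Finset.sum_congr rfl fun j _ => ?_
  rw [Polynomial.coeff_C_mul]
  push_cast
  ring

private lemma hom_monomial {A : Type*} [CommRing A] (k i : ℕ) (hi : 6 * i ≤ k) (a : ℤ) (g δ : A) :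
    hom k (Polynomial.monomial i a) g δ = (a : A) * δ ^ i * g ^ (k - 6 * i) := by
  unfold hom
  rw [Finset.sum_eq_single i]
  · rw [Polynomial.coeff_monomial_same]
  · intro j _ hj
    rw [Polynomial.coeff_monomial_of_ne _ hj, Int.cast_zero, zero_mul, zero_mul]
  · intro h
    exfalso
    apply h
    rw [Finset.mem_range]
    omega

private lemma hom_zero {A : Type*} [CommRing A] (k : ℕ) (g δ : A) : hom k 0 g δ = 0 := by
  unfold hom
  refine Finset.sum_eq_zero fun j _ => ?_
  rw [Polynomial.coeff_zero, Int.cast_zero, zero_mul, zero_mul]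

private lemma hom_sum {A : Type*} [CommRing A] {ι : Type*} (s : Finset ι) (k : ℕ) (P : ι → Polynomial ℤ) (g δ : A) :
    hom k (∑ i ∈ s, P i) g δ = ∑ i ∈ s, hom k (P i) g δ := by
  classical
  induction s using Finset.induction_on with
  | empty => rw [Finset.sum_empty, Finset.sum_empty, hom_zero]
  | insert a s ha ih => rw [Finset.sum_insert ha, Finset.sum_insert ha, hom_add, ih]

lemma hom_one {A : Type*} [CommRing A] (k : ℕ) (g δ : A) : hom k 1 g δ = g ^ k := by
  have h := hom_monomial k 0 (by omega) 1 g δ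
  rw [Polynomial.monomial_zero_one] at h
  rw [h]
  simp

lemma hom_mul {A : Type*} [CommRing A] (k k' : ℕ) (P Q : Polynomial ℤ)
    (hP : 6 * P.natDegree ≤ k) (hQ : 6 * Q.natDegree ≤ k') (g δ : A) :
    hom (k + k') (P * Q) g δ = hom k P g δ * hom k' Q g δ := by
  have h1 : P.natDegree < k / 6 + 1 := by omega
  have h2 : Q.natDegree < k' / 6 + 1 := by omega
  have h3 : P * Q = ∑ i ∈ Finset.range (k / 6 + 1), ∑ j ∈ Finset.range (k' / 6 + 1),
      Polynomial.monomial (i + j) (P.coeff i * Q.coeff j) := by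
    conv_lhs => rw [P.as_sum_range' _ h1, Q.as_sum_range' _ h2]
    rw [Finset.sum_mul_sum]
    refine Finset.sum_congr rfl fun i _ => Finset.sum_congr rfl fun j _ => ?_
    rw [Polynomial.monomial_mul_monomial]
  rw [h3, hom_sum]
  rw [hom, hom, Finset.sum_mul_sum]
  refine Finset.sum_congr rfl fun i hi => ?_
  rw [hom_sum]
  refine Finset.sum_congr rfl fun j hj => ?_
  have hi' : 6 * i ≤ k := by
    have := Finset.mem_range.mp hi
    omega
  have hj' : 6 * j ≤ k' := by
    have := Finset.mem_range.mp hj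
    omega
  rw [hom_monomial _ _ (by omega)]
  have h4 : g ^ (k + k' - 6 * (i + j)) = g ^ (k - 6 * i) * g ^ (k' - 6 * j) := by
    rw [← pow_add]; congr 1; omega
  rw [h4, pow_add]
  push_cast
  ring

lemma sgh_sub {A : Type*} [CommRing A] (ε : ℤ) (k : ℕ) (P Q : Polynomial ℤ) (g δ κ : A) :
    sgh ε k (P - Q) g δ κ = sgh ε k P g δ κ - sgh ε k Q g δ κ := by
  unfold sgh
  split_ifs
  · rw [hom_sub]
  · rw [hom_sub, mul_sub]

lemma sgh_C_mul {A : Type*} [CommRing A] (ε : ℤ) (k : ℕ) (n : ℤ) (P : Polynomial ℤ)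
    (g δ κ : A) : sgh ε k (Polynomial.C n * P) g δ κ = (n : A) * sgh ε k P g δ κ := by
  unfold sgh
  split_ifs
  · rw [hom_C_mul]
  · rw [hom_C_mul]
    ring

lemma degOK_of_C_mul (ε : ℤ) (k : ℕ) (n : ℤ) (hn : n ≠ 0) (P : Polynomial ℤ)
    (h : DegOK ε k (Polynomial.C n * P)) : DegOK ε k P := by
  unfold DegOK at *
  rw [Polynomial.natDegree_C_mul hn] at h
  split_ifs with hε
  · rw [if_pos hε] at h
    exact h
  · rw [if_neg hε] at h
    rcases h with h | h
    · left
      rcases mul_eq_zero.mp h with h | h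
      · exact absurd (Polynomial.C_eq_zero.mp h) hn
      · exact h
    · right
      exact h

end Pool.Agent.Lib.SCG
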