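import Pool.Agent.Lib.SCG.Rel
import Pool.Agent.Lib.SCG.AutD

/-!
Struct: the structure theorem with integral coefficients.
PLAN. `ε = 1`: strong induction on `k`: `F - C(F_0) Gs^k` has zero constant coefficient, so
(`Aut.divDint`) `f - F_0 G^k = D g`, `g ∈ Aut (k-6) 1` with integral expansion; if `k < 6`,
`g = 0` by `rigid_neg`; otherwise the induction hypothesis gives `P'` for `g` and
`P = C F_0 + X P'` (`hom (k) P = F_0 g^k + δ hom (k-6) P'`). `ε = -1`: for `k ≥ 3` the same with
`F_0 K G^{k-3}` (`autK`, `autG.pow`); for `k < 3` one shows `f = 0`: `f K ∈ Aut (k+3) 1` with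
`k + 3 < 6`, so by the case `ε = 1` (degree 0) `f K = c G^{k+3}`; at `τ = i/√3` (`W τ = τ`,
`jW τ = 1`) `Kf_W` gives `K = 0`, and `Kf_sq`, `Df_ne` give `G ≠ 0`, so `c = 0`, `f K = 0`, and
`F * Ks = 0` in the domain `ℤ⟦X⟧` with `Ks ≠ 0`.
-/

namespace Pool.Agent.Lib.SCG

open UpperHalfPlane

private lemma hom_const {A : Type*} [CommRing A] (k : ℕ) (c : ℤ) (g δ : A) :
    hom k (Polynomial.C c) g δ = (c : A) * g ^ k := by
  unfold hom
  rw [Finset.sum_eq_single 0]
  · simp
  · intro j _ hj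
    rw [Polynomial.coeff_C, if_neg hj]
    simp
  · intro h
    exact absurd (Finset.mem_range.mpr (Nat.succ_pos _)) h

private lemma hom_zero' {A : Type*} [CommRing A] (k : ℕ) (g δ : A) : hom k 0 g δ = 0 := by
  unfold hom
  simp

private lemma hom_step {A : Type*} [CommRing A] (k : ℕ) (hk : 6 ≤ k) (c : ℤ)
    (P : Polynomial ℤ) (g δ : A) :
    hom k (Polynomial.C c + Polynomial.X * P) g δ = (c : A) * g ^ k + δ * hom (k - 6) P g δ := by
  unfold hom
  have h1 : k / 6 = (k - 6) / 6 + 1 := by omega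
  rw [Finset.sum_range_succ', h1, add_comm, Finset.mul_sum]
  congr 1
  · simp
  · refine Finset.sum_congr rfl fun j _ => ?_
    have h2 : (Polynomial.C c + Polynomial.X * P).coeff (j + 1) = P.coeff j := by
      rw [Polynomial.coeff_add, Polynomial.coeff_X_mul, Polynomial.coeff_C,
        if_neg (Nat.succ_ne_zero j), zero_add]
    have h3 : k - 6 * (j + 1) = k - 6 - 6 * j := by omega
    rw [h2, h3]
    ring

private lemma natDegree_step (c : ℤ) (P : Polynomial ℤ) :
    (Polynomial.C c + Polynomial.X * P).natDegree ≤ P.natDegree + 1 := by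
  refine (Polynomial.natDegree_add_le _ _).trans (max_le ?_ ?_)
  · rw [Polynomial.natDegree_C]
    omega
  · refine Polynomial.natDegree_mul_le.trans ?_
    rw [Polynomial.natDegree_X]
    omega

private lemma ex_zero {f : ℍ → ℂ} (hf : Ex 1 f (toC 0)) (τ : ℍ) : f τ = 0 := by
  have h1 := hf τ
  simp only [toC, map_zero, zero_smul] at h1
  exact h1.unique hasSum_zero

private lemma eq_zero_of_fun {f : ℍ → ℂ} {F : PowerSeries ℤ} (hF : Ex 1 f (toC F))
    (h : ∀ τ, f τ = 0) : F = 0 := by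
  apply toC_inj
  have h1 : Ex 1 f (toC 0) := by
    have h2 := Ex.const 1 0
    have h3 : (PowerSeries.C (0 : ℂ) : PowerSeries ℂ) = toC 0 := by simp [toC]
    rw [h3] at h2
    exact h2.congr fun τ => (h τ).symm
  exact hF.unique one_pos h1

private lemma castC (c : ℤ) : ((c : ℤ) : PowerSeries ℤ) = PowerSeries.C c := by
  rw [← map_intCast (PowerSeries.C (R := ℤ)) c, Int.cast_id]

private lemma struct_pos (k : ℕ) : ∀ (f : ℍ → ℂ) (F : PowerSeries ℤ), Aut k 1 f →
    Ex 1 f (toC F) → ∃ P : Polynomial ℤ, 6 * P.natDegree ≤ k ∧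
      (∀ τ, f τ = hom k P (Gf τ) (Df τ)) ∧ F = hom k P Gs Ds := by
  induction k using Nat.strong_induction_on with
  | _ k ih =>
    intro f F hf hF
    set c := PowerSeries.constantCoeff F with hc
    have hG : Aut k 1 (fun τ => Gf τ ^ k) := by
      have h1 := autG.pow k
      rw [one_pow, mul_one] at h1
      exact h1
    have h1 : Aut k 1 (fun τ => f τ - (c : ℂ) * Gf τ ^ k) := hf.sub (hG.smul (c : ℂ))
    have h2 : Ex 1 (fun τ => f τ - (c : ℂ) * Gf τ ^ k)
        (toC (F - PowerSeries.C c * Gs ^ k)) := by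
      have h3 := hF.sub (Ex.smul (c : ℂ) (Gf_ex.pow k))
      have h4 : toC (F - PowerSeries.C c * Gs ^ k) =
          toC F - PowerSeries.C (c : ℂ) * toC Gs ^ k := by
        simp [toC]
      rw [h4]
      exact h3
    have h0 : PowerSeries.constantCoeff (F - PowerSeries.C c * Gs ^ k) = 0 := by
      rw [map_sub, map_mul, map_pow, Gs_zero, PowerSeries.constantCoeff_C, one_pow, mul_one,
        ← hc, sub_self]
    obtain ⟨g, F', hg, hF', hFF, hfg⟩ := h1.divDint h2 h0
    by_cases hk : k < 6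
    · have hg0 : ∀ τ, g τ = 0 := rigid_neg (Or.inl rfl) hg (by omega)
      have hF0 : F' = 0 := eq_zero_of_fun hF' hg0
      refine ⟨Polynomial.C c, by simp, fun τ => ?_, ?_⟩
      · rw [hom_const]
        have h3 := hfg τ
        rw [hg0, mul_zero, sub_eq_zero] at h3
        exact h3
      · rw [hom_const]
        rw [hF0, mul_zero, sub_eq_zero] at hFF
        rw [hFF, castC]
    · push Not at hk
      have hcast : ((k - 6 : ℕ) : ℤ) = (k : ℤ) - 6 := by omega
      rw [← hcast] at hg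
      obtain ⟨P, hP, hgP, hFP⟩ := ih (k - 6) (by omega) g F' hg hF'
      refine ⟨Polynomial.C c + Polynomial.X * P, ?_, fun τ => ?_, ?_⟩
      · have := natDegree_step c P
        omega
      · rw [hom_step k hk, ← hgP τ, ← hfg τ]
        ring
      · rw [hom_step k hk, ← hFP, ← hFF]
        have h3 : ((c : ℤ) : PowerSeries ℤ) = PowerSeries.C c := castC c
        rw [h3]
        ring

private noncomputable def tS : ℍ :=
  ⟨((1 / Real.sqrt 3 : ℝ) : ℂ) * Complex.I, by
    have : (0 : ℝ) < 1 / Real.sqrt 3 := by positivity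
    simp⟩

private lemma coe_tS : ((tS : ℍ) : ℂ) = ((1 / Real.sqrt 3 : ℝ) : ℂ) * Complex.I := rfl

private lemma sqrt3 : ((Real.sqrt 3 : ℝ) : ℂ) * ((1 / Real.sqrt 3 : ℝ) : ℂ) = 1 := by
  rw [← Complex.ofReal_mul, mul_one_div_cancel (by positivity), Complex.ofReal_one]

private lemma sqrt3' : (3 : ℂ) * ((1 / Real.sqrt 3 : ℝ) : ℂ) ^ 2 = 1 := by
  have h : (3 : ℝ) * (1 / Real.sqrt 3) ^ 2 = 1 := by
    rw [div_pow, Real.sq_sqrt (by norm_num)]
    norm_num
  exact_mod_cast h

private lemma W_tS : W tS = tS := by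
  apply UpperHalfPlane.ext
  unfold W
  rw [coe_mob, coe_tS]
  push_cast
  have h1 := sqrt3'
  push_cast at h1
  have hI : Complex.I ^ 2 = -1 := Complex.I_sq
  have hne : (1 / ((Real.sqrt 3 : ℝ) : ℂ)) ≠ 0 := by
    intro h0
    rw [h0] at h1
    norm_num at h1
  rw [div_eq_iff]
  · linear_combination (-Complex.I ^ 2) * h1 + (-1) * hI
  · have : (3 : ℂ) * (1 / ((Real.sqrt 3 : ℝ) : ℂ) * Complex.I) + 0 ≠ 0 := by
      rw [add_zero]
      exact mul_ne_zero (by norm_num) (mul_ne_zero hne Complex.I_ne_zero)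
    exact this

private lemma jW_tS : jW tS = 1 := by
  unfold jW
  rw [coe_tS]
  have h1 := sqrt3
  have hI : Complex.I ^ 2 = -1 := Complex.I_sq
  linear_combination (-Complex.I ^ 2) * h1 - hI

private lemma Gf_tS : Gf tS ≠ 0 := by
  have h1 := Kf_W tS
  rw [W_tS, jW_tS] at h1
  have hK : Kf tS = 0 := by
    have h2 : (2 : ℂ) * Kf tS = 0 := by linear_combination h1
    exact (mul_eq_zero.mp h2).resolve_left two_ne_zero
  have h3 := Kf_sq tS
  rw [hK] at h3
  intro hG
  rw [hG] at h3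
  have h4 : (108 : ℂ) * Df tS = 0 := by linear_combination h3
  rcases mul_eq_zero.mp h4 with h5 | h5
  · norm_num at h5
  · exact Df_ne tS h5

private lemma Kf_tS : Kf tS = 0 := by
  have h1 := Kf_W tS
  rw [W_tS, jW_tS] at h1
  have h2 : (2 : ℂ) * Kf tS = 0 := by linear_combination h1
  exact (mul_eq_zero.mp h2).resolve_left two_ne_zero

private lemma struct_small {k : ℕ} (hk : k < 3) {f : ℍ → ℂ} {F : PowerSeries ℤ}
    (hf : Aut k (-1) f) (hF : Ex 1 f (toC F)) : F = 0 := by
  have h1 : Aut ((k + 3 : ℕ) : ℤ) 1 (fun τ => f τ * Kf τ) := by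
    have h2 := hf.mul autK
    have h3 : (-1 : ℂ) * -1 = 1 := by norm_num
    rw [h3] at h2
    have h4 : ((k + 3 : ℕ) : ℤ) = (k : ℤ) + 3 := by push_cast; ring
    rw [h4]
    exact h2
  have h5 : Ex 1 (fun τ => f τ * Kf τ) (toC (F * Ks)) := by
    have h6 := hF.mul Kf_ex
    have h7 : toC (F * Ks) = toC F * toC Ks := by simp [toC]
    rw [h7]
    exact h6
  obtain ⟨P, hP, hP1, hP2⟩ := struct_pos (k + 3) _ _ h1 h5
  have hdeg : P.natDegree = 0 := by omega
  obtain ⟨c, rfl⟩ : ∃ c, P = Polynomial.C c := ⟨_, Polynomial.eq_C_of_natDegree_eq_zero hdeg⟩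
  have h8 := hP1 tS
  rw [hom_const, Kf_tS, mul_zero] at h8
  have hc : c = 0 := by
    rcases mul_eq_zero.mp h8.symm with h9 | h9
    · exact_mod_cast h9
    · exact absurd (pow_eq_zero_iff (by omega) |>.mp h9) Gf_tS
  rw [hom_const, hc] at hP2
  simp only [Int.cast_zero, zero_mul] at hP2
  rcases mul_eq_zero.mp hP2 with h10 | h10
  · exact h10
  · have h11 := Ks_zero
    rw [h10] at h11
    simp at h11

private lemma struct_neg (k : ℕ) : ∀ (f : ℍ → ℂ) (F : PowerSeries ℤ), Aut k (-1) f →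
    Ex 1 f (toC F) → ∃ P : Polynomial ℤ, (P = 0 ∨ 6 * P.natDegree + 3 ≤ k) ∧
      (∀ τ, f τ = Kf τ * hom (k - 3) P (Gf τ) (Df τ)) ∧ F = Ks * hom (k - 3) P Gs Ds := by
  induction k using Nat.strong_induction_on with
  | _ k ih =>
    intro f F hf hF
    by_cases hk3 : k < 3
    · have h0 := struct_small hk3 hf hF
      subst h0
      refine ⟨0, Or.inl rfl, fun τ => ?_, ?_⟩
      · rw [hom_zero', mul_zero]
        exact ex_zero hF τ
      · rw [hom_zero', mul_zero]
    push Not at hk3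
    set c := PowerSeries.constantCoeff F with hc
    have hG : Aut k (-1) (fun τ => Kf τ * Gf τ ^ (k - 3)) := by
      have h1 := autK.mul (autG.pow (k - 3))
      rw [one_pow, mul_one, mul_one] at h1
      have h2 : (3 : ℤ) + ((k - 3 : ℕ) : ℤ) = (k : ℤ) := by omega
      rw [h2] at h1
      exact h1
    have h1 : Aut k (-1) (fun τ => f τ - (c : ℂ) * (Kf τ * Gf τ ^ (k - 3))) :=
      hf.sub (hG.smul (c : ℂ))
    have h2 : Ex 1 (fun τ => f τ - (c : ℂ) * (Kf τ * Gf τ ^ (k - 3)))
        (toC (F - PowerSeries.C c * (Ks * Gs ^ (k - 3)))) := by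
      have h3 := hF.sub (Ex.smul (c : ℂ) (Kf_ex.mul (Gf_ex.pow (k - 3))))
      have h4 : toC (F - PowerSeries.C c * (Ks * Gs ^ (k - 3))) =
          toC F - PowerSeries.C (c : ℂ) * (toC Ks * toC Gs ^ (k - 3)) := by
        simp [toC]
      rw [h4]
      exact h3
    have h0 : PowerSeries.constantCoeff (F - PowerSeries.C c * (Ks * Gs ^ (k - 3))) = 0 := by
      rw [map_sub, map_mul, map_mul, map_pow, Gs_zero, Ks_zero, PowerSeries.constantCoeff_C,
        one_pow, mul_one, mul_one, ← hc, sub_self]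
    obtain ⟨g, F', hg, hF', hFF, hfg⟩ := h1.divDint h2 h0
    have h3 : ((c : ℤ) : PowerSeries ℤ) = PowerSeries.C c := castC c
    by_cases hk : k < 6
    · have hg0 : ∀ τ, g τ = 0 := rigid_neg (Or.inr rfl) hg (by omega)
      have hF0 : F' = 0 := eq_zero_of_fun hF' hg0
      refine ⟨Polynomial.C c, Or.inr (by simp; omega), fun τ => ?_, ?_⟩
      · rw [hom_const]
        have h4 := hfg τ
        rw [hg0, mul_zero] at h4
        linear_combination h4
      · rw [hom_const, h3]
        rw [hF0, mul_zero] at hFF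
        linear_combination hFF
    · push Not at hk
      have hcast : ((k - 6 : ℕ) : ℤ) = (k : ℤ) - 6 := by omega
      rw [← hcast] at hg
      obtain ⟨P, hP, hgP, hFP⟩ := ih (k - 6) (by omega) g F' hg hF'
      rcases hP with rfl | hP
      · refine ⟨Polynomial.C c, Or.inr (by simp; omega), fun τ => ?_, ?_⟩
        · rw [hom_const]
          have h4 := hfg τ
          rw [hgP τ, hom_zero', mul_zero, mul_zero] at h4
          linear_combination h4
        · rw [hom_const, h3]
          rw [hFP, hom_zero', mul_zero, mul_zero] at hFF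
          linear_combination hFF
      · have hk6 : 6 ≤ k - 3 := by omega
        have hkk : k - 3 - 6 = k - 6 - 3 := by omega
        refine ⟨Polynomial.C c + Polynomial.X * P, Or.inr ?_, fun τ => ?_, ?_⟩
        · have := natDegree_step c P
          omega
        · rw [hom_step (k - 3) hk6, hkk]
          have h4 := hfg τ
          rw [hgP τ] at h4
          linear_combination h4
        · rw [hom_step (k - 3) hk6, hkk, h3]
          rw [hFP] at hFF
          linear_combination hFF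

theorem struct_int (ε : ℤ) (hε : ε = 1 ∨ ε = -1) (k : ℕ) {f : ℍ → ℂ} {F : PowerSeries ℤ}
    (hf : Aut k ε f) (hF : Ex 1 f (toC F)) :
    ∃ P : Polynomial ℤ, DegOK ε k P ∧ (∀ τ, f τ = sgh ε k P (Gf τ) (Df τ) (Kf τ)) ∧
      F = sgh ε k P Gs Ds Ks := by
  rcases hε with rfl | rfl
  · rw [Int.cast_one] at hf
    obtain ⟨P, h1, h2, h3⟩ := struct_pos k f F hf hF
    refine ⟨P, ?_, ?_, ?_⟩
    · simpa [DegOK] using h1
    · intro τ
      simpa [sgh] using h2 τ
    · simpa [sgh] using h3
  · have h0 : ((-1 : ℤ) : ℂ) = -1 := by norm_num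
    rw [h0] at hf
    obtain ⟨P, h1, h2, h3⟩ := struct_neg k f F hf hF
    have hne : ¬ (-1 : ℤ) = 1 := by norm_num
    refine ⟨P, ?_, ?_, ?_⟩
    · unfold DegOK
      rw [if_neg hne]
      exact h1
    · intro τ
      unfold sgh
      rw [if_neg hne]
      exact h2 τ
    · unfold sgh
      rw [if_neg hne]
      exact h3

end Pool.Agent.Lib.SCG
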