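import Pool.Agent.Lib.SCG.SymB

/-!
SymC: the sum `∑_j K_j ∏_{i ≠ j} F_i³ (X - F_i)` is `l` times an integral polynomial in `t^l`.
PLAN. With `R` from `symR`, `r0 = R.coeff 0`: evaluating at `X = 0`,
`∏_{i≠j} (-rsc i F) = rsc l j r0`, so `∏_{i≠j} (rsc i F)^3 = rsc l j (((-1)^(l-1) r0)^3)`. Put
`U = C (K * ((-1)^(l-1) r0)^3) * R` over `ℤ⟦t⟧`; the `j`-th summand is `U.map (rsc l j)`, and by
`trace` coefficientwise the sum is `l * S.map (exC l)` with `S.coeff n = sec l (U.coeff n)`
(`S = ∑_{n ≤ natDegree U} monomial n (sec l (U.coeff n))`).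
`prod_rsc`: `symA` at `X = 0` (`l` odd).
-/

namespace Pool.Agent.Lib.SCG

private lemma sec_zero (l : ℕ) : sec l (0 : PowerSeries ℤ) = 0 := by
  ext n
  simp [sec]

theorem symC (l : ℕ) [NeZero l] (F K : PowerSeries ℤ) :
    ∃ S : Polynomial (PowerSeries ℤ),
      ∑ j ∈ Finset.range l, Polynomial.C (rsc l j K) *
        ∏ i ∈ (Finset.range l).erase j, (Polynomial.C (rsc l i F ^ 3) *
          (Polynomial.X - Polynomial.C (rsc l i F)))
      = Polynomial.C (l : PowerSeries ℂ) * S.map (exC l) := by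
  obtain ⟨R, hR⟩ := symR l F
  set q : PowerSeries ℤ := ((-1) ^ (l - 1) * R.coeff 0) ^ 3 with hq
  set U : Polynomial (PowerSeries ℤ) := Polynomial.C (K * q) * R with hU
  have hprod : ∀ j ∈ Finset.range l, ∏ i ∈ (Finset.range l).erase j, rsc l i F ^ 3
      = rsc l j q := by
    intro j hj
    have h1 := congrArg (Polynomial.eval 0) (hR j hj)
    rw [Polynomial.eval_prod] at h1
    simp only [Polynomial.eval_sub, Polynomial.eval_X, Polynomial.eval_C, zero_sub] at h1
    rw [← Polynomial.coeff_zero_eq_eval_zero, Polynomial.coeff_map] at h1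
    have h2 : ∏ i ∈ (Finset.range l).erase j, (-(rsc l i F))
        = (-1) ^ (l - 1) * ∏ i ∈ (Finset.range l).erase j, rsc l i F := by
      rw [Finset.prod_neg, Finset.card_erase_of_mem hj, Finset.card_range]
    rw [h2] at h1
    have h3 : ∏ i ∈ (Finset.range l).erase j, rsc l i F = (-1) ^ (l - 1) * rsc l j (R.coeff 0) := by
      rw [← h1, ← mul_assoc, ← pow_add, Even.neg_one_pow ⟨l - 1, rfl⟩, one_mul]
    rw [Finset.prod_pow, h3, hq, map_pow, map_mul, map_pow, map_neg, map_one]
  have hsum : ∀ j ∈ Finset.range l, Polynomial.C (rsc l j K) *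
        ∏ i ∈ (Finset.range l).erase j, (Polynomial.C (rsc l i F ^ 3) *
          (Polynomial.X - Polynomial.C (rsc l i F))) = U.map (rsc l j) := by
    intro j hj
    rw [Finset.prod_mul_distrib, hR j hj, ← map_prod, hprod j hj, ← mul_assoc, ← Polynomial.C_mul,
      ← map_mul, hU, Polynomial.map_mul, Polynomial.map_C]
  refine ⟨∑ n ∈ Finset.range (U.natDegree + 1), Polynomial.monomial n (sec l (U.coeff n)), ?_⟩
  rw [Finset.sum_congr rfl hsum]
  ext1 n
  rw [Polynomial.finsetSum_coeff, Polynomial.coeff_C_mul, Polynomial.coeff_map,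
    Polynomial.finsetSum_coeff]
  have h4 : ∑ b ∈ Finset.range (U.natDegree + 1),
      (Polynomial.monomial b (sec l (U.coeff b))).coeff n = sec l (U.coeff n) := by
    simp only [Polynomial.coeff_monomial]
    rw [Finset.sum_ite_eq']
    split_ifs with h5
    · rfl
    · rw [Finset.mem_range, not_lt] at h5
      rw [Polynomial.coeff_eq_zero_of_natDegree_lt (by omega), sec_zero]
  rw [h4, ← trace]
  exact Finset.sum_congr rfl fun j _ => Polynomial.coeff_map _ _

lemma prod_rsc (l : ℕ) [NeZero l] (hl : Odd l) :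
    ∏ j ∈ Finset.range l, rsc l j Gs = exC l (NG l) := by
  have h1 := congrArg (Polynomial.eval 0) (symA l Gs)
  rw [Polynomial.eval_prod] at h1
  simp only [Polynomial.eval_sub, Polynomial.eval_X, Polynomial.eval_C, zero_sub] at h1
  rw [← Polynomial.coeff_zero_eq_eval_zero, Polynomial.coeff_map, Finset.prod_neg,
    Finset.card_range, hl.neg_one_pow] at h1
  rw [NG, map_neg, ← h1]
  ring

end Pool.Agent.Lib.SCG
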