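import Pool.Agent.Lib.SCG.SymB

/-!
SymD: the congruences of the polynomial `PF`.
PLAN. `PF_dvd`: `derivative (PF.map exC) = ∑_j ∏_{i≠j} (X - rsc i F)`
(`Polynomial.derivative_prod`) `= ∑_j R.map (rsc l j) = l * (coefficientwise section)` by `symR`,
`trace`; so `l ∣ k * (PF l F).coeff k`
for `1 ≤ k`, and `l ∤ k` for `0 < k < l` (`l` prime): `l ∣ coeff k` (use `exC_inj` and that `l`
divides a series iff it divides its coefficients; Bezout for `k` and `l`).
`PF_zero`: `PF(F(t))(t^l) = 0` (`symA` with the factor `j = 0`, `rsc l 0 = toC` injective,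
`rsc_expand`) gives `F^l + PF.coeff 0 (t^l) ≡ 0 mod l`, `F^l ≡ F(t^l) mod l`
(`frob`: Frobenius in `(ZMod l)⟦X⟧`: `F^l = expand l F` over `ZMod l`; Mathlib
`PowerSeries.map_frobenius_expand`/`MvPowerSeries`.. or prove it), and `expand l` reflects
divisibility by `l`.
-/

namespace Pool.Agent.Lib.SCG

private lemma C_dvd_iff (n : ℤ) (f : PowerSeries ℤ) :
    PowerSeries.C n ∣ f ↔ ∀ m, n ∣ PowerSeries.coeff m f := by
  constructor
  · rintro ⟨g, rfl⟩ m
    rw [PowerSeries.coeff_C_mul]
    exact dvd_mul_right _ _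
  · intro h
    choose g hg using h
    refine ⟨PowerSeries.mk g, ?_⟩
    ext m
    rw [PowerSeries.coeff_C_mul, PowerSeries.coeff_mk]
    exact hg m

theorem PF_dvd (l : ℕ) [Fact l.Prime] (F : PowerSeries ℤ) (k : ℕ) (hk : 0 < k) (hkl : k < l) :
    PowerSeries.C (l : ℤ) ∣ (PF l F).coeff k := by
  have : NeZero l := ⟨(Fact.out : l.Prime).ne_zero⟩
  obtain ⟨R, hR⟩ := symR l F
  have h1 : Polynomial.derivative ((PF l F).map (exC l))
      = ∑ j ∈ Finset.range l, R.map (rsc l j) := by
    rw [← symA, Polynomial.derivative_prod_finset]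
    refine Finset.sum_congr rfl fun j hj => ?_
    rw [hR j hj]
    simp
  have h2 := congrArg (fun P => Polynomial.coeff P (k - 1)) h1
  simp only [Polynomial.coeff_derivative, Polynomial.finsetSum_coeff, Polynomial.coeff_map] at h2
  rw [trace, Nat.sub_add_cancel hk] at h2
  have h3 : exC l ((PF l F).coeff k * (k : PowerSeries ℤ))
      = exC l ((l : PowerSeries ℤ) * sec l (R.coeff (k - 1))) := by
    rw [map_mul, map_mul, map_natCast, map_natCast, ← h2]
    congr 1
    have h4 : k = (k - 1) + 1 := (Nat.sub_add_cancel hk).symm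
    conv_lhs => rw [h4]
    push_cast
    ring
  have h4 := exC_inj l h3
  rw [C_dvd_iff]
  intro m
  have h5 := congrArg (PowerSeries.coeff m) h4
  have h6 : ∀ (n : ℕ) (G : PowerSeries ℤ), (n : PowerSeries ℤ) * G = PowerSeries.C (n : ℤ) * G := by
    intro n G
    simp
  rw [mul_comm, h6, h6, PowerSeries.coeff_C_mul, PowerSeries.coeff_C_mul] at h5
  have h7 : (l : ℤ) ∣ (k : ℤ) * PowerSeries.coeff m ((PF l F).coeff k) := by
    rw [h5]
    exact dvd_mul_right _ _
  rcases (Nat.prime_iff_prime_int.mp (Fact.out : l.Prime)).dvd_or_dvd h7 with h8 | h8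
  · exfalso
    have h9 : l ∣ k := by exact_mod_cast h8
    exact absurd (Nat.le_of_dvd hk h9) (not_le.2 hkl)
  · exact h8

/-- Frobenius. -/
theorem frob (l : ℕ) [Fact l.Prime] (hl : l ≠ 0) (F : PowerSeries ℤ) :
    PowerSeries.C (l : ℤ) ∣ F ^ l - PowerSeries.expand l hl F := by
  rw [C_dvd_iff]
  intro m
  rw [← ZMod.intCast_zmod_eq_zero_iff_dvd]
  have h1 : PowerSeries.expand l hl (PowerSeries.map (Int.castRingHom (ZMod l)) F)
      = PowerSeries.map (Int.castRingHom (ZMod l)) F ^ l := by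
    have h2 := MvPowerSeries.map_frobenius_expand (σ := Unit) (R := ZMod l) l hl
      (f := PowerSeries.map (Int.castRingHom (ZMod l)) F)
    rw [ZMod.frobenius_zmod] at h2
    have h3 : MvPowerSeries.map (RingHom.id (ZMod l))
        (MvPowerSeries.expand l hl (PowerSeries.map (Int.castRingHom (ZMod l)) F))
        = MvPowerSeries.expand l hl (PowerSeries.map (Int.castRingHom (ZMod l)) F) := by
      rw [MvPowerSeries.map_id]; rfl
    rw [h3] at h2
    exact h2
  rw [← PowerSeries.map_expand, ← map_pow] at h1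
  have h4 := congrArg (PowerSeries.coeff m) h1
  rw [PowerSeries.coeff_map, PowerSeries.coeff_map] at h4
  rw [map_sub]
  push_cast
  rw [sub_eq_zero]
  exact h4.symm

theorem PF_zero (l : ℕ) [Fact l.Prime] (F : PowerSeries ℤ) :
    PowerSeries.C (l : ℤ) ∣ (PF l F).coeff 0 + F := by
  have : NeZero l := ⟨(Fact.out : l.Prime).ne_zero⟩
  have hl : 0 < l := NeZero.pos l
  set E : PowerSeries ℤ →+* PowerSeries ℤ :=
    (PowerSeries.expand l (NeZero.ne l) : PowerSeries ℤ →ₐ[ℤ] PowerSeries ℤ).toRingHom with hE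
  have hEa : ∀ G, E G = PowerSeries.expand l (NeZero.ne l) G := fun G => rfl
  have h1 : (PF l F).map (exC l) = ((PF l F).map E).map (rsc l 0) := by
    rw [Polynomial.map_map]
    congr 1
    ext1 G
    rw [RingHom.comp_apply, hEa, rsc_expand]
  have h2 : ((PF l F).map (exC l)).eval (rsc l 0 F) = 0 := by
    rw [← symA, Polynomial.eval_prod]
    refine Finset.prod_eq_zero (Finset.mem_range.2 hl) ?_
    simp
  rw [h1, Polynomial.eval_map_apply] at h2
  have h3 : Function.Injective (rsc l 0) := by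
    intro G H h
    ext n
    have h4 := congrArg (PowerSeries.coeff n) h
    simp only [rsc, RingHom.comp_apply, PowerSeries.coeff_rescale, PowerSeries.coeff_map] at h4
    simpa using h4
  have h4 : ((PF l F).map E).eval F = 0 := h3 (by rw [h2, map_zero])
  rw [Polynomial.eval_map, Polynomial.eval₂_eq_sum_range, PF_natDegree, Finset.sum_range_succ] at h4
  have h5 : (PF l F).coeff l = 1 := by
    have := PF_monic l F
    rw [Polynomial.Monic, Polynomial.leadingCoeff, PF_natDegree] at this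
    exact this
  rw [h5, map_one, one_mul] at h4
  obtain ⟨l', hl'⟩ : ∃ l', l = l' + 1 := ⟨l - 1, by omega⟩
  have h6 : ∑ x ∈ Finset.range l, E ((PF l F).coeff x) * F ^ x
      = ∑ x ∈ Finset.Ico 1 l, E ((PF l F).coeff x) * F ^ x + E ((PF l F).coeff 0) := by
    rw [Finset.range_eq_Ico, Finset.sum_eq_sum_Ico_succ_bot hl, pow_zero, mul_one, add_comm]
  rw [h6] at h4
  have h7 : PowerSeries.C (l : ℤ) ∣ ∑ x ∈ Finset.Ico 1 l, E ((PF l F).coeff x) * F ^ x := by
    refine Finset.dvd_sum fun x hx => ?_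
    rw [Finset.mem_Ico] at hx
    obtain ⟨G, hG⟩ := PF_dvd l F x hx.1 hx.2
    refine Dvd.dvd.mul_right ?_ _
    rw [hG, map_mul, hEa, PowerSeries.expand_C]
    exact dvd_mul_right _ _
  have h8 := frob l (NeZero.ne l) F
  have h9 : PowerSeries.C (l : ℤ) ∣ E ((PF l F).coeff 0 + F) := by
    have h10 : E ((PF l F).coeff 0 + F)
        = -(∑ x ∈ Finset.Ico 1 l, E ((PF l F).coeff x) * F ^ x)
          - (F ^ l - PowerSeries.expand l (NeZero.ne l) F) := by
      rw [map_add, hEa F]
      linear_combination h4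
    rw [h10]
    exact dvd_sub (h7.neg_right) h8
  rw [C_dvd_iff] at h9 ⊢
  intro m
  have h10 := h9 (l * m)
  rwa [hEa, PowerSeries.coeff_expand_mul] at h10

end Pool.Agent.Lib.SCG
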