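import Pool.Agent.Lib.SCG.KA

/-!
Tri: triangularity.
PLAN. `sgh_dvd`: `hom k P Gs Ds = ∑_{j ≤ k/6} p_j Ds^j Gs^{k-6j}` and `Ds^j Gs^i = X^j (1 + ...)`
(`Ds_unit`, `Gs_zero`): strong induction on `j`: if `n ∣ p_i` for `i < j` (`j ≤ k/6`), the
coefficient of `X^j` is `p_j + (multiple of n)`. `Ks` is a unit (`Ks_zero`) for `ε = -1`;
coefficients beyond `k/6` (resp. `(k-3)/6`) vanish by `DegOK`. (`Polynomial.C_dvd_iff_dvd_coeff`.)
-/

namespace Pool.Agent.Lib.SCG

private lemma dvd_coeff_of {n : ℤ} {f : PowerSeries ℤ} (h : PowerSeries.C n ∣ f) (m : ℕ) :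
    n ∣ PowerSeries.coeff m f := by
  obtain ⟨g, rfl⟩ := h
  rw [PowerSeries.coeff_C_mul]
  exact dvd_mul_right _ _

private lemma hom_dvd (k : ℕ) (P : Polynomial ℤ) (g δ u : PowerSeries ℤ) (hg : PowerSeries.constantCoeff g = 1)
    (hu : PowerSeries.constantCoeff u = 1) (hδ : δ = PowerSeries.X * u) (n : ℤ)
    (h : PowerSeries.C n ∣ hom k P g δ) : ∀ j, j < k / 6 + 1 → n ∣ P.coeff j := by
  intro j
  induction j using Nat.strong_induction_on with
  | _ j ih =>
    intro hj
    have h1 := dvd_coeff_of h j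
    unfold hom at h1
    rw [map_sum, ← Finset.add_sum_erase _ _ (Finset.mem_range.mpr hj)] at h1
    have hterm : ∀ i, PowerSeries.coeff j (((P.coeff i : ℤ) : PowerSeries ℤ) * δ ^ i * g ^ (k - 6 * i)) =
        P.coeff i * (if i ≤ j then PowerSeries.coeff (j - i) (u ^ i * g ^ (k - 6 * i)) else 0) := by
      intro i
      have h2 : ((P.coeff i : ℤ) : PowerSeries ℤ) * δ ^ i * g ^ (k - 6 * i) =
          PowerSeries.C (P.coeff i) * (PowerSeries.X ^ i * (u ^ i * g ^ (k - 6 * i))) := by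
        rw [hδ, mul_pow]
        have h3 : ((P.coeff i : ℤ) : PowerSeries ℤ) = PowerSeries.C (P.coeff i) := by
          rw [eq_intCast (PowerSeries.C : ℤ →+* PowerSeries ℤ)]
        rw [h3]
        ring
      rw [h2, PowerSeries.coeff_C_mul, PowerSeries.coeff_X_pow_mul']
    rw [hterm j, if_pos le_rfl, Nat.sub_self, PowerSeries.coeff_zero_eq_constantCoeff_apply, map_mul, map_pow,
      map_pow, hu, hg, one_pow, one_pow, mul_one, mul_one] at h1
    refine (dvd_add_left ?_).mp h1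
    refine Finset.dvd_sum fun i hi => ?_
    rw [hterm i]
    rcases lt_or_ge i j with hij | hij
    · have hi2 : i < k / 6 + 1 := Finset.mem_range.mp (Finset.mem_of_mem_erase hi)
      exact dvd_mul_of_dvd_left (ih i hij hi2) _
    · have hne : i ≠ j := Finset.ne_of_mem_erase hi
      rw [if_neg (by omega), mul_zero]
      exact dvd_zero _

theorem sgh_dvd (ε : ℤ) (hε : ε = 1 ∨ ε = -1) (k : ℕ) (P : Polynomial ℤ) (hP : DegOK ε k P)
    (n : ℤ) (h : PowerSeries.C n ∣ sgh ε k P Gs Ds Ks) : Polynomial.C n ∣ P := by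
  obtain ⟨u, -, hu, hδ⟩ := Ds_unit
  rw [Polynomial.C_dvd_iff_dvd_coeff]
  intro j
  unfold sgh at h
  unfold DegOK at hP
  by_cases he : ε = 1
  · rw [if_pos he] at h hP
    by_cases hj : j ≤ P.natDegree
    · exact hom_dvd k P Gs Ds u Gs_zero hu hδ n h j (by omega)
    · rw [Polynomial.coeff_eq_zero_of_natDegree_lt (by omega)]
      exact dvd_zero _
  · rw [if_neg he] at h hP
    rcases hP with hP | hP
    · rw [hP, Polynomial.coeff_zero]
      exact dvd_zero _
    · have hK : IsUnit Ks := by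
        rw [PowerSeries.isUnit_iff_constantCoeff, Ks_zero]
        exact isUnit_one
      have h2 : PowerSeries.C n ∣ hom (k - 3) P Gs Ds := (hK.dvd_mul_left).mp h
      by_cases hj : j ≤ P.natDegree
      · exact hom_dvd (k - 3) P Gs Ds u Gs_zero hu hδ n h2 j (by omega)
      · rw [Polynomial.coeff_eq_zero_of_natDegree_lt (by omega)]
        exact dvd_zero _

end Pool.Agent.Lib.SCG
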