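import Pool.Agent.Lib.SCG.PhiB
import Pool.Agent.Lib.SCG.SymD
import Pool.Agent.Lib.SCG.SymC
import Pool.Agent.Lib.SCG.Struct
import Pool.Agent.Lib.SCG.Tri
import Pool.Agent.Lib.SCG.Hom

/-!
HG: the Hecke polynomial of `G`.
PLAN. `A = AF l 1 Gs = (X - C (χ l · l · expand l Gs)) * PF l Gs`. For `k ≤ l+1` apply
`struct_int` with `ε = χ(l)^k` to `(-1)^k * (Phi l τ).coeff (l+1-k)` (`PhiF_aut` with `w = 1`,
`ε = 1`; `PhiF_ex`), series `(-1)^k A.coeff (l+1-k)`; choose the `P k`.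
`A.coeff (n+1) = (PF).coeff n - c (PF).coeff (n+1)`, `A.coeff 0 = - c (PF).coeff 0`,
`c = χ l · l · expand l Gs`. So: (3) for `0 < k < l`: `PF_dvd` and `l ∣ c`, then `sgh_dvd`.
(4) `k = l+1`: `(-1)^(l+1) A.coeff 0 = χ l · l · expand l Gs · NG l` (`l` odd): all coefficients of
`P (l+1)` are divisible by `χ l · l` (`sgh_dvd` with `n = l`), `d := P(l+1)/(χ l · l)`; cancel in
the domain `ℤ⟦X⟧`. `l ∣ d - 1`: `hom (l+1) (d - 1) = expand l Gs · NG l - Gs^(l+1)`, and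
`NG l ≡ Gs` (`PF_zero`), `expand l Gs ≡ Gs^l` (`frob`), `sgh_dvd` with `ε = 1`.
(5) `k = l`: `(-1)^l A.coeff 1 = -((PF).coeff 0 - c (PF).coeff 1) = NG l + c (PF).coeff 1` and
`l² ∣ c (PF).coeff 1`. (`χ l ^ l = χ l`, `χ l ^ (l+1) = 1`.)
-/

namespace Pool.Agent.Lib.SCG

open UpperHalfPlane

lemma NG_congr (l : ℕ) [Fact l.Prime] : PowerSeries.C (l : ℤ) ∣ NG l - Gs := by
  have h := PF_zero l Gs
  have h1 : NG l - Gs = -((PF l Gs).coeff 0 + Gs) := by
    unfold NG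
    ring
  rw [h1]
  exact h.neg_right

private lemma chi_pow_cases (l : ℕ) [Fact l.Prime] (h3 : l ≠ 3) (k : ℕ) :
    chi l ^ k = 1 ∨ chi l ^ k = -1 := by
  rcases chi_sq l h3 with h | h
  · left; rw [h, one_pow]
  · rw [h]; exact neg_one_pow_eq_or ℤ k

private noncomputable def cc (l : ℕ) [NeZero l] : PowerSeries ℤ :=
  PowerSeries.C ((chi l) ^ 1 * (l : ℤ) ^ 1) * PowerSeries.expand l (NeZero.ne l) Gs

private lemma AF_coeff_succ (l : ℕ) [NeZero l] (n : ℕ) :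
    (AF l 1 Gs).coeff (n + 1) = (PF l Gs).coeff n - cc l * (PF l Gs).coeff (n + 1) := by
  unfold AF
  rw [mul_comm, Polynomial.coeff_mul_X_sub_C, mul_comm (cc l)]
  rfl

private lemma AF_coeff_zero (l : ℕ) [NeZero l] :
    (AF l 1 Gs).coeff 0 = cc l * NG l := by
  unfold AF NG
  rw [Polynomial.mul_coeff_zero]
  simp [cc]

private lemma C_dvd_cc (l : ℕ) [NeZero l] : PowerSeries.C (l : ℤ) ∣ cc l := by
  unfold cc
  rw [pow_one, pow_one, map_mul, mul_comm (PowerSeries.C (chi l)), mul_assoc]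
  exact dvd_mul_right _ _

private lemma castC (c : ℤ) : ((c : ℤ) : PowerSeries ℤ) = PowerSeries.C c := by
  rw [← map_intCast (PowerSeries.C (R := ℤ)) c, Int.cast_id]

/-- The data of the polynomial `Phi l`. -/
structure HGdata (l : ℕ) [NeZero l] (P : ℕ → Polynomial ℤ) (d : Polynomial ℤ) : Prop where
  deg : ∀ k ≤ l + 1, DegOK (chi l ^ k) k (P k)
  coeff : ∀ k ≤ l + 1, ∀ τ : ℍ, (Phi l τ).coeff (l + 1 - k)
    = (-1) ^ k * sgh (chi l ^ k) k (P k) (Gf τ) (Df τ) (Kf τ)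
  formal : ∀ k ≤ l + 1, (AF l 1 Gs).coeff (l + 1 - k)
    = (-1) ^ k * sgh (chi l ^ k) k (P k) Gs Ds Ks
  dvd : ∀ k, 0 < k → k < l → Polynomial.C (l : ℤ) ∣ P k
  top : P (l + 1) = Polynomial.C (chi l * l) * d
  ddeg : 6 * d.natDegree ≤ l + 1
  done : Polynomial.C (l : ℤ) ∣ d - 1
  dform : hom (l + 1) d Gs Ds = PowerSeries.expand l (NeZero.ne l) Gs * NG l
  pform : PowerSeries.C ((l : ℤ) ^ 2) ∣ sgh (chi l) l (P l) Gs Ds Ks - NG l

theorem HG (l : ℕ) [Fact l.Prime] [NeZero l] (h2 : l ≠ 2) (h3 : l ≠ 3) :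
    ∃ (P : ℕ → Polynomial ℤ) (d : Polynomial ℤ), HGdata l P d := by
  have hodd : Odd l := (Fact.out : l.Prime).odd_of_ne_two h2
  have hl1 : 1 < l := (Fact.out : l.Prime).one_lt
  have hm1 : ∀ (R : Type) [CommRing R] (k : ℕ), ((-1 : R) ^ k) * (-1) ^ k = 1 := by
    intro R _ k
    rw [← mul_pow]
    simp
  have hex : ∀ k : ℕ, ∃ P : Polynomial ℤ, k ≤ l + 1 →
      DegOK (chi l ^ k) k P ∧
      (∀ τ : ℍ, (Phi l τ).coeff (l + 1 - k)
        = (-1) ^ k * sgh (chi l ^ k) k P (Gf τ) (Df τ) (Kf τ)) ∧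
      (AF l 1 Gs).coeff (l + 1 - k) = (-1) ^ k * sgh (chi l ^ k) k P Gs Ds Ks := by
    intro k
    by_cases hk : k ≤ l + 1
    · have e0 : Aut ((1 : ℕ) : ℤ) ((1 : ℤ) : ℂ) Gf := by
        have := autG
        push_cast
        exact this
      have e1 := PhiF_aut l h3 1 1 (Or.inl rfl) e0 Gf_ex k hk
      have e2 : Aut k ((chi l ^ k : ℤ) : ℂ)
          (fun τ => (PhiF l 1 Gf τ).coeff (l + 1 - k)) := by
        have e3 : ((1 * k : ℕ) : ℤ) = k := by rw [one_mul]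
        have e4 : (1 : ℤ) ^ k * (chi l) ^ (1 * k) = chi l ^ k := by
          rw [one_pow, one_mul, one_mul]
        rw [e3, e4] at e1
        exact e1
      have e5 := e2.smul ((-1) ^ k)
      have e6 := Ex.smul ((-1) ^ k) (PhiF_ex l 1 Gf_ex (l + 1 - k))
      have e7 : PowerSeries.C ((-1 : ℂ) ^ k) * toC ((AF l 1 Gs).coeff (l + 1 - k))
          = toC ((-1) ^ k * (AF l 1 Gs).coeff (l + 1 - k)) := by
        simp [toC]
      rw [e7] at e6
      obtain ⟨P, hP1, hP2, hP3⟩ := struct_int (chi l ^ k) (chi_pow_cases l h3 k) k e5 e6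
      refine ⟨P, fun _ => ⟨hP1, fun τ => ?_, ?_⟩⟩
      · rw [← hP2 τ, ← mul_assoc, hm1, one_mul]
        rfl
      · rw [← hP3, ← mul_assoc, hm1, one_mul]
    · exact ⟨0, fun h => absurd h hk⟩
  choose P hP using hex
  have hchi : chi l ^ (l + 1) = 1 := by
    rcases chi_sq l h3 with h | h
    · rw [h, one_pow]
    · rw [h]; exact Even.neg_one_pow (by rw [Nat.even_add_one]; exact Nat.not_even_iff_odd.2 hodd)
  have hchi' : chi l ^ l = chi l := by
    rcases chi_sq l h3 with h | h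
    · rw [h, one_pow]
    · rw [h]; exact hodd.neg_one_pow
  have hn0 : chi l * (l : ℤ) ≠ 0 := by
    have : (l : ℤ) ≠ 0 := by exact_mod_cast (NeZero.ne l)
    rcases chi_sq l h3 with h | h <;> rw [h] <;> simpa using this
  -- the top coefficient
  have htop : hom (l + 1) (P (l + 1)) Gs Ds
      = PowerSeries.C (chi l * l) * (PowerSeries.expand l (NeZero.ne l) Gs * NG l) := by
    obtain ⟨-, -, h⟩ := hP (l + 1) le_rfl
    rw [Nat.sub_self, AF_coeff_zero, hchi] at h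
    have he : ((-1 : PowerSeries ℤ)) ^ (l + 1) = 1 :=
      Even.neg_one_pow (by rw [Nat.even_add_one]; exact Nat.not_even_iff_odd.2 hodd)
    rw [he, one_mul] at h
    have h' : sgh 1 (l + 1) (P (l + 1)) Gs Ds Ks = hom (l + 1) (P (l + 1)) Gs Ds := by
      unfold sgh
      rw [if_pos rfl]
    rw [h'] at h
    rw [← h]
    unfold cc
    rw [pow_one, pow_one]
    ring
  have hdegtop : DegOK 1 (l + 1) (P (l + 1)) := by
    have := (hP (l + 1) le_rfl).1
    rwa [hchi] at this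
  obtain ⟨d, hd⟩ : Polynomial.C (chi l * l) ∣ P (l + 1) := by
    refine sgh_dvd 1 (Or.inl rfl) (l + 1) _ hdegtop _ ?_
    unfold sgh
    rw [if_pos rfl, htop]
    exact dvd_mul_right _ _
  have hddeg : 6 * d.natDegree ≤ l + 1 := by
    have h := degOK_of_C_mul 1 (l + 1) _ hn0 d (by rw [← hd]; exact hdegtop)
    unfold DegOK at h
    rwa [if_pos rfl] at h
  have hdform : hom (l + 1) d Gs Ds = PowerSeries.expand l (NeZero.ne l) Gs * NG l := by
    have h := htop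
    rw [hd, hom_C_mul, castC] at h
    have hC : (PowerSeries.C (chi l * (l : ℤ)) : PowerSeries ℤ) ≠ 0 := by
      intro h0
      apply hn0
      have := congrArg (PowerSeries.coeff 0) h0
      simpa using this
    exact mul_left_cancel₀ hC h
  refine ⟨P, d, ⟨fun k hk => (hP k hk).1, fun k hk => (hP k hk).2.1, fun k hk => (hP k hk).2.2,
    ?_, hd, hddeg, ?_, hdform, ?_⟩⟩
  · intro k hk hkl
    obtain ⟨n1, n2, n3⟩ := hP k (by omega)
    refine sgh_dvd (chi l ^ k) (chi_pow_cases l h3 k) k _ n1 _ ?_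
    have e1 : sgh (chi l ^ k) k (P k) Gs Ds Ks = (-1) ^ k * (AF l 1 Gs).coeff (l + 1 - k) := by
      rw [n3, ← mul_assoc, hm1, one_mul]
    have e2 : l + 1 - k = (l - k) + 1 := by omega
    rw [e1, e2, AF_coeff_succ]
    refine Dvd.dvd.mul_left ?_ _
    exact dvd_sub (PF_dvd l Gs (l - k) (by omega) (by omega))
      (Dvd.dvd.mul_right (C_dvd_cc l) _)
  · refine sgh_dvd 1 (Or.inl rfl) (l + 1) _ ?_ _ ?_
    · unfold DegOK
      rw [if_pos rfl]
      have h := Polynomial.natDegree_sub_le d 1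
      rw [Polynomial.natDegree_one, max_eq_left (Nat.zero_le _)] at h
      omega
    · unfold sgh
      rw [if_pos rfl, hom_sub, hom_one, hdform]
      have e1 : PowerSeries.expand l (NeZero.ne l) Gs * NG l - Gs ^ (l + 1)
          = PowerSeries.expand l (NeZero.ne l) Gs * (NG l - Gs)
            - (Gs ^ l - PowerSeries.expand l (NeZero.ne l) Gs) * Gs := by
        ring
      rw [e1]
      exact dvd_sub (Dvd.dvd.mul_left (NG_congr l) _)
        (Dvd.dvd.mul_right (frob l (NeZero.ne l) Gs) _)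
  · obtain ⟨-, -, n3⟩ := hP l (by omega)
    have e0 : l + 1 - l = 0 + 1 := by omega
    rw [e0, AF_coeff_succ, hchi', hodd.neg_one_pow] at n3
    have e1 : sgh (chi l) l (P l) Gs Ds Ks - NG l = cc l * (PF l Gs).coeff 1 := by
      unfold NG
      rw [zero_add] at n3
      linear_combination n3
    rw [e1]
    obtain ⟨u, hu⟩ := C_dvd_cc l
    obtain ⟨v, hv⟩ := PF_dvd l Gs 1 one_pos hl1
    rw [hu, hv, map_pow]
    exact ⟨u * v, by ring⟩

end Pool.Agent.Lib.SCG
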