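import Pool.Agent.Lib.SCG.Defs

/-!
OdeA: the two differential equations, formal version over any commutative ring.
PLAN. `thS` is a derivation (`thS (a*b) = a * thS b + thS a * b`, `thS (C r) = 0`). `g`, `κ` are
units (`constantCoeff = 1`); let `g gi = 1`, `κ ki = 1`. From `Rels` (`hy`, `hd`, `hk`):
`thS y = y (lam - 6 (thS g) gi) = y κ gi`. Put `Θ f = g ki thS f`, so `Θ (y^n) = n y^n`. With
`g' = thS g`: `g thS g' = 6δ + 2 g'²` (`hode`), `g thS κ = 3κg' - 54δ` (`hkk`),
`g thS δ = δ(κ + 6g')`, `κ² = g⁶(1 - 108 y)`. For every series `h` (with `F = g h` in `ode1`):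
  `(1-108y) Θ²F - 54 y ΘF - 6 y F = gi³ thS(thS h)`            (1)
and with `κ F = g⁴ h`:
  `(1-108y) Θ²F - 162 y ΘF - 60 y F = ki thS(thS h)`           (2).
(1): `Θ(g h) = g ki (g'h + g h')`, `thS(g ki) = -2g'ki + 54δki²`, so
`Θ²F = g ki² (54δ(g'h+gh')ki + 6δh + g²h'')`; multiply by `κ² gi⁶`.
(2): with `H = g⁴ ki`, `u = g'ki + 54δki²`: `ΘH = H u`,
`u² + g ki thS u = 60δki² + 162δg'ki³ + 8748δ²ki⁴`; the coefficient of `h'` in `Θ²(Hh)` is
`162 H g δ ki³`, of `h''` it is `H g² ki²`; multiply by `κ² gi⁶`, `y = δ gi⁶`.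
(All are `linear_combination`s after introducing `gi, ki`.)
For `F = eval₂ C y f = ∑ f_n y^n` the left side of (1) is
`∑ f_n (n² y^n - 6(3n+1)(6n+1) y^{n+1})`, of (2) `∑ f_n (n² y^n - 6(3n+2)(6n+5) y^{n+1})`; a
relation `∑ c_n y^n = 0` (finite) forces all `c_n = 0` (`y = X + ...`: `coeff_n (y^n) = 1`,
`coeff_m (y^n) = 0` for `m < n`); take the coefficient of `y^{n+1}`.
-/

namespace Pool.Agent.Lib.SCG

private lemma OdeA_add {R : Type*} [CommRing R] (a b : PowerSeries R) :
    thS (a + b) = thS a + thS b := by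
  ext n
  simp [thS, mul_add]

private lemma OdeA_mul {R : Type*} [CommRing R] (a b : PowerSeries R) :
    thS (a * b) = thS a * b + a * thS b := by
  ext n
  simp only [thS, PowerSeries.coeff_mk, map_add, PowerSeries.coeff_mul]
  rw [Finset.mul_sum, ← Finset.sum_add_distrib]
  apply Finset.sum_congr rfl
  rintro ⟨i, j⟩ hij
  have hij := Finset.HasAntidiagonal.mem_antidiagonal.mp hij
  simp only at hij ⊢
  rw [← hij]
  push_cast
  ring

private lemma OdeA_C {R : Type*} [CommRing R] (r : R) :
    thS (PowerSeries.C r) = 0 := by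
  ext n
  simp only [thS, PowerSeries.coeff_mk, PowerSeries.coeff_C, map_zero]
  split_ifs with h
  · subst h; simp
  · simp

private lemma OdeA_zero {R : Type*} [CommRing R] : thS (0 : PowerSeries R) = 0 := by
  ext n
  simp [thS]

private lemma OdeA_one {R : Type*} [CommRing R] : thS (1 : PowerSeries R) = 0 := by
  have := OdeA_C (1 : R)
  simpa using this

private lemma OdeA_pow {R : Type*} [CommRing R] (a : PowerSeries R) (n : ℕ) :
    thS (a ^ (n + 1)) = (n + 1 : ℕ) * a ^ n * thS a := by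
  induction n with
  | zero => simp
  | succ n ih =>
    rw [pow_succ, OdeA_mul, ih]
    push_cast
    ring

private lemma OdeA_inv {R : Type*} [CommRing R] (a : PowerSeries R)
    (h : PowerSeries.constantCoeff a = 1) : ∃ b, a * b = 1 := by
  have : IsUnit a := by
    rw [PowerSeries.isUnit_iff_constantCoeff, h]
    exact isUnit_one
  obtain ⟨b, hb⟩ := this.exists_right_inv
  exact ⟨b, hb⟩

/-- the chain rule -/
private lemma OdeA_chain {R : Type*} [CommRing R] (y : PowerSeries R) (f : Polynomial R) :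
    thS (Polynomial.eval₂ (PowerSeries.C (R := R)) y f)
      = Polynomial.eval₂ (PowerSeries.C (R := R)) y (Polynomial.derivative f) * thS y := by
  induction f using Polynomial.induction_on' with
  | add p q hp hq =>
    rw [Polynomial.eval₂_add, OdeA_add, hp, hq, Polynomial.derivative_add, Polynomial.eval₂_add]
    ring
  | monomial n r =>
    rw [Polynomial.eval₂_monomial, OdeA_mul, OdeA_C, zero_mul, zero_add,
      Polynomial.derivative_monomial, Polynomial.eval₂_monomial]
    cases n with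
    | zero => simp [OdeA_one]
    | succ n =>
      rw [OdeA_pow, map_mul, Nat.add_sub_cancel]
      have : (PowerSeries.C ((n + 1 : ℕ) : R)) = ((n + 1 : ℕ) : PowerSeries R) := by
        rw [map_natCast]
      rw [this]
      ring

/-- polynomials in `y = X + ...` -/
private lemma OdeA_inj {R : Type*} [CommRing R] (y : PowerSeries R)
    (h0 : PowerSeries.constantCoeff y = 0) (h1 : PowerSeries.coeff 1 y = 1) (c : Polynomial R)
    (hc : Polynomial.eval₂ (PowerSeries.C (R := R)) y c = 0) (n : ℕ) : c.coeff n = 0 := by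
  obtain ⟨v, hv⟩ := PowerSeries.X_dvd_iff.mpr h0
  have hv0 : PowerSeries.constantCoeff v = 1 := by
    rw [hv, show (1 : ℕ) = 0 + 1 from rfl, PowerSeries.coeff_succ_X_mul] at h1
    simpa using h1
  have hlt : ∀ i m : ℕ, m < i → PowerSeries.coeff m (y ^ i) = 0 := by
    intro i m hm
    rw [hv, mul_pow, PowerSeries.coeff_X_pow_mul', if_neg (by omega)]
  have heq : ∀ m : ℕ, PowerSeries.coeff m (y ^ m) = 1 := by
    intro m
    rw [hv, mul_pow, PowerSeries.coeff_X_pow_mul', if_pos le_rfl, Nat.sub_self]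
    simp [hv0]
  induction n using Nat.strong_induction_on with
  | _ n ih =>
    have h2 := congrArg (PowerSeries.coeff n) hc
    rw [Polynomial.eval₂_eq_sum_range, map_sum, map_zero] at h2
    simp only [PowerSeries.coeff_C_mul] at h2
    by_cases hn : n ∈ Finset.range (c.natDegree + 1)
    · rw [Finset.sum_eq_single_of_mem n hn, heq, mul_one] at h2
      · exact h2
      · intro b _ hbn
        rcases lt_or_gt_of_ne hbn with hb | hb
        · rw [ih b hb, zero_mul]
        · rw [hlt b n hb, mul_zero]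
    · apply Polynomial.coeff_eq_zero_of_natDegree_lt
      have := Finset.mem_range.not.mp hn
      omega

private lemma OdeA_thy {R : Type*} [CommRing R] {g δ κ lam y : PowerSeries R}
    (H : Rels g δ κ lam y) (gi : PowerSeries R) (hgi : g * gi = 1) :
    g * thS y = y * κ := by
  have h1 : thS (y * g ^ 6) = δ * lam := by rw [H.hy, H.hd]
  rw [OdeA_mul, OdeA_pow g 5] at h1
  have h2 : g ^ 5 * (g * thS y) = g ^ 5 * (y * κ) := by
    rw [H.hk]
    have h3 : δ = y * g ^ 6 := H.hy.symm
    rw [h3] at h1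
    push_cast at h1
    linear_combination h1
  calc g * thS y = (g * gi) ^ 5 * (g * thS y) := by rw [hgi]; ring
    _ = gi ^ 5 * (g ^ 5 * (g * thS y)) := by ring
    _ = gi ^ 5 * (g ^ 5 * (y * κ)) := by rw [h2]
    _ = (g * gi) ^ 5 * (y * κ) := by ring
    _ = _ := by rw [hgi]; ring

/-- `Θ` on polynomials in `y` -/
private lemma OdeA_theta {R : Type*} [CommRing R] {g δ κ lam y : PowerSeries R}
    (H : Rels g δ κ lam y) (gi ki : PowerSeries R) (hgi : g * gi = 1) (hki : κ * ki = 1)
    (f : Polynomial R) :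
    g * ki * thS (Polynomial.eval₂ (PowerSeries.C (R := R)) y f)
      = Polynomial.eval₂ (PowerSeries.C (R := R)) y (Polynomial.X * Polynomial.derivative f) := by
  rw [OdeA_chain, Polynomial.eval₂_mul, Polynomial.eval₂_X]
  have := OdeA_thy H gi hgi
  linear_combination (ki * Polynomial.eval₂ (PowerSeries.C (R := R)) y
    (Polynomial.derivative f)) * this + (Polynomial.eval₂ (PowerSeries.C (R := R)) y
    (Polynomial.derivative f) * y) * hki

private lemma OdeA_coeff {R : Type*} [CommRing R] (f : Polynomial R) (α β γ : R) (n : ℕ) :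
    ((1 - Polynomial.C α * Polynomial.X) * (Polynomial.X * Polynomial.derivative
        (Polynomial.X * Polynomial.derivative f))
      - Polynomial.C β * Polynomial.X * (Polynomial.X * Polynomial.derivative f)
      - Polynomial.C γ * Polynomial.X * f).coeff (n + 1)
    = ((n : R) + 1) ^ 2 * f.coeff (n + 1) - (α * n ^ 2 + β * n + γ) * f.coeff n := by
  have hθ : ∀ (h : Polynomial R) (m : ℕ),
      (Polynomial.X * Polynomial.derivative h).coeff m = m * h.coeff m := by
    intro h m
    cases m with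
    | zero => simp
    | succ m =>
      rw [Polynomial.coeff_X_mul, Polynomial.coeff_derivative]
      push_cast
      ring
  have e1 : ((1 - Polynomial.C α * Polynomial.X) * (Polynomial.X * Polynomial.derivative
        (Polynomial.X * Polynomial.derivative f))
      - Polynomial.C β * Polynomial.X * (Polynomial.X * Polynomial.derivative f)
      - Polynomial.C γ * Polynomial.X * f)
      = (Polynomial.X * Polynomial.derivative (Polynomial.X * Polynomial.derivative f))
      - Polynomial.C α * (Polynomial.X * (Polynomial.X * Polynomial.derivative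
        (Polynomial.X * Polynomial.derivative f)))
      - Polynomial.C β * (Polynomial.X * (Polynomial.X * Polynomial.derivative f))
      - Polynomial.C γ * (Polynomial.X * f) := by ring
  rw [e1]
  simp only [Polynomial.coeff_sub, Polynomial.coeff_C_mul, Polynomial.coeff_X_mul, hθ]
  push_cast
  ring

theorem ode1 {R : Type*} [CommRing R] {g δ κ lam y : PowerSeries R} (H : Rels g δ κ lam y)
    (hkk : g * thS κ = 3 * κ * thS g - 54 * δ)
    (f : Polynomial R) (h : PowerSeries R)
    (h1 : Polynomial.eval₂ (PowerSeries.C (R := R)) y f = g * h) (h2 : thS (thS h) = 0) (n : ℕ) :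
    ((n : R) + 1) ^ 2 * f.coeff (n + 1) = 6 * (3 * n + 1) * (6 * n + 1) * f.coeff n := by
  obtain ⟨gi, hgi⟩ := OdeA_inv g H.g0
  obtain ⟨ki, hki⟩ := OdeA_inv κ H.k0
  set E := Polynomial.eval₂ (PowerSeries.C (R := R)) y with hE
  have hkid : thS ki = -(thS κ * ki ^ 2) := by
    have h3 : thS (κ * ki) = 0 := by rw [hki, OdeA_one]
    rw [OdeA_mul] at h3
    linear_combination ki * h3 - thS ki * hki
  have t1 := OdeA_theta H gi ki hgi hki f
  have t2 := OdeA_theta H gi ki hgi hki (Polynomial.X * Polynomial.derivative f)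
  rw [← hE] at t1 t2
  rw [← t1, h1] at t2
  have hode := H.hode
  -- the operator
  have key : g ^ 6 * ((1 - 108 * y) * (g * ki * thS (g * ki * thS (g * h)))
      - 54 * y * (g * ki * thS (g * h)) - 6 * y * (g * h)) = g ^ 3 * thS (thS h) := by
    have hU : thS (g * ki * thS (g * h)) = thS g * ki * (thS g * h + g * thS h)
        + g * thS ki * (thS g * h + g * thS h)
        + g * ki * (thS (thS g) * h + 2 * thS g * thS h + g * thS (thS h)) := by
      rw [OdeA_mul g h, OdeA_mul, OdeA_mul g ki, OdeA_add, OdeA_mul (thS g) h,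
        OdeA_mul g (thS h)]
      ring
    rw [hU, OdeA_mul g h, hkid]
    have e0 : κ ^ 2 * ki ^ 2 = 1 := by rw [← mul_pow, hki, one_pow]
    have e5 : (1 - 108 * y) * g ^ 6 = κ ^ 2 := by rw [H.hsq, ← H.hy]; ring
    have hy := H.hy
    set A := thS g * h + g * thS h with hA
    set B := thS (thS g) * h + 2 * thS g * thS h + g * thS (thS h) with hB
    have s1 : g ^ 6 * ((1 - 108 * y) * (g * ki * (thS g * ki * A
          + g * -(thS κ * ki ^ 2) * A + g * ki * B))
        - 54 * y * (g * ki * A) - 6 * y * (g * h))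
        = (κ ^ 2 * ki ^ 2) * (g * thS g * A - g * (g * thS κ) * ki * A + g ^ 2 * B)
          - 54 * δ * (g * ki * A) - 6 * δ * (g * h) := by
      linear_combination (g * ki * (thS g * ki * A
          + g * -(thS κ * ki ^ 2) * A + g * ki * B)) * e5
        - (54 * (g * ki * A) + 6 * (g * h)) * hy
    rw [s1, e0, hkk]
    have s2 : g ^ 2 * B = g * ((g * thS (thS g)) * h + 2 * g * thS g * thS h
        + g ^ 2 * thS (thS h)) := by rw [hB]; ring
    have s3 : g * thS (thS g) = 6 * δ + 2 * thS g ^ 2 := by linear_combination hode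
    rw [s2, s3, hA]
    linear_combination (-3 * g * thS g * (thS g * h + g * thS h)) * hki
  rw [h2, mul_zero] at key
  have key2 : (1 - 108 * y) * (g * ki * thS (g * ki * thS (g * h)))
      - 54 * y * (g * ki * thS (g * h)) - 6 * y * (g * h) = 0 := by
    have h6 : g ^ 6 * gi ^ 6 = 1 := by rw [← mul_pow, hgi, one_pow]
    calc _ = (g ^ 6 * gi ^ 6) * ((1 - 108 * y) * (g * ki * thS (g * ki * thS (g * h)))
      - 54 * y * (g * ki * thS (g * h)) - 6 * y * (g * h)) := by rw [h6, one_mul]
      _ = gi ^ 6 * (g ^ 6 * ((1 - 108 * y) * (g * ki * thS (g * ki * thS (g * h)))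
      - 54 * y * (g * ki * thS (g * h)) - 6 * y * (g * h))) := by ring
      _ = 0 := by rw [key, mul_zero]
  rw [t2, ← h1, t1] at key2
  have key3 : E ((1 - Polynomial.C 108 * Polynomial.X) * (Polynomial.X * Polynomial.derivative
        (Polynomial.X * Polynomial.derivative f))
      - Polynomial.C 54 * Polynomial.X * (Polynomial.X * Polynomial.derivative f)
      - Polynomial.C 6 * Polynomial.X * f) = 0 := by
    rw [hE]
    simp only [Polynomial.eval₂_sub, Polynomial.eval₂_mul, Polynomial.eval₂_X,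
      Polynomial.eval₂_one, Polynomial.eval₂_C]
    have c1 : (PowerSeries.C (108 : R)) = 108 := map_ofNat _ 108
    have c2 : (PowerSeries.C (54 : R)) = 54 := map_ofNat _ 54
    have c3 : (PowerSeries.C (6 : R)) = 6 := map_ofNat _ 6
    rw [c1, c2, c3]
    rw [hE] at key2
    simp only [Polynomial.eval₂_mul, Polynomial.eval₂_X] at key2
    exact key2
  have := OdeA_inj y H.y0 H.y1 _ key3 (n + 1)
  rw [OdeA_coeff] at this
  linear_combination this

theorem ode2 {R : Type*} [CommRing R] {g δ κ lam y : PowerSeries R} (H : Rels g δ κ lam y)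
    (hkk : g * thS κ = 3 * κ * thS g - 54 * δ)
    (f : Polynomial R) (h : PowerSeries R)
    (h1 : κ * Polynomial.eval₂ (PowerSeries.C (R := R)) y f = g ^ 4 * h)
    (h2 : thS (thS h) = 0) (n : ℕ) :
    ((n : R) + 1) ^ 2 * f.coeff (n + 1) = 6 * (3 * n + 2) * (6 * n + 5) * f.coeff n := by
  obtain ⟨gi, hgi⟩ := OdeA_inv g H.g0
  obtain ⟨ki, hki⟩ := OdeA_inv κ H.k0
  set E := Polynomial.eval₂ (PowerSeries.C (R := R)) y with hE
  have hkid : thS ki = -(thS κ * ki ^ 2) := by
    have h3 : thS (κ * ki) = 0 := by rw [hki, OdeA_one]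
    rw [OdeA_mul] at h3
    linear_combination ki * h3 - thS ki * hki
  have hF : E f = g ^ 4 * ki * h := by
    linear_combination ki * h1 - E f * hki
  have t1 := OdeA_theta H gi ki hgi hki f
  have t2 := OdeA_theta H gi ki hgi hki (Polynomial.X * Polynomial.derivative f)
  rw [← hE] at t1 t2
  rw [← t1] at t2
  have hode := H.hode
  have e4 : g * thS ki = -3 * thS g * ki + 54 * δ * ki ^ 2 := by
    rw [hkid]
    linear_combination (-ki ^ 2) * hkk - (3 * thS g * ki) * hki
  have e6 : g * lam = κ + 6 * thS g := by linear_combination -H.hk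
  have e3 : g * thS (thS g) = 6 * δ + 2 * thS g ^ 2 := by linear_combination hode
  -- first derivative
  have hU : g * ki * thS (E f) = g ^ 4 * (thS g * ki ^ 2 * h + 54 * δ * ki ^ 3 * h
      + g * ki ^ 2 * thS h) := by
    rw [hF, OdeA_mul, OdeA_mul, OdeA_pow g 3]
    push_cast
    linear_combination (g ^ 4 * ki * h) * e4
  have hDU : thS (g ^ 4 * (thS g * ki ^ 2 * h + 54 * δ * ki ^ 3 * h
      + g * ki ^ 2 * thS h)) = 4 * g ^ 3 * thS g * (thS g * ki ^ 2 * h + 54 * δ * ki ^ 3 * h
      + g * ki ^ 2 * thS h)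
      + g ^ 4 * (thS (thS g) * ki ^ 2 * h + thS g * (2 * ki * thS ki) * h
        + thS g * ki ^ 2 * thS h + 54 * (δ * lam) * ki ^ 3 * h
        + 54 * δ * (3 * ki ^ 2 * thS ki) * h + 54 * δ * ki ^ 3 * thS h
        + thS g * ki ^ 2 * thS h + g * (2 * ki * thS ki) * thS h
        + g * ki ^ 2 * thS (thS h)) := by
    have h54 : thS (54 * δ) = 54 * (δ * lam) := by
      have h54' : (54 : PowerSeries R) = PowerSeries.C 54 := (map_ofNat _ 54).symm
      rw [h54', OdeA_mul, OdeA_C, zero_mul, zero_add, H.hd]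
    rw [OdeA_mul, OdeA_pow g 3, OdeA_add, OdeA_add, OdeA_mul (thS g * ki ^ 2) h,
      OdeA_mul (thS g) (ki ^ 2), OdeA_mul (54 * δ * ki ^ 3) h, OdeA_mul (54 * δ) (ki ^ 3), h54,
      OdeA_mul (g * ki ^ 2) (thS h), OdeA_mul g (ki ^ 2), OdeA_pow ki 1, OdeA_pow ki 2]
    push_cast
    ring
  have hTU : g * ki * thS (g ^ 4 * (thS g * ki ^ 2 * h + 54 * δ * ki ^ 3 * h
      + g * ki ^ 2 * thS h)) = ki ^ 2 * (ki * g ^ 4 * (60 * δ * h + 162 * δ * thS g * ki * h
        + 8748 * δ ^ 2 * ki ^ 2 * h + 162 * δ * g * ki * thS h + g ^ 2 * thS (thS h))) := by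
    rw [hDU]
    linear_combination (g ^ 4 * ki ^ 3 * h) * e3
      + (g ^ 4 * ki * (2 * thS g * ki * h + 162 * δ * ki ^ 2 * h + 2 * g * ki * thS h)) * e4
      + (g ^ 4 * 54 * δ * ki ^ 4 * h) * e6 + (54 * g ^ 4 * δ * ki ^ 3 * h) * hki
  have key : g ^ 6 * ((1 - 108 * y) * (g * ki * thS (g * ki * thS (E f)))
      - 162 * y * (g * ki * thS (E f)) - 60 * y * E f) = g ^ 6 * ki * thS (thS h) := by
    rw [hU, hTU, hF]
    have e0 : κ ^ 2 * ki ^ 2 = 1 := by rw [← mul_pow, hki, one_pow]
    have e5 : (1 - 108 * y) * g ^ 6 = κ ^ 2 := by rw [H.hsq, ← H.hy]; ring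
    have hy := H.hy
    set S := (60 * δ * h + 162 * δ * thS g * ki * h
        + 8748 * δ ^ 2 * ki ^ 2 * h + 162 * δ * g * ki * thS h + g ^ 2 * thS (thS h)) with hS
    have s1 : g ^ 6 * ((1 - 108 * y) * (ki ^ 2 * (ki * g ^ 4 * S))
        - 162 * y * (g ^ 4 * (thS g * ki ^ 2 * h + 54 * δ * ki ^ 3 * h + g * ki ^ 2 * thS h))
        - 60 * y * (g ^ 4 * ki * h))
        = (κ ^ 2 * ki ^ 2) * (ki * g ^ 4 * S)
        - 162 * δ * (g ^ 4 * (thS g * ki ^ 2 * h + 54 * δ * ki ^ 3 * h + g * ki ^ 2 * thS h))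
        - 60 * δ * (g ^ 4 * ki * h) := by
      linear_combination (ki ^ 2 * (ki * g ^ 4 * S)) * e5
        - (162 * (g ^ 4 * (thS g * ki ^ 2 * h + 54 * δ * ki ^ 3 * h + g * ki ^ 2 * thS h))
          + 60 * (g ^ 4 * ki * h)) * hy
    rw [s1, e0, hS]
    ring
  rw [h2, mul_zero] at key
  have key2 : (1 - 108 * y) * (g * ki * thS (g * ki * thS (E f)))
      - 162 * y * (g * ki * thS (E f)) - 60 * y * E f = 0 := by
    have h6 : g ^ 6 * gi ^ 6 = 1 := by rw [← mul_pow, hgi, one_pow]
    calc _ = (g ^ 6 * gi ^ 6) * ((1 - 108 * y) * (g * ki * thS (g * ki * thS (E f)))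
      - 162 * y * (g * ki * thS (E f)) - 60 * y * E f) := by rw [h6, one_mul]
      _ = gi ^ 6 * (g ^ 6 * ((1 - 108 * y) * (g * ki * thS (g * ki * thS (E f)))
      - 162 * y * (g * ki * thS (E f)) - 60 * y * E f)) := by ring
      _ = 0 := by rw [key, mul_zero]
  rw [t2, t1] at key2
  have key3 : E ((1 - Polynomial.C 108 * Polynomial.X) * (Polynomial.X * Polynomial.derivative
        (Polynomial.X * Polynomial.derivative f))
      - Polynomial.C 162 * Polynomial.X * (Polynomial.X * Polynomial.derivative f)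
      - Polynomial.C 60 * Polynomial.X * f) = 0 := by
    rw [hE]
    simp only [Polynomial.eval₂_sub, Polynomial.eval₂_mul, Polynomial.eval₂_X,
      Polynomial.eval₂_one, Polynomial.eval₂_C]
    have c1 : (PowerSeries.C (108 : R)) = 108 := map_ofNat _ 108
    have c2 : (PowerSeries.C (162 : R)) = 162 := map_ofNat _ 162
    have c3 : (PowerSeries.C (60 : R)) = 60 := map_ofNat _ 60
    rw [c1, c2, c3]
    rw [hE] at key2
    simp only [Polynomial.eval₂_mul, Polynomial.eval₂_X] at key2
    exact key2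
  have := OdeA_inj y H.y0 H.y1 _ key3 (n + 1)
  rw [OdeA_coeff] at this
  linear_combination this

end Pool.Agent.Lib.SCG
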