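import Pool.Agent.Lib.SCG.Rel
import Pool.Agent.Lib.SCG.OdeA

/-!
OdeB: the relations hold for the images of `Gs, Ds, Ks, Ls, Ys` in any ring, and series in `X^p`.
PLAN. `toR` is a ring homomorphism commuting with `thS` (coefficientwise). `rels_R`: `thS_Ds`,
`Ks` by definition, `Ks_sq`, `Gs_ode`, `Ys * Gs^6 = Ds` (`PowerSeries.mul_invOfUnit`, `Gs_zero`),
`Ds_zero`, `Ds_one`. `Ks_th`: in `ℤ⟦X⟧` from `Ks_sq` by differentiation and
`Gs thS Ds = Gs Ds Ls = Ds (Ks + 6 thS Gs)`; cancel `2 Ks`.
`thS_expand`: coefficient at `pn` is `p² n² a_n`, `= 0` in `ZMod (p^2)` (for `thS (thS ·)`) and in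
`ZMod p`. `inv_expand`: inverse series: `PowerSeries.expand` is a ring homomorphism.
-/

namespace Pool.Agent.Lib.SCG

private lemma OdeB_thS (R : Type*) [CommRing R] (F : PowerSeries ℤ) :
    thS (toR R F) = toR R (thS F) := by
  ext n
  simp [thS, toR]

private lemma OdeB_add {R : Type*} [CommRing R] (a b : PowerSeries R) :
    thS (a + b) = thS a + thS b := by
  ext n
  simp [thS, mul_add]

private lemma OdeB_mul {R : Type*} [CommRing R] (a b : PowerSeries R) :
    thS (a * b) = thS a * b + a * thS b := by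
  ext n
  simp only [thS, PowerSeries.coeff_mk, map_add, PowerSeries.coeff_mul]
  rw [Finset.mul_sum, ← Finset.sum_add_distrib]
  apply Finset.sum_congr rfl
  rintro ⟨i, j⟩ hij
  have hij := Finset.HasAntidiagonal.mem_antidiagonal.mp hij
  simp only at hij ⊢
  rw [← hij]
  push_cast
  ring

private lemma OdeB_one {R : Type*} [CommRing R] : thS (1 : PowerSeries R) = 0 := by
  ext n
  simp only [thS, PowerSeries.coeff_mk, PowerSeries.coeff_one, map_zero]
  split_ifs with h
  · subst h; simp
  · simp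

private lemma OdeB_pow {R : Type*} [CommRing R] (a : PowerSeries R) (n : ℕ) :
    thS (a ^ (n + 1)) = (n + 1 : ℕ) * a ^ n * thS a := by
  induction n with
  | zero => simp
  | succ n ih =>
    rw [pow_succ, OdeB_mul, ih]
    push_cast
    ring

private lemma OdeB_Gi : Gs * PowerSeries.invOfUnit Gs 1 = 1 :=
  PowerSeries.mul_invOfUnit Gs 1 (by rw [Gs_zero]; rfl)

private lemma OdeB_Gi0 : PowerSeries.constantCoeff (PowerSeries.invOfUnit Gs 1) = 1 := by
  have h := congrArg PowerSeries.constantCoeff OdeB_Gi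
  rw [map_mul, Gs_zero, one_mul, map_one] at h
  exact h

private lemma OdeB_Y : Ys * Gs ^ 6 = Ds := by
  unfold Ys
  have h : PowerSeries.invOfUnit Gs 1 ^ 6 * Gs ^ 6 = 1 := by
    rw [← mul_pow, mul_comm, OdeB_Gi, one_pow]
  rw [mul_assoc, h, mul_one]

theorem rels_R (R : Type*) [CommRing R] :
    Rels (toR R Gs) (toR R Ds) (toR R Ks) (toR R Ls) (toR R Ys) where
  hd := by rw [OdeB_thS, thS_Ds, toR, map_mul]
  hk := by
    rw [OdeB_thS]
    have : Ks = Gs * Ls - 6 * thS Gs := rfl
    rw [this, toR, map_sub, map_mul, map_mul, map_ofNat]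
  hsq := by
    have h := congrArg (PowerSeries.map (Int.castRingHom R)) Ks_sq
    rwa [map_pow, map_sub, map_pow, map_mul, map_ofNat] at h
  hode := by
    have h := congrArg (PowerSeries.map (Int.castRingHom R)) Gs_ode
    rw [map_sub, map_mul, map_mul, map_mul, map_pow, map_ofNat, map_ofNat] at h
    rw [OdeB_thS, OdeB_thS]
    exact h
  hy := by
    have h := congrArg (PowerSeries.map (Int.castRingHom R)) OdeB_Y
    rwa [map_mul, map_pow] at h
  g0 := by
    rw [← PowerSeries.coeff_zero_eq_constantCoeff_apply, toR, PowerSeries.coeff_map,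
      PowerSeries.coeff_zero_eq_constantCoeff_apply, Gs_zero, map_one]
  k0 := by
    rw [← PowerSeries.coeff_zero_eq_constantCoeff_apply, toR, PowerSeries.coeff_map,
      PowerSeries.coeff_zero_eq_constantCoeff_apply, Ks_zero, map_one]
  y0 := by
    have h : PowerSeries.constantCoeff Ys = 0 := by
      unfold Ys
      rw [map_mul, Ds_zero, zero_mul]
    rw [← PowerSeries.coeff_zero_eq_constantCoeff_apply, toR, PowerSeries.coeff_map,
      PowerSeries.coeff_zero_eq_constantCoeff_apply, h, map_zero]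
  y1 := by
    have h : PowerSeries.coeff 1 Ys = 1 := by
      unfold Ys
      rw [PowerSeries.coeff_one_mul, Ds_zero, Ds_one, map_pow, OdeB_Gi0]
      simp
    have h' := congrArg (Int.castRingHom R) h
    simpa using h'

theorem Ks_th : Gs * thS Ks = 3 * Ks * thS Gs - 54 * Ds := by
  have h1 : thS (Ks ^ 2) = 2 * Ks * thS Ks := by
    rw [OdeB_pow Ks 1]; push_cast; ring
  have h2 : thS (Gs ^ 6) = 6 * Gs ^ 5 * thS Gs := by
    rw [OdeB_pow Gs 5]; push_cast; ring
  have h3 : thS (Ks ^ 2) + 108 * thS Ds = thS (Gs ^ 6) := by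
    have h4 : Ks ^ 2 + 108 * Ds = Gs ^ 6 := by rw [Ks_sq]; ring
    have h5 : thS (108 * Ds) = 108 * thS Ds := by
      have : (108 : PowerSeries ℤ) = PowerSeries.C 108 := (map_ofNat _ 108).symm
      rw [this]
      ext n
      simp only [thS, PowerSeries.coeff_mk, PowerSeries.coeff_C_mul]
      ring
    rw [← h4, OdeB_add, h5]
  have hk : Ks = Gs * Ls - 6 * thS Gs := rfl
  have h4 : (2 * Ks) * (Gs * thS Ks) = (2 * Ks) * (3 * Ks * thS Gs - 54 * Ds) := by
    rw [h1, h2, thS_Ds] at h3
    have hsq := Ks_sq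
    have hk' : Gs * Ls = Ks + 6 * thS Gs := by rw [hk]; ring
    linear_combination Gs * h3 - 108 * Ds * hk' - 6 * thS Gs * hsq
  have hne : (2 * Ks : PowerSeries ℤ) ≠ 0 := by
    intro h0
    have := congrArg PowerSeries.constantCoeff h0
    rw [map_mul, Ks_zero, map_zero, map_ofNat] at this
    norm_num at this
  exact mul_left_cancel₀ hne h4

theorem Ks_th_R (R : Type*) [CommRing R] : toR R Gs * thS (toR R Ks)
    = 3 * toR R Ks * thS (toR R Gs) - 54 * toR R Ds := by
  have h := congrArg (PowerSeries.map (Int.castRingHom R)) Ks_th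
  rw [map_mul, map_sub, map_mul, map_mul, map_mul, map_ofNat, map_ofNat] at h
  rw [OdeB_thS, OdeB_thS]
  exact h

theorem thS_expand (p : ℕ) [Fact p.Prime] (hp : p ≠ 0) (m : ℕ) (hm : m ∣ p ^ 2)
    (a : PowerSeries (ZMod m)) : thS (thS (PowerSeries.expand p hp a)) = 0 := by
  ext n
  simp only [thS, PowerSeries.coeff_mk, map_zero]
  by_cases h : p ∣ n
  · obtain ⟨k, rfl⟩ := h
    have h0 : ((p : ZMod m)) ^ 2 = 0 := by
      have := (ZMod.natCast_eq_zero_iff (p ^ 2) m).mpr hm
      exact_mod_cast this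
    push_cast
    linear_combination ((k : ZMod m) ^ 2 * PowerSeries.coeff (p * k)
      (PowerSeries.expand p hp a)) * h0
  · rw [PowerSeries.coeff_expand_of_not_dvd p hp _ h]
    ring

lemma toR_expand (R : Type*) [CommRing R] (p : ℕ) (hp : p ≠ 0) (F : PowerSeries ℤ) :
    toR R (PowerSeries.expand p hp F) = PowerSeries.expand p hp (toR R F) :=
  PowerSeries.map_expand p hp _ F

/-- Divisibility by an integer is vanishing in `ZMod`. -/
lemma toR_eq_zero (m : ℕ) (F : PowerSeries ℤ) :
    toR (ZMod m) F = 0 ↔ PowerSeries.C (m : ℤ) ∣ F := by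
  constructor
  · intro h
    have h1 : ∀ n, (m : ℤ) ∣ PowerSeries.coeff n F := by
      intro n
      have h2 := congrArg (PowerSeries.coeff n) h
      rw [toR, PowerSeries.coeff_map, map_zero] at h2
      exact (ZMod.intCast_zmod_eq_zero_iff_dvd _ _).mp (by simpa using h2)
    choose c hc using h1
    refine ⟨PowerSeries.mk c, ?_⟩
    ext n
    rw [PowerSeries.coeff_C_mul, PowerSeries.coeff_mk, hc]
  · rintro ⟨G, rfl⟩
    rw [toR, map_mul, PowerSeries.map_C]
    simp

end Pool.Agent.Lib.SCG
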