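import Pool.Agent.Lib.SCG.CongA
import Pool.Agent.Lib.SCG.OdeB
import Pool.Agent.Lib.SCG.HG

/-!
CongB: the congruences C1, C2 (see the paper, section 4).
PLAN. `R = ZMod (p^2)`, `g, δ, κ, y` the images of the series, `N` of `NG p`, `e` of
`expand p Gs`. `c1` (`χ p = 1`): `pform` gives `hom p (P p) g δ = N`, i.e. (`hom_eval`,
`6 deg P_p ≤ p`) `g^p P_p(y) = N`; `dform`: `g^(p+1) d(y) = e N`. `p ∣ d - 1` gives
`(2 - d) d = 1 - (d-1)² = 1` in `R[Y]`. `N`, `g`, `e` are units (`N_0 = 1` mod p, so a unit).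
Hence `(P_p (2-d))(y) · e = g`: multiply: `g^p P_p(y) (2-d(y)) · e N ... `:
`P_p(y)(2-d(y)) g^p e N = N (2-d(y)) g^(p+1) d(y) = N g^(p+1)`. So `= g * h`, `h = e⁻¹ =
expand p (g⁻¹)`, `thS (thS h) = 0` (`thS_expand`). `ode1` for the image of `P_p (2-d)` and
`sum1`; degree `≤ p/6 + (p+1)/6 < p`; the constant coefficient: of both sides of
`eval₂ C y f = g h`, `constantCoeff = 1`. `c2` (`χ p = -1`): `κ g^(p-3) P_p(y) = N`, so
`κ (P_p(2-d))(y) = g⁴ h`; `ode2`, `sum2` (`P_p = 0` impossible as `N ≠ 0`, or harmless).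
-/

namespace Pool.Agent.Lib.SCG

/-- Integral polynomials evaluated at a series. -/
lemma CongB_eval (R : Type*) [CommRing R] (y : PowerSeries R) (f : Polynomial ℤ) :
    Polynomial.eval₂ (PowerSeries.C (R := R)) y (f.map (Int.castRingHom R))
      = Polynomial.eval₂ (Int.castRingHom (PowerSeries R)) y f := by
  rw [Polynomial.eval₂_map]
  congr 1
  exact RingHom.ext_int _ _

lemma CongB_ofNat {A : Type*} [CommRing A] (φ : ℤ →+* A) (y : A) (n : ℕ) [n.AtLeastTwo] :
    Polynomial.eval₂ φ y (OfNat.ofNat n) = OfNat.ofNat n := by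
  rw [← Polynomial.coe_eval₂RingHom]
  exact map_ofNat _ n

lemma CongB_const (R : Type*) [CommRing R] (y : PowerSeries R)
    (hy : PowerSeries.constantCoeff y = 0) (f : Polynomial ℤ) :
    PowerSeries.constantCoeff (Polynomial.eval₂ (Int.castRingHom (PowerSeries R)) y f)
      = ((f.coeff 0 : ℤ) : R) := by
  rw [Polynomial.hom_eval₂, hy, Polynomial.eval₂_at_zero]
  simp

/-- From the power series identity to the first sum. -/
lemma CongB_fin1 (p : ℕ) [Fact p.Prime] (h3 : 3 < p) (k : ℕ) (f : Polynomial ℤ)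
    (hdeg : f.natDegree < p) (h : PowerSeries (ZMod (p ^ k)))
    (hh : PowerSeries.constantCoeff h = 1) (hth : thS (thS h) = 0)
    (hf : Polynomial.eval₂ (Int.castRingHom (PowerSeries (ZMod (p ^ k)))) (toR _ Ys) f
      = toR _ Gs * h) : Cong p k (S1 p) (evq f) := by
  have H := rels_R (ZMod (p ^ k))
  apply sum1 p h3 k f hdeg
  · rw [← CongB_const _ _ H.y0 f, hf, map_mul, H.g0, hh, one_mul]
  · intro n
    have := ode1 H (Ks_th_R _) (f.map (Int.castRingHom _)) h (by rw [CongB_eval, hf]) hth n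
    simpa using this

/-- From the power series identity to the second sum. -/
lemma CongB_fin2 (p : ℕ) [Fact p.Prime] (h3 : 3 < p) (k : ℕ) (f : Polynomial ℤ)
    (hdeg : f.natDegree < p) (h : PowerSeries (ZMod (p ^ k)))
    (hh : PowerSeries.constantCoeff h = 1) (hth : thS (thS h) = 0)
    (hf : toR _ Ks * Polynomial.eval₂ (Int.castRingHom (PowerSeries (ZMod (p ^ k))))
      (toR _ Ys) f = toR _ Gs ^ 4 * h) : Cong p k (S2 p) (evq f) := by
  have H := rels_R (ZMod (p ^ k))
  apply sum2 p h3 k f hdeg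
  · have h1 := congrArg PowerSeries.constantCoeff hf
    rw [map_mul, CongB_const _ _ H.y0 f, H.k0, one_mul, map_mul, map_pow, H.g0, hh] at h1
    simpa using h1
  · intro n
    have := ode2 H (Ks_th_R _) (f.map (Int.castRingHom _)) h (by rw [CongB_eval, hf]) hth n
    simpa using this

/-- Units. -/
lemma CongB_inv {R : Type*} [CommRing R] (a : PowerSeries R)
    (h : IsUnit (PowerSeries.constantCoeff a)) : ∃ b, a * b = 1 := by
  have : IsUnit a := by rwa [PowerSeries.isUnit_iff_constantCoeff]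
  obtain ⟨b, hb⟩ := this.exists_right_inv
  exact ⟨b, hb⟩

lemma CongB_toR_dvd (p k : ℕ) (F F' : PowerSeries ℤ)
    (h : PowerSeries.C ((p : ℤ) ^ k) ∣ F - F') :
    toR (ZMod (p ^ k)) F = toR (ZMod (p ^ k)) F' := by
  have h1 := (toR_eq_zero (p ^ k) (F - F')).mpr (by push_cast; exact h)
  rw [toR, map_sub, sub_eq_zero] at h1
  exact h1

lemma CongB_psq (p : ℕ) : ((p : PowerSeries (ZMod (p ^ 2)))) ^ 2 = 0 := by
  have h : ((p : ZMod (p ^ 2))) ^ 2 = 0 := by
    have := ZMod.natCast_self (p ^ 2)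
    push_cast at this
    exact this
  have h2 : ((p : PowerSeries (ZMod (p ^ 2)))) = PowerSeries.C ((p : ℕ) : ZMod (p ^ 2)) := by
    rw [map_natCast]
  rw [h2, ← map_pow, h, map_zero]

/-- The common facts modulo `p²`. -/
lemma CongB_facts (p : ℕ) [Fact p.Prime] [NeZero p] (P : ℕ → Polynomial ℤ) (d : Polynomial ℤ)
    (H : HGdata p P d) :
    ∃ (B m e ei gi N Ni : PowerSeries (ZMod (p ^ 2))),
      B = Polynomial.eval₂ (Int.castRingHom _) (toR _ Ys) d ∧ B = 1 + (p : PowerSeries (ZMod (p ^ 2))) * m ∧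
      N = toR _ (NG p) ∧ N * Ni = 1 ∧ e = PowerSeries.expand p (NeZero.ne p) (toR _ Gs) ∧
      toR _ Gs * gi = 1 ∧ ei = PowerSeries.expand p (NeZero.ne p) gi ∧ e * ei = 1 ∧
      PowerSeries.constantCoeff gi = 1 ∧
      toR _ Gs ^ (p + 1) * B = e * N := by
  have HR := rels_R (ZMod (p ^ 2))
  obtain ⟨m0, hm0⟩ := H.done
  obtain ⟨gi, hgi⟩ := CongB_inv (toR (ZMod (p ^ 2)) Gs) (by rw [HR.g0]; exact isUnit_one)
  obtain ⟨v, hv⟩ := NG_congr p
  have hN0 : IsUnit (PowerSeries.constantCoeff (toR (ZMod (p ^ 2)) (NG p))) := by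
    have h1 : NG p = Gs + PowerSeries.C (p : ℤ) * v := by rw [← hv]; ring
    have h2 : PowerSeries.constantCoeff (toR (ZMod (p ^ 2)) (NG p))
        = 1 + (p : ZMod (p ^ 2)) * PowerSeries.constantCoeff (toR (ZMod (p ^ 2)) v) := by
      rw [h1, toR, map_add, map_add, map_mul, map_mul]
      have := HR.g0
      rw [toR] at this
      rw [this]
      simp
    have h3 : ((p : ZMod (p ^ 2))) ^ 2 = 0 := by
      have := ZMod.natCast_self (p ^ 2)
      push_cast at this
      exact this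
    rw [h2]
    apply IsUnit.of_mul_eq_one (1 - (p : ZMod (p ^ 2)) * PowerSeries.constantCoeff (toR (ZMod (p ^ 2)) v))
    linear_combination (-(PowerSeries.constantCoeff (toR (ZMod (p ^ 2)) v)) ^ 2) * h3
  obtain ⟨Ni, hNi⟩ := CongB_inv _ hN0
  refine ⟨_, Polynomial.eval₂ (Int.castRingHom _) (toR _ Ys) m0, _, _, gi, _, Ni, rfl, ?_, rfl,
    hNi, rfl, hgi, rfl, ?_, ?_, ?_⟩
  · have h1 : d = 1 + Polynomial.C (p : ℤ) * m0 := by rw [← hm0]; ring
    rw [h1, Polynomial.eval₂_add, Polynomial.eval₂_mul, Polynomial.eval₂_C,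
      Polynomial.eval₂_one]
    simp
  · rw [← map_mul, hgi, map_one]
  · have h1 := congrArg PowerSeries.constantCoeff hgi
    rw [map_mul, HR.g0, one_mul, map_one] at h1
    exact h1
  · have h1 := congrArg (PowerSeries.map (Int.castRingHom (ZMod (p ^ 2)))) H.dform
    rw [hom_map, map_mul] at h1
    rw [hom_eval (p + 1) d H.ddeg _ _ (toR _ Ys) HR.hy] at h1
    rw [← toR_expand]
    exact h1

private lemma CongB_deg (p : ℕ) (h3 : 3 < p) (P : ℕ → Polynomial ℤ) (d : Polynomial ℤ)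
    (h1 : 6 * (P p).natDegree ≤ p) (h2 : 6 * d.natDegree ≤ p + 1) :
    (P p * (2 - d)).natDegree < p := by
  have h4 : (P p * (2 - d)).natDegree ≤ (P p).natDegree + (2 - d).natDegree :=
    Polynomial.natDegree_mul_le
  have h5 : (2 - d).natDegree ≤ max (2 : Polynomial ℤ).natDegree d.natDegree :=
    Polynomial.natDegree_sub_le _ _
  have h6 : (2 : Polynomial ℤ).natDegree = 0 := Polynomial.natDegree_ofNat 2
  rw [h6] at h5
  have h7 : max 0 d.natDegree = d.natDegree := by simp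
  omega

theorem c1 (p : ℕ) [Fact p.Prime] [NeZero p] (h3 : 3 < p) (hchi : chi p = 1)
    (P : ℕ → Polynomial ℤ) (d : Polynomial ℤ) (H : HGdata p P d) :
    Cong p 2 (S1 p) (evq (P p * (2 - d))) := by
  have HR := rels_R (ZMod (p ^ 2))
  obtain ⟨B, m, e, ei, gi, N, Ni, hB, hBm, hN, hNi, he, hgi, hei, heei, hgi0, hd⟩ :=
    CongB_facts p P d H
  have hdeg : 6 * (P p).natDegree ≤ p := by
    have := H.deg p (by omega)
    rw [hchi, one_pow] at this
    simpa [DegOK] using this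
  have hp : toR (ZMod (p ^ 2)) Gs ^ p * Polynomial.eval₂ (Int.castRingHom _) (toR _ Ys) (P p)
      = N := by
    have h1 := CongB_toR_dvd p 2 _ _ H.pform
    rw [toR, sgh_map, hchi] at h1
    rw [hN, ← h1]
    simp only [sgh, if_true]
    rw [hom_eval p (P p) hdeg _ _ (toR _ Ys) HR.hy]
  apply CongB_fin1 p h3 2 (P p * (2 - d)) (CongB_deg p h3 P d hdeg H.ddeg) ei
  · rw [hei]
    simp [hgi0]
  · rw [hei]
    exact thS_expand p (NeZero.ne p) (p ^ 2) dvd_rfl gi
  · rw [Polynomial.eval₂_mul, Polynomial.eval₂_sub, ← hB]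
    rw [CongB_ofNat _ _ 2]
    set A := Polynomial.eval₂ (Int.castRingHom (PowerSeries (ZMod (p ^ 2)))) (toR _ Ys) (P p)
    set g := toR (ZMod (p ^ 2)) Gs
    have hBB : (2 - B) * B = 1 := by
      rw [hBm]
      linear_combination (-(m ^ 2)) * CongB_psq p
    have hg1 : g ^ (p + 1) = g ^ p * g := pow_succ g p
    rw [hg1] at hd
    -- A (2-B) e N = g N
    have h4 : A * (2 - B) * e * N = g * N := by
      linear_combination (-(A * (2 - B))) * hd + (A * g ^ p * g) * hBB + g * hp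
    calc A * (2 - B) = (A * (2 - B) * e * N) * (Ni * ei) := by
          linear_combination (-(A * (2 - B))) * heei - (A * (2 - B) * e * ei) * hNi
      _ = g * N * (Ni * ei) := by rw [h4]
      _ = g * ei := by linear_combination (g * ei) * hNi

theorem c2 (p : ℕ) [Fact p.Prime] [NeZero p] (h3 : 3 < p) (hchi : chi p = -1)
    (P : ℕ → Polynomial ℤ) (d : Polynomial ℤ) (H : HGdata p P d) :
    Cong p 2 (S2 p) (evq (P p * (2 - d))) := by
  have HR := rels_R (ZMod (p ^ 2))
  have hodd : Odd p := (Fact.out : p.Prime).odd_of_ne_two (by omega)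
  obtain ⟨B, m, e, ei, gi, N, Ni, hB, hBm, hN, hNi, he, hgi, hei, heei, hgi0, hd⟩ :=
    CongB_facts p P d H
  have hdeg : 6 * (P p).natDegree ≤ p - 3 := by
    have := H.deg p (by omega)
    rw [hchi, hodd.neg_one_pow] at this
    unfold DegOK at this
    rw [if_neg (by norm_num)] at this
    rcases this with h0 | h0
    · rw [h0]; simp
    · omega
  have hp : toR (ZMod (p ^ 2)) Ks * (toR (ZMod (p ^ 2)) Gs ^ (p - 3) *
      Polynomial.eval₂ (Int.castRingHom _) (toR _ Ys) (P p)) = N := by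
    have h1 := CongB_toR_dvd p 2 _ _ H.pform
    rw [toR, sgh_map, hchi] at h1
    rw [hN, ← h1]
    unfold sgh
    rw [if_neg (by norm_num), hom_eval (p - 3) (P p) hdeg _ _ (toR _ Ys) HR.hy]
  apply CongB_fin2 p h3 2 (P p * (2 - d)) (CongB_deg p h3 P d (by omega) H.ddeg) ei
  · rw [hei]
    simp [hgi0]
  · rw [hei]
    exact thS_expand p (NeZero.ne p) (p ^ 2) dvd_rfl gi
  · rw [Polynomial.eval₂_mul, Polynomial.eval₂_sub, ← hB]
    rw [CongB_ofNat _ _ 2]
    set A := Polynomial.eval₂ (Int.castRingHom (PowerSeries (ZMod (p ^ 2)))) (toR _ Ys) (P p)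
    set g := toR (ZMod (p ^ 2)) Gs
    set κ := toR (ZMod (p ^ 2)) Ks
    have hBB : (2 - B) * B = 1 := by
      rw [hBm]
      linear_combination (-(m ^ 2)) * CongB_psq p
    have hg1 : g ^ (p + 1) = g ^ (p - 3) * g ^ 4 := by
      rw [← pow_add]
      congr 1
      omega
    rw [hg1] at hd
    have h4 : κ * (A * (2 - B)) * e * N = g ^ 4 * N := by
      linear_combination (-(κ * A * (2 - B))) * hd + (κ * A * g ^ (p - 3) * g ^ 4) * hBB
        + g ^ 4 * hp
    calc κ * (A * (2 - B)) = (κ * (A * (2 - B)) * e * N) * (Ni * ei) := by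
          linear_combination (-(κ * (A * (2 - B)))) * heei - (κ * (A * (2 - B)) * e * ei) * hNi
      _ = g ^ 4 * N * (Ni * ei) := by rw [h4]
      _ = g ^ 4 * ei := by linear_combination (g ^ 4 * ei) * hNi

end Pool.Agent.Lib.SCG
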