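import Pool.Agent.Lib.SCG.PsiB
import Pool.Agent.Lib.SCG.SymD
import Pool.Agent.Lib.SCG.Struct
import Pool.Agent.Lib.SCG.Tri
import Pool.Agent.Lib.SCG.Hom

/-!
HK: structure of the coefficients of `Psi l`.
PLAN. Apply `struct_int` with `ε = -χ(l)^i`, weight `3+3l+i`, to `l^{-3} (Psi l τ).coeff (l-i)`
(`Psi_aut`, `Psi_ex`, scalars), series `B'.coeff (l-i)` with `B'` the polynomial in `Psi_ex`.
`dvd`: `l ∣ B'.coeff (l-i)` for `0 < i < l` by `PF_dvd`; `sgh_dvd`. `const`: `i = l`: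
`B'.coeff 0 = χ³ expand Ks N³ (PF).coeff 0 - χ³ (expand Gs)³ χ l (expand Gs) l S_0`,
`(PF l Gs).coeff 0 = -NG l`, `χ³ = χ`.
-/

namespace Pool.Agent.Lib.SCG

open UpperHalfPlane

/-- The data of the polynomial `Psi l`. -/
structure HKdata (l : ℕ) [NeZero l] (Q : ℕ → Polynomial ℤ) : Prop where
  deg : ∀ i ≤ l, DegOK (-chi l ^ i) (3 + 3 * l + i) (Q i)
  coeff : ∀ i ≤ l, ∀ τ : ℍ, (Psi l τ).coeff (l - i)
    = (l : ℂ) ^ 3 * sgh (-chi l ^ i) (3 + 3 * l + i) (Q i) (Gf τ) (Df τ) (Kf τ)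
  dvd : ∀ i, 0 < i → i < l → Polynomial.C (l : ℤ) ∣ Q i
  const : PowerSeries.C ((l : ℤ) ^ 2) ∣ sgh (-chi l) (3 + 4 * l) (Q l) Gs Ds Ks
    + PowerSeries.C (chi l) * PowerSeries.expand l (NeZero.ne l) Ks * NG l ^ 4

theorem HK (l : ℕ) [Fact l.Prime] [NeZero l] (h2 : l ≠ 2) (h3 : l ≠ 3) :
    ∃ Q : ℕ → Polynomial ℤ, HKdata l Q := by
  have hodd : Odd l := (Fact.out : l.Prime).odd_of_ne_two h2
  have hl0 : (l : ℂ) ≠ 0 := by exact_mod_cast (NeZero.ne l)
  have hchi' : chi l ^ l = chi l := by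
    rcases chi_sq l h3 with h | h
    · rw [h, one_pow]
    · rw [h]; exact hodd.neg_one_pow
  have hchi3 : chi l ^ 3 = chi l := by
    rcases chi_sq l h3 with h | h <;> rw [h] <;> norm_num
  have hε : ∀ i : ℕ, -(chi l) ^ i = 1 ∨ -(chi l) ^ i = -1 := by
    intro i
    rcases chi_sq l h3 with h | h
    · right; rw [h, one_pow]
    · rw [h]
      rcases neg_one_pow_eq_or ℤ i with h' | h' <;> rw [h'] <;> simp
  obtain ⟨S, hS⟩ := Psi_ex l h2
  obtain ⟨B, hB⟩ : ∃ B : Polynomial (PowerSeries ℤ), B =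
      Polynomial.C (PowerSeries.C (chi l ^ 3) * PowerSeries.expand l (NeZero.ne l) Ks
            * NG l ^ 3) * PF l Gs
          + Polynomial.C (PowerSeries.C (chi l ^ 3) * PowerSeries.expand l (NeZero.ne l) Gs ^ 3)
            * (Polynomial.X - Polynomial.C (PowerSeries.C (chi l * l)
              * PowerSeries.expand l (NeZero.ne l) Gs))
            * (Polynomial.C (PowerSeries.C (l : ℤ)) * S) := ⟨_, rfl⟩
  rw [← hB] at hS
  have hB1 : ∀ n, B.coeff n = (PowerSeries.C (chi l ^ 3) * PowerSeries.expand l (NeZero.ne l) Ks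
            * NG l ^ 3) * (PF l Gs).coeff n + PowerSeries.C (l : ℤ) *
          (Polynomial.C (PowerSeries.C (chi l ^ 3) * PowerSeries.expand l (NeZero.ne l) Gs ^ 3)
            * (Polynomial.X - Polynomial.C (PowerSeries.C (chi l * l)
              * PowerSeries.expand l (NeZero.ne l) Gs)) * S).coeff n := by
    intro n
    rw [hB, Polynomial.coeff_add, Polynomial.coeff_C_mul, ← Polynomial.coeff_C_mul
      (a := PowerSeries.C (l : ℤ))]
    congr 2
    ring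
  have hex : ∀ i : ℕ, ∃ Q : Polynomial ℤ, i ≤ l →
      DegOK (-chi l ^ i) (3 + 3 * l + i) Q ∧
      (∀ τ : ℍ, (Psi l τ).coeff (l - i)
        = (l : ℂ) ^ 3 * sgh (-chi l ^ i) (3 + 3 * l + i) Q (Gf τ) (Df τ) (Kf τ)) ∧
      B.coeff (l - i) = sgh (-chi l ^ i) (3 + 3 * l + i) Q Gs Ds Ks := by
    intro i
    by_cases hi : i ≤ l
    · have e1 := (Psi_aut l h2 h3 i hi).smul (((l : ℂ) ^ 3)⁻¹)
      have e2 := Ex.smul (((l : ℂ) ^ 3)⁻¹) (hS (l - i))
      have e3 : PowerSeries.C (((l : ℂ) ^ 3)⁻¹) * toC (PowerSeries.C ((l : ℤ) ^ 3) *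
          B.coeff (l - i)) = toC (B.coeff (l - i)) := by
        have e4 : toC (PowerSeries.C ((l : ℤ) ^ 3) * B.coeff (l - i))
            = PowerSeries.C ((l : ℂ) ^ 3) * toC (B.coeff (l - i)) := by
          simp [toC]
        rw [e4, ← mul_assoc, ← map_mul, inv_mul_cancel₀ (pow_ne_zero 3 hl0), map_one, one_mul]
      rw [e3] at e2
      obtain ⟨Q, hQ1, hQ2, hQ3⟩ := struct_int _ (hε i) _ e1 e2
      refine ⟨Q, fun _ => ⟨hQ1, fun τ => ?_, hQ3⟩⟩
      rw [← hQ2 τ, ← mul_assoc, mul_inv_cancel₀ (pow_ne_zero 3 hl0), one_mul]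
    · exact ⟨0, fun h => absurd h hi⟩
  choose Q hQ using hex
  refine ⟨Q, ⟨fun i hi => (hQ i hi).1, fun i hi => (hQ i hi).2.1, ?_, ?_⟩⟩
  · intro i hi hil
    obtain ⟨n1, -, n3⟩ := hQ i hil.le
    refine sgh_dvd _ (hε i) _ _ n1 _ ?_
    rw [← n3, hB1]
    exact dvd_add (Dvd.dvd.mul_left (PF_dvd l Gs (l - i) (by omega) (by omega)) _)
      (dvd_mul_right _ _)
  · obtain ⟨-, -, n3⟩ := hQ l le_rfl
    rw [hchi', Nat.sub_self, hB1, show 3 + 3 * l + l = 3 + 4 * l by ring] at n3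
    rw [← n3]
    have e1 : (PF l Gs).coeff 0 = -NG l := by unfold NG; ring
    have e2 : (Polynomial.C (PowerSeries.C (chi l ^ 3) * PowerSeries.expand l (NeZero.ne l) Gs ^ 3)
            * (Polynomial.X - Polynomial.C (PowerSeries.C (chi l * l)
              * PowerSeries.expand l (NeZero.ne l) Gs)) * S).coeff 0
        = PowerSeries.C (l : ℤ) * (-(PowerSeries.C (chi l ^ 3) *
            PowerSeries.expand l (NeZero.ne l) Gs ^ 3 * (PowerSeries.C (chi l) *
              PowerSeries.expand l (NeZero.ne l) Gs) * S.coeff 0)) := by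
      rw [Polynomial.mul_coeff_zero, Polynomial.mul_coeff_zero, Polynomial.coeff_C_zero,
        Polynomial.coeff_sub, Polynomial.coeff_X_zero, Polynomial.coeff_C_zero, map_mul]
      ring
    rw [e1, e2, hchi3, map_pow]
    refine ⟨-(PowerSeries.C (chi l) *
            PowerSeries.expand l (NeZero.ne l) Gs ^ 3 * (PowerSeries.C (chi l) *
              PowerSeries.expand l (NeZero.ne l) Gs) * S.coeff 0), ?_⟩
    ring

end Pool.Agent.Lib.SCG
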