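import Pool.Agent.Lib.SCG.CongB
import Pool.Agent.Lib.SCG.CongA
import Pool.Agent.Lib.SCG.OdeB
import Pool.Agent.Lib.SCG.HG
import Pool.Agent.Lib.SCG.HK

/-!
CongC: the congruences C3, C4 (see the paper, section 4).
PLAN. `R = ZMod (p^2)`, `g, δ, κ, y, N, e` as in CongB, `k' = ` image of `expand p Ks`. `const`:
`sgh (-χ) (3+4p) (Q p) = - χ k' N⁴` in `R⟦X⟧`. `q := - χ · Q p` (so `sgh (-χ)(3+4p) q = k' N⁴`).
`c3` (`χ = 1`): `κ g^(4p) q(y) = k' N⁴`, `g^(p+1) d(y) = e N`, and `(5 - 4d) d⁴ = 1` in `R[Y]`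
(`d = 1 + p d'`: `(1 - 4pd')(1 + 4pd') = 1`). So
`κ q(y)(5 - 4d(y)) = k' N⁴ g^{-4p} g^{4p+4} e⁻⁴ N⁻⁴ = g⁴ · k' e⁻⁴ = g⁴ h`,
`h = expand p (κ g⁻⁴)`: `ode2`, `sum2`; degree `≤ 4p/6 + (p+1)/6 < p`.
`c4` (`χ = -1`): `g^(4p+3) q(y) = k' N⁴` gives `q(y)(5-4d(y)) = g k' e⁻⁴ = g h`: `ode1`, `sum1`;
degree `≤ (4p+3)/6 + (p+1)/6 < p` for `p > 4`.
-/

namespace Pool.Agent.Lib.SCG

private lemma CongC_deg (p n : ℕ) (h3 : 3 < p) (q d : Polynomial ℤ)
    (h1 : 6 * q.natDegree ≤ n) (hn : n ≤ 4 * p + 3) (h2 : 6 * d.natDegree ≤ p + 1) :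
    (q * (5 - 4 * d)).natDegree < p := by
  have h4 : (q * (5 - 4 * d)).natDegree ≤ q.natDegree + (5 - 4 * d).natDegree :=
    Polynomial.natDegree_mul_le
  have h5 : (5 - 4 * d).natDegree ≤ max (5 : Polynomial ℤ).natDegree (4 * d).natDegree :=
    Polynomial.natDegree_sub_le _ _
  have h6 : (5 : Polynomial ℤ).natDegree = 0 := Polynomial.natDegree_ofNat 5
  have h7 : (4 * d).natDegree ≤ (4 : Polynomial ℤ).natDegree + d.natDegree :=
    Polynomial.natDegree_mul_le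
  have h8 : (4 : Polynomial ℤ).natDegree = 0 := Polynomial.natDegree_ofNat 4
  rw [h6] at h5
  rw [h8] at h7
  have h9 : max 0 (4 * d).natDegree = (4 * d).natDegree := by simp
  omega

private lemma CongC_B {A : Type*} [CommRing A] (P m B : A) (hP : P ^ 2 = 0)
    (hB : B = 1 + P * m) : (5 - 4 * B) * B ^ 4 = 1 := by
  rw [hB]
  linear_combination (-(m ^ 2) * (4 * (1 + P * m) ^ 3 + 3 * (1 + P * m) ^ 2
    + 2 * (1 + P * m) + 1)) * hP

theorem c3 (p : ℕ) [Fact p.Prime] [NeZero p] (h3 : 3 < p) (hchi : chi p = 1)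
    (P : ℕ → Polynomial ℤ) (d : Polynomial ℤ) (H : HGdata p P d)
    (Q : ℕ → Polynomial ℤ) (HQ : HKdata p Q) :
    Cong p 2 (S2 p) (evq (-Q p * (5 - 4 * d))) := by
  have HR := rels_R (ZMod (p ^ 2))
  obtain ⟨B, m, e, ei, gi, N, Ni, hB, hBm, hN, hNi, he, hgi, hei, heei, hgi0, hd⟩ :=
    CongB_facts p P d H
  have hdeg : 6 * (Q p).natDegree ≤ 4 * p := by
    have := HQ.deg p le_rfl
    rw [hchi, one_pow] at this
    unfold DegOK at this
    rw [if_neg (by norm_num)] at this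
    rcases this with h0 | h0
    · rw [h0]; simp
    · omega
  set k' := PowerSeries.expand p (NeZero.ne p) (toR (ZMod (p ^ 2)) Ks) with hk'
  have hq : toR (ZMod (p ^ 2)) Ks * (toR (ZMod (p ^ 2)) Gs ^ (4 * p) *
      Polynomial.eval₂ (Int.castRingHom _) (toR _ Ys) (Q p)) = -(k' * N ^ 4) := by
    have h0 : PowerSeries.C ((p : ℤ) ^ 2) ∣ sgh (-chi p) (3 + 4 * p) (Q p) Gs Ds Ks
      - (-(PowerSeries.C (chi p) * PowerSeries.expand p (NeZero.ne p) Ks * NG p ^ 4)) := by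
      have := HQ.const
      rwa [sub_neg_eq_add]
    have h1 := CongB_toR_dvd p 2 _ _ h0
    rw [toR, sgh_map, hchi] at h1
    unfold sgh at h1
    rw [if_neg (by norm_num), show 3 + 4 * p - 3 = 4 * p by omega,
      hom_eval (4 * p) (Q p) hdeg _ _ (toR _ Ys) HR.hy] at h1
    rw [h1, toR, map_neg, map_mul, map_mul, map_pow, map_one, map_one, one_mul, hN, hk',
      ← toR_expand]
  apply CongB_fin2 p h3 2 (-Q p * (5 - 4 * d)) (CongC_deg p (4 * p) h3 _ d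
    (by rw [Polynomial.natDegree_neg]; exact hdeg) (by omega) H.ddeg) (k' * ei ^ 4)
  · rw [hei, hk']
    simp only [map_mul, map_pow, PowerSeries.constantCoeff_expand, hgi0, HR.k0, one_pow, mul_one]
  · rw [hei, hk', ← map_pow, ← map_mul]
    exact thS_expand p (NeZero.ne p) (p ^ 2) dvd_rfl _
  · rw [Polynomial.eval₂_mul, Polynomial.eval₂_neg, Polynomial.eval₂_sub, Polynomial.eval₂_mul,
      ← hB, CongB_ofNat _ _ 5, CongB_ofNat _ _ 4]
    set A := Polynomial.eval₂ (Int.castRingHom (PowerSeries (ZMod (p ^ 2)))) (toR _ Ys) (Q p)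
    set g := toR (ZMod (p ^ 2)) Gs
    set κ := toR (ZMod (p ^ 2)) Ks
    have hBB := CongC_B (p : PowerSeries (ZMod (p ^ 2))) m B (CongB_psq p) hBm
    have hd4 : e ^ 4 * N ^ 4 = g ^ (4 * p) * g ^ 4 * B ^ 4 := by
      rw [← mul_pow, ← hd, mul_pow, ← pow_mul, ← pow_add]
      congr 2
      ring
    have h4 : κ * (-A * (5 - 4 * B)) * e ^ 4 * N ^ 4 = g ^ 4 * k' * N ^ 4 := by
      linear_combination (κ * (-A * (5 - 4 * B))) * hd4
        - (κ * A * g ^ (4 * p) * g ^ 4) * hBB - g ^ 4 * hq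
    have hNN : N ^ 4 * Ni ^ 4 = 1 := by rw [← mul_pow, hNi, one_pow]
    have hee : e ^ 4 * ei ^ 4 = 1 := by rw [← mul_pow, heei, one_pow]
    calc κ * (-A * (5 - 4 * B)) = (κ * (-A * (5 - 4 * B)) * e ^ 4 * N ^ 4) * (Ni ^ 4 * ei ^ 4) := by
          linear_combination (-(κ * (-A * (5 - 4 * B)))) * hee
            - (κ * (-A * (5 - 4 * B)) * e ^ 4 * ei ^ 4) * hNN
      _ = g ^ 4 * k' * N ^ 4 * (Ni ^ 4 * ei ^ 4) := by rw [h4]
      _ = g ^ 4 * (k' * ei ^ 4) := by linear_combination (g ^ 4 * k' * ei ^ 4) * hNN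

theorem c4 (p : ℕ) [Fact p.Prime] [NeZero p] (h3 : 3 < p) (hchi : chi p = -1)
    (P : ℕ → Polynomial ℤ) (d : Polynomial ℤ) (H : HGdata p P d)
    (Q : ℕ → Polynomial ℤ) (HQ : HKdata p Q) :
    Cong p 2 (S1 p) (evq (Q p * (5 - 4 * d))) := by
  have HR := rels_R (ZMod (p ^ 2))
  have hodd : Odd p := (Fact.out : p.Prime).odd_of_ne_two (by omega)
  obtain ⟨B, m, e, ei, gi, N, Ni, hB, hBm, hN, hNi, he, hgi, hei, heei, hgi0, hd⟩ :=
    CongB_facts p P d H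
  have hdeg : 6 * (Q p).natDegree ≤ 3 + 4 * p := by
    have := HQ.deg p le_rfl
    rw [hchi, hodd.neg_one_pow] at this
    unfold DegOK at this
    rw [if_pos (by norm_num)] at this
    omega
  set k' := PowerSeries.expand p (NeZero.ne p) (toR (ZMod (p ^ 2)) Ks) with hk'
  have hq : toR (ZMod (p ^ 2)) Gs ^ (3 + 4 * p) *
      Polynomial.eval₂ (Int.castRingHom _) (toR _ Ys) (Q p) = k' * N ^ 4 := by
    have h0 : PowerSeries.C ((p : ℤ) ^ 2) ∣ sgh (-chi p) (3 + 4 * p) (Q p) Gs Ds Ks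
      - (-(PowerSeries.C (chi p) * PowerSeries.expand p (NeZero.ne p) Ks * NG p ^ 4)) := by
      have := HQ.const
      rwa [sub_neg_eq_add]
    have h1 := CongB_toR_dvd p 2 _ _ h0
    rw [toR, sgh_map, hchi] at h1
    unfold sgh at h1
    rw [if_pos (by norm_num),
      hom_eval (3 + 4 * p) (Q p) hdeg _ _ (toR _ Ys) HR.hy] at h1
    rw [h1, toR, map_neg, map_mul, map_mul, map_pow, map_neg, map_neg, map_one, map_one, hN, hk',
      ← toR_expand]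
    ring
  apply CongB_fin1 p h3 2 (Q p * (5 - 4 * d)) (CongC_deg p (3 + 4 * p) h3 _ d
    hdeg (by omega) H.ddeg) (k' * ei ^ 4)
  · rw [hei, hk']
    simp only [map_mul, map_pow, PowerSeries.constantCoeff_expand, hgi0, HR.k0, one_pow, mul_one]
  · rw [hei, hk', ← map_pow, ← map_mul]
    exact thS_expand p (NeZero.ne p) (p ^ 2) dvd_rfl _
  · rw [Polynomial.eval₂_mul, Polynomial.eval₂_sub, Polynomial.eval₂_mul,
      ← hB, CongB_ofNat _ _ 5, CongB_ofNat _ _ 4]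
    set A := Polynomial.eval₂ (Int.castRingHom (PowerSeries (ZMod (p ^ 2)))) (toR _ Ys) (Q p)
    set g := toR (ZMod (p ^ 2)) Gs
    have hBB := CongC_B (p : PowerSeries (ZMod (p ^ 2))) m B (CongB_psq p) hBm
    have hd4 : e ^ 4 * N ^ 4 = g ^ (3 + 4 * p) * g * B ^ 4 := by
      rw [← mul_pow, ← hd, mul_pow, ← pow_mul, ← pow_succ]
      congr 2
      ring
    have h4 : (A * (5 - 4 * B)) * e ^ 4 * N ^ 4 = g * k' * N ^ 4 := by
      linear_combination (A * (5 - 4 * B)) * hd4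
        + (A * g ^ (3 + 4 * p) * g) * hBB + g * hq
    have hNN : N ^ 4 * Ni ^ 4 = 1 := by rw [← mul_pow, hNi, one_pow]
    have hee : e ^ 4 * ei ^ 4 = 1 := by rw [← mul_pow, heei, one_pow]
    calc A * (5 - 4 * B) = ((A * (5 - 4 * B)) * e ^ 4 * N ^ 4) * (Ni ^ 4 * ei ^ 4) := by
          linear_combination (-(A * (5 - 4 * B))) * hee
            - ((A * (5 - 4 * B)) * e ^ 4 * ei ^ 4) * hNN
      _ = g * k' * N ^ 4 * (Ni ^ 4 * ei ^ 4) := by rw [h4]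
      _ = g * (k' * ei ^ 4) := by linear_combination (g * k' * ei ^ 4) * hNN

end Pool.Agent.Lib.SCG
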