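import Mathlib

/-!
Definitions for MP_f496b1_nt (helper51): supercongruences from the weight one form of level 3.
Paper: /team-store/MP_f496b1_nt_paper.md
-/

namespace Pool.Agent.Lib.SCG

open UpperHalfPlane
open scoped Real

noncomputable section

/-- `f` is given on the whole upper half plane by the expansion `∑ a_m exp(2πiτm/h)`. -/
def Ex (h : ℕ) (f : ℍ → ℂ) (a : PowerSeries ℂ) : Prop :=
  ∀ τ : ℍ, HasSum (fun m : ℕ => (PowerSeries.coeff m a) •
    (Function.Periodic.qParam (h : ℝ) (τ : ℂ)) ^ m) (f τ)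

/-- The complex power series of an integral one. -/
abbrev toC (F : PowerSeries ℤ) : PowerSeries ℂ := F.map (Int.castRingHom ℂ)

lemma denom_ne (a b c d : ℤ) (hd : 0 < a * d - b * c) (τ : ℍ) :
    (c : ℂ) * τ + d ≠ 0 := by
  intro h
  have him : ((c : ℂ) * τ + d).im = 0 := by rw [h]; simp
  have hre : ((c : ℂ) * τ + d).re = 0 := by rw [h]; simp
  simp at him hre
  rcases him with h1 | h1
  · subst h1
    simp at hre
    subst hre
    simp at hd
  · exact absurd h1 τ.im_ne_zero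

/-- The Moebius action of the integral matrix `(a b; c d)` of positive determinant. -/
def mob (a b c d : ℤ) (hd : 0 < a * d - b * c) (τ : ℍ) : ℍ :=
  ⟨((a : ℂ) * τ + b) / ((c : ℂ) * τ + d), by
    have h0 := denom_ne a b c d hd τ
    have h1 : (((a : ℂ) * τ + b) / ((c : ℂ) * τ + d)).im
        = ((a * d - b * c : ℤ) : ℝ) * τ.im / Complex.normSq ((c : ℂ) * τ + d) := by
      rw [Complex.div_im]
      have h2 : Complex.normSq ((c : ℂ) * τ + d) ≠ 0 := by simpa using h0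
      field_simp
      simp
      ring
    rw [h1]
    have h2 : 0 < Complex.normSq ((c : ℂ) * τ + d) := by
      rw [Complex.normSq_pos]; exact h0
    have h3 : (0 : ℝ) < ((a * d - b * c : ℤ) : ℝ) := by exact_mod_cast hd
    have h4 := τ.im_pos
    positivity⟩

lemma coe_mob (a b c d : ℤ) (hd : 0 < a * d - b * c) (τ : ℍ) :
    ((mob a b c d hd τ : ℍ) : ℂ) = ((a : ℂ) * τ + b) / ((c : ℂ) * τ + d) := rfl

/-- The Fricke involution `τ ↦ -1/(3τ)`. -/
def W (τ : ℍ) : ℍ := mob 0 (-1) 3 0 (by norm_num) τ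

/-- `-i √3 τ`. -/
def jW (τ : ℍ) : ℂ := -(Complex.I * ((Real.sqrt 3 : ℝ) : ℂ) * τ)

/-- Holomorphic forms of weight `k` and sign `ε` for the group generated by `τ ↦ τ+1` and the
Fricke involution. -/
structure Aut (k : ℤ) (ε : ℂ) (f : ℍ → ℂ) : Prop where
  ex : ∃ a : PowerSeries ℂ, Ex 1 f a
  fr : ∀ τ : ℍ, f (W τ) = ε * jW τ ^ k * f τ

/-- `τ + 1`. -/
def T1 (τ : ℍ) : ℍ := mob 1 1 0 1 (by norm_num) τ

/-- multiplication by `k` on `ℍ`. -/
def tm (k : ℕ) (hk : 0 < k) (τ : ℍ) : ℍ := mob k 0 0 1 (by simpa using hk) τ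

/-- The weight one form `∑ q^(m^2+mk+k^2)` (Borwein's `a(q)`). -/
def Gf (τ : ℍ) : ℂ :=
  jacobiTheta (2 * τ) * jacobiTheta (6 * τ)
    + Complex.exp (2 * π * Complex.I * τ) * jacobiTheta₂ τ (2 * τ) * jacobiTheta₂ (3 * τ) (6 * τ)

/-- `η(τ)^6 η(3τ)^6`. -/
def Df (τ : ℍ) : ℂ := ModularForm.eta τ ^ 6 * ModularForm.eta (3 * τ) ^ 6

/-- `(E₂(τ) + 3 E₂(3τ))/4 = θD/D`. -/
def Lf (τ : ℍ) : ℂ :=
  (EisensteinSeries.E2 τ + 3 * EisensteinSeries.E2 (tm 3 (by norm_num) τ)) / 4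

/-- `θ = (2πi)⁻¹ d/dτ`. -/
abbrev thf (f : ℍ → ℂ) : ℍ → ℂ := Derivative.normalizedDerivOfComplex f

/-- The weight three form `K = G θD/D - 6 θG`. -/
def Kf (τ : ℍ) : ℂ := Gf τ * Lf τ - 6 * thf Gf τ

/-! ### The formal series -/

/-- `θ = X d/dX`. -/
def thS {R : Type*} [CommRing R] (f : PowerSeries R) : PowerSeries R :=
  PowerSeries.mk fun n => (n : R) * PowerSeries.coeff n f

def thetaS : PowerSeries ℤ :=
  PowerSeries.mk fun n => if n = 0 then 1 else if IsSquare n then 2 else 0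

open Classical in
def psiS : PowerSeries ℤ :=
  PowerSeries.mk fun n => if ∃ k : ℕ, 2 * n = k * (k + 1) then 1 else 0

def Gs : PowerSeries ℤ :=
  thetaS * PowerSeries.expand 3 (by norm_num) thetaS
    + 4 * PowerSeries.X * PowerSeries.expand 2 (by norm_num) psiS
      * PowerSeries.expand 6 (by norm_num) psiS

def Ds : PowerSeries ℤ :=
  PowerSeries.X * PowerSeries.pentagonalSeries ℤ ^ 6
    * (PowerSeries.expand 3 (by norm_num) (PowerSeries.pentagonalSeries ℤ)) ^ 6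

def sigS : PowerSeries ℤ := PowerSeries.mk fun n => (ArithmeticFunction.sigma 1 n : ℤ)

def Ls : PowerSeries ℤ := 1 - 6 * sigS - 18 * PowerSeries.expand 3 (by norm_num) sigS

def Ks : PowerSeries ℤ := Gs * Ls - 6 * thS Gs

/-- The character mod 3. -/
def chi (n : ℤ) : ℤ := jacobiSym n 3

/-- The Hecke family of a form `F` of weight `w` for the prime `l`. -/
def fam (l : ℕ) [NeZero l] (w : ℕ) (F : ℍ → ℂ) : Option (ZMod l) → ℍ → ℂ
  | none => fun τ => ((chi l : ℤ) : ℂ) ^ w * (l : ℂ) ^ w * F (tm l (NeZero.pos l) τ)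
  | some j => fun τ => F (mob 1 (j.val : ℤ) 0 l (by simpa using NeZero.pos l) τ)

/-- The polynomial with the roots `F_C`. -/
def PhiF (l : ℕ) [NeZero l] (w : ℕ) (F : ℍ → ℂ) (τ : ℍ) : Polynomial ℂ :=
  ∏ C : Option (ZMod l), (Polynomial.X - Polynomial.C (fam l w F C τ))

/-- The polynomial of the multipliers `G_C`. -/
def Phi (l : ℕ) [NeZero l] (τ : ℍ) : Polynomial ℂ := PhiF l 1 Gf τ

open Classical in
/-- `∑_C K_C ∏_{C' ≠ C} G_{C'}^3 (X - G_{C'})`. -/
def Psi (l : ℕ) [NeZero l] (τ : ℍ) : Polynomial ℂ :=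
  ∑ C : Option (ZMod l), Polynomial.C (fam l 3 Kf C τ) *
    ∏ C' ∈ Finset.univ.erase C,
      (Polynomial.C (fam l 1 Gf C' τ ^ 3) * (Polynomial.X - Polynomial.C (fam l 1 Gf C' τ)))

/-- The primitive `l`-th root of unity `exp(2πi/l)`. -/
def zt (l : ℕ) : ℂ := Complex.exp (2 * π * Complex.I / l)

/-- `F(t) ↦ F(ζ^j t)`. -/
def rsc (l : ℕ) (j : ℕ) : PowerSeries ℤ →+* PowerSeries ℂ :=
  (PowerSeries.rescale (zt l ^ j)).comp (PowerSeries.map (Int.castRingHom ℂ))

/-- `F(X) ↦ F(X^l)` with complex coefficients. -/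
def exC (l : ℕ) [NeZero l] : PowerSeries ℤ →+* PowerSeries ℂ :=
  ((PowerSeries.expand l (NeZero.ne l) : PowerSeries ℂ →ₐ[ℂ] PowerSeries ℂ) :
    PowerSeries ℂ →+* PowerSeries ℂ).comp (PowerSeries.map (Int.castRingHom ℂ))

/-- The matrix of the multiplication by `F` on `ℤ⟦t⟧` over `ℤ⟦t^l⟧` in the basis `t^i`. -/
def MF (l : ℕ) (F : PowerSeries ℤ) : Matrix (Fin l) (Fin l) (PowerSeries ℤ) :=
  fun i j => PowerSeries.mk fun n =>
    if (j : ℕ) ≤ l * n + i then PowerSeries.coeff (l * n + i - j) F else 0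

/-- `∏_j (X - F(ζ^j t))` as a polynomial over `ℤ⟦t^l⟧` (`t^l` is written `X`). -/
def PF (l : ℕ) (F : PowerSeries ℤ) : Polynomial (PowerSeries ℤ) := (MF l F).charpoly

/-- `∏_j G(ζ^j t)` for odd `l`. -/
def NG (l : ℕ) : PowerSeries ℤ := -(PF l Gs).coeff 0

/-- Expansions for polynomials. -/
def ExP (h : ℕ) (P : ℍ → Polynomial ℂ) (A : Polynomial (PowerSeries ℂ)) : Prop :=
  ∀ n, Ex h (fun τ => (P τ).coeff n) (A.coeff n)

/-- The section `∑ a_m t^m ↦ ∑ a_{lm} t^m`. -/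
def sec {R : Type*} [CommRing R] (l : ℕ) (f : PowerSeries R) : PowerSeries R :=
  PowerSeries.mk fun n => PowerSeries.coeff (l * n) f

/-- Homogeneous form of weight `k` of a polynomial `P` in `δ/g^6`. -/
def hom {A : Type*} [CommRing A] (k : ℕ) (P : Polynomial ℤ) (g δ : A) : A :=
  ∑ j ∈ Finset.range (k / 6 + 1), ((P.coeff j : ℤ) : A) * δ ^ j * g ^ (k - 6 * j)

/-- `hom` with the additional factor `κ` (of weight 3) if `ε = -1`. -/
def sgh {A : Type*} [CommRing A] (ε : ℤ) (k : ℕ) (P : Polynomial ℤ) (g δ κ : A) : A :=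
  if ε = 1 then hom k P g δ else κ * hom (k - 3) P g δ

/-- The degree condition of the structure theorem. -/
def DegOK (ε : ℤ) (k : ℕ) (P : Polynomial ℤ) : Prop :=
  if ε = 1 then 6 * P.natDegree ≤ k else (P = 0 ∨ 6 * P.natDegree + 3 ≤ k)

/-! ### The differential equations -/

/-- The relations between the series. -/
structure Rels {R : Type*} [CommRing R] (g δ κ lam y : PowerSeries R) : Prop where
  hd : thS δ = δ * lam
  hk : κ = g * lam - 6 * thS g
  hsq : κ ^ 2 = g ^ 6 - 108 * δ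
  hode : g * thS (thS g) - 2 * thS g ^ 2 = 6 * δ
  hy : y * g ^ 6 = δ
  g0 : PowerSeries.constantCoeff g = 1
  k0 : PowerSeries.constantCoeff κ = 1
  y0 : PowerSeries.constantCoeff y = 0
  y1 : PowerSeries.coeff 1 y = 1

/-- The image of an integral series. -/
abbrev toR (R : Type*) [CommRing R] (F : PowerSeries ℤ) : PowerSeries R :=
  F.map (Int.castRingHom R)

/-- `D / G^6`. -/
def Ys : PowerSeries ℤ := Ds * (PowerSeries.invOfUnit Gs 1) ^ 6

/-! ### Congruences of rationals -/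

/-- `a ≡ b` modulo `p^k` in the ring of rationals with denominator prime to `p`. -/
def Cong (p k : ℕ) (a b : ℚ) : Prop :=
  ∃ m n : ℤ, ¬ (p : ℤ) ∣ n ∧ a - b = (p : ℚ) ^ k * m / n

/-- `binom(a,k) = a(a-1)...(a-k+1)/k!`. -/
def binom (a : ℚ) (k : ℕ) : ℚ := (∏ i ∈ Finset.range k, (a - i)) / (Nat.factorial k : ℚ)

def S1 (p : ℕ) : ℚ :=
  ∑ k ∈ Finset.range p, binom (-1 / 3) k * binom (-1 / 6) k / (-16) ^ k

def S2 (p : ℕ) : ℚ :=
  ∑ k ∈ Finset.range p, binom (-2 / 3) k * binom (-5 / 6) k / (-16) ^ k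

/-- The ring of rationals with denominator prime to `p`. -/
def Zp (p : ℕ) [hp : Fact p.Prime] : Subring ℚ where
  carrier := {a | ∃ m n : ℤ, ¬ (p : ℤ) ∣ n ∧ a = m / n}
  mul_mem' := by
    rintro a b ⟨m, n, hn, rfl⟩ ⟨m', n', hn', rfl⟩
    refine ⟨m * m', n * n', ?_, by push_cast; rw [div_mul_div_comm]⟩
    intro h
    rcases (Nat.prime_iff_prime_int.mp hp.out).dvd_or_dvd h with h | h
    · exact hn h
    · exact hn' h
  one_mem' := ⟨1, 1, by
    intro h
    exact (Nat.prime_iff_prime_int.mp hp.out).not_isUnit (isUnit_of_dvd_one h), by simp⟩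
  add_mem' := by
    rintro a b ⟨m, n, hn, rfl⟩ ⟨m', n', hn', rfl⟩
    have h0 : (n : ℚ) ≠ 0 := by
      intro h
      have : n = 0 := by exact_mod_cast h
      exact hn (this ▸ dvd_zero _)
    have h0' : (n' : ℚ) ≠ 0 := by
      intro h
      have : n' = 0 := by exact_mod_cast h
      exact hn' (this ▸ dvd_zero _)
    refine ⟨m * n' + n * m', n * n', ?_, by push_cast; rw [div_add_div _ _ h0 h0']⟩
    intro h
    rcases (Nat.prime_iff_prime_int.mp hp.out).dvd_or_dvd h with h | h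
    · exact hn h
    · exact hn' h
  zero_mem' := ⟨0, 1, by
    intro h
    exact (Nat.prime_iff_prime_int.mp hp.out).not_isUnit (isUnit_of_dvd_one h), by simp⟩
  neg_mem' := by
    rintro a ⟨m, n, hn, rfl⟩
    exact ⟨-m, n, hn, by push_cast; ring⟩

/-- The value at `-1/1728` in `ℚ`. -/
def evq : Polynomial ℤ →+* ℚ := Polynomial.eval₂RingHom (Int.castRingHom ℚ) (-1 / 1728)

/-- The value at `-1/1728` in `ℂ`. -/
def evc : Polynomial ℤ →+* ℂ := Polynomial.eval₂RingHom (Int.castRingHom ℂ) (-1 / 1728)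

/-! ### The CM point -/

/-- `-1/2 + i √51/6`. -/
def tau0 : ℍ := ⟨-1 / 2 + ((Real.sqrt 51 / 6 : ℝ) : ℂ) * Complex.I, by
  simp⟩

end

end Pool.Agent.Lib.SCG
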