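import Pool.Agent.Lib.SCG.Defs

/-!
EtaA: `D = η(τ)^6 η(3τ)^6`: Fricke transformation and nonvanishing.
PLAN. Mathlib `ModularForm.eta_comp_eq_csqrt_I_inv` (NumberTheory/ModularForms/Discriminant):
`η(-1/z) = (√I)⁻¹ * √z * η z` for `z` in the upper half plane (`√ = Complex.sqrt`/`csqrt`). With
`w = W τ = -1/(3τ)`: `η(w) = (√I)⁻¹ √(3τ) η(3τ)`, `η(3w) = η(-1/τ) = (√I)⁻¹ √τ η(τ)`. Sixth
powers: `√(3τ)^6 = 27 τ^3`, `√τ^6 = τ^3`, `(√I)^{-12} = I^{-6} = -1`; so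
`D(w) = -27 τ^6 D(τ)` and `jW τ ^ 6 = (-i√3 τ)^6 = (-i)^6 27 τ^6 = -27 τ^6`.
`Df_ne`: `ModularForm.eta_ne_zero`.
-/

namespace Pool.Agent.Lib.SCG

open UpperHalfPlane

private lemma EtaA_sqrt (z : ℂ) : Complex.sqrt z ^ 2 = z := by
  simp [Complex.sqrt]

private lemma EtaA_eta (z : ℂ) (hz : 0 < z.im) :
    ModularForm.eta (-1 / z) ^ 6 = Complex.I * z ^ 3 * ModularForm.eta z ^ 6 := by
  have h := ModularForm.eta_comp_eq_csqrt_I_inv (x := z) hz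
  have h1 : ModularForm.eta (-1 / z) = (Complex.sqrt Complex.I)⁻¹ * (Complex.sqrt z * ModularForm.eta z) := h
  rw [h1, mul_pow, mul_pow, inv_pow]
  have h2 : Complex.sqrt Complex.I ^ 6 = Complex.I ^ 3 := by
    rw [show (6 : ℕ) = 2 * 3 by norm_num, pow_mul, EtaA_sqrt]
  have h3 : Complex.sqrt z ^ 6 = z ^ 3 := by
    rw [show (6 : ℕ) = 2 * 3 by norm_num, pow_mul, EtaA_sqrt]
  have h4 : (Complex.I ^ 3)⁻¹ = Complex.I := by
    rw [Complex.I_pow_three, inv_neg, Complex.inv_I, neg_neg]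
  rw [h2, h3, h4]
  ring

theorem Df_W (τ : ℍ) : Df (W τ) = jW τ ^ 6 * Df τ := by
  have hτ := τ.im_pos
  have hτ0 : (τ : ℂ) ≠ 0 := τ.ne_zero
  have h3 : 0 < (3 * (τ : ℂ)).im := by
    simpa using hτ
  have hW : ((W τ : ℍ) : ℂ) = -1 / (3 * (τ : ℂ)) := by
    unfold W
    rw [coe_mob]
    push_cast
    ring
  have hW3 : 3 * ((W τ : ℍ) : ℂ) = -1 / (τ : ℂ) := by
    rw [hW]
    field_simp
  unfold Df
  rw [hW3, hW, EtaA_eta _ h3, EtaA_eta _ hτ]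
  unfold jW
  have h5 : (((Real.sqrt 3 : ℝ) : ℂ)) ^ 6 = 27 := by
    have h6 : (Real.sqrt 3) ^ 6 = 27 := by
      rw [show (6 : ℕ) = 2 * 3 by norm_num, pow_mul, Real.sq_sqrt (by norm_num)]
      norm_num
    exact_mod_cast h6
  have h7 : (-(Complex.I * ((Real.sqrt 3 : ℝ) : ℂ) * τ)) ^ 6 = -27 * (τ : ℂ) ^ 6 := by
    have h8 : (-(Complex.I * ((Real.sqrt 3 : ℝ) : ℂ) * τ)) ^ 6 =
        (Complex.I ^ 2) ^ 3 * (((Real.sqrt 3 : ℝ) : ℂ)) ^ 6 * (τ : ℂ) ^ 6 := by ring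
    rw [h8, h5, Complex.I_sq]
    ring
  rw [h7]
  linear_combination (27 * (τ : ℂ) ^ 6 * ModularForm.eta (3 * τ) ^ 6 * ModularForm.eta τ ^ 6) * Complex.I_sq

theorem Df_ne (τ : ℍ) : Df τ ≠ 0 := by
  unfold Df
  have hτ := τ.im_pos
  have h3 : 0 < (3 * (τ : ℂ)).im := by
    simpa using hτ
  exact mul_ne_zero (pow_ne_zero _ (ModularForm.eta_ne_zero hτ)) (pow_ne_zero _ (ModularForm.eta_ne_zero h3))

end Pool.Agent.Lib.SCG
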