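import Pool.Agent.Lib.SCG.ExC

/-!
EtaB: the expansion of `D`.
PLAN. Mathlib: `η z = qParam 24 z * ∏' n, (1 - eta_q n z)`, `eta_q n z = exp(2πiz)^(n+1)`. The
pentagonal number theorem in a complete normed ring (Mathlib
`Combinatorics/Enumerative/Pentagonal/...`: look for `Pentagonal.tprod_one_sub_pow` or
`hasSum`/`tprod` versions for `‖q‖ < 1`): `∏' (1 - q^(n+1)) = ∑_k (-1)^k q^{k(3k+1)/2}` so that
`Ex 1 (fun τ => ∏' n, (1 - exp(2πiτ)^(n+1))) (toC (pentagonalSeries ℤ))` (the coefficients of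
`PowerSeries.pentagonalSeries`: `PowerSeries.coeff_pentagonalSeries_pentagonal`,
`PowerSeries.coeff_pentagonalSeries_eq_zero`). ALTERNATIVE without the theorem: the product is an
analytic function of `q` on the disc and the coefficients stabilise. Then
`η(τ)^6 η(3τ)^6 = exp(2πiτ)^{6/24 + 18/24} (∏..)^6 (∏..(3τ))^6` and `Ex.tm` with `k = 3`.
`Ds_one`: `Ds = X * u` with `constantCoeff u = 1`.
-/

namespace Pool.Agent.Lib.SCG

open UpperHalfPlane

private lemma EtaB_bound {q : ℂ} (hq : ‖q‖ < 1) (k n : ℕ) :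
    ‖∏ i ∈ Finset.range (n + 1), (1 - q ^ (k + i + 1))‖ ≤ Real.exp ((1 - ‖q‖)⁻¹) := by
  have hr0 : 0 ≤ ‖q‖ := norm_nonneg q
  calc ‖∏ i ∈ Finset.range (n + 1), (1 - q ^ (k + i + 1))‖
      = ∏ i ∈ Finset.range (n + 1), ‖1 - q ^ (k + i + 1)‖ := norm_prod _ _
    _ ≤ ∏ i ∈ Finset.range (n + 1), (1 + ‖q‖ ^ i) := by
        refine Finset.prod_le_prod (fun i _ => norm_nonneg _) fun i _ => ?_
        calc ‖1 - q ^ (k + i + 1)‖ ≤ ‖(1 : ℂ)‖ + ‖q ^ (k + i + 1)‖ := norm_sub_le _ _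
          _ = 1 + ‖q‖ ^ (k + i + 1) := by rw [norm_one, norm_pow]
          _ ≤ 1 + ‖q‖ ^ i := by
              gcongr 1 + ?_
              exact pow_le_pow_of_le_one hr0 hq.le (by omega)
    _ ≤ Real.exp (∑ i ∈ Finset.range (n + 1), ‖q‖ ^ i) :=
        Real.prod_one_add_le_exp_sum _ (fun i => pow_nonneg hr0 i)
    _ ≤ Real.exp ((1 - ‖q‖)⁻¹) := by
        apply Real.exp_le_exp.mpr
        rw [← tsum_geometric_of_lt_one hr0 hq]
        exact (summable_geometric_of_lt_one hr0 hq).sum_le_tsum _ (fun i _ => pow_nonneg hr0 i)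

private lemma EtaB_term {q : ℂ} (hq : ‖q‖ < 1) (k n : ℕ) :
    ‖q ^ ((k + 1) * n) * ∏ i ∈ Finset.range (n + 1), (1 - q ^ (k + i + 1))‖ ≤
      Real.exp ((1 - ‖q‖)⁻¹) * ‖q‖ ^ n := by
  rw [norm_mul, norm_pow, mul_comm]
  refine mul_le_mul (EtaB_bound hq k n) ?_ (pow_nonneg (norm_nonneg q) _) (Real.exp_pos _).le
  exact pow_le_pow_of_le_one (norm_nonneg q) hq.le (by nlinarith)

private lemma EtaB_sumZ {q : ℂ} (hq : ‖q‖ < 1) :
    Summable fun k : ℤ => (((Int.negOnePow k : ℤˣ) : ℤ) : ℂ) * q ^ pentagonal k := by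
  have h1 : Summable fun k : ℤ => ‖q‖ ^ pentagonal k :=
    (summable_geometric_of_lt_one (norm_nonneg q) hq).comp_injective pentagonal_injective
  refine Summable.of_norm_bounded h1 fun k => ?_
  rw [norm_mul, norm_pow]
  have h2 : ‖(((Int.negOnePow k : ℤˣ) : ℤ) : ℂ)‖ = 1 := by
    rcases Int.units_eq_one_or (Int.negOnePow k) with h | h <;> rw [h] <;> simp
  rw [h2, one_mul]

private lemma EtaB_pent {q : ℂ} (hq : ‖q‖ < 1) :
    HasSum (fun m : ℕ => (PowerSeries.coeff m (toC (PowerSeries.pentagonalSeries ℤ))) • q ^ m)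
      (∏' n, (1 - q ^ (n + 1))) := by
  have hr0 : 0 ≤ ‖q‖ := norm_nonneg q
  set g : ℤ → ℂ := fun k => (((Int.negOnePow k : ℤˣ) : ℤ) : ℂ) * q ^ pentagonal k with hg
  have hgs : Summable g := EtaB_sumZ hq
  -- the sum over `ℕ` of the pairs
  have hneg : HasSum (fun k : ℤ => g (-k)) (∑' k, g k) := by
    have h := (Equiv.neg ℤ).hasSum_iff (f := g) (a := ∑' k, g k)
    exact h.mpr hgs.hasSum
  have hpair : HasSum (fun k : ℕ => (-1 : ℂ) ^ k * (q ^ pentagonal (-(k : ℤ)) - q ^ pentagonal ((k : ℤ) + 1)))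
      (∑' k, g k) := by
    have h := hneg.nat_add_neg_add_one
    have h3 : (fun n : ℕ => g (-(n : ℤ)) + g (- -((n : ℤ) + 1))) =
        fun k : ℕ => (-1 : ℂ) ^ k * (q ^ pentagonal (-(k : ℤ)) - q ^ pentagonal ((k : ℤ) + 1)) := by
      funext n
      simp only [hg, neg_neg, Int.negOnePow_neg, Int.negOnePow_succ]
      have h4 : (((Int.negOnePow (n : ℤ) : ℤˣ) : ℤ) : ℂ) = (-1 : ℂ) ^ n := by
        rw [Int.negOnePow_def, zpow_natCast]
        push_cast
        rfl
      rw [Units.val_neg, Int.cast_neg, h4]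
      ring
    rw [h3] at h
    exact h
  have key := Pentagonal.tprod_one_sub_pow (R := ℂ) (x := q)
    (tendsto_pow_atTop_nhds_zero_of_norm_lt_one hq)
    (fun k => Summable.of_norm_bounded ((summable_geometric_of_lt_one hr0 hq).mul_left (Real.exp ((1 - ‖q‖)⁻¹)))
      (fun n => EtaB_term hq k n))
    (fun k => by
      have h5 : Summable fun n : ℕ => -q ^ (n + k + 1) := by
        apply Summable.neg
        refine Summable.of_norm_bounded (summable_geometric_of_lt_one hr0 hq) fun n => ?_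
        rw [norm_pow]
        exact pow_le_pow_of_le_one hr0 hq.le (by omega)
      have h6 := Complex.multipliable_one_add_of_summable h5
      simpa [sub_eq_add_neg] using h6)
    hpair.summable
    (by
      have h8 : Filter.Tendsto (fun k : ℕ => ‖q‖ ^ k * (Real.exp ((1 - ‖q‖)⁻¹) * (1 - ‖q‖)⁻¹)) Filter.atTop (nhds 0) := by
        have h9 := (tendsto_pow_atTop_nhds_zero_of_lt_one hr0 hq).mul_const (Real.exp ((1 - ‖q‖)⁻¹) * (1 - ‖q‖)⁻¹)
        rwa [zero_mul] at h9
      refine squeeze_zero_norm (fun k => ?_) h8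
      rw [norm_mul, norm_mul, norm_pow, norm_neg, norm_one, one_pow, one_mul, norm_pow]
      refine mul_le_mul ?_ ?_ (norm_nonneg _) (pow_nonneg hr0 _)
      · refine pow_le_pow_of_le_one hr0 hq.le ?_
        rw [Nat.le_div_iff_mul_le (by norm_num)]
        nlinarith
      · exact tsum_of_norm_bounded ((hasSum_geometric_of_lt_one hr0 hq).mul_left _) (fun n => EtaB_term hq k n))
  rw [key, hpair.tsum_eq]
  rw [← pentagonal_injective.hasSum_iff]
  · have h7 : ((fun m : ℕ => (PowerSeries.coeff m (toC (PowerSeries.pentagonalSeries ℤ))) • q ^ m) ∘ pentagonal) = g := by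
      funext k
      rw [Function.comp_apply, PowerSeries.coeff_map, PowerSeries.coeff_pentagonalSeries_pentagonal]
      simp [hg]
    rw [h7]
    exact hgs.hasSum
  · intro m hm
    rw [PowerSeries.coeff_map, PowerSeries.coeff_pentagonalSeries_eq_zero ℤ hm]
    simp

private lemma EtaB_norm_q (τ : ℍ) : ‖Function.Periodic.qParam ((1 : ℕ) : ℝ) (τ : ℂ)‖ < 1 :=
  Function.Periodic.norm_qParam_lt_one (by norm_num) τ.im_pos

/-- the product without the factor of exponent 1/24 -/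
private noncomputable def EtaB_P (z : ℂ) : ℂ := ∏' n, (1 - ModularForm.eta_q n z)

private lemma EtaB_P_ex : Ex 1 (fun τ : ℍ => EtaB_P (τ : ℂ)) (toC (PowerSeries.pentagonalSeries ℤ)) := by
  intro τ
  have h := EtaB_pent (EtaB_norm_q τ)
  have h1 : EtaB_P (τ : ℂ) = ∏' n, (1 - (Function.Periodic.qParam ((1 : ℕ) : ℝ) (τ : ℂ)) ^ (n + 1)) := by
    unfold EtaB_P ModularForm.eta_q
    simp only [Nat.cast_one]
  show HasSum _ (EtaB_P (τ : ℂ))
  rw [h1]
  exact h

private lemma EtaB_q_ex : Ex 1 (fun τ : ℍ => Function.Periodic.qParam ((1 : ℕ) : ℝ) (τ : ℂ)) (PowerSeries.X) := by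
  intro τ
  have h := hasSum_single (f := fun m : ℕ => (PowerSeries.coeff m (PowerSeries.X : PowerSeries ℂ)) •
    (Function.Periodic.qParam ((1 : ℕ) : ℝ) (τ : ℂ)) ^ m) 1 (by
      intro m hm
      simp [PowerSeries.coeff_X, hm])
  simpa using h

private lemma EtaB_exp (τ : ℍ) : Function.Periodic.qParam 24 (τ : ℂ) ^ 6 * Function.Periodic.qParam 24 (3 * (τ : ℂ)) ^ 6 =
    Function.Periodic.qParam ((1 : ℕ) : ℝ) (τ : ℂ) := by
  unfold Function.Periodic.qParam
  rw [← Complex.exp_nat_mul, ← Complex.exp_nat_mul, ← Complex.exp_add]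
  congr 1
  push_cast
  ring

private lemma EtaB_pent0 : PowerSeries.constantCoeff (PowerSeries.pentagonalSeries ℤ) = 1 := by
  rw [← PowerSeries.coeff_zero_eq_constantCoeff_apply]
  have h := PowerSeries.coeff_pentagonalSeries_pentagonal ℤ 0
  have h0 : pentagonal 0 = 0 := by simp [pentagonal_def]
  rw [h0] at h
  rw [h]
  simp

theorem Df_ex : Ex 1 Df (toC Ds) := by
  have h1 := EtaB_q_ex
  have h2 := EtaB_P_ex.pow 6
  have h3 := (EtaB_P_ex.tm 3 (by norm_num)).pow 6
  have h4 := (h1.mul h2).mul h3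
  have h5 : toC Ds = PowerSeries.X * toC (PowerSeries.pentagonalSeries ℤ) ^ 6 *
      (PowerSeries.expand 3 (by norm_num) (toC (PowerSeries.pentagonalSeries ℤ))) ^ 6 := by
    unfold Ds toC
    rw [map_mul, map_mul, map_pow, map_pow, PowerSeries.map_X, PowerSeries.map_expand]
  rw [h5]
  refine h4.congr fun τ => ?_
  have h6 : ((tm 3 (by norm_num) τ : ℍ) : ℂ) = 3 * (τ : ℂ) := by
    unfold tm
    rw [coe_mob]
    push_cast
    ring
  rw [h6, ← EtaB_exp τ]
  unfold Df ModularForm.eta EtaB_P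
  ring

lemma Ds_zero : PowerSeries.constantCoeff Ds = 0 := by
  unfold Ds
  simp

lemma Ds_one : PowerSeries.coeff 1 Ds = 1 := by
  obtain ⟨u, -, hu1, hu⟩ : ∃ u : PowerSeries ℤ, True ∧ PowerSeries.constantCoeff u = 1 ∧ Ds = PowerSeries.X * u := by
    refine ⟨PowerSeries.pentagonalSeries ℤ ^ 6 *
      (PowerSeries.expand 3 (by norm_num) (PowerSeries.pentagonalSeries ℤ)) ^ 6, trivial, ?_, ?_⟩
    · rw [map_mul, map_pow, map_pow, PowerSeries.constantCoeff_expand, EtaB_pent0]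
      norm_num
    · unfold Ds
      ring
  rw [hu, show (1 : ℕ) = 0 + 1 by norm_num, PowerSeries.coeff_succ_X_mul, PowerSeries.coeff_zero_eq_constantCoeff_apply, hu1]

/-- `Ds` is `X` times a unit. -/
lemma Ds_unit : ∃ u : PowerSeries ℤ, IsUnit u ∧ PowerSeries.constantCoeff u = 1 ∧
    Ds = PowerSeries.X * u := by
  refine ⟨PowerSeries.pentagonalSeries ℤ ^ 6 *
    (PowerSeries.expand 3 (by norm_num) (PowerSeries.pentagonalSeries ℤ)) ^ 6, ?_, ?_, ?_⟩
  · rw [PowerSeries.isUnit_iff_constantCoeff, map_mul, map_pow, map_pow, PowerSeries.constantCoeff_expand, EtaB_pent0]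
    norm_num
  · rw [map_mul, map_pow, map_pow, PowerSeries.constantCoeff_expand, EtaB_pent0]
    norm_num
  · unfold Ds
    ring

end Pool.Agent.Lib.SCG
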