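import Pool.Agent.Lib.SCG.ExB

/-!
ExD: differentiation of expansions.
PLAN. With the power series `F(z) = ∑ a_m z^m` on the open unit disc (see ExB, or
`FormalMultilinearSeries.ofScalars`), `f τ = F (exp(2πiτ))`,
`d/dτ F(exp(2πiτ)) = 2πi q F'(q)` and `q F'(q) = ∑ m a_m q^m`
(`HasFPowerSeriesOnBall.deriv`-type lemma, or termwise differentiation
`hasDerivAt_tsum_of_isPreconnected`/`hasSum_deriv_of_summable_norm`).
`Derivative.normalizedDerivOfComplex F z = (2πi)⁻¹ * deriv (F ∘ ofComplex) z`.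
-/

namespace Pool.Agent.Lib.SCG

open UpperHalfPlane

private lemma ExD_norm (a : ℂ) (m : ℕ) (w : ℂ) :
    ‖a * Complex.exp (2 * Real.pi * Complex.I * w * m)‖ = ‖a‖ * Real.exp (-2 * Real.pi * w.im * m) := by
  rw [norm_mul, Complex.norm_exp]
  congr 2
  simp

private lemma ExD_q (m : ℕ) (w : ℂ) :
    (Function.Periodic.qParam ((1 : ℕ) : ℝ) w) ^ m = Complex.exp (2 * Real.pi * Complex.I * w * m) := by
  unfold Function.Periodic.qParam
  rw [← Complex.exp_nat_mul]
  congr 1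
  push_cast
  ring

private lemma ExD_deriv (a : ℂ) (m : ℕ) (w : ℂ) :
    HasDerivAt (fun w : ℂ => a * Complex.exp (2 * Real.pi * Complex.I * w * m))
      (2 * Real.pi * Complex.I * ((m : ℂ) * a) * Complex.exp (2 * Real.pi * Complex.I * w * m)) w := by
  have h1 : HasDerivAt (fun w : ℂ => 2 * Real.pi * Complex.I * w * m) (2 * Real.pi * Complex.I * m) w := by
    have h2 := ((hasDerivAt_id w).const_mul (2 * Real.pi * Complex.I : ℂ)).mul_const (m : ℂ)
    simpa using h2
  have h3 := (h1.cexp).const_mul a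
  refine h3.congr_deriv ?_
  ring

lemma Ex.thf {f : ℍ → ℂ} {a : PowerSeries ℂ} (hf : Ex 1 f a) : Ex 1 (thf f) (thS a) := by
  intro τ
  set y₀ : ℝ := τ.im / 2 with hy₀
  have hy₀pos : 0 < y₀ := by
    have := τ.im_pos
    positivity
  have hlt : y₀ < τ.im := by
    have := τ.im_pos
    rw [hy₀]
    linarith
  set τ₀ : ℍ := ⟨(y₀ : ℂ) * Complex.I, by simpa using hy₀pos⟩ with hτ₀
  have hτ₀' : ((τ₀ : ℍ) : ℂ) = (y₀ : ℂ) * Complex.I := rfl
  set F : ℕ → ℂ → ℂ := fun m w => PowerSeries.coeff m a * Complex.exp (2 * Real.pi * Complex.I * w * m) with hF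
  set U : Set ℂ := {w : ℂ | y₀ < w.im} with hU
  have hUo : IsOpen U := isOpen_lt continuous_const Complex.continuous_im
  have hτU : (τ : ℂ) ∈ U := hlt
  have hs : Summable fun m => ‖F m (τ₀ : ℂ)‖ := by
    have h1 := (hf τ₀).summable
    rw [← summable_norm_iff] at h1
    refine h1.congr fun m => ?_
    rw [smul_eq_mul, ExD_q]
  have hderiv := Complex.hasSum_deriv_of_summable_norm (F := F) (U := U) (z := (τ : ℂ)) hs
    (fun m w _ => (ExD_deriv (PowerSeries.coeff m a) m w).differentiableAt.differentiableWithinAt) hUo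
    (by
      intro m w hw
      simp only [hF]
      rw [ExD_norm, ExD_norm]
      refine mul_le_mul_of_nonneg_left (Real.exp_le_exp.mpr ?_) (norm_nonneg _)
      have h2 : ((τ₀ : ℍ) : ℂ).im = y₀ := by
        rw [hτ₀']
        simp
      rw [h2]
      have h3 : y₀ ≤ w.im := le_of_lt hw
      have h4 : (0 : ℝ) ≤ 2 * Real.pi * m := by positivity
      nlinarith [mul_le_mul_of_nonneg_left h3 h4])
    hτU
  have hev : (f ∘ UpperHalfPlane.ofComplex) =ᶠ[nhds (τ : ℂ)] fun w => ∑' m, F m w := by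
    filter_upwards [hUo.mem_nhds hτU] with w hw
    have hw0 : 0 < w.im := lt_trans hy₀pos hw
    rw [Function.comp_apply, UpperHalfPlane.ofComplex_apply_of_im_pos hw0]
    rw [← (hf ⟨w, hw0⟩).tsum_eq]
    refine tsum_congr fun m => ?_
    rw [smul_eq_mul, ExD_q]
  rw [← hev.deriv_eq] at hderiv
  have hpi : (2 * Real.pi * Complex.I : ℂ) ≠ 0 := Complex.two_pi_I_ne_zero
  have h5 := hderiv.mul_left (2 * Real.pi * Complex.I : ℂ)⁻¹
  show HasSum _ ((2 * Real.pi * Complex.I : ℂ)⁻¹ * deriv (f ∘ UpperHalfPlane.ofComplex) (τ : ℂ))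
  have h6 : (fun m : ℕ => (2 * Real.pi * Complex.I : ℂ)⁻¹ * deriv (F m) (τ : ℂ)) =
      fun m : ℕ => (PowerSeries.coeff m) (thS a) • (Function.Periodic.qParam ((1 : ℕ) : ℝ) (τ : ℂ)) ^ m := by
    funext m
    rw [smul_eq_mul, ExD_q]
    simp only [hF]
    rw [(ExD_deriv (PowerSeries.coeff m a) m (τ : ℂ)).deriv]
    unfold thS
    rw [PowerSeries.coeff_mk]
    field_simp
  rw [h6] at h5
  exact h5

end Pool.Agent.Lib.SCG
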