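import Pool.Agent.Lib.SCG.EtaA
import Pool.Agent.Lib.SCG.EtaB
import Pool.Agent.Lib.SCG.ExD

/-!
EtaC: `θD = D L` and the expansion of `L`.
PLAN. Mathlib `ModularForm.logDeriv_eta_eq_E2 (z : ℍ) : logDeriv eta z = (π I/12) E2 z`; the chain
rule for `η(3z)` gives `logDeriv D = 6 (πI/12) E2(z) + 18 (πI/12) E2(3z)`, divided by `2πI`:
`(E2(z) + 3 E2(3z))/4`. `Lf_ex`: Mathlib has the `q`-expansion of `E2`
(`EisensteinSeries.E2` = `1 - 24 ∑ σ₁(n) q^n`, search `E2_eq_...`/`G2_...` in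
NumberTheory/ModularForms/EisensteinSeries/E2); then `Ex.tm`. `thS_Ds`: `Ex.thf Df_ex`, `thf_Df`,
`Ex.mul Df_ex Lf_ex`, `Ex.unique`, `toC_inj` (`toC` commutes with `thS`).
-/

namespace Pool.Agent.Lib.SCG

open UpperHalfPlane

private lemma EtaC_three (τ : ℍ) : ((tm 3 (by norm_num) τ : ℍ) : ℂ) = 3 * (τ : ℂ) := by
  unfold tm
  rw [coe_mob]
  push_cast
  ring

private lemma EtaC_E2_ex : Ex 1 EisensteinSeries.E2 (toC (1 - 24 * sigS)) := by
  intro τ
  have h := EisensteinSeries.hasSum_qExpansion_E2 τ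
  have h1 : (fun m : ℕ => (PowerSeries.coeff m (toC (1 - 24 * sigS))) •
      (Function.Periodic.qParam ((1 : ℕ) : ℝ) (τ : ℂ)) ^ m) = fun m : ℕ =>
      (if m = 0 then 1 else -24 * ((ArithmeticFunction.sigma 1 m : ℕ) : ℂ)) •
        Complex.exp (2 * Real.pi * Complex.I * (τ : ℂ)) ^ m := by
    funext m
    have h2 : Function.Periodic.qParam ((1 : ℕ) : ℝ) (τ : ℂ) = Complex.exp (2 * Real.pi * Complex.I * (τ : ℂ)) := by
      unfold Function.Periodic.qParam
      congr 1
      push_cast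
      ring
    have h3 : (24 : PowerSeries ℤ) = PowerSeries.C 24 := by simp
    rw [h2]
    congr 1
    unfold toC sigS
    rw [PowerSeries.coeff_map, h3, map_sub, PowerSeries.coeff_C_mul, PowerSeries.coeff_mk, PowerSeries.coeff_one]
    by_cases hm : m = 0
    · subst hm
      simp
    · rw [if_neg hm, if_neg hm]
      simp
  rw [h1]
  exact h

private lemma EtaC_toC_thS (F : PowerSeries ℤ) : thS (toC F) = toC (thS F) := by
  ext n
  unfold thS toC
  rw [PowerSeries.coeff_mk, PowerSeries.coeff_map, PowerSeries.coeff_map, PowerSeries.coeff_mk]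
  simp

theorem thf_Df (τ : ℍ) : thf Df τ = Df τ * Lf τ := by
  have hτ := τ.im_pos
  have h3 : 0 < (3 * (τ : ℂ)).im := by
    simpa using hτ
  have hev : (Df ∘ UpperHalfPlane.ofComplex) =ᶠ[nhds (τ : ℂ)]
      fun z : ℂ => ModularForm.eta z ^ 6 * ModularForm.eta (3 * z) ^ 6 := by
    have hopen : IsOpen {z : ℂ | 0 < z.im} := isOpen_lt continuous_const Complex.continuous_im
    filter_upwards [hopen.mem_nhds hτ] with w hw
    rw [Function.comp_apply, UpperHalfPlane.ofComplex_apply_of_im_pos hw]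
    rfl
  have hd1 : DifferentiableAt ℂ ModularForm.eta (τ : ℂ) :=
    ModularForm.differentiableAt_eta_of_mem_upperHalfPlaneSet hτ
  have hd3 : DifferentiableAt ℂ ModularForm.eta (3 * (τ : ℂ)) :=
    ModularForm.differentiableAt_eta_of_mem_upperHalfPlaneSet h3
  have hmul : HasDerivAt (fun z : ℂ => 3 * z) 3 (τ : ℂ) := by
    simpa using (hasDerivAt_id (τ : ℂ)).const_mul 3
  have hd3' : DifferentiableAt ℂ (fun z : ℂ => ModularForm.eta (3 * z)) (τ : ℂ) :=
    DifferentiableAt.comp (τ : ℂ) hd3 hmul.differentiableAt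
  have hn1 : ModularForm.eta (τ : ℂ) ≠ 0 := ModularForm.eta_ne_zero hτ
  have hn3 : ModularForm.eta (3 * (τ : ℂ)) ≠ 0 := ModularForm.eta_ne_zero h3
  have hl1 := ModularForm.logDeriv_eta_eq_E2 τ
  have hl3 : logDeriv (fun z : ℂ => ModularForm.eta (3 * z)) (τ : ℂ) =
      (Real.pi * Complex.I / 12 * EisensteinSeries.E2 (tm 3 (by norm_num) τ)) * 3 := by
    have h4 := logDeriv_comp (f := ModularForm.eta) (g := fun z : ℂ => 3 * z) (x := (τ : ℂ)) hd3
      hmul.differentiableAt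
    have h5 := ModularForm.logDeriv_eta_eq_E2 (tm 3 (by norm_num) τ)
    rw [EtaC_three] at h5
    rw [hmul.deriv, h5] at h4
    exact h4
  have hlog : logDeriv (fun z : ℂ => ModularForm.eta z ^ 6 * ModularForm.eta (3 * z) ^ 6) (τ : ℂ) =
      6 * (Real.pi * Complex.I / 12 * EisensteinSeries.E2 τ) +
        6 * ((Real.pi * Complex.I / 12 * EisensteinSeries.E2 (tm 3 (by norm_num) τ)) * 3) := by
    rw [logDeriv_mul (f := fun z : ℂ => ModularForm.eta z ^ 6) (g := fun z : ℂ => ModularForm.eta (3 * z) ^ 6)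
      (τ : ℂ) (pow_ne_zero _ hn1) (pow_ne_zero _ hn3) (hd1.pow 6) (hd3'.pow 6),
      logDeriv_fun_pow hd1, logDeriv_fun_pow hd3', hl1, hl3]
    push_cast
    ring
  have hDf : Df τ ≠ 0 := Df_ne τ
  have hderiv : deriv (fun z : ℂ => ModularForm.eta z ^ 6 * ModularForm.eta (3 * z) ^ 6) (τ : ℂ) =
      Df τ * (6 * (Real.pi * Complex.I / 12 * EisensteinSeries.E2 τ) +
        6 * ((Real.pi * Complex.I / 12 * EisensteinSeries.E2 (tm 3 (by norm_num) τ)) * 3)) := by
    rw [← hlog, logDeriv_apply]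
    show _ = Df τ * (_ / Df τ)
    field_simp
  show ((2 * Real.pi * Complex.I : ℂ)⁻¹ * deriv (Df ∘ UpperHalfPlane.ofComplex) (τ : ℂ)) = _
  rw [hev.deriv_eq, hderiv]
  unfold Lf
  have hpi : (Real.pi : ℂ) ≠ 0 := by exact_mod_cast Real.pi_ne_zero
  have hI := Complex.I_ne_zero
  field_simp
  ring

theorem Lf_ex : Ex 1 Lf (toC Ls) := by
  have h1 := EtaC_E2_ex
  have h2 := h1.tm 3 (by norm_num)
  have h3 := ((h1.add (h2.smul 3)).smul (1 / 4))
  have h4 : toC Ls = PowerSeries.C (1 / 4 : ℂ) * (toC (1 - 24 * sigS) +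
      PowerSeries.C (3 : ℂ) * PowerSeries.expand 3 (by norm_num) (toC (1 - 24 * sigS))) := by
    have h5 : PowerSeries.C (1 / 4 : ℂ) * 4 = 1 := by
      have h6 : (4 : PowerSeries ℂ) = PowerSeries.C 4 := (map_ofNat (PowerSeries.C (R := ℂ)) 4).symm
      rw [h6, ← map_mul]
      norm_num
    have h7 : (PowerSeries.C (3 : ℂ)) = 3 := map_ofNat (PowerSeries.C (R := ℂ)) 3
    unfold Ls toC
    simp only [map_sub, map_mul, map_one, map_ofNat, PowerSeries.map_expand]
    linear_combination (1 - 6 * (PowerSeries.map (Int.castRingHom ℂ)) sigS -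
      18 * (PowerSeries.expand 3 (by norm_num)) ((PowerSeries.map (Int.castRingHom ℂ)) sigS)) * (-h5)
  rw [h4]
  refine h3.congr fun τ => ?_
  unfold Lf
  ring

lemma Ls_zero : PowerSeries.constantCoeff Ls = 1 := by
  unfold Ls sigS
  simp only [map_sub, map_mul, map_one, map_ofNat, PowerSeries.constantCoeff_expand]
  rw [← PowerSeries.coeff_zero_eq_constantCoeff_apply, PowerSeries.coeff_mk]
  simp

lemma Ls_one : PowerSeries.coeff 1 Ls = -6 := by
  have h6 : (6 : PowerSeries ℤ) = PowerSeries.C 6 := by simp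
  have h18 : (18 : PowerSeries ℤ) = PowerSeries.C 18 := by simp
  unfold Ls sigS
  rw [h6, h18, map_sub, map_sub, PowerSeries.coeff_C_mul, PowerSeries.coeff_C_mul, PowerSeries.coeff_mk,
    PowerSeries.coeff_expand_of_not_dvd _ _ _ (by norm_num : ¬ 3 ∣ 1), PowerSeries.coeff_one]
  simp

/-- The formal version. -/
theorem thS_Ds : thS Ds = Ds * Ls := by
  apply toC_inj
  have h1 := Ex.thf Df_ex
  have h2 := Df_ex.mul Lf_ex
  have h3 : Ex 1 (fun τ => Df τ * Lf τ) (thS (toC Ds)) := h1.congr fun τ => thf_Df τ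
  have h4 := h3.unique one_pos h2
  rw [← EtaC_toC_thS, h4, ← map_mul]

end Pool.Agent.Lib.SCG
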