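import Mathlib

/-!
EvA: two lemmas on polynomials over a domain modulo powers of a prime.
PLAN. `r = p b a' + p² b² a'³` (`a a' = 1`): `r² - a r + p b = p³ (..)`. (`evA`): `f(r)` is divisible
by `p³` (`f` is a multiple of the quadratic polynomial); `f(r) = f_0 + f_1 r + ∑_{k≥2} f_k r^k`
with `p² ∣ r^k` and `p ∣ f_k` for `2 ≤ k ≤ p`, and `p³ ∣ r^{p+1}`; `f_0 = p w`, `p ∣ r`: cancel one
`p`. (`evB`): `g(r) ≡ g_0 mod p²` (`p ∣ g_k`, `p ∣ r` for `0<k<p`; `r^p` for `k = p`);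
`f'(r) ≡ f_1 mod p²` (`k f_k r^{k-1}`); `g(r) - c f'(r) ≡ 0 mod p³`.
-/

namespace Pool.Agent.Lib.SCG

open Polynomial in
private lemma EvA_quad {A : Type*} [CommRing A] (P a a' b : A) (ha : a * a' = 1) :
    ∃ u, (P * b * a' + P ^ 2 * b ^ 2 * a' ^ 3) ^ 2
      - a * (P * b * a' + P ^ 2 * b ^ 2 * a' ^ 3) + P * b = P ^ 3 * u := by
  refine ⟨2 * b ^ 3 * a' ^ 4 + P * b ^ 4 * a' ^ 6, ?_⟩
  linear_combination (-(P * b) - P ^ 2 * b ^ 2 * a' ^ 2) * ha

open Polynomial in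
private lemma EvA_eval {A : Type*} [CommRing A] (P a b r : A) (n : ℕ)
    (f : A[X]) (hr : P ^ 3 ∣ r ^ 2 - a * r + P * b)
    (hdiv : (X ^ 2 - C a * X + C (P * b)) ∣ f) : P ^ 3 ∣ f.eval r := by
  obtain ⟨g, rfl⟩ := hdiv
  rw [eval_mul]
  apply Dvd.dvd.mul_right
  simpa using hr

open Polynomial in
theorem evA {A : Type*} [CommRing A] [IsDomain A] (p : ℕ) (hp : 3 ≤ p) (hp0 : (p : A) ≠ 0)
    (f : A[X]) (hdeg : f.natDegree ≤ p + 1)
    (hc : ∀ k, 2 ≤ k → k ≤ p → (p : A) ∣ f.coeff k) (w : A) (hw : f.coeff 0 = p * w)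
    (a a' b : A) (ha : a * a' = 1) (hdiv : (X ^ 2 - C a * X + C (p * b)) ∣ f) :
    (p : A) ^ 2 ∣ w + f.coeff 1 * (b * a' + p * b ^ 2 * a' ^ 3) := by
  set P : A := (p : A) with hP
  set r : A := P * b * a' + P ^ 2 * b ^ 2 * a' ^ 3 with hr
  obtain ⟨u, hu⟩ := EvA_quad P a a' b ha
  have h1 : P ^ 3 ∣ f.eval r := EvA_eval P a b r 0 f ⟨u, hu⟩ hdiv
  have hPr : P ∣ r := ⟨b * a' + P * b ^ 2 * a' ^ 3, by rw [hr]; ring⟩
  rw [eval_eq_sum_range' (Nat.lt_succ_of_le hdeg), Finset.sum_range_succ' , Finset.sum_range_succ'] at h1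
  have h2 : P ^ 3 ∣ ∑ k ∈ Finset.range p, f.coeff (k + 1 + 1) * r ^ (k + 1 + 1) := by
    apply Finset.dvd_sum
    intro k hk
    have hk' := Finset.mem_range.mp hk
    by_cases hkp : k + 2 ≤ p
    · have h3 := hc (k + 2) (by omega) hkp
      have h4 : P ^ 2 ∣ r ^ (k + 1 + 1) :=
        (pow_dvd_pow_of_dvd hPr 2).trans (pow_dvd_pow r (by omega))
      rw [pow_succ' P 2]
      exact mul_dvd_mul h3 h4
    · have h4 : P ^ 3 ∣ r ^ (k + 1 + 1) :=
        (pow_dvd_pow_of_dvd hPr 3).trans (pow_dvd_pow r (by omega))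
      exact h4.mul_left _
  have h5 : P ^ 3 ∣ f.coeff (0 + 1) * r ^ (0 + 1) + f.coeff 0 * r ^ 0 := by
    have := dvd_sub h1 h2
    convert this using 1
    ring
  obtain ⟨v, hv⟩ := h5
  refine ⟨v, ?_⟩
  apply mul_left_cancel₀ hp0
  simp only [zero_add, pow_one, pow_zero, mul_one] at hv
  rw [hw, hr] at hv
  linear_combination hv

open Polynomial in
theorem evB {A : Type*} [CommRing A] [IsDomain A] (p : ℕ) (hp : 3 ≤ p) (hp0 : (p : A) ≠ 0)
    (f g : A[X]) (hdeg : f.natDegree ≤ p + 1) (hdeg' : g.natDegree ≤ p)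
    (hc : ∀ k, 2 ≤ k → k ≤ p → (p : A) ∣ f.coeff k)
    (hc' : ∀ k, 1 ≤ k → k < p → (p : A) ∣ g.coeff k) (c : A)
    (a a' b : A) (ha : a * a' = 1)
    (hdiv : (X ^ 2 - C a * X + C (p * b)) ∣ g - C c * derivative f) :
    (p : A) ^ 2 ∣ g.coeff 0 - c * f.coeff 1 := by
  set P : A := (p : A) with hP
  set r : A := P * b * a' + P ^ 2 * b ^ 2 * a' ^ 3 with hr
  obtain ⟨u, hu⟩ := EvA_quad P a a' b ha
  have h1 : P ^ 3 ∣ (g - C c * derivative f).eval r := EvA_eval P a b r 0 _ ⟨u, hu⟩ hdiv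
  have h1' : P ^ 2 ∣ g.eval r - c * (derivative f).eval r := by
    have := (pow_dvd_pow P (by norm_num : 2 ≤ 3)).trans h1
    simpa using this
  have hPr : P ∣ r := ⟨b * a' + P * b ^ 2 * a' ^ 3, by rw [hr]; ring⟩
  have hg : P ^ 2 ∣ g.eval r - g.coeff 0 := by
    rw [eval_eq_sum_range' (Nat.lt_succ_of_le hdeg'), Finset.sum_range_succ']
    have : P ^ 2 ∣ ∑ k ∈ Finset.range p, g.coeff (k + 1) * r ^ (k + 1) := by
      apply Finset.dvd_sum
      intro k hk
      have hk' := Finset.mem_range.mp hk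
      by_cases hkp : k + 1 < p
      · have h3 := hc' (k + 1) (by omega) hkp
        have h4 : P ∣ r ^ (k + 1) := hPr.trans (dvd_pow_self r (by omega))
        rw [pow_two]
        exact mul_dvd_mul h3 h4
      · have h4 : P ^ 2 ∣ r ^ (k + 1) :=
          (pow_dvd_pow_of_dvd hPr 2).trans (pow_dvd_pow r (by omega))
        exact h4.mul_left _
    convert this using 1
    ring
  have hf : P ^ 2 ∣ (derivative f).eval r - f.coeff 1 := by
    have hd : (derivative f).natDegree ≤ p := by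
      have := natDegree_derivative_le f
      omega
    rw [eval_eq_sum_range' (Nat.lt_succ_of_le hd), Finset.sum_range_succ']
    have : P ^ 2 ∣ ∑ k ∈ Finset.range p, (derivative f).coeff (k + 1) * r ^ (k + 1) := by
      apply Finset.dvd_sum
      intro k hk
      have hk' := Finset.mem_range.mp hk
      rw [coeff_derivative]
      by_cases hkp : k + 1 < p
      · have h3 := hc (k + 1 + 1) (by omega) (by omega)
        have h4 : P ∣ r ^ (k + 1) := hPr.trans (dvd_pow_self r (by omega))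
        rw [pow_two]
        exact mul_dvd_mul (h3.mul_right _) h4
      · have h4 : P ^ 2 ∣ r ^ (k + 1) :=
          (pow_dvd_pow_of_dvd hPr 2).trans (pow_dvd_pow r (by omega))
        exact h4.mul_left _
    convert this using 1
    rw [coeff_derivative]
    push_cast
    ring
  have h6 : g.coeff 0 - c * f.coeff 1 = (g.eval r - c * (derivative f).eval r)
      - (g.eval r - g.coeff 0) + c * ((derivative f).eval r - f.coeff 1) := by ring
  rw [h6]
  exact dvd_add (dvd_sub h1' hg) (hf.mul_left c)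

end Pool.Agent.Lib.SCG
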