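import Pool.Agent.Lib.SCG.Ev1D
import Pool.Agent.Lib.SCG.EvA

/-!
Ev1: evaluation in case 1 (`4p = x² + 51y²`, `χ p = 1`), paper section 6.
PLAN. `case1`. `evA` for `f1` (`ev1f`) with `b = 1`, `a = t = -χ(x)x`, `a' = t⁻¹` (`p ∤ x`),
`f_0 = evz (P (p+1)) = p evz d` (`H.top`), `f_1 = - evz (P p)` (`(-1)^p = -1`); the coefficients
`f_k`, `2 ≤ k ≤ p`, are divisible by `p` by `H.dvd` (`evz_dvd`):
`p² ∣ d₀ - e (1/t + p/t³)`, `e = evz (P p)`, `d₀ = evz d`. `evB` (`ev1g`) with `c = d₀³`: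
`p² ∣ Q₀ + d₀³ e`, `Q₀ = evz (Q p)` (coefficients of `g1` by `HQ.dvd`).
`d₀ ≡ 1 mod p` (`H.done`). `d₀ (t - p/t) ≡ e`, so `e(2-d₀) ≡ d₀(2-d₀)(t-p/t) ≡ t - p/t`, and
`-Q₀(5-4d₀) ≡ d₀³ e (5-4d₀) ≡ d₀⁴(5-4d₀)(t-p/t) ≡ t - p/t mod p²`
(`d₀(2-d₀) = 1 - (d₀-1)²`, `d₀⁴(5-4d₀) ≡ 1 mod (d₀-1)²`). `t - p/t = -χ(x)(x - p/x)`. `cong_iff`.
-/

namespace Pool.Agent.Lib.SCG

open Polynomial in
private lemma Ev1_coeff {A : Type*} [CommRing A] (n : ℕ) (c : ℕ → A) (j : ℕ) :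
    (∑ k ∈ Finset.range (n + 1), C (c k) * X ^ (n - k)).coeff j
      = if j ≤ n then c (n - j) else 0 := by
  rw [finsetSum_coeff]
  simp only [coeff_C_mul_X_pow]
  by_cases hj : j ≤ n
  · rw [if_pos hj, Finset.sum_eq_single (n - j)]
    · rw [if_pos (by omega)]
    · intro b hb hbn
      rw [if_neg]
      have := Finset.mem_range.mp hb
      omega
    · intro h
      exact absurd (Finset.mem_range.mpr (by omega)) h
  · rw [if_neg hj]
    apply Finset.sum_eq_zero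
    intro b hb
    rw [if_neg]
    omega

private lemma Ev1_fin {A : Type*} [CommRing A] (p e d q t t' : A) (ht : t * t' = 1)
    (h1 : p ^ 2 ∣ d + (-e) * (1 * t' + p * 1 ^ 2 * t' ^ 3))
    (h2 : p ^ 2 ∣ q - d ^ 3 * (-e)) (h3 : p ∣ d - 1) :
    p ^ 2 ∣ e * (2 - d) - (t - p * t') ∧ p ^ 2 ∣ -q * (5 - 4 * d) - (t - p * t') := by
  obtain ⟨u, hu⟩ := h1
  obtain ⟨v, hv⟩ := h2
  obtain ⟨m, hm⟩ := h3
  have he : e = d * (t - p * t') + p ^ 2 * (e * t' ^ 4 - u * (t - p * t')) := by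
    have h5 : (t' + p * t' ^ 3) * (t - p * t') = 1 - p ^ 2 * t' ^ 4 := by
      linear_combination (1 + p * t' ^ 2) * ht
    linear_combination -(t - p * t') * hu - e * h5
  have hd : d = 1 + p * m := by linear_combination hm
  constructor
  · refine ⟨-(m ^ 2) * (t - p * t') + (e * t' ^ 4 - u * (t - p * t')) * (2 - d), ?_⟩
    have h6 : d * (2 - d) = 1 - p ^ 2 * m ^ 2 := by rw [hd]; ring
    linear_combination (2 - d) * he + (t - p * t') * h6
  · refine ⟨-(m ^ 2) * (4 * d ^ 3 + 3 * d ^ 2 + 2 * d + 1) * (t - p * t')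
      + d ^ 3 * (e * t' ^ 4 - u * (t - p * t')) * (5 - 4 * d) - v * (5 - 4 * d), ?_⟩
    have h6 : d ^ 4 * (5 - 4 * d) - 1
        = -(p ^ 2 * m ^ 2) * (4 * d ^ 3 + 3 * d ^ 2 + 2 * d + 1) := by
      have : p ^ 2 * m ^ 2 = (d - 1) ^ 2 := by rw [hd]; ring
      rw [this]
      ring
    linear_combination d ^ 3 * (5 - 4 * d) * he + (t - p * t') * h6 - (5 - 4 * d) * hv

theorem ev1 (p : ℕ) [Fact p.Prime] [NeZero p] (h3 : 3 < p) (x y : ℤ)
    (h : (4 : ℤ) * p = x ^ 2 + 51 * y ^ 2)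
    (P : ℕ → Polynomial ℤ) (d : Polynomial ℤ) (H : HGdata p P d)
    (Q : ℕ → Polynomial ℤ) (HQ : HKdata p Q) :
    Cong p 2 (evq (P p * (2 - d))) (-((chi x : ℤ) : ℚ) * (x - p / x)) ∧
    Cong p 2 (evq (-Q p * (5 - 4 * d))) (-((chi x : ℤ) : ℚ) * (x - p / x)) := by
  obtain ⟨hchi, hpx, hy, hcx⟩ := case1 p h3 x y h
  have hprime : p.Prime := Fact.out
  have hodd : Odd p := hprime.odd_of_ne_two (by omega)
  have hpt : ¬ (p : ℤ) ∣ -chi x * x := by
    rcases hcx with hc | hc <;> rw [hc] <;> simpa using hpx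
  have ht0 : ((-chi x * x : ℤ) : ℚ) ≠ 0 := by
    intro h0
    have : (-chi x * x : ℤ) = 0 := by exact_mod_cast h0
    exact hpt (this ▸ dvd_zero _)
  have hp0 : ((p : ℕ) : Zp p) ≠ 0 := by
    intro h0
    have := congrArg Subtype.val h0
    push_cast at this
    have : p = 0 := by exact_mod_cast this
    omega
  set t' : Zp p := ⟨((-chi x * x : ℤ) : ℚ)⁻¹, inv_mem p _ hpt⟩ with ht'
  have ht : ((-chi x * x : ℤ) : Zp p) * t' = 1 := by
    apply Subtype.ext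
    have h0 : (((-chi x * x : ℤ) : Zp p) : ℚ) = ((-chi x * x : ℤ) : ℚ) := by norm_cast
    change (((-chi x * x : ℤ) : Zp p) : ℚ) * ((-chi x * x : ℤ) : ℚ)⁻¹ = 1
    rw [h0]
    exact mul_inv_cancel₀ ht0
  have hf : ∀ j, (f1 p h3 P).coeff j
      = if j ≤ p + 1 then (-1) ^ (p + 1 - j) * evz p h3 (P (p + 1 - j)) else 0 := fun j =>
    Ev1_coeff (p + 1) (fun k => (-1) ^ k * evz p h3 (P k)) j
  have hg : ∀ j, (g1 p h3 Q).coeff j
      = if j ≤ p then evz p h3 (Q (p - j)) else 0 := fun j =>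
    Ev1_coeff p (fun k => evz p h3 (Q k)) j
  have hdeg : (f1 p h3 P).natDegree ≤ p + 1 := by
    rw [Polynomial.natDegree_le_iff_coeff_eq_zero]
    intro N hN
    rw [hf, if_neg (by omega)]
  have hdeg' : (g1 p h3 Q).natDegree ≤ p := by
    rw [Polynomial.natDegree_le_iff_coeff_eq_zero]
    intro N hN
    rw [hg, if_neg (by omega)]
  have hc : ∀ k, 2 ≤ k → k ≤ p → ((p : ℕ) : Zp p) ∣ (f1 p h3 P).coeff k := by
    intro k hk hkp
    rw [hf, if_pos (by omega)]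
    apply Dvd.dvd.mul_left
    exact_mod_cast evz_dvd p h3 p _ (H.dvd (p + 1 - k) (by omega) (by omega))
  have hc' : ∀ k, 1 ≤ k → k < p → ((p : ℕ) : Zp p) ∣ (g1 p h3 Q).coeff k := by
    intro k hk hkp
    rw [hg, if_pos (by omega)]
    exact_mod_cast evz_dvd p h3 p _ (HQ.dvd (p - k) (by omega) (by omega))
  have hf0 : (f1 p h3 P).coeff 0 = ((p : ℕ) : Zp p) * evz p h3 d := by
    rw [hf, if_pos (by omega), Nat.sub_zero, H.top, hchi]
    have he : Even (p + 1) := hodd.add_one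
    rw [he.neg_one_pow, map_mul]
    have : evz p h3 (Polynomial.C (1 * (p : ℤ))) = ((p : ℕ) : Zp p) := by
      simp [evz]
    rw [this]
    ring
  have hf1 : (f1 p h3 P).coeff 1 = -evz p h3 (P p) := by
    rw [hf, if_pos (by omega), Nat.add_sub_cancel, hodd.neg_one_pow]
    ring
  have hg0 : (g1 p h3 Q).coeff 0 = evz p h3 (Q p) := by
    rw [hg, if_pos (by omega), Nat.sub_zero]
  have hA := evA p (by omega) hp0 (f1 p h3 P) hdeg hc (evz p h3 d) hf0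
    ((-chi x * x : ℤ) : Zp p) t' 1 ht (ev1f p h3 x y h P d H)
  have hB := evB p (by omega) hp0 (f1 p h3 P) (g1 p h3 Q) hdeg hdeg' hc hc' (evz p h3 d ^ 3)
    ((-chi x * x : ℤ) : Zp p) t' 1 ht (ev1g p h3 x y h P d H Q HQ)
  rw [hf1] at hA hB
  rw [hg0] at hB
  have hD : ((p : ℕ) : Zp p) ∣ evz p h3 d - 1 := by
    have := evz_dvd p h3 p _ H.done
    rw [map_sub, map_one] at this
    exact_mod_cast this
  obtain ⟨R1, R2⟩ := Ev1_fin _ _ _ _ _ _ ht hA hB hD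
  have hval : (-((chi x : ℤ) : ℚ) * (x - p / x))
      = ((((-chi x * x : ℤ) : Zp p) - ((p : ℕ) : Zp p) * t' : Zp p) : ℚ) := by
    rw [ht']
    push_cast
    have hx0 : (x : ℚ) ≠ 0 := by
      intro h0
      have : x = 0 := by exact_mod_cast h0
      exact hpx (this ▸ dvd_zero _)
    rcases hcx with hc | hc <;> rw [hc] <;> field_simp <;> push_cast <;> ring
  constructor
  · have := (cong_iff p 2 _ _).mpr R1
    rw [hval, ← evz_evq p h3, map_mul, map_sub]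
    have h2 : evz p h3 2 = 2 := map_ofNat _ 2
    rw [h2]
    exact this
  · have := (cong_iff p 2 _ _).mpr R2
    rw [hval, ← evz_evq p h3, map_mul, map_sub, map_neg, map_mul]
    have h5 : evz p h3 5 = 5 := map_ofNat _ 5
    have h4 : evz p h3 4 = 4 := map_ofNat _ 4
    rw [h5, h4]
    exact this

end Pool.Agent.Lib.SCG
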