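import Pool.Agent.Lib.SCG.Defs

/-!
PsiC: the values of `Psi` at the roots of `Phi`.
PLAN. In `Psi(G_C)` only the summand `C` survives (`G_C` is a root of the other products, which
contain the factor `X - G_C`): `Psi(G_C) = K_C ∏_{C'≠C} G_{C'}³ (G_C - G_{C'})`, and
`Phi'(G_C) = ∏_{C'≠C} (G_C - G_{C'})` (`Polynomial.derivative_prod`, the other summands vanish).
-/

namespace Pool.Agent.Lib.SCG

open UpperHalfPlane

theorem Psi_root (l : ℕ) [NeZero l] (τ : ℍ) (C : Option (ZMod l)) :
    (Psi l τ).eval (fam l 1 Gf C τ) * fam l 1 Gf C τ ^ 3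
      = fam l 3 Kf C τ * (∏ C' : Option (ZMod l), fam l 1 Gf C' τ) ^ 3
        * (Polynomial.derivative (Phi l τ)).eval (fam l 1 Gf C τ) := by
  classical
  set G : Option (ZMod l) → ℂ := fun C => fam l 1 Gf C τ with hG
  have h1 : (Psi l τ).eval (G C) = fam l 3 Kf C τ *
      ∏ C' ∈ Finset.univ.erase C, (G C' ^ 3 * (G C - G C')) := by
    unfold Psi
    rw [Polynomial.eval_finsetSum, Finset.sum_eq_single C]
    · rw [Polynomial.eval_mul, Polynomial.eval_C, Polynomial.eval_prod]
      congr 1
      refine Finset.prod_congr ?_ fun C' _ => ?_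
      · ext x; simp
      · simp [hG]
    · intro D _ hD
      rw [Polynomial.eval_mul, Polynomial.eval_prod, Finset.prod_eq_zero (i := C), mul_zero]
      · simp only [Finset.mem_erase, Finset.mem_univ, and_true]
        exact Ne.symm hD
      · simp [hG]
    · intro h
      exact absurd (Finset.mem_univ C) h
  have h2 : (Polynomial.derivative (Phi l τ)).eval (G C) = ∏ C' ∈ Finset.univ.erase C, (G C - G C') := by
    unfold Phi PhiF
    rw [Polynomial.derivative_prod_finset, Polynomial.eval_finsetSum, Finset.sum_eq_single C]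
    · simp [Polynomial.eval_prod, hG]
    · intro D _ hD
      rw [Polynomial.eval_mul, Polynomial.eval_prod, Finset.prod_eq_zero (i := C), zero_mul]
      · simp only [Finset.mem_erase, Finset.mem_univ, and_true]
        exact Ne.symm hD
      · simp [hG]
    · intro h
      exact absurd (Finset.mem_univ C) h
  have h3 : (∏ C' : Option (ZMod l), G C') = G C * ∏ C' ∈ Finset.univ.erase C, G C' :=
    (Finset.mul_prod_erase _ _ (Finset.mem_univ C)).symm
  change (Psi l τ).eval (G C) * G C ^ 3 = fam l 3 Kf C τ * (∏ C' : Option (ZMod l), G C') ^ 3 *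
    (Polynomial.derivative (Phi l τ)).eval (G C)
  rw [h1, h2, h3, Finset.prod_mul_distrib, Finset.prod_pow, mul_pow]
  ring

end Pool.Agent.Lib.SCG
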