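import Pool.Agent.Lib.SCG.FamC

/-!
TauB: the multipliers at the CM point, first case (paper (5.1)).
PLAN. `3 τ₀² + 3 τ₀ + 5 = 0`. `tau1`: `x ≡ y mod 2` (mod 4), `3 ∤ x` (else `3 ∣ l`). Matrix
`a = (x-3y)/2, b = -5y, c = 3y, d = (x+3y)/2`: determinant `l`, `3 ∣ c`, `m τ₀ = τ₀`
(`aτ₀ + b = τ₀ (cτ₀+d)` iff `y(3τ₀²+3τ₀+5) = 0`), `λ := cτ₀+d = (x + y√51 i)/2`,
`λ conj λ = l`, `χ(a) = χ(2x) = -χ(x)` (`a ≡ x/2 ≡ 2x mod 3`). `fam_mat`:
`F_C(τ₀) = (χ(a) l/λ)^w F(τ₀) = (χ(a) conj λ)^w F(τ₀)`.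
-/

namespace Pool.Agent.Lib.SCG

open UpperHalfPlane

private lemma TauB_eq : 3 * (tau0 : ℂ) ^ 2 + 3 * (tau0 : ℂ) + 5 = 0 := by
  change 3 * (-1 / 2 + ((Real.sqrt 51 / 6 : ℝ) : ℂ) * Complex.I) ^ 2
    + 3 * (-1 / 2 + ((Real.sqrt 51 / 6 : ℝ) : ℂ) * Complex.I) + 5 = 0
  have h1 : ((Real.sqrt 51 : ℝ) : ℂ) ^ 2 = 51 := by
    rw [← Complex.ofReal_pow, Real.sq_sqrt (by norm_num)]
    norm_num
  push_cast
  linear_combination (Complex.I ^ 2 / 12) * h1 + (51 / 12) * Complex.I_sq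

theorem tau1 (l : ℕ) [Fact l.Prime] [NeZero l] (h3 : l ≠ 3) (x y : ℤ)
    (h : (4 : ℤ) * l = x ^ 2 + 51 * y ^ 2) :
    ∃ C : Option (ZMod l), ∀ (w : ℕ) (ε : ℂ), (ε = 1 ∨ ε = -1) → ∀ F : ℍ → ℂ, Aut w ε F →
      fam l w F C tau0 = (-((chi x : ℤ) : ℂ) *
        (x - y * ((Real.sqrt 51 : ℝ) : ℂ) * Complex.I) / 2) ^ w * F tau0 := by
  have hprime : l.Prime := Fact.out
  -- parity
  have hpar : x % 2 = y % 2 := by
    have h4 : (x ^ 2 + 51 * y ^ 2) % 2 = 0 := by rw [← h]; omega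
    rcases Int.emod_two_eq_zero_or_one x with hx | hx <;>
      rcases Int.emod_two_eq_zero_or_one y with hy | hy
    · omega
    · exfalso
      obtain ⟨a, ha⟩ : ∃ a, x = 2 * a := ⟨x / 2, by omega⟩
      obtain ⟨b, hb⟩ : ∃ b, y = 2 * b + 1 := ⟨y / 2, by omega⟩
      subst ha hb
      ring_nf at h4
      omega
    · exfalso
      obtain ⟨a, ha⟩ : ∃ a, x = 2 * a + 1 := ⟨x / 2, by omega⟩
      obtain ⟨b, hb⟩ : ∃ b, y = 2 * b := ⟨y / 2, by omega⟩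
      subst ha hb
      ring_nf at h4
      omega
    · omega
  obtain ⟨a, ha⟩ : ∃ a, x = 2 * a + 3 * y := ⟨(x - 3 * y) / 2, by omega⟩
  have hx3 : ¬ (3 : ℤ) ∣ x := by
    intro hx
    have h9 : (3 : ℤ) ∣ 4 * l := by
      rw [h]
      exact dvd_add (dvd_pow hx (by norm_num)) (by
        rw [show (51 : ℤ) * y ^ 2 = 3 * (17 * y ^ 2) by ring]; exact dvd_mul_right _ _)
    have h10 : 3 ∣ 4 * l := by exact_mod_cast h9
    rcases (Nat.Prime.dvd_mul Nat.prime_three).mp h10 with h11 | h11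
    · omega
    · exact h3 ((Nat.prime_dvd_prime_iff_eq Nat.prime_three hprime).mp h11).symm
  -- the matrix (a, -5y; 3y, a+3y)
  have hdet : a * (a + 3 * y) - (-5 * y) * (3 * y) = l := by
    subst ha
    nlinarith [h]
  have hpos : 0 < a * (a + 3 * y) - (-5 * y) * (3 * y) := by
    rw [hdet]
    exact_mod_cast hprime.pos
  obtain ⟨C, hC⟩ := fam_mat l h3 a (-5 * y) (3 * y) (a + 3 * y) hdet (dvd_mul_right 3 y) hpos
  refine ⟨C, fun w ε hε F hF => ?_⟩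
  rw [hC w ε hε F hF tau0]
  -- fixed point
  have hne := denom_ne a (-5 * y) (3 * y) (a + 3 * y) hpos tau0
  have hfix : mob a (-5 * y) (3 * y) (a + 3 * y) hpos tau0 = tau0 := by
    apply UpperHalfPlane.ext
    rw [coe_mob, div_eq_iff hne]
    push_cast
    linear_combination (-(y : ℂ)) * TauB_eq
  rw [hfix]
  congr 1
  -- chi
  have hchi : chi a = -chi x := by
    rw [chi_mod, chi_mod]
    have hx0 : x % 3 = 1 ∨ x % 3 = 2 := by omega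
    rcases hx0 with h0 | h0
    · have : a % 3 = 2 := by omega
      rw [this, h0]; norm_num
    · have : a % 3 = 1 := by omega
      rw [this, h0]; norm_num
  have hlam : (((3 * y : ℤ) : ℂ) * tau0 + ((a + 3 * y : ℤ) : ℂ))
      = (x + y * ((Real.sqrt 51 : ℝ) : ℂ) * Complex.I) / 2 := by
    change (((3 * y : ℤ) : ℂ) * (-1 / 2 + ((Real.sqrt 51 / 6 : ℝ) : ℂ) * Complex.I)
      + ((a + 3 * y : ℤ) : ℂ)) = _
    rw [ha]
    push_cast
    ring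
  have hprod : (x + y * ((Real.sqrt 51 : ℝ) : ℂ) * Complex.I) / 2
      * ((x - y * ((Real.sqrt 51 : ℝ) : ℂ) * Complex.I) / 2) = (l : ℂ) := by
    have h1 : ((Real.sqrt 51 : ℝ) : ℂ) ^ 2 = 51 := by
      rw [← Complex.ofReal_pow, Real.sq_sqrt (by norm_num)]
      norm_num
    have h2 : (4 : ℂ) * l = (x : ℂ) ^ 2 + 51 * (y : ℂ) ^ 2 := by exact_mod_cast h
    linear_combination (-(y : ℂ) ^ 2 * Complex.I ^ 2 / 4) * h1 - (51 * (y : ℂ) ^ 2 / 4)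
      * Complex.I_sq - h2 / 4
  rw [hlam] at hne
  rw [hlam, hchi, ← mul_pow, ← inv_pow, ← mul_pow]
  congr 1
  rw [← div_eq_mul_inv, div_eq_iff hne]
  push_cast
  linear_combination ((chi x : ℤ) : ℂ) * hprod

end Pool.Agent.Lib.SCG
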