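import Pool.Agent.Lib.SCG.EvP
import Pool.Agent.Lib.SCG.PsiC
import Pool.Agent.Lib.SCG.TauB

/-!
Ev1D: the divisibilities in case 1 (`4p = x² + 51y²`, `χ p = 1`), paper section 6.
PLAN. Over `A = Zp p`: `f = f1`, `g = g1`, `t = -χ(x) x`, `m = X² - C t X + C p`.
(0) `χ p = 1` and `p ∤ x`, `y ≠ 0` (mod 3, `p ≥ 5`; `3 ∤ x`).
(1) `m ∣ f`: map to `ℂ[X]` (`Zp p → ℚ → ℂ` injective, `Polynomial.map_dvd_map`, `m` monic); the
two numbers `z± = -χ(x)(x ∓ y√51 i)/2` are distinct with sum `t`, product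
`p` (`χ(x)² = 1`), so `m = (X - z+)(X - z-)` over `ℂ`, and both
are roots: `tau1` for `(x, y)` and `(x, -y)` with `w = 1`,
`ε = 1`, `F = Gf` (`autG`): `g₀ z± = fam p 1 Gf C τ₀` is a root of `Phi p τ₀` (`Finset.prod` with a
zero factor); `phi1`, `evq_evc`, `evz_evq`.
(2) `m ∣ g - C (evz d ^ 3) f'`: at `z±`: `Psi_root` with `fam p 3 Kf C τ₀ = z³ K(τ₀)` (`tau1` with
`w = 3`, `ε = -1` (`autK`), SAME `C`), `Kf_tau0`, `prod_tau0`: `Psi(g₀z) = s₀ p³ g₀^{3p+3} d³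
Phi'(g₀z)`, `g₀ Phi'(g₀ z) = g₀^{p+1} f'(z)` (differentiate `phi1` as polynomial identity:
`(Phi p τ₀).comp (C g₀ * X) = C g₀^{p+1} * f.map`, `Polynomial.funext`), `psi1`; cancel
`s₀ p³ g₀^{4p+3} ≠ 0`.
-/

namespace Pool.Agent.Lib.SCG

open Polynomial in
/-- The polynomial of the normalised multipliers over `Z_(p)`. -/
noncomputable def f1 (p : ℕ) [Fact p.Prime] (h3 : 3 < p) (P : ℕ → ℤ[X]) : (Zp p)[X] :=
  ∑ k ∈ Finset.range (p + 2), C ((-1) ^ k * evz p h3 (P k)) * X ^ (p + 1 - k)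

open Polynomial in
noncomputable def g1 (p : ℕ) [Fact p.Prime] (h3 : 3 < p) (Q : ℕ → ℤ[X]) : (Zp p)[X] :=
  ∑ i ∈ Finset.range (p + 1), C (evz p h3 (Q i)) * X ^ (p - i)

theorem case1 (p : ℕ) [Fact p.Prime] (h3 : 3 < p) (x y : ℤ)
    (h : (4 : ℤ) * p = x ^ 2 + 51 * y ^ 2) :
    chi p = 1 ∧ ¬ (p : ℤ) ∣ x ∧ y ≠ 0 ∧ (chi x = 1 ∨ chi x = -1) := by
  have hp : p.Prime := Fact.out
  have hp3 : ¬ (3 : ℤ) ∣ p := by
    intro hd
    have h1 : 3 ∣ p := by exact_mod_cast hd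
    have h2 := (Nat.prime_dvd_prime_iff_eq Nat.prime_three hp).1 h1
    omega
  have hx3 : ¬ (3 : ℤ) ∣ x := by
    rintro ⟨k, rfl⟩
    apply hp3
    have h1 : (3 : ℤ) ∣ 4 * p := ⟨3 * k ^ 2 + 17 * y ^ 2, by rw [h]; ring⟩
    omega
  have hxm : x % 3 = 1 ∨ x % 3 = 2 := by omega
  have hpm : (p : ℤ) % 3 = 1 := by
    have h1 : (x ^ 2) % 3 = 1 := by
      rcases hxm with h1 | h1
      · rw [pow_two, Int.mul_emod, h1]
        norm_num
      · rw [pow_two, Int.mul_emod, h1]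
        norm_num
    have h2 : (51 * y ^ 2) % 3 = 0 := by
      rw [show (51 : ℤ) * y ^ 2 = 3 * (17 * y ^ 2) by ring]
      exact Int.mul_emod_right 3 _
    omega
  have hpx : ¬ (p : ℤ) ∣ x := by
    rintro ⟨k, rfl⟩
    have hp5 : (5 : ℤ) ≤ p := by
      have : p ≠ 4 := by
        rintro rfl
        revert hp
        decide
      have : 5 ≤ p := by omega
      exact_mod_cast this
    have hk : k = 0 := by
      by_contra hk
      have hk1 : 1 ≤ k ^ 2 := by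
        have := sq_nonneg k
        have h0 : k ^ 2 ≠ 0 := pow_ne_zero 2 hk
        omega
      nlinarith [sq_nonneg y, sq_nonneg (p : ℤ)]
    rw [hk] at h
    apply hp3
    have h1 : (3 : ℤ) ∣ 4 * p := ⟨17 * y ^ 2, by rw [h]; ring⟩
    omega
  refine ⟨?_, hpx, ?_, ?_⟩
  · rw [chi_mod, hpm]
    norm_num
  · rintro rfl
    apply hpx
    have h1 : (p : ℤ) ∣ x ^ 2 := ⟨4, by rw [← sub_eq_zero]; linarith⟩
    exact (Nat.prime_iff_prime_int.1 hp).dvd_of_dvd_pow h1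
  · rw [chi_mod]
    rcases hxm with h1 | h1
    · left
      rw [h1]
      norm_num
    · right
      rw [h1]
      norm_num

/-- the embedding of `Zp p` -/
private noncomputable def emZ (p : ℕ) [Fact p.Prime] : Zp p →+* ℂ :=
  (Rat.castHom ℂ).comp (Zp p).subtype

private lemma emZ_inj (p : ℕ) [Fact p.Prime] : Function.Injective (emZ p) := by
  intro a b hab
  have h1 : (((a : ℚ)) : ℂ) = ((b : ℚ) : ℂ) := hab
  exact Subtype.ext (by exact_mod_cast h1)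

private lemma emZ_evz (p : ℕ) [Fact p.Prime] (h3 : 3 < p) (P : Polynomial ℤ) :
    emZ p (evz p h3 P) = evc P := by
  rw [← evq_evc, ← evz_evq p h3]
  rfl

/-- the multiplier -/
private noncomputable def zz (x y : ℤ) : ℂ :=
  -((chi x : ℤ) : ℂ) * (x - y * ((Real.sqrt 51 : ℝ) : ℂ) * Complex.I) / 2

private lemma zz_mul (x y : ℤ) (hx : chi x = 1 ∨ chi x = -1) :
    zz x y * zz x (-y) = (x ^ 2 + 51 * y ^ 2) / 4 := by
  have h1 : ((chi x : ℤ) : ℂ) ^ 2 = 1 := by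
    rcases hx with h | h <;> rw [h] <;> norm_num
  have h2 : ((Real.sqrt 51 : ℝ) : ℂ) ^ 2 = 51 := by
    rw [← Complex.ofReal_pow, Real.sq_sqrt (by norm_num)]
    norm_num
  have h3 := Complex.I_sq
  rw [zz, zz]
  push_cast
  have : ((x : ℂ) - y * ((Real.sqrt 51 : ℝ) : ℂ) * Complex.I) *
      ((x : ℂ) - -y * ((Real.sqrt 51 : ℝ) : ℂ) * Complex.I) = x ^ 2 + 51 * y ^ 2 := by
    linear_combination (-(y : ℂ) ^ 2 * ((Real.sqrt 51 : ℝ) : ℂ) ^ 2) * h3 + (y : ℂ) ^ 2 * h2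
  linear_combination ((chi x : ℤ) : ℂ) ^ 2 / 4 * this + (x ^ 2 + 51 * y ^ 2) / 4 * h1

private lemma zz_add (x y : ℤ) : zz x y + zz x (-y) = ((-chi x * x : ℤ) : ℂ) := by
  rw [zz, zz]
  push_cast
  ring

private lemma zz_ne (x y : ℤ) (hx : chi x = 1 ∨ chi x = -1) (hy : y ≠ 0) :
    zz x y ≠ zz x (-y) := by
  intro h
  have h1 : ((chi x : ℤ) : ℂ) ≠ 0 := by
    rcases hx with h | h <;> rw [h] <;> norm_num
  have h2 : ((Real.sqrt 51 : ℝ) : ℂ) ≠ 0 := by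
    rw [Ne, Complex.ofReal_eq_zero]
    exact (Real.sqrt_pos.2 (by norm_num)).ne'
  have h3 : (y : ℂ) ≠ 0 := by exact_mod_cast hy
  have h4 : ((chi x : ℤ) : ℂ) * (y * ((Real.sqrt 51 : ℝ) : ℂ) * Complex.I) = 0 := by
    rw [zz, zz] at h
    push_cast at h
    linear_combination h
  exact (mul_ne_zero h1 (mul_ne_zero (mul_ne_zero h3 h2) Complex.I_ne_zero)) h4

open Polynomial in
private lemma mm_dvd (p : ℕ) [Fact p.Prime] (h3 : 3 < p) (x y : ℤ)
    (h : (4 : ℤ) * p = x ^ 2 + 51 * y ^ 2) (F : (Zp p)[X])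
    (h1 : (F.map (emZ p)).eval (zz x y) = 0) (h2 : (F.map (emZ p)).eval (zz x (-y)) = 0) :
    (X ^ 2 - C ((-chi x * x : ℤ) : Zp p) * X + C ((p : Zp p) * 1)) ∣ F := by
  obtain ⟨-, -, hy, hx⟩ := case1 p h3 x y h
  have hmon : (X ^ 2 - C ((-chi x * x : ℤ) : Zp p) * X + C ((p : Zp p) * 1) : (Zp p)[X]).Monic := by
    monicity!
  rw [← Polynomial.map_dvd_map (emZ p) (emZ_inj p) hmon]
  have he : (X ^ 2 - C ((-chi x * x : ℤ) : Zp p) * X + C ((p : Zp p) * 1) : (Zp p)[X]).map (emZ p) =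
      (X - C (zz x y)) * (X - C (zz x (-y))) := by
    have hs := zz_add x y
    have hm := zz_mul x y hx
    have hp4 : ((x : ℂ) ^ 2 + 51 * y ^ 2) / 4 = p := by
      have : (4 : ℂ) * p = x ^ 2 + 51 * y ^ 2 := by exact_mod_cast h
      rw [← this]
      ring
    rw [hp4] at hm
    have e1 : (X - C (zz x y)) * (X - C (zz x (-y))) =
        X ^ 2 - C (zz x y + zz x (-y)) * X + C (zz x y * zz x (-y)) := by
      rw [C_add, C_mul]
      ring
    rw [e1, hs, hm]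
    simp only [Polynomial.map_add, Polynomial.map_sub, Polynomial.map_mul, Polynomial.map_pow,
      Polynomial.map_X, map_intCast, map_natCast, Polynomial.map_intCast, Polynomial.map_natCast,
      mul_one]
  rw [he]
  have hcop : IsCoprime (X - C (zz x y)) (X - C (zz x (-y))) :=
    Polynomial.isCoprime_X_sub_C_of_isUnit_sub
      (isUnit_iff_ne_zero.2 (sub_ne_zero.2 (zz_ne x y hx hy)))
  exact hcop.mul_dvd (dvd_iff_isRoot.2 h1) (dvd_iff_isRoot.2 h2)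

open Polynomial in
private lemma f1_eval (p : ℕ) [Fact p.Prime] (h3 : 3 < p) (P : ℕ → ℤ[X]) (z : ℂ) :
    ((f1 p h3 P).map (emZ p)).eval z =
      ∑ k ∈ Finset.range (p + 2), (-1) ^ k * evc (P k) * z ^ (p + 1 - k) := by
  rw [f1, Polynomial.map_sum, Polynomial.eval_finsetSum]
  refine Finset.sum_congr rfl fun k _ => ?_
  simp only [Polynomial.map_mul, Polynomial.map_pow, Polynomial.map_X, Polynomial.map_C, map_mul, map_pow,
    map_neg, map_one, emZ_evz, eval_mul, eval_pow, eval_X, eval_C, Polynomial.map_neg, Polynomial.map_one,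
    eval_neg, eval_one]

open Polynomial in
private lemma g1_eval (p : ℕ) [Fact p.Prime] (h3 : 3 < p) (Q : ℕ → ℤ[X]) (z : ℂ) :
    ((g1 p h3 Q).map (emZ p)).eval z =
      ∑ i ∈ Finset.range (p + 1), evc (Q i) * z ^ (p - i) := by
  rw [g1, Polynomial.map_sum, Polynomial.eval_finsetSum]
  refine Finset.sum_congr rfl fun k _ => ?_
  simp only [Polynomial.map_mul, Polynomial.map_pow, Polynomial.map_X, Polynomial.map_C, emZ_evz, eval_mul,
    eval_pow, eval_X, eval_C]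

open Polynomial in
private lemma root_f (p : ℕ) [Fact p.Prime] [NeZero p] (h3 : 3 < p) (x y : ℤ)
    (h : (4 : ℤ) * p = x ^ 2 + 51 * y ^ 2)
    (P : ℕ → ℤ[X]) (d : ℤ[X]) (H : HGdata p P d) :
    ((f1 p h3 P).map (emZ p)).eval (zz x y) = 0 := by
  obtain ⟨hchi, -, -, -⟩ := case1 p h3 x y h
  obtain ⟨D, hD⟩ := tau1 p (by omega) x y h
  have hD1 := hD 1 1 (Or.inl rfl) Gf (by exact_mod_cast autG)
  rw [pow_one] at hD1
  have hroot : (Phi p tau0).eval (fam p 1 Gf D tau0) = 0 := by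
    rw [Phi, PhiF, eval_prod]
    exact Finset.prod_eq_zero (Finset.mem_univ D) (by simp)
  rw [hD1, mul_comm, show (-((chi x : ℤ) : ℂ) * (x - y * ((Real.sqrt 51 : ℝ) : ℂ) * Complex.I) / 2) =
    zz x y from rfl, phi1 p h3 hchi P d H] at hroot
  rw [f1_eval]
  exact (mul_eq_zero.1 hroot).resolve_left (pow_ne_zero _ Gf_tau0_ne)

open Polynomial in
private lemma root_g (p : ℕ) [Fact p.Prime] [NeZero p] (h3 : 3 < p) (x y : ℤ)
    (h : (4 : ℤ) * p = x ^ 2 + 51 * y ^ 2)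
    (P : ℕ → ℤ[X]) (d : ℤ[X]) (H : HGdata p P d) (Q : ℕ → ℤ[X]) (HQ : HKdata p Q) :
    ((g1 p h3 Q - C (evz p h3 d ^ 3) * derivative (f1 p h3 P)).map (emZ p)).eval (zz x y) = 0 := by
  obtain ⟨hchi, -, hy, hx⟩ := case1 p h3 x y h
  obtain ⟨D, hD⟩ := tau1 p (by omega) x y h
  have hD1 := hD 1 1 (Or.inl rfl) Gf (by exact_mod_cast autG)
  have hD3 := hD 3 (-1) (Or.inr rfl) Kf (by exact_mod_cast autK)
  rw [pow_one] at hD1
  rw [show (-((chi x : ℤ) : ℂ) * (x - y * ((Real.sqrt 51 : ℝ) : ℂ) * Complex.I) / 2) =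
    zz x y from rfl] at hD1 hD3
  obtain ⟨z, hz⟩ : ∃ z, z = zz x y := ⟨_, rfl⟩
  rw [← hz] at hD1 hD3 ⊢
  have hp0 : (p : ℂ) ≠ 0 := by exact_mod_cast NeZero.ne p
  have hz0 : z ≠ 0 := by
    intro h0
    have h1 := zz_mul x y hx
    rw [← hz, h0, zero_mul] at h1
    have h2 : (4 : ℂ) * p = x ^ 2 + 51 * y ^ 2 := by exact_mod_cast h
    rw [← h2] at h1
    apply hp0
    linear_combination -h1
  have hg0 := Gf_tau0_ne
  have hs0 : ((Real.sqrt 17 / 4 : ℝ) : ℂ) ≠ 0 := by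
    rw [Ne, Complex.ofReal_eq_zero]
    exact (div_pos (Real.sqrt_pos.2 (by norm_num)) (by norm_num)).ne'
  have hroot := Psi_root p tau0 D
  rw [hD1, hD3, Kf_tau0, prod_tau0 p h3 P d H, hchi] at hroot
  rw [mul_comm z (Gf tau0), psi1 p h3 hchi Q HQ] at hroot
  -- the derivative
  have hcomp : (Phi p tau0).comp (C (Gf tau0) * X) = C (Gf tau0 ^ (p + 1)) * (f1 p h3 P).map (emZ p) := by
    apply Polynomial.funext
    intro w
    rw [eval_comp, eval_mul, eval_C, eval_X, eval_mul, eval_C, phi1 p h3 hchi P d H, f1_eval]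
  have hder := congrArg (fun q => (derivative q).eval z) hcomp
  simp only [derivative_comp, derivative_mul, derivative_C, derivative_X, eval_mul, eval_comp, eval_C, eval_X,
    zero_mul, mul_one, zero_add, derivative_map] at hder
  have hder2 : (derivative (Phi p tau0)).eval (Gf tau0 * z) =
      Gf tau0 ^ p * ((derivative (f1 p h3 P)).map (emZ p)).eval z := by
    apply mul_left_cancel₀ hg0
    rw [hder, pow_succ]
    ring
  rw [hder2] at hroot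
  rw [Polynomial.map_sub, eval_sub, g1_eval, Polynomial.map_mul, eval_mul, Polynomial.map_C, eval_C,
    map_pow, emZ_evz]
  have hne : ((Real.sqrt 17 / 4 : ℝ) : ℂ) * (p : ℂ) ^ 3 * Gf tau0 ^ (4 * p + 3) * (Gf tau0 * z) ^ 3 ≠ 0 :=
    mul_ne_zero (mul_ne_zero (mul_ne_zero hs0 (pow_ne_zero _ hp0)) (pow_ne_zero _ hg0))
      (pow_ne_zero _ (mul_ne_zero hg0 hz0))
  apply mul_left_cancel₀ hne
  rw [mul_zero]
  have e1 : Gf tau0 ^ (4 * p + 3) = Gf tau0 ^ (p + 1) * Gf tau0 ^ (p + 1) * Gf tau0 ^ (p + 1) *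
      Gf tau0 ^ p := by
    rw [← pow_add, ← pow_add, ← pow_add]
    congr 1
    omega
  rw [e1] at hroot ⊢
  push_cast at hroot ⊢
  linear_combination hroot


open Polynomial in
theorem ev1f (p : ℕ) [Fact p.Prime] [NeZero p] (h3 : 3 < p) (x y : ℤ)
    (h : (4 : ℤ) * p = x ^ 2 + 51 * y ^ 2)
    (P : ℕ → ℤ[X]) (d : ℤ[X]) (H : HGdata p P d) :
    (X ^ 2 - C ((-chi x * x : ℤ) : Zp p) * X + C ((p : Zp p) * 1)) ∣ f1 p h3 P := by
  have h' : (4 : ℤ) * p = x ^ 2 + 51 * (-y) ^ 2 := by rw [neg_sq]; exact h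
  exact mm_dvd p h3 x y h _ (root_f p h3 x y h P d H) (root_f p h3 x (-y) h' P d H)

open Polynomial in
theorem ev1g (p : ℕ) [Fact p.Prime] [NeZero p] (h3 : 3 < p) (x y : ℤ)
    (h : (4 : ℤ) * p = x ^ 2 + 51 * y ^ 2)
    (P : ℕ → ℤ[X]) (d : ℤ[X]) (H : HGdata p P d) (Q : ℕ → ℤ[X]) (HQ : HKdata p Q) :
    (X ^ 2 - C ((-chi x * x : ℤ) : Zp p) * X + C ((p : Zp p) * 1)) ∣
      g1 p h3 Q - C (evz p h3 d ^ 3) * derivative (f1 p h3 P) := by
  have h' : (4 : ℤ) * p = x ^ 2 + 51 * (-y) ^ 2 := by rw [neg_sq]; exact h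
  exact mm_dvd p h3 x y h _ (root_g p h3 x y h P d H Q HQ) (root_g p h3 x (-y) h' P d H Q HQ)

end Pool.Agent.Lib.SCG
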