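import Pool.Agent.Lib.SCG.Ev2D
import Pool.Agent.Lib.SCG.EvA

/-!
Ev2: evaluation in case 2 (`4p = 17x² + 3y²`, `χ p = -1`, `p ≠ 17`), paper section 6.
PLAN. `case2`. `β = bz = 16/17`, `a = 4χ(x)x` (unit: `p ∤ x`), `e = evz (P p)`, `d₀ = evz d`,
`Q₀ = evz (Q p)`. `evA` for `f2` (`ev2f`) with `b = β`: `f_0 = evz (P(p+1)) β^{(p+1)/2} =
-p d₀ β^{(p+1)/2}` (`H.top`), `f_1 = -e β^{(p-1)/2}`; divide by the unit `β^{(p+1)/2}`
(`β^{(p-1)/2} β = β^{(p+1)/2}`, `p` odd): `p² ∣ d₀ + e (1/a + p β/a³)`. `evB` (`ev2g`) with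
`c = (17/16)^{(p+1)/2} d₀³`: `p² ∣ Q₀ + (17/16) d₀³ e`. Then `e ≡ d₀ (-a + pβ/a)`;
`e(2-d₀) ≡ -a + pβ/a =: T`, `Q₀ (5-4d₀) ≡ -(17/16) d₀⁴ (5-4d₀) T ≡ -(17/16) T` (`d₀ ≡ 1 mod p`), and
`T = -4χ(x)(x - p/(17x))`, `-(17/16) T = (χ(x)/4)(17x - p/x)`. `cong_iff`.
-/

namespace Pool.Agent.Lib.SCG

open Polynomial in
private lemma Ev2_coeff {A : Type*} [CommRing A] (n : ℕ) (c : ℕ → A) (j : ℕ) :
    (∑ k ∈ Finset.range (n + 1), C (c k) * X ^ (n - k)).coeff j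
      = if j ≤ n then c (n - j) else 0 := by
  rw [finsetSum_coeff]
  simp only [coeff_C_mul_X_pow]
  by_cases hj : j ≤ n
  · rw [if_pos hj, Finset.sum_eq_single (n - j)]
    · rw [if_pos (by omega)]
    · intro b hb hbn
      rw [if_neg]
      have := Finset.mem_range.mp hb
      omega
    · intro h
      exact absurd (Finset.mem_range.mpr (by omega)) h
  · rw [if_neg hj]
    apply Finset.sum_eq_zero
    intro b hb
    rw [if_neg]
    omega

private lemma Ev2_fin {A : Type*} [CommRing A] (p e d q a a' b c : A) (n : ℕ) (ht : a * a' = 1)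
    (hbc : b * c = 1)
    (h1 : p ^ 2 ∣ -(d * b ^ (n + 1)) + (-(e * b ^ n)) * (b * a' + p * b ^ 2 * a' ^ 3))
    (h2 : p ^ 2 ∣ q - c ^ (n + 1) * d ^ 3 * (-(e * b ^ n))) (h3 : p ∣ d - 1) :
    p ^ 2 ∣ e * (2 - d) - (-a + p * b * a') ∧
    p ^ 2 ∣ q * (5 - 4 * d) - (-c) * (-a + p * b * a') := by
  obtain ⟨u, hu⟩ := h1
  obtain ⟨v, hv⟩ := h2
  obtain ⟨m, hm⟩ := h3
  have hbn : b ^ (n + 1) * c ^ (n + 1) = 1 := by rw [← mul_pow, hbc, one_pow]
  have hbn' : b ^ n * c ^ (n + 1) = c := by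
    rw [pow_succ, ← mul_assoc, ← mul_pow, hbc, one_pow, one_mul]
  -- d + e (a' + p b a'^3) = - p^2 u c^(n+1)
  have hu' : d + e * (a' + p * b * a' ^ 3) = -(p ^ 2 * u * c ^ (n + 1)) := by
    have h5 : b ^ (n + 1) = b ^ n * b := pow_succ b n
    have h6 : b ^ (n + 1) * (d + e * (a' + p * b * a' ^ 3)) = -(p ^ 2 * u) := by
      rw [h5] at hu ⊢
      linear_combination -hu
    calc d + e * (a' + p * b * a' ^ 3)
        = (b ^ (n + 1) * c ^ (n + 1)) * (d + e * (a' + p * b * a' ^ 3)) := by rw [hbn, one_mul]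
      _ = c ^ (n + 1) * (b ^ (n + 1) * (d + e * (a' + p * b * a' ^ 3))) := by ring
      _ = _ := by rw [h6]; ring
  have hv' : q + c * d ^ 3 * e = p ^ 2 * v := by
    linear_combination hv - d ^ 3 * e * hbn'
  have hd : d = 1 + p * m := by linear_combination hm
  set T : A := -a + p * b * a' with hT
  have h5 : (a' + p * b * a' ^ 3) * T = -(1 - p ^ 2 * b ^ 2 * a' ^ 4) := by
    rw [hT]
    linear_combination (-(1 + p * b * a' ^ 2)) * ht
  have he : e = d * T + p ^ 2 * (e * b ^ 2 * a' ^ 4 + u * c ^ (n + 1) * T) := by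
    linear_combination -T * hu' + e * h5
  constructor
  · refine ⟨-(m ^ 2) * T + (e * b ^ 2 * a' ^ 4 + u * c ^ (n + 1) * T) * (2 - d), ?_⟩
    have h6 : d * (2 - d) = 1 - p ^ 2 * m ^ 2 := by rw [hd]; ring
    linear_combination (2 - d) * he + T * h6
  · refine ⟨c * (m ^ 2) * (4 * d ^ 3 + 3 * d ^ 2 + 2 * d + 1) * T
      - c * d ^ 3 * (e * b ^ 2 * a' ^ 4 + u * c ^ (n + 1) * T) * (5 - 4 * d)
      + v * (5 - 4 * d), ?_⟩
    have h6 : d ^ 4 * (5 - 4 * d) - 1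
        = -(p ^ 2 * m ^ 2) * (4 * d ^ 3 + 3 * d ^ 2 + 2 * d + 1) := by
      have : p ^ 2 * m ^ 2 = (d - 1) ^ 2 := by rw [hd]; ring
      rw [this]
      ring
    linear_combination -c * d ^ 3 * (5 - 4 * d) * he - c * T * h6 + (5 - 4 * d) * hv'

theorem ev2 (p : ℕ) [Fact p.Prime] [NeZero p] (h3 : 3 < p) (h17 : p ≠ 17) (x y : ℤ)
    (h : (4 : ℤ) * p = 17 * x ^ 2 + 3 * y ^ 2)
    (P : ℕ → Polynomial ℤ) (d : Polynomial ℤ) (H : HGdata p P d)
    (Q : ℕ → Polynomial ℤ) (HQ : HKdata p Q) :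
    Cong p 2 (evq (P p * (2 - d))) (-4 * ((chi x : ℤ) : ℚ) * (x - p / (17 * x))) ∧
    Cong p 2 (evq (Q p * (5 - 4 * d))) (1 / 4 * ((chi x : ℤ) : ℚ) * (17 * x - p / x)) := by
  obtain ⟨hchi, hpx, hy, hcx⟩ := case2 p h3 h17 x y h
  have hprime : p.Prime := Fact.out
  have hodd : Odd p := hprime.odd_of_ne_two (by omega)
  obtain ⟨n, hn⟩ := hodd
  have hodd : Odd p := hprime.odd_of_ne_two (by omega)
  have hpa : ¬ (p : ℤ) ∣ 4 * chi x * x := by
    have hp4 : ¬ (p : ℤ) ∣ 4 := by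
      intro h4
      have : p ∣ 2 ^ 2 := by exact_mod_cast h4
      have := (Nat.prime_dvd_prime_iff_eq hprime Nat.prime_two).mp (hprime.dvd_of_dvd_pow this)
      omega
    have hpz : Prime (p : ℤ) := Nat.prime_iff_prime_int.mp hprime
    rcases hcx with hc | hc <;> rw [hc] <;> intro h5
    · rcases hpz.dvd_or_dvd h5 with h5 | h5
      · exact hp4 (by simpa using h5)
      · exact hpx h5
    · rcases hpz.dvd_or_dvd h5 with h5 | h5
      · exact hp4 (by simpa using h5)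
      · exact hpx h5
  have ha0 : ((4 * chi x * x : ℤ) : ℚ) ≠ 0 := by
    intro h0
    have : (4 * chi x * x : ℤ) = 0 := by exact_mod_cast h0
    exact hpa (this ▸ dvd_zero _)
  have hp0 : ((p : ℕ) : Zp p) ≠ 0 := by
    intro h0
    have := congrArg Subtype.val h0
    push_cast at this
    have : p = 0 := by exact_mod_cast this
    omega
  set a' : Zp p := ⟨((4 * chi x * x : ℤ) : ℚ)⁻¹, inv_mem p _ hpa⟩ with ha'
  have hacast : (((4 * chi x * x : ℤ) : Zp p) : ℚ) = ((4 * chi x * x : ℤ) : ℚ) := by norm_cast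
  have ht : ((4 * chi x * x : ℤ) : Zp p) * a' = 1 := by
    apply Subtype.ext
    change (((4 * chi x * x : ℤ) : Zp p) : ℚ) * ((4 * chi x * x : ℤ) : ℚ)⁻¹ = 1
    rw [hacast]
    exact mul_inv_cancel₀ ha0
  have hbc : bz p h17 * cz p h3 = 1 := by
    apply Subtype.ext
    change (16 / 17 : ℚ) * (17 / 16) = 1
    norm_num
  have hf : ∀ j, (f2 p h3 h17 P).coeff j
      = if j ≤ p + 1 then (-1) ^ (p + 1 - j) * evz p h3 (P (p + 1 - j))
        * bz p h17 ^ ((p + 1 - j) / 2) else 0 := fun j =>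
    Ev2_coeff (p + 1) (fun k => (-1) ^ k * evz p h3 (P k) * bz p h17 ^ (k / 2)) j
  have hg : ∀ j, (g2 p h3 Q).coeff j
      = if j ≤ p then evz p h3 (Q (p - j)) * cz p h3 ^ ((p - (p - j) + 1) / 2) else 0 :=
    fun j => Ev2_coeff p (fun i => evz p h3 (Q i) * cz p h3 ^ ((p - i + 1) / 2)) j
  have hdeg : (f2 p h3 h17 P).natDegree ≤ p + 1 := by
    rw [Polynomial.natDegree_le_iff_coeff_eq_zero]
    intro N hN
    rw [hf, if_neg (by omega)]
  have hdeg' : (g2 p h3 Q).natDegree ≤ p := by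
    rw [Polynomial.natDegree_le_iff_coeff_eq_zero]
    intro N hN
    rw [hg, if_neg (by omega)]
  have hc : ∀ k, 2 ≤ k → k ≤ p → ((p : ℕ) : Zp p) ∣ (f2 p h3 h17 P).coeff k := by
    intro k hk hkp
    rw [hf, if_pos (by omega)]
    apply Dvd.dvd.mul_right
    apply Dvd.dvd.mul_left
    exact_mod_cast evz_dvd p h3 p _ (H.dvd (p + 1 - k) (by omega) (by omega))
  have hc' : ∀ k, 1 ≤ k → k < p → ((p : ℕ) : Zp p) ∣ (g2 p h3 Q).coeff k := by
    intro k hk hkp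
    rw [hg, if_pos (by omega)]
    apply Dvd.dvd.mul_right
    exact_mod_cast evz_dvd p h3 p _ (HQ.dvd (p - k) (by omega) (by omega))
  have hf0 : (f2 p h3 h17 P).coeff 0
      = ((p : ℕ) : Zp p) * (-(evz p h3 d * bz p h17 ^ (n + 1))) := by
    rw [hf, if_pos (by omega), Nat.sub_zero, H.top, hchi]
    have he : Even (p + 1) := hodd.add_one
    rw [he.neg_one_pow, map_mul]
    have : evz p h3 (Polynomial.C (-1 * (p : ℤ))) = -((p : ℕ) : Zp p) := by
      simp [evz]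
    rw [this, show (p + 1) / 2 = n + 1 by omega]
    ring
  have hf1 : (f2 p h3 h17 P).coeff 1 = -(evz p h3 (P p) * bz p h17 ^ n) := by
    rw [hf, if_pos (by omega), Nat.add_sub_cancel, hodd.neg_one_pow, show p / 2 = n by omega]
    ring
  have hg0 : (g2 p h3 Q).coeff 0 = evz p h3 (Q p) := by
    rw [hg, if_pos (by omega), Nat.sub_zero, Nat.sub_self]
    simp
  have hA := evA p (by omega) hp0 (f2 p h3 h17 P) hdeg hc _ hf0
    ((4 * chi x * x : ℤ) : Zp p) a' (bz p h17) ht (ev2f p h3 h17 x y h P d H)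
  have hB := evB p (by omega) hp0 (f2 p h3 h17 P) (g2 p h3 Q) hdeg hdeg' hc hc'
    (cz p h3 ^ ((p + 1) / 2) * evz p h3 d ^ 3)
    ((4 * chi x * x : ℤ) : Zp p) a' (bz p h17) ht (ev2g p h3 h17 x y h P d H Q HQ)
  rw [hf1] at hA hB
  rw [hg0, show (p + 1) / 2 = n + 1 by omega] at hB
  have hD : ((p : ℕ) : Zp p) ∣ evz p h3 d - 1 := by
    have := evz_dvd p h3 p _ H.done
    rw [map_sub, map_one] at this
    exact_mod_cast this
  obtain ⟨R1, R2⟩ := Ev2_fin _ _ _ _ _ _ _ _ n ht hbc hA hB hD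
  have hx0 : (x : ℚ) ≠ 0 := by
    intro h0
    have : x = 0 := by exact_mod_cast h0
    exact hpx (this ▸ dvd_zero _)
  have hval : -4 * ((chi x : ℤ) : ℚ) * (x - p / (17 * x))
      = (((-((4 * chi x * x : ℤ) : Zp p) + ((p : ℕ) : Zp p) * bz p h17 * a' : Zp p)) : ℚ) := by
    change _ = -(((4 * chi x * x : ℤ) : Zp p) : ℚ)
      + (((p : ℕ) : Zp p) : ℚ) * (16 / 17 : ℚ) * ((4 * chi x * x : ℤ) : ℚ)⁻¹
    rw [hacast]
    push_cast
    rcases hcx with hc | hc <;> rw [hc] <;> field_simp <;> push_cast <;> ring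
  have hval2 : 1 / 4 * ((chi x : ℤ) : ℚ) * (17 * x - p / x)
      = ((((-cz p h3) * (-((4 * chi x * x : ℤ) : Zp p)
          + ((p : ℕ) : Zp p) * bz p h17 * a') : Zp p)) : ℚ) := by
    change _ = (-(17 / 16) : ℚ) * (((-((4 * chi x * x : ℤ) : Zp p)
      + ((p : ℕ) : Zp p) * bz p h17 * a' : Zp p)) : ℚ)
    rw [← hval]
    field_simp
    ring
  constructor
  · have := (cong_iff p 2 _ _).mpr R1
    rw [hval, ← evz_evq p h3, map_mul, map_sub]
    have h2 : evz p h3 2 = 2 := map_ofNat _ 2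
    rw [h2]
    exact this
  · have := (cong_iff p 2 _ _).mpr R2
    rw [hval2, ← evz_evq p h3, map_mul, map_sub, map_mul]
    have h5 : evz p h3 5 = 5 := map_ofNat _ 5
    have h4 : evz p h3 4 = 4 := map_ofNat _ 4
    rw [h5, h4]
    exact this

end Pool.Agent.Lib.SCG
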