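import Pool.Agent.Lib.SCG.Defs

/-!
EvZ: evaluation in the ring of `p`-integral rationals.
PLAN. Elementary. (`Zp p` is a subring of `ℚ`, its elements are `m/n` with `p ∤ n`.)
-/

namespace Pool.Agent.Lib.SCG

lemma y0_mem (p : ℕ) [hp : Fact p.Prime] (h3 : 3 < p) : (-1 / 1728 : ℚ) ∈ Zp p := by
  refine ⟨-1, 1728, ?_, by norm_num⟩
  intro h
  have h1 : (p : ℤ) ∣ ((2 ^ 6 * 3 ^ 3 : ℕ) : ℤ) := by simpa using h
  have h2 : p ∣ 2 ^ 6 * 3 ^ 3 := by exact_mod_cast h1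
  rcases (Nat.Prime.dvd_mul hp.out).mp h2 with h | h
  · have := (Nat.prime_dvd_prime_iff_eq hp.out Nat.prime_two).mp (hp.out.dvd_of_dvd_pow h)
    omega
  · have := (Nat.prime_dvd_prime_iff_eq hp.out Nat.prime_three).mp (hp.out.dvd_of_dvd_pow h)
    omega

/-- The value at `-1/1728` in `Z_(p)`. -/
noncomputable def evz (p : ℕ) [Fact p.Prime] (h3 : 3 < p) : Polynomial ℤ →+* Zp p :=
  Polynomial.eval₂RingHom (Int.castRingHom (Zp p)) ⟨-1 / 1728, y0_mem p h3⟩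

lemma evz_evq (p : ℕ) [Fact p.Prime] (h3 : 3 < p) (P : Polynomial ℤ) :
    ((evz p h3 P : Zp p) : ℚ) = evq P := by
  have h := RingHom.congr_fun (Polynomial.ringHom_ext' (f := (Zp p).subtype.comp (evz p h3))
    (g := evq) (RingHom.ext_int _ _) (by simp [evz, evq])) P
  simpa using h

lemma evq_evc (P : Polynomial ℤ) : ((evq P : ℚ) : ℂ) = evc P := by
  have h := RingHom.congr_fun (Polynomial.ringHom_ext' (f := (Rat.castHom ℂ).comp evq)
    (g := evc) (RingHom.ext_int _ _) (by simp [evc, evq])) P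
  simpa using h

lemma evz_dvd (p : ℕ) [Fact p.Prime] (h3 : 3 < p) (n : ℤ) (P : Polynomial ℤ)
    (h : Polynomial.C n ∣ P) : (n : Zp p) ∣ evz p h3 P := by
  obtain ⟨Q, rfl⟩ := h
  rw [map_mul]
  have : evz p h3 (Polynomial.C n) = (n : Zp p) := by simp [evz]
  rw [this]
  exact dvd_mul_right _ _

/-- `Cong` is congruence in `Z_(p)`. -/
lemma cong_iff (p : ℕ) [Fact p.Prime] (k : ℕ) (a b : Zp p) :
    Cong p k (a : ℚ) (b : ℚ) ↔ (p : Zp p) ^ k ∣ a - b := by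
  constructor
  · rintro ⟨m, n, hn, h⟩
    refine ⟨⟨m / n, m, n, hn, rfl⟩, ?_⟩
    apply Subtype.ext
    push_cast
    rw [h]
    ring
  · rintro ⟨⟨c, m, n, hn, rfl⟩, h⟩
    refine ⟨m, n, hn, ?_⟩
    have h' := congrArg (Subtype.val) h
    push_cast at h'
    rw [h']
    ring

private lemma EvZ_iff {p : ℕ} [Fact p.Prime] {k : ℕ} {a b : ℚ} :
    Cong p k a b ↔ ∃ c ∈ Zp p, a - b = (p : ℚ) ^ k * c := by
  constructor
  · rintro ⟨m, n, hn, h⟩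
    exact ⟨m / n, ⟨m, n, hn, rfl⟩, by rw [h]; ring⟩
  · rintro ⟨c, ⟨m, n, hn, rfl⟩, h⟩
    exact ⟨m, n, hn, by rw [h]; ring⟩

lemma cong_trans {p : ℕ} [Fact p.Prime] {k : ℕ} {a b c : ℚ} (h : Cong p k a b)
    (h' : Cong p k b c) : Cong p k a c := by
  rw [EvZ_iff] at *
  obtain ⟨u, hu, h⟩ := h
  obtain ⟨v, hv, h'⟩ := h'
  exact ⟨u + v, (Zp p).add_mem hu hv, by linear_combination h + h'⟩

lemma cong_symm {p : ℕ} {k : ℕ} {a b : ℚ} (h : Cong p k a b) : Cong p k b a := by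
  obtain ⟨m, n, hn, h⟩ := h
  refine ⟨-m, n, hn, ?_⟩
  push_cast
  rw [← neg_sub, h]
  ring

/-- Multiplication by a `p`-integral number. -/
lemma cong_mul {p : ℕ} [Fact p.Prime] {k : ℕ} {a b c : ℚ} (hc : c ∈ Zp p) (h : Cong p k a b) :
    Cong p k (c * a) (c * b) := by
  rw [EvZ_iff] at *
  obtain ⟨u, hu, h⟩ := h
  exact ⟨c * u, (Zp p).mul_mem hc hu, by linear_combination c * h⟩

lemma cong_mono {p : ℕ} [Fact p.Prime] {a b : ℚ} (h : Cong p 2 a b) : Cong p 1 a b := by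
  rw [EvZ_iff] at *
  obtain ⟨u, hu, h⟩ := h
  refine ⟨p * u, (Zp p).mul_mem (natCast_mem (Zp p) p) hu, by rw [h]; ring⟩

/-- An integer prime to `p` has its inverse in `Zp p`. -/
lemma inv_mem (p : ℕ) [Fact p.Prime] (n : ℤ) (hn : ¬ (p : ℤ) ∣ n) : ((n : ℚ))⁻¹ ∈ Zp p :=
  ⟨1, n, hn, by simp⟩

end Pool.Agent.Lib.SCG
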