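import Pool.Agent.Lib.SCG.FiveB
import Pool.Agent.Lib.SCG.HK
import Pool.Agent.Lib.SCG.EvZ

/-!
EvP: values of the polynomials `Phi p`, `Psi p` at `τ₀`, case `χ p = 1`.
PLAN. `HG`/`HK` coefficients and `sgh_tau0`. `s₀ = √17/4`, `g₀ = G(τ₀)`. `Phi p τ₀ =
∑_{k ≤ p+1} (-1)^k e_k X^{p+1-k}` with `e_k = g₀^k (1 or s₀) evc (P k)`; natDegree `p+1`
(`PhiF_natDegree`), so the evaluation at `g₀ z` is `g₀^{p+1} ∑ ...`
(`Polynomial.eval_eq_sum_range'`, reindex `k ↦ p+1-k` by `Finset.sum_range_reflect`).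
Case `χ = 1`: all signs `χ^k = 1`; for `Psi`: all signs `-1`: factor `s₀`.
-/

namespace Pool.Agent.Lib.SCG

open UpperHalfPlane

theorem phi1 (p : ℕ) [Fact p.Prime] [NeZero p] (h3 : 3 < p) (hchi : chi p = 1)
    (P : ℕ → Polynomial ℤ) (d : Polynomial ℤ) (H : HGdata p P d) (z : ℂ) :
    (Phi p tau0).eval (Gf tau0 * z) = Gf tau0 ^ (p + 1) *
      ∑ k ∈ Finset.range (p + 2), (-1) ^ k * evc (P k) * z ^ (p + 1 - k) := by
  have hdeg : (Phi p tau0).natDegree < p + 2 := by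
    have := PhiF_natDegree p 1 Gf tau0
    unfold Phi
    omega
  rw [Polynomial.eval_eq_sum_range' hdeg, ← Finset.sum_range_reflect, Finset.mul_sum]
  refine Finset.sum_congr rfl fun k hk => ?_
  have hk' : k ≤ p + 1 := by
    have := Finset.mem_range.1 hk
    omega
  rw [show p + 2 - 1 - k = p + 1 - k by omega, H.coeff k hk', sgh_tau0 _ _ _ (H.deg k hk'), hchi,
    one_pow, if_pos rfl, mul_one, mul_pow]
  have h1 : Gf tau0 ^ (p + 1) = Gf tau0 ^ k * Gf tau0 ^ (p + 1 - k) := by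
    rw [← pow_add]
    congr 1
    omega
  rw [h1]
  ring

theorem psi1 (p : ℕ) [Fact p.Prime] [NeZero p] (h3 : 3 < p) (hchi : chi p = 1)
    (Q : ℕ → Polynomial ℤ) (H : HKdata p Q) (z : ℂ) :
    (Psi p tau0).eval (Gf tau0 * z) = ((Real.sqrt 17 / 4 : ℝ) : ℂ) * (p : ℂ) ^ 3 *
      Gf tau0 ^ (4 * p + 3) * ∑ i ∈ Finset.range (p + 1), evc (Q i) * z ^ (p - i) := by
  have hdeg : (Psi p tau0).natDegree < p + 1 := by
    have := Psi_natDegree p tau0
    omega
  rw [Polynomial.eval_eq_sum_range' hdeg, ← Finset.sum_range_reflect, Finset.mul_sum]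
  refine Finset.sum_congr rfl fun i hi => ?_
  have hi' : i ≤ p := by
    have := Finset.mem_range.1 hi
    omega
  rw [show p + 1 - 1 - i = p - i by omega, H.coeff i hi', sgh_tau0 _ _ _ (H.deg i hi'), hchi,
    one_pow, if_neg (by norm_num), mul_pow]
  have h1 : Gf tau0 ^ (4 * p + 3) = Gf tau0 ^ (3 + 3 * p + i) * Gf tau0 ^ (p - i) := by
    rw [← pow_add]
    congr 1
    omega
  rw [h1]
  ring

/-- The product of all multipliers. -/
theorem prod_tau0 (p : ℕ) [Fact p.Prime] [NeZero p] (h3 : 3 < p)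
    (P : ℕ → Polynomial ℤ) (d : Polynomial ℤ) (H : HGdata p P d) :
    ∏ C : Option (ZMod p), fam p 1 Gf C tau0
      = ((chi p : ℤ) : ℂ) * p * Gf tau0 ^ (p + 1) * evc d := by
  have hodd : Odd p := (Fact.out : p.Prime).odd_of_ne_two (by omega)
  have heven : Even (p + 1) := by
    rw [Nat.even_add_one]
    exact Nat.not_even_iff_odd.2 hodd
  have hchi : chi p ^ (p + 1) = 1 := by
    rcases chi_sq p (by omega) with h | h
    · rw [h, one_pow]
    · rw [h]; exact heven.neg_one_pow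
  have h1 : (Phi p tau0).coeff 0 = ∏ C : Option (ZMod p), fam p 1 Gf C tau0 := by
    unfold Phi PhiF
    rw [Polynomial.coeff_zero_eq_eval_zero, Polynomial.eval_prod]
    simp only [Polynomial.eval_sub, Polynomial.eval_X, Polynomial.eval_C, zero_sub]
    rw [Finset.prod_neg]
    have h2 : Fintype.card (Option (ZMod p)) = p + 1 := by
      rw [Fintype.card_option, ZMod.card]
    rw [Finset.card_univ, h2, heven.neg_one_pow, one_mul]
  have h2 := H.coeff (p + 1) le_rfl tau0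
  rw [Nat.sub_self, h1, heven.neg_one_pow, one_mul, sgh_tau0 _ _ _ (H.deg (p + 1) le_rfl), hchi,
    if_pos rfl, mul_one, H.top, map_mul] at h2
  rw [h2]
  have h4 : evc (Polynomial.C (chi p * (p : ℤ))) = ((chi p : ℤ) : ℂ) * p := by
    unfold evc
    rw [Polynomial.coe_eval₂RingHom, Polynomial.eval₂_C]
    push_cast
    simp
  rw [h4]
  ring

end Pool.Agent.Lib.SCG
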