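import Pool.Agent.Lib.SCG.FamC

/-!
TauC: the multipliers at the CM point, second case (paper (5.2)).
PLAN. `3 τ₀² + 3 τ₀ + 5 = 0`, `τ₀ = -1/2 + i√51/6`. `tau2`: `x ≡ y mod 2`, `3 ∤ x`. Matrix `a = -x, b = (y-x)/2, c = 3(a-b), d = 5a`:
`det = 5a²-3ab+3b² = l`, `m τ₀ = W τ₀` (`3τ₀(aτ₀+b) + cτ₀ + d = a(3τ₀²+3τ₀+5) = 0`). So
`cτ₀+d = -3τ₀(aτ₀+b)`, `F_C(τ₀) = χ(a)^w l^w (cτ₀+d)^{-w} ε (-i√3τ₀)^w F(τ₀) = ε ν^w F(τ₀)` with
`ν = χ(a) l i/(√3 (aτ₀+b))`, `|aτ₀+b|² = l/3`, so `ν = χ(a) i√3 conj(aτ₀+b) =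
χ(a)(a√17 + i√3(2b-a))/2 = χ(x)(x√17 - i√3 y)/2` (`√3√51 = 3√17`).
-/

namespace Pool.Agent.Lib.SCG

open UpperHalfPlane

private lemma TauC_eq : 3 * (tau0 : ℂ) ^ 2 + 3 * (tau0 : ℂ) + 5 = 0 := by
  change 3 * (-1 / 2 + ((Real.sqrt 51 / 6 : ℝ) : ℂ) * Complex.I) ^ 2
    + 3 * (-1 / 2 + ((Real.sqrt 51 / 6 : ℝ) : ℂ) * Complex.I) + 5 = 0
  have h1 : ((Real.sqrt 51 : ℝ) : ℂ) ^ 2 = 51 := by
    rw [← Complex.ofReal_pow, Real.sq_sqrt (by norm_num)]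
    norm_num
  push_cast
  linear_combination (Complex.I ^ 2 / 12) * h1 + (51 / 12) * Complex.I_sq

theorem tau2 (l : ℕ) [Fact l.Prime] [NeZero l] (h3 : l ≠ 3) (x y : ℤ)
    (h : (4 : ℤ) * l = 17 * x ^ 2 + 3 * y ^ 2) :
    ∃ C : Option (ZMod l), ∀ (w : ℕ) (ε : ℂ), (ε = 1 ∨ ε = -1) → ∀ F : ℍ → ℂ, Aut w ε F →
      fam l w F C tau0 = ε * (((chi x : ℤ) : ℂ) * (x * ((Real.sqrt 17 : ℝ) : ℂ)
        - y * ((Real.sqrt 3 : ℝ) : ℂ) * Complex.I) / 2) ^ w * F tau0 := by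
  have hprime : l.Prime := Fact.out
  have hpar : x % 2 = y % 2 := by
    have h4 : (17 * x ^ 2 + 3 * y ^ 2) % 2 = 0 := by rw [← h]; omega
    rcases Int.emod_two_eq_zero_or_one x with hx | hx <;>
      rcases Int.emod_two_eq_zero_or_one y with hy | hy
    · omega
    · exfalso
      obtain ⟨a, ha⟩ : ∃ a, x = 2 * a := ⟨x / 2, by omega⟩
      obtain ⟨b, hb⟩ : ∃ b, y = 2 * b + 1 := ⟨y / 2, by omega⟩
      subst ha hb
      ring_nf at h4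
      omega
    · exfalso
      obtain ⟨a, ha⟩ : ∃ a, x = 2 * a + 1 := ⟨x / 2, by omega⟩
      obtain ⟨b, hb⟩ : ∃ b, y = 2 * b := ⟨y / 2, by omega⟩
      subst ha hb
      ring_nf at h4
      omega
    · omega
  obtain ⟨b, hb⟩ : ∃ b, y = x + 2 * b := ⟨(y - x) / 2, by omega⟩
  have hx3 : ¬ (3 : ℤ) ∣ x := by
    intro hx
    have h9 : (3 : ℤ) ∣ 4 * l := by
      rw [h]
      exact dvd_add (dvd_mul_of_dvd_right (dvd_pow hx (by norm_num)) _) (dvd_mul_right _ _)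
    have h10 : 3 ∣ 4 * l := by exact_mod_cast h9
    rcases (Nat.Prime.dvd_mul Nat.prime_three).mp h10 with h11 | h11
    · omega
    · exact h3 ((Nat.prime_dvd_prime_iff_eq Nat.prime_three hprime).mp h11).symm
  have hdet : (-x) * (5 * (-x)) - b * (3 * (-x - b)) = l := by
    subst hb
    nlinarith [h]
  have hpos : 0 < (-x) * (5 * (-x)) - b * (3 * (-x - b)) := by
    rw [hdet]
    exact_mod_cast hprime.pos
  obtain ⟨C, hC⟩ := fam_mat l h3 (-x) b (3 * (-x - b)) (5 * (-x)) hdet (dvd_mul_right 3 _) hpos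
  refine ⟨C, fun w ε hε F hF => ?_⟩
  rw [hC w ε hε F hF tau0]
  have hne := denom_ne (-x) b (3 * (-x - b)) (5 * (-x)) hpos tau0
  have ht0 : (tau0 : ℂ) ≠ 0 := UpperHalfPlane.ne_zero tau0
  have hcd : (((3 * (-x - b) : ℤ) : ℂ) * tau0 + ((5 * (-x) : ℤ) : ℂ))
      = -3 * (tau0 : ℂ) * (-x * tau0 + b) := by
    push_cast
    linear_combination (-(x : ℂ)) * TauC_eq
  have hab : (-(x : ℂ) * tau0 + b) ≠ 0 := by
    intro h0
    rw [hcd, h0, mul_zero] at hne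
    exact hne rfl
  have hfix : mob (-x) b (3 * (-x - b)) (5 * (-x)) hpos tau0 = W tau0 := by
    apply UpperHalfPlane.ext
    unfold W
    rw [coe_mob, coe_mob, hcd]
    push_cast
    rw [div_eq_div_iff (mul_ne_zero (mul_ne_zero (by norm_num) ht0) hab)
      (by simpa using ht0)]
    ring
  rw [hfix, hF.fr]
  have hchi : chi (-x) = -chi x := by
    rw [chi_mod, chi_mod]
    have hx0 : x % 3 = 1 ∨ x % 3 = 2 := by omega
    rcases hx0 with h0 | h0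
    · have : (-x) % 3 = 2 := by omega
      rw [this, h0]; norm_num
    · have : (-x) % 3 = 1 := by omega
      rw [this, h0]; norm_num
  have h51 : Real.sqrt 51 = Real.sqrt 17 * Real.sqrt 3 := by
    rw [← Real.sqrt_mul (by norm_num)]; norm_num
  have s17 : ((Real.sqrt 17 : ℝ) : ℂ) ^ 2 = 17 := by
    rw [← Complex.ofReal_pow, Real.sq_sqrt (by norm_num)]
    norm_num
  have s3 : ((Real.sqrt 3 : ℝ) : ℂ) ^ 2 = 3 := by
    rw [← Complex.ofReal_pow, Real.sq_sqrt (by norm_num)]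
    norm_num
  have htau : (tau0 : ℂ) = -1 / 2 + (((Real.sqrt 17 : ℝ) : ℂ) * ((Real.sqrt 3 : ℝ) : ℂ) / 6)
      * Complex.I := by
    change (-1 / 2 + ((Real.sqrt 51 / 6 : ℝ) : ℂ) * Complex.I) = _
    rw [h51]
    push_cast
    ring
  have key : ((chi (-x) : ℤ) : ℂ) * (l : ℂ)
      * (((3 * (-x - b) : ℤ) : ℂ) * tau0 + ((5 * (-x) : ℤ) : ℂ))⁻¹ * jW tau0
      = ((chi x : ℤ) : ℂ) * (x * ((Real.sqrt 17 : ℝ) : ℂ)
        - y * ((Real.sqrt 3 : ℝ) : ℂ) * Complex.I) / 2 := by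
    have h2 : (l : ℂ) = 5 * (x : ℂ) ^ 2 + 3 * (x : ℂ) * b + 3 * (b : ℂ) ^ 2 := by
      have : (l : ℤ) = 5 * x ^ 2 + 3 * x * b + 3 * b ^ 2 := by rw [← hdet]; ring
      exact_mod_cast this
    have hy : (y : ℂ) = x + 2 * b := by exact_mod_cast hb
    have hmain : (l : ℂ) * (Complex.I * ((Real.sqrt 3 : ℝ) : ℂ)) * 2
        = -(3 * (-(x : ℂ) * tau0 + b) * (x * ((Real.sqrt 17 : ℝ) : ℂ)
          - y * ((Real.sqrt 3 : ℝ) : ℂ) * Complex.I)) := by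
      rw [h2, hy, htau]
      linear_combination (-((x : ℂ) ^ 2 * ((Real.sqrt 3 : ℝ) : ℂ) * Complex.I / 2)) * s17
        + ((x : ℂ) * (x + 2 * b) * ((Real.sqrt 17 : ℝ) : ℂ) / 2 * Complex.I ^ 2) * s3
        + (3 * (x : ℂ) * (x + 2 * b) * ((Real.sqrt 17 : ℝ) : ℂ) / 2) * Complex.I_sq
    have hq : (l : ℂ) * (Complex.I * ((Real.sqrt 3 : ℝ) : ℂ)) / (3 * (-(x : ℂ) * tau0 + b))
        = -((x * ((Real.sqrt 17 : ℝ) : ℂ) - y * ((Real.sqrt 3 : ℝ) : ℂ) * Complex.I) / 2) := by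
      rw [div_eq_iff (mul_ne_zero (by norm_num) hab)]
      linear_combination hmain / 2
    have hr : (-3 * (tau0 : ℂ) * (-x * tau0 + b))⁻¹ * jW tau0
        = (Complex.I * ((Real.sqrt 3 : ℝ) : ℂ)) / (3 * (-(x : ℂ) * tau0 + b)) := by
      unfold jW
      have h3t : (-3 * (tau0 : ℂ) * (-x * tau0 + b)) ≠ 0 :=
        mul_ne_zero (mul_ne_zero (by norm_num) ht0) hab
      rw [inv_mul_eq_div, div_eq_div_iff h3t (mul_ne_zero (by norm_num) hab)]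
      ring
    rw [hcd, hchi, mul_assoc, hr]
    push_cast
    linear_combination (-((chi x : ℤ) : ℂ)) * hq
  have hw : (jW tau0) ^ ((w : ℕ) : ℤ) = (jW tau0) ^ w := zpow_natCast _ _
  rw [hw, ← key]
  rw [mul_pow, mul_pow, mul_pow, inv_pow]
  ring

end Pool.Agent.Lib.SCG
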