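import Pool.Agent.Lib.SCG.EvQ
import Pool.Agent.Lib.SCG.EvP
import Pool.Agent.Lib.SCG.PsiC
import Pool.Agent.Lib.SCG.TauC

/-!
Ev2D: the divisibilities in case 2 (`4p = 17x² + 3y²`, `χ p = -1`, `p ≠ 17`), paper section 6.
PLAN. As Ev1D with the scaling `X → s₀ X`, `s₀ = √17/4`, `β = 16/17 ∈ Zp p`,
`a = 4χ(x)x`, `m = X² - C a X + C(p β)`.
(0) `case2`: mod 3, mod `p`; `y ≠ 0` since `y = 0` gives `17 ∣ p`.
(1) `m ∣ f2`: the roots are `z± = ν±/s₀`, `ν± = χ(x)(x√17 ∓ y√3 i)/2`, sum `a`, product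
`16p/17`, distinct; `tau2` for `(x, ±y)` (`w = 1`, `ε = 1`), `phi2`.
(2) `m ∣ g2 - C ((17/16)^{(p+1)/2} evz d ^ 3) f2'`: `Psi_root` with
`K_C = - ν³ K(τ₀)` (`tau2`, `w = 3`, `ε = -1`, same `C`), `G_C = ν g₀`:
`Psi(G_C) = -s₀ (∏ G)³ Phi'(G_C)`,
`∏ G = -p g₀^{p+1} d₀` (`prod_tau0`), `Phi'(g₀s₀z) = (g₀s₀)^p f'(z)`; `psi2`:
`p³ g₀^{4p+3} g(z) = s₀^{p+1} p³ d₀³ g₀^{4p+3} f'(z)`, `s₀^{p+1} = (17/16)^{(p+1)/2}`.
-/

namespace Pool.Agent.Lib.SCG

lemma bz_mem (p : ℕ) [Fact p.Prime] (h17 : p ≠ 17) : (16 / 17 : ℚ) ∈ Zp p := by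
  refine ⟨16, 17, ?_, by norm_num⟩
  intro h
  have hp := Fact.out (p := p.Prime)
  have h2 : p ∣ 17 := by exact_mod_cast h
  exact h17 ((Nat.prime_dvd_prime_iff_eq hp (by norm_num)).mp h2)

lemma cz_mem (p : ℕ) [Fact p.Prime] (h3 : 3 < p) : (17 / 16 : ℚ) ∈ Zp p := by
  refine ⟨17, 16, ?_, by norm_num⟩
  intro h
  have hp := Fact.out (p := p.Prime)
  have h2 : p ∣ 16 := by exact_mod_cast h
  have h4 : p ∣ 2 := hp.dvd_of_dvd_pow (n := 4) (by norm_num; exact h2)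
  have := Nat.le_of_dvd (by norm_num) h4
  omega

/-- `16/17` in `Z_(p)`. -/
def bz (p : ℕ) [Fact p.Prime] (h17 : p ≠ 17) : Zp p := ⟨16 / 17, bz_mem p h17⟩

/-- `17/16` in `Z_(p)`. -/
def cz (p : ℕ) [Fact p.Prime] (h3 : 3 < p) : Zp p := ⟨17 / 16, cz_mem p h3⟩

open Polynomial in
/-- The polynomial of the normalised multipliers over `Z_(p)`. -/
noncomputable def f2 (p : ℕ) [Fact p.Prime] (h3 : 3 < p) (h17 : p ≠ 17) (P : ℕ → ℤ[X]) :
    (Zp p)[X] :=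
  ∑ k ∈ Finset.range (p + 2),
    C ((-1) ^ k * evz p h3 (P k) * bz p h17 ^ (k / 2)) * X ^ (p + 1 - k)

open Polynomial in
noncomputable def g2 (p : ℕ) [Fact p.Prime] (h3 : 3 < p) (Q : ℕ → ℤ[X]) : (Zp p)[X] :=
  ∑ i ∈ Finset.range (p + 1), C (evz p h3 (Q i) * cz p h3 ^ ((p - i + 1) / 2)) * X ^ (p - i)

theorem case2 (p : ℕ) [Fact p.Prime] (h3 : 3 < p) (h17 : p ≠ 17) (x y : ℤ)
    (h : (4 : ℤ) * p = 17 * x ^ 2 + 3 * y ^ 2) :
    chi p = -1 ∧ ¬ (p : ℤ) ∣ x ∧ y ≠ 0 ∧ (chi x = 1 ∨ chi x = -1) := by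
  have hp := Fact.out (p := p.Prime)
  have hpi := Nat.prime_iff_prime_int.mp hp
  have hx3 : x % 3 = 1 ∨ x % 3 = 2 := by
    by_contra hcon
    have h0 : x % 3 = 0 := by omega
    obtain ⟨q, hq⟩ : ∃ q, x = 3 * q := ⟨x / 3, by omega⟩
    have h1 : (3 : ℤ) ∣ p := by
      have h2 : (p : ℤ) = 3 * (17 * 3 * q ^ 2 + y ^ 2 - p) := by
        rw [hq] at h
        linear_combination h
      exact ⟨_, h2⟩
    have h2 : 3 ∣ p := by exact_mod_cast h1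
    have := (Nat.prime_dvd_prime_iff_eq Nat.prime_three hp).mp h2
    omega
  refine ⟨?_, ?_, ?_, ?_⟩
  · have h4 : (p : ℤ) % 3 = 2 := by
      rcases hx3 with h1 | h1
      · obtain ⟨q, hq⟩ : ∃ q, x = 3 * q + 1 := ⟨x / 3, by omega⟩
        have h2 : (p : ℤ) = 3 * (17 * (3 * q ^ 2 + 2 * q) + 5 + y ^ 2 - p) + 2 := by
          rw [hq] at h
          linear_combination h
        rw [h2]; omega
      · obtain ⟨q, hq⟩ : ∃ q, x = 3 * q + 2 := ⟨x / 3, by omega⟩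
        have h2 : (p : ℤ) = 3 * (17 * (3 * q ^ 2 + 4 * q) + 22 + y ^ 2 - p) + 2 := by
          rw [hq] at h
          linear_combination h
        rw [h2]; omega
    rw [chi_mod, h4]
    norm_num
  · rintro ⟨q, hq⟩
    have h1 : (p : ℤ) ∣ 3 * y ^ 2 := by
      refine ⟨4 - 17 * p * q ^ 2, ?_⟩
      rw [hq] at h
      linear_combination -h
    have hy : (p : ℤ) ∣ y := by
      rcases hpi.dvd_or_dvd h1 with h2 | h2
      · exfalso
        have h4 : p ∣ 3 := by exact_mod_cast h2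
        have := Nat.le_of_dvd (by norm_num) h4
        omega
      · exact hpi.dvd_of_dvd_pow h2
    obtain ⟨r, hr⟩ := hy
    have h5 : (4 : ℤ) = p * (17 * q ^ 2 + 3 * r ^ 2) := by
      have hp0 : (p : ℤ) ≠ 0 := by exact_mod_cast hp.ne_zero
      apply mul_left_cancel₀ hp0
      rw [hq, hr] at h
      linear_combination h
    have h6 : (p : ℤ) ∣ 4 := ⟨_, h5⟩
    have h7 : p ∣ 4 := by exact_mod_cast h6
    have h8 : p ∣ 2 := hp.dvd_of_dvd_pow (n := 2) (by norm_num; exact h7)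
    have := Nat.le_of_dvd (by norm_num) h8
    omega
  · rintro rfl
    have h1 : (17 : ℤ) ∣ 4 * p := ⟨x ^ 2, by linear_combination h⟩
    have h2 : 17 ∣ 4 * p := by exact_mod_cast h1
    rcases (Nat.Prime.dvd_mul (by norm_num : Nat.Prime 17)).mp h2 with h4 | h4
    · omega
    · have := (Nat.prime_dvd_prime_iff_eq (by norm_num) hp).mp h4
      omega
  · rcases hx3 with h1 | h1
    · left; rw [chi_mod, h1]; norm_num
    · right; rw [chi_mod, h1]; norm_num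

/-! ### auxiliary -/

private noncomputable def iot (p : ℕ) [Fact p.Prime] : Zp p →+* ℂ :=
  (algebraMap ℚ ℂ).comp (Zp p).subtype

private lemma iot_apply (p : ℕ) [Fact p.Prime] (a : Zp p) : iot p a = (((a : Zp p) : ℚ) : ℂ) := rfl

private lemma iot_inj (p : ℕ) [Fact p.Prime] : Function.Injective (iot p) := by
  intro a b h
  rw [iot_apply, iot_apply] at h
  exact Subtype.ext (by exact_mod_cast h)

private lemma iot_evz (p : ℕ) [Fact p.Prime] (h3 : 3 < p) (P : Polynomial ℤ) :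
    iot p (evz p h3 P) = evc P := by
  rw [iot_apply, evz_evq, evq_evc]

private lemma iot_bz (p : ℕ) [Fact p.Prime] (h17 : p ≠ 17) : iot p (bz p h17) = 16 / 17 := by
  rw [iot_apply, bz]; norm_num

private lemma iot_cz (p : ℕ) [Fact p.Prime] (h3 : 3 < p) : iot p (cz p h3) = 17 / 16 := by
  rw [iot_apply, cz]; norm_num

open Polynomial in
private lemma quad_dvd (p : ℕ) [Fact p.Prime] (F : (Zp p)[X]) (a b : Zp p) (z w : ℂ)
    (hne : z ≠ w) (hs : z + w = iot p a) (hb : z * w = iot p b)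
    (hz : (F.map (iot p)).eval z = 0) (hw : (F.map (iot p)).eval w = 0) :
    (X ^ 2 - C a * X + C b) ∣ F := by
  have hmon : (X ^ 2 - C a * X + C b).Monic := by monicity!
  rw [← Polynomial.map_dvd_map (iot p) (iot_inj p) hmon]
  have h1 : (X ^ 2 - C a * X + C b).map (iot p) = (X - C z) * (X - C w) := by
    rw [Polynomial.map_add, Polynomial.map_sub, Polynomial.map_mul, Polynomial.map_pow,
      Polynomial.map_X, Polynomial.map_C, Polynomial.map_C, ← hs, ← hb, C_add, C_mul]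
    ring
  rw [h1]
  exact (Polynomial.isCoprime_X_sub_C_of_isUnit_sub (sub_ne_zero.mpr hne).isUnit).mul_dvd
    (dvd_iff_isRoot.mpr hz) (dvd_iff_isRoot.mpr hw)

/-- a multiplier `g₀ s₀ z` of the second kind -/
private def Rt (p : ℕ) [NeZero p] (z : ℂ) : Prop :=
  ∃ C : Option (ZMod p), fam p 1 Gf C tau0 = Gf tau0 * ((Real.sqrt 17 / 4 : ℝ) : ℂ) * z ∧
    fam p 3 Kf C tau0 = -(((Real.sqrt 17 / 4 : ℝ) : ℂ) * z) ^ 3 * Kf tau0

private lemma s0_sq : ((Real.sqrt 17 / 4 : ℝ) : ℂ) ^ 2 = 17 / 16 := by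
  have : (Real.sqrt 17 / 4) ^ 2 = 17 / 16 := by
    rw [div_pow, Real.sq_sqrt (by norm_num)]; norm_num
  rw [← Complex.ofReal_pow, this]
  norm_num

private lemma s0_ne : ((Real.sqrt 17 / 4 : ℝ) : ℂ) ≠ 0 := by
  intro h
  have := s0_sq
  rw [h] at this
  norm_num at this

private lemma root_aux (p : ℕ) [Fact p.Prime] [NeZero p] (h3 : 3 < p) (x y : ℤ)
    (h : (4 : ℤ) * p = 17 * x ^ 2 + 3 * y ^ 2) :
    Rt p (((chi x : ℤ) : ℂ) * (2 * x - 2 * y * ((Real.sqrt 3 / Real.sqrt 17 : ℝ) : ℂ)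
      * Complex.I)) := by
  obtain ⟨C, hC⟩ := tau2 p (by omega) x y h
  have hs17 : ((Real.sqrt 17 : ℝ) : ℂ) ≠ 0 := by
    have : Real.sqrt 17 ≠ 0 := by positivity
    exact_mod_cast this
  have hν : ((Real.sqrt 17 / 4 : ℝ) : ℂ) * (((chi x : ℤ) : ℂ) * (2 * x - 2 * y *
      ((Real.sqrt 3 / Real.sqrt 17 : ℝ) : ℂ) * Complex.I))
      = ((chi x : ℤ) : ℂ) * (x * ((Real.sqrt 17 : ℝ) : ℂ)
        - y * ((Real.sqrt 3 : ℝ) : ℂ) * Complex.I) / 2 := by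
    push_cast
    field_simp
    ring
  refine ⟨C, ?_, ?_⟩
  · have h1 := hC 1 1 (Or.inl rfl) Gf (by exact_mod_cast autG)
    rw [h1, ← hν]
    ring
  · have h1 := hC 3 (-1) (Or.inr rfl) Kf (by exact_mod_cast autK)
    rw [h1, ← hν]
    ring

private lemma two_roots (p : ℕ) [Fact p.Prime] [NeZero p] (h3 : 3 < p) (h17 : p ≠ 17) (x y : ℤ)
    (h : (4 : ℤ) * p = 17 * x ^ 2 + 3 * y ^ 2) :
    ∃ z w : ℂ, z ≠ w ∧ z + w = iot p ((4 * chi x * x : ℤ) : Zp p) ∧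
      z * w = iot p ((p : Zp p) * bz p h17) ∧ Rt p z ∧ Rt p w := by
  obtain ⟨-, -, hy, hx⟩ := case2 p h3 h17 x y h
  have h' : (4 : ℤ) * p = 17 * x ^ 2 + 3 * (-y) ^ 2 := by rw [h]; ring
  refine ⟨_, _, ?_, ?_, ?_, root_aux p h3 x y h, root_aux p h3 x (-y) h'⟩
  · intro he
    have hch : ((chi x : ℤ) : ℂ) ≠ 0 := by
      rcases hx with h1 | h1 <;> rw [h1] <;> norm_num
    have h1 := mul_left_cancel₀ hch he
    have hq : ((Real.sqrt 3 / Real.sqrt 17 : ℝ) : ℂ) ≠ 0 := by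
      have : Real.sqrt 3 / Real.sqrt 17 ≠ 0 := by positivity
      exact_mod_cast this
    have hy' : (y : ℂ) ≠ 0 := by exact_mod_cast hy
    have h2 : (4 : ℂ) * (y * ((Real.sqrt 3 / Real.sqrt 17 : ℝ) : ℂ) * Complex.I) = 0 := by
      push_cast at h1 ⊢
      linear_combination -h1
    have h4 := (mul_eq_zero.mp h2).resolve_left (by norm_num)
    exact mul_ne_zero (mul_ne_zero hy' hq) Complex.I_ne_zero h4
  · rw [map_intCast]
    push_cast
    ring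
  · rw [map_mul, map_natCast, iot_bz]
    have hch : ((chi x : ℤ) : ℂ) ^ 2 = 1 := by
      rcases hx with h1 | h1 <;> rw [h1] <;> norm_num
    have hq : ((Real.sqrt 3 / Real.sqrt 17 : ℝ) : ℂ) ^ 2 = 3 / 17 := by
      have : (Real.sqrt 3 / Real.sqrt 17) ^ 2 = 3 / 17 := by
        rw [div_pow, Real.sq_sqrt (by norm_num), Real.sq_sqrt (by norm_num)]
      rw [← Complex.ofReal_pow, this]
      norm_num
    have hI := Complex.I_sq
    have hc : (4 : ℂ) * p = 17 * x ^ 2 + 3 * y ^ 2 := by exact_mod_cast congrArg (Int.cast : ℤ → ℂ) h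
    push_cast at hq ⊢
    have e : ((chi x : ℤ) : ℂ) * (2 * x - 2 * y * (((Real.sqrt 3 : ℝ) : ℂ) /
        ((Real.sqrt 17 : ℝ) : ℂ)) * Complex.I) *
        (((chi x : ℤ) : ℂ) * (2 * x - 2 * -y * (((Real.sqrt 3 : ℝ) : ℂ) /
        ((Real.sqrt 17 : ℝ) : ℂ)) * Complex.I))
        = ((chi x : ℤ) : ℂ) ^ 2 * (4 * x ^ 2 - 4 * y ^ 2 * (((Real.sqrt 3 : ℝ) : ℂ) /
        ((Real.sqrt 17 : ℝ) : ℂ)) ^ 2 * Complex.I ^ 2) := by ring
    rw [e, hch, hq, hI]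
    linear_combination (-4 / 17 : ℂ) * hc

open Polynomial in
private lemma f2_eval (p : ℕ) [Fact p.Prime] (h3 : 3 < p) (h17 : p ≠ 17) (P : ℕ → ℤ[X]) (z : ℂ) :
    ((f2 p h3 h17 P).map (iot p)).eval z = ∑ k ∈ Finset.range (p + 2),
        (-1) ^ k * evc (P k) * (16 / 17) ^ (k / 2) * z ^ (p + 1 - k) := by
  rw [f2, Polynomial.map_sum, eval_finsetSum]
  refine Finset.sum_congr rfl fun k _ => ?_
  rw [Polynomial.map_mul, Polynomial.map_C, Polynomial.map_pow, Polynomial.map_X, eval_mul, eval_C,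
    eval_pow, eval_X, map_mul, map_mul, map_pow, map_pow, map_neg, map_one, iot_evz, iot_bz]

open Polynomial in
private lemma g2_eval (p : ℕ) [Fact p.Prime] (h3 : 3 < p) (Q : ℕ → ℤ[X]) (z : ℂ) :
    ((g2 p h3 Q).map (iot p)).eval z = ∑ i ∈ Finset.range (p + 1),
        evc (Q i) * (17 / 16) ^ ((p - i + 1) / 2) * z ^ (p - i) := by
  rw [g2, Polynomial.map_sum, eval_finsetSum]
  refine Finset.sum_congr rfl fun k _ => ?_
  rw [Polynomial.map_mul, Polynomial.map_C, Polynomial.map_pow, Polynomial.map_X, eval_mul, eval_C,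
    eval_pow, eval_X, map_mul, map_pow, iot_evz, iot_cz]

open Polynomial in
private lemma phi_comp (p : ℕ) [Fact p.Prime] [NeZero p] (h3 : 3 < p) (h17 : p ≠ 17)
    (hchi : chi p = -1) (P : ℕ → ℤ[X]) (d : ℤ[X]) (H : HGdata p P d) :
    (Phi p tau0).comp (C (Gf tau0 * ((Real.sqrt 17 / 4 : ℝ) : ℂ)) * X)
      = C ((Gf tau0 * ((Real.sqrt 17 / 4 : ℝ) : ℂ)) ^ (p + 1)) * (f2 p h3 h17 P).map (iot p) := by
  apply Polynomial.funext
  intro z
  rw [eval_comp, eval_mul, eval_mul, eval_C, eval_C, eval_X, phi2 p h3 hchi P d H z, f2_eval]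

open Polynomial in
private lemma f2_root (p : ℕ) [Fact p.Prime] [NeZero p] (h3 : 3 < p) (h17 : p ≠ 17)
    (hchi : chi p = -1) (P : ℕ → ℤ[X]) (d : ℤ[X]) (H : HGdata p P d) (z : ℂ) (hz : Rt p z) :
    ((f2 p h3 h17 P).map (iot p)).eval z = 0 := by
  obtain ⟨C0, hC, -⟩ := hz
  have h1 : (Phi p tau0).eval (Gf tau0 * ((Real.sqrt 17 / 4 : ℝ) : ℂ) * z) = 0 := by
    rw [← hC, Phi, PhiF, Polynomial.eval_prod]
    exact Finset.prod_eq_zero (Finset.mem_univ C0) (by simp)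
  rw [phi2 p h3 hchi P d H z] at h1
  rw [f2_eval]
  exact (mul_eq_zero.mp h1).resolve_left (pow_ne_zero _ (mul_ne_zero Gf_tau0_ne s0_ne))

open Polynomial in
theorem ev2f (p : ℕ) [Fact p.Prime] [NeZero p] (h3 : 3 < p) (h17 : p ≠ 17) (x y : ℤ)
    (h : (4 : ℤ) * p = 17 * x ^ 2 + 3 * y ^ 2)
    (P : ℕ → ℤ[X]) (d : ℤ[X]) (H : HGdata p P d) :
    (X ^ 2 - C ((4 * chi x * x : ℤ) : Zp p) * X + C ((p : Zp p) * bz p h17))
      ∣ f2 p h3 h17 P := by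
  obtain ⟨hchi, -, -, -⟩ := case2 p h3 h17 x y h
  obtain ⟨z, w, hne, hs, hb, hz, hw⟩ := two_roots p h3 h17 x y h
  exact quad_dvd p _ _ _ z w hne hs hb (f2_root p h3 h17 hchi P d H z hz)
    (f2_root p h3 h17 hchi P d H w hw)

open Polynomial in
private lemma g2_root (p : ℕ) [Fact p.Prime] [NeZero p] (h3 : 3 < p) (h17 : p ≠ 17)
    (hchi : chi p = -1) (P : ℕ → ℤ[X]) (d : ℤ[X]) (H : HGdata p P d) (Q : ℕ → ℤ[X])
    (HQ : HKdata p Q) (z : ℂ) (hz0 : z ≠ 0) (hz : Rt p z) :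
    ((g2 p h3 Q - C (cz p h3 ^ ((p + 1) / 2) * evz p h3 d ^ 3)
        * derivative (f2 p h3 h17 P)).map (iot p)).eval z = 0 := by
  have hp := Fact.out (p := p.Prime)
  obtain ⟨C0, hC, hK⟩ := hz
  obtain ⟨g, hg⟩ : ∃ g : ℂ, g = Gf tau0 := ⟨_, rfl⟩
  obtain ⟨s, hs⟩ : ∃ s : ℂ, s = ((Real.sqrt 17 / 4 : ℝ) : ℂ) := ⟨_, rfl⟩
  have hg0 : g ≠ 0 := hg ▸ Gf_tau0_ne
  have hs0 : s ≠ 0 := hs ▸ s0_ne
  have hp0 : (p : ℂ) ≠ 0 := by exact_mod_cast hp.ne_zero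
  have hss : s ^ 2 = 17 / 16 := hs ▸ s0_sq
  -- derivative
  have hcomp := phi_comp p h3 h17 hchi P d H
  have hder := congrArg derivative hcomp
  rw [derivative_comp, derivative_C_mul, derivative_C_mul, derivative_X, ← hg, ← hs] at hder
  have hder2 := congrArg (Polynomial.eval z) hder
  rw [mul_one, eval_mul, eval_mul, eval_C, eval_C, eval_comp, eval_mul, eval_C, eval_X] at hder2
  obtain ⟨f', hf'⟩ : ∃ f' : ℂ, f' = (derivative ((f2 p h3 h17 P).map (iot p))).eval z := ⟨_, rfl⟩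
  rw [← hf'] at hder2
  have hPhi' : (derivative (Phi p tau0)).eval (g * s * z) = (g * s) ^ p * f' := by
    have h1 : g * s ≠ 0 := mul_ne_zero hg0 hs0
    apply mul_left_cancel₀ h1
    rw [hder2]; ring
  -- Psi
  have hroot := Psi_root p tau0 C0
  rw [prod_tau0 p h3 P d H, hchi, hC, hK, Kf_tau0, ← hg, ← hs, hPhi'] at hroot
  have hpsi := psi2 p h3 hchi Q HQ z
  rw [← hg, ← hs, ← g2_eval p h3 Q z] at hpsi
  rw [hpsi] at hroot
  obtain ⟨G2, hG2⟩ : ∃ G2 : ℂ, G2 = ((g2 p h3 Q).map (iot p)).eval z := ⟨_, rfl⟩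
  rw [← hG2] at hroot
  have key : G2 = s ^ (p + 1) * evc d ^ 3 * f' := by
    have hne : (p : ℂ) ^ 3 * g ^ (4 * p + 3) * (g * s * z) ^ 3 ≠ 0 := by
      refine mul_ne_zero (mul_ne_zero (pow_ne_zero _ hp0) (pow_ne_zero _ hg0))
        (pow_ne_zero _ (mul_ne_zero (mul_ne_zero hg0 hs0) hz0))
    apply mul_left_cancel₀ hne
    have e1 : g ^ (4 * p + 3) = (g ^ p) ^ 4 * g ^ 3 := by
      rw [pow_add, mul_comm 4 p, pow_mul]
    have e2 : g ^ (p + 1) = g ^ p * g := pow_succ _ _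
    have e3 : s ^ (p + 1) = s ^ p * s := pow_succ _ _
    have e4 : (g * s) ^ p = g ^ p * s ^ p := mul_pow _ _ _
    rw [e1, e2, e4] at hroot
    rw [e1, e3]
    push_cast at hroot
    linear_combination hroot
  have hpow : s ^ (p + 1) = (17 / 16) ^ ((p + 1) / 2) := by
    have hodd : p % 2 = 1 := Nat.odd_iff.mp (hp.odd_of_ne_two (by omega))
    have h1 : p + 1 = 2 * ((p + 1) / 2) := by omega
    conv_lhs => rw [h1]
    rw [pow_mul, hss]
  rw [Polynomial.map_sub, Polynomial.map_mul, Polynomial.map_C, eval_sub, eval_mul, eval_C,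
    ← derivative_map, ← hf', ← hG2, key, map_mul, map_pow, map_pow, iot_cz, iot_evz, hpow]
  ring

open Polynomial in
theorem ev2g (p : ℕ) [Fact p.Prime] [NeZero p] (h3 : 3 < p) (h17 : p ≠ 17) (x y : ℤ)
    (h : (4 : ℤ) * p = 17 * x ^ 2 + 3 * y ^ 2)
    (P : ℕ → ℤ[X]) (d : ℤ[X]) (H : HGdata p P d) (Q : ℕ → ℤ[X]) (HQ : HKdata p Q) :
    (X ^ 2 - C ((4 * chi x * x : ℤ) : Zp p) * X + C ((p : Zp p) * bz p h17)) ∣
      g2 p h3 Q - C (cz p h3 ^ ((p + 1) / 2) * evz p h3 d ^ 3)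
        * derivative (f2 p h3 h17 P) := by
  have hp := Fact.out (p := p.Prime)
  obtain ⟨hchi, -, -, -⟩ := case2 p h3 h17 x y h
  obtain ⟨z, w, hne, hs, hb, hz, hw⟩ := two_roots p h3 h17 x y h
  have hzw : z * w ≠ 0 := by
    rw [hb, map_mul, map_natCast, iot_bz]
    have hp0 : (p : ℂ) ≠ 0 := by exact_mod_cast hp.ne_zero
    exact mul_ne_zero hp0 (by norm_num)
  exact quad_dvd p _ _ _ z w hne hs hb
    (g2_root p h3 h17 hchi P d H Q HQ z (left_ne_zero_of_mul hzw) hz)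
    (g2_root p h3 h17 hchi P d H Q HQ w (right_ne_zero_of_mul hzw) hw)

end Pool.Agent.Lib.SCG
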