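import Pool.Agent.Lib.SCG.FiveB
import Pool.Agent.Lib.SCG.HK
import Pool.Agent.Lib.SCG.EvZ

/-!
EvQ: values of the polynomials `Phi p`, `Psi p` at `τ₀`, case `χ p = -1`.
PLAN. `HG`/`HK` coefficients and `sgh_tau0`. `s₀ = √17/4`, `g₀ = G(τ₀)`. `Phi p τ₀ =
∑_{k ≤ p+1} (-1)^k e_k X^{p+1-k}` with `e_k = g₀^k (1 or s₀) evc (P k)`; natDegree `p+1`
(`PhiF_natDegree`), (`Polynomial.eval_eq_sum_range'`, reindex `k ↦ p+1-k` by
`Finset.sum_range_reflect`).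
Evaluate at `g₀ s₀ z`: `e_k/(g₀ s₀)^k = evc (P k) (16/17)^{k/2}` (natural division) for
both parities of `k` (`s₀² = 17/16`; `χ^k = 1` for even `k`: factor 1; `-1` for odd `k`: factor
`s₀`); `Psi`: coefficient of `X^{p-i}`:
`p³ g₀^{3+3p+i} (s₀ if i even, 1 if i odd) evc (Q i)` (`-χ^i = -1` for even `i`), and
`(s₀ or 1) s₀^{p-i} = (17/16)^{(p-i+1)/2}` (`p` odd).
-/

namespace Pool.Agent.Lib.SCG

open UpperHalfPlane

private lemma evq_sq : ((Real.sqrt 17 / 4 : ℝ) : ℂ) ^ 2 = 17 / 16 := by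
  rw [← Complex.ofReal_pow, div_pow, Real.sq_sqrt (by norm_num)]
  norm_num

private lemma evq_even (m : ℕ) : ((Real.sqrt 17 / 4 : ℝ) : ℂ) ^ (2 * m) = (17 / 16) ^ m := by
  rw [pow_mul, evq_sq]

private lemma evq_inv (m : ℕ) : (17 / 16 : ℂ) ^ m * (16 / 17) ^ m = 1 := by
  rw [← mul_pow]
  norm_num

theorem phi2 (p : ℕ) [Fact p.Prime] [NeZero p] (h3 : 3 < p) (hchi : chi p = -1)
    (P : ℕ → Polynomial ℤ) (d : Polynomial ℤ) (H : HGdata p P d) (z : ℂ) :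
    (Phi p tau0).eval (Gf tau0 * ((Real.sqrt 17 / 4 : ℝ) : ℂ) * z)
      = (Gf tau0 * ((Real.sqrt 17 / 4 : ℝ) : ℂ)) ^ (p + 1) *
      ∑ k ∈ Finset.range (p + 2),
        (-1) ^ k * evc (P k) * (16 / 17) ^ (k / 2) * z ^ (p + 1 - k) := by
  have hdeg : (Phi p tau0).natDegree < p + 2 := by
    rw [Phi, PhiF_natDegree]
    omega
  rw [Polynomial.eval_eq_sum_range' hdeg, ← Finset.sum_range_reflect, Finset.mul_sum]
  refine Finset.sum_congr rfl fun k hk => ?_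
  rw [Finset.mem_range] at hk
  have hk1 : k ≤ p + 1 := by omega
  have hi : p + 2 - 1 - k = p + 1 - k := by omega
  rw [hi, H.coeff k hk1 tau0, sgh_tau0 _ _ _ (H.deg k hk1), hchi]
  obtain ⟨s, hs⟩ : ∃ s : ℂ, s = ((Real.sqrt 17 / 4 : ℝ) : ℂ) := ⟨_, rfl⟩
  have hs0 : (if ((-1 : ℤ)) ^ k = 1 then (1 : ℂ) else s) = s ^ k * (16 / 17) ^ (k / 2) := by
    rcases Nat.even_or_odd' k with ⟨m, hm | hm⟩
    · have h1 : ((-1 : ℤ)) ^ k = 1 := by rw [hm, pow_mul]; norm_num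
      have h2 : k / 2 = m := by omega
      rw [if_pos h1, h2, hm, hs, evq_even, evq_inv]
    · have h1 : ((-1 : ℤ)) ^ k ≠ 1 := by
        rw [hm, pow_succ, pow_mul]
        norm_num
      have h2 : k / 2 = m := by omega
      rw [if_neg h1, h2, hm, pow_succ, hs, evq_even]
      linear_combination (-((Real.sqrt 17 / 4 : ℝ) : ℂ)) * evq_inv m
  rw [← hs, hs0]
  have h3 : p + 1 = k + (p + 1 - k) := by omega
  have h4 : (Gf tau0 * s) ^ (p + 1) = (Gf tau0 * s) ^ k * (Gf tau0 * s) ^ (p + 1 - k) := by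
    rw [← pow_add, ← h3]
  rw [h4, mul_pow (Gf tau0 * s) z, mul_pow (Gf tau0) s k]
  ring

private lemma evq_psi_deg (l : ℕ) [NeZero l] (τ : ℍ) : (Psi l τ).natDegree < l + 1 :=
  Nat.lt_succ_of_le (Psi_natDegree l τ)

theorem psi2 (p : ℕ) [Fact p.Prime] [NeZero p] (h3 : 3 < p) (hchi : chi p = -1)
    (Q : ℕ → Polynomial ℤ) (H : HKdata p Q) (z : ℂ) :
    (Psi p tau0).eval (Gf tau0 * ((Real.sqrt 17 / 4 : ℝ) : ℂ) * z) = (p : ℂ) ^ 3 *
      Gf tau0 ^ (4 * p + 3) * ∑ i ∈ Finset.range (p + 1),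
        evc (Q i) * (17 / 16) ^ ((p - i + 1) / 2) * z ^ (p - i) := by
  have hp : p.Prime := Fact.out
  have hodd : p % 2 = 1 := by
    rcases hp.eq_two_or_odd with h | h
    · omega
    · exact h
  rw [Polynomial.eval_eq_sum_range' (evq_psi_deg p tau0), ← Finset.sum_range_reflect,
    Finset.mul_sum]
  refine Finset.sum_congr rfl fun i hi => ?_
  rw [Finset.mem_range] at hi
  have hi1 : i ≤ p := by omega
  have hi2 : p + 1 - 1 - i = p - i := by omega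
  rw [hi2, H.coeff i hi1 tau0, sgh_tau0 _ _ _ (H.deg i hi1), hchi]
  obtain ⟨s, hs⟩ : ∃ s : ℂ, s = ((Real.sqrt 17 / 4 : ℝ) : ℂ) := ⟨_, rfl⟩
  have hs0 : (if -((-1 : ℤ)) ^ i = 1 then (1 : ℂ) else s) * s ^ (p - i) =
      (17 / 16) ^ ((p - i + 1) / 2) := by
    rcases Nat.even_or_odd' (p - i) with ⟨m, hm | hm⟩
    · have h1 : -((-1 : ℤ)) ^ i = 1 := by
        have : i = 2 * (i / 2) + 1 := by omega
        rw [this, pow_succ, pow_mul]
        norm_num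
      have h2 : (p - i + 1) / 2 = m := by omega
      rw [if_pos h1, h2, hm, hs, evq_even, one_mul]
    · have h1 : -((-1 : ℤ)) ^ i ≠ 1 := by
        have : i = 2 * (i / 2) := by omega
        rw [this, pow_mul]
        norm_num
      have h2 : (p - i + 1) / 2 = m + 1 := by omega
      rw [if_neg h1, h2, hm, ← evq_even (m + 1), hs, ← pow_succ']
      congr 1
  rw [← hs, ← hs0]
  have h4 : Gf tau0 ^ (4 * p + 3) = Gf tau0 ^ (3 + 3 * p + i) * Gf tau0 ^ (p - i) := by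
    rw [← pow_add]
    congr 1
    omega
  rw [h4, mul_pow (Gf tau0 * s) z, mul_pow (Gf tau0) s]
  ring

end Pool.Agent.Lib.SCG
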