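import Pool.Agent.Lib.SCG.Defs

/-!
ExA: algebra of expansions (`Ex` from Defs).
PLAN. A convergent `HasSum` in `ℂ` is absolutely convergent (`Summable.norm`, `ℂ` finite
dimensional). `Ex.mul`: Cauchy product (`tsum_mul_tsum_eq_tsum_sum_antidiagonal_of_summable_norm`,
`summable_norm_sum_mul_antidiagonal_of_summable_norm`, `PowerSeries.coeff_mul`).
`Ex.unique`: the points `qParam h τ` are all points of the punctured unit disc
(`Function.Periodic.qParam_right_inv`, `Function.Periodic.im_invQParam_pos_of_norm_lt_one`), so two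
power series agree there; e.g. with `c = a - b` use Mathlib
`UpperHalfPlane.qExpansion_coeff_unique` (or `hasFPowerSeriesOnBall_cuspFunction` for `f = 0`:
the function `fun _ => 0` has expansion `a - b` and expansion `0`).
-/

namespace Pool.Agent.Lib.SCG

open UpperHalfPlane

lemma Ex.fun_eq {h : ℕ} {f g : ℍ → ℂ} {a : PowerSeries ℂ} (hf : Ex h f a) (hg : Ex h g a)
    (τ : ℍ) : f τ = g τ := (hf τ).unique (hg τ)

lemma Ex.congr {h : ℕ} {f g : ℍ → ℂ} {a : PowerSeries ℂ} (hf : Ex h f a)
    (hfg : ∀ τ, f τ = g τ) : Ex h g a := by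
  intro τ
  rw [← hfg τ]
  exact hf τ

lemma Ex.const (h : ℕ) (c : ℂ) : Ex h (fun _ => c) (PowerSeries.C c) := by
  intro τ
  have := hasSum_single (f := fun m : ℕ => (PowerSeries.coeff m (PowerSeries.C c)) •
    (Function.Periodic.qParam (h : ℝ) (τ : ℂ)) ^ m) 0 (by
      intro m hm
      simp [PowerSeries.coeff_C, hm])
  simpa using this

lemma Ex.add {h : ℕ} {f g : ℍ → ℂ} {a b : PowerSeries ℂ} (hf : Ex h f a) (hg : Ex h g b) :
    Ex h (fun τ => f τ + g τ) (a + b) := by
  intro τ
  have := (hf τ).add (hg τ)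
  simpa only [map_add, add_smul] using this

lemma Ex.neg {h : ℕ} {f : ℍ → ℂ} {a : PowerSeries ℂ} (hf : Ex h f a) :
    Ex h (fun τ => -f τ) (-a) := by
  intro τ
  have := (hf τ).neg
  simpa only [map_neg, smul_eq_mul, neg_mul] using this

lemma Ex.sub {h : ℕ} {f g : ℍ → ℂ} {a b : PowerSeries ℂ} (hf : Ex h f a) (hg : Ex h g b) :
    Ex h (fun τ => f τ - g τ) (a - b) := by
  intro τ
  have := (hf τ).sub (hg τ)
  simpa only [map_sub, sub_smul] using this

lemma Ex.mul {h : ℕ} {f g : ℍ → ℂ} {a b : PowerSeries ℂ} (hf : Ex h f a) (hg : Ex h g b) :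
    Ex h (fun τ => f τ * g τ) (a * b) := by
  intro τ
  set q := Function.Periodic.qParam (h : ℝ) (τ : ℂ) with hq
  have h1 := (hf τ).summable.norm
  have h2 := (hg τ).summable.norm
  have h3 := (summable_norm_sum_mul_antidiagonal_of_summable_norm h1 h2).of_norm
  have h4 := tsum_mul_tsum_eq_tsum_sum_antidiagonal_of_summable_norm h1 h2
  rw [(hf τ).tsum_eq, (hg τ).tsum_eq] at h4
  have h5 : ∀ m : ℕ, (∑ kl ∈ Finset.HasAntidiagonal.antidiagonal m, (PowerSeries.coeff kl.1 a • q ^ kl.1) *
      (PowerSeries.coeff kl.2 b • q ^ kl.2)) = PowerSeries.coeff m (a * b) • q ^ m := by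
    intro m
    rw [PowerSeries.coeff_mul, Finset.sum_smul]
    refine Finset.sum_congr rfl (fun kl hkl => ?_)
    rw [Finset.HasAntidiagonal.mem_antidiagonal] at hkl
    simp only [smul_eq_mul]
    rw [← hkl, pow_add]
    ring
  change HasSum (fun m : ℕ => PowerSeries.coeff m (a * b) • q ^ m) (f τ * g τ)
  rw [← hq] at h3 h4
  simp only [h5] at h3 h4
  rw [h4]
  exact h3.hasSum

lemma Ex.smul {h : ℕ} {f : ℍ → ℂ} {a : PowerSeries ℂ} (c : ℂ) (hf : Ex h f a) :
    Ex h (fun τ => c * f τ) (PowerSeries.C c * a) :=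
  (Ex.const h c).mul hf

lemma Ex.pow {h : ℕ} {f : ℍ → ℂ} {a : PowerSeries ℂ} (hf : Ex h f a) (n : ℕ) :
    Ex h (fun τ => f τ ^ n) (a ^ n) := by
  induction n with
  | zero =>
    have := Ex.const h 1
    simpa using this
  | succ n ih =>
    have := ih.mul hf
    simpa only [pow_succ] using this

lemma Ex.sum {h : ℕ} {ι : Type*} (s : Finset ι) {f : ι → ℍ → ℂ} {a : ι → PowerSeries ℂ}
    (hf : ∀ i ∈ s, Ex h (f i) (a i)) : Ex h (fun τ => ∑ i ∈ s, f i τ) (∑ i ∈ s, a i) := by
  classical
  induction s using Finset.induction_on with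
  | empty =>
    have := Ex.const h 0
    simpa using this
  | insert i s hi ih =>
    have h1 := (hf i (Finset.mem_insert_self i s)).add
      (ih (fun j hj => hf j (Finset.mem_insert_of_mem hj)))
    simpa only [Finset.sum_insert hi] using h1

lemma Ex.prod {h : ℕ} {ι : Type*} (s : Finset ι) {f : ι → ℍ → ℂ} {a : ι → PowerSeries ℂ}
    (hf : ∀ i ∈ s, Ex h (f i) (a i)) : Ex h (fun τ => ∏ i ∈ s, f i τ) (∏ i ∈ s, a i) := by
  classical
  induction s using Finset.induction_on with
  | empty =>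
    have := Ex.const h 1
    simpa using this
  | insert i s hi ih =>
    have h1 := (hf i (Finset.mem_insert_self i s)).mul
      (ih (fun j hj => hf j (Finset.mem_insert_of_mem hj)))
    simpa only [Finset.prod_insert hi] using h1

private lemma ExA_series {h : ℕ} (hh : 0 < h) {a : PowerSeries ℂ} (ha : Ex h (fun _ => 0) a) :
    HasFPowerSeriesOnBall (UpperHalfPlane.cuspFunction (h : ℝ) (fun _ : ℍ => (0 : ℂ)))
      (.ofScalars ℂ (fun m => PowerSeries.coeff m a)) 0 1 := by
  have hh' : (0 : ℝ) < h := by exact_mod_cast hh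
  refine UpperHalfPlane.hasFPowerSeriesOnBall_cuspFunction hh' ?_ ha
  refine UpperHalfPlane.analyticAt_cuspFunction_zero hh' (fun z => rfl) mdifferentiable_const ?_
  exact Filter.const_boundedAtFilter _ _

lemma Ex.unique {h : ℕ} (hh : 0 < h) {f : ℍ → ℂ} {a b : PowerSeries ℂ} (ha : Ex h f a)
    (hb : Ex h f b) : a = b := by
  have h1 : Ex h (fun _ => 0) (a - b) := (ha.sub hb).congr (fun τ => sub_self _)
  have h2 : Ex h (fun _ => 0) (b - b) := (hb.sub hb).congr (fun τ => sub_self _)
  have h3 := (ExA_series hh h1).hasFPowerSeriesAt.eq_formalMultilinearSeries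
    (ExA_series hh h2).hasFPowerSeriesAt
  have h4 : a - b = b - b := by
    ext m
    simpa using congr_arg (FormalMultilinearSeries.coeff · m) h3
  rw [sub_self] at h4
  exact sub_eq_zero.1 h4

/-- The formal series of an integral expansion is unique. -/
lemma toC_inj {F F' : PowerSeries ℤ} (h : toC F = toC F') : F = F' := by
  ext m
  have := congrArg (PowerSeries.coeff m) h
  simpa using this

end Pool.Agent.Lib.SCG
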