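import Pool.Agent.Lib.SCG.ExA

/-!
ExB: analytic consequences of expansions.
PLAN. `Ex.mdiff`: the power series `∑ a_m z^m` converges on the open unit disc, hence is
differentiable there; compose with `qParam`. (Mathlib's private
`hasFPowerSeriesOnBall_update` argument: `FormalMultilinearSeries.ofScalars ℂ (coeff · a)` has
radius `≥ 1` since the series converges at every point of the punctured disc; its sum `F` is
`DifferentiableOn (ball 0 1)`, and `f τ = F (qParam h τ)`. Use
`UpperHalfPlane.mdifferentiable_iff`.) `Ex.bdd`: Mathlib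
`UpperHalfPlane.isBoundedAtImInfty_of_hasSum_qExpansion`. `Ex.tendsto`: continuity of `F` at 0
and `qParam_tendsto_atImInfty`. `ex_of_mdiff`: Mathlib `UpperHalfPlane.hasSum_qExpansion` with
`h = 1`; the periodicity of `f ∘ ofComplex` from `hp` as in
`SlashInvariantFormClass.periodic_comp_ofComplex`.
-/

namespace Pool.Agent.Lib.SCG

open UpperHalfPlane
open scoped Manifold

private lemma ExB_summable {h : ℕ} (hh : 0 < h) {f : ℍ → ℂ} {a : PowerSeries ℂ} (hf : Ex h f a)
    {q : ℂ} (hq : ‖q‖ < 1) (hq1 : q ≠ 0) :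
    Summable (fun m : ℕ => (PowerSeries.coeff m a) • q ^ m) := by
  have hh' : (0 : ℝ) < h := by exact_mod_cast hh
  have h1 := Function.Periodic.im_invQParam_pos_of_norm_lt_one hh' hq hq1
  have h2 := (hf ⟨Function.Periodic.invQParam h q, h1⟩).summable
  have h3 : Function.Periodic.qParam (h : ℝ)
      ((⟨Function.Periodic.invQParam h q, h1⟩ : ℍ) : ℂ) = q :=
    Function.Periodic.qParam_right_inv hh'.ne' hq1
  rw [h3] at h2
  exact h2

private lemma ExB_series {h : ℕ} (hh : 0 < h) {f : ℍ → ℂ} {a : PowerSeries ℂ} (hf : Ex h f a) :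
    HasFPowerSeriesOnBall (fun q : ℂ => ∑' m : ℕ, (PowerSeries.coeff m a) • q ^ m)
      (.ofScalars ℂ (fun m => PowerSeries.coeff m a)) 0 1 := by
  constructor
  · refine le_of_forall_lt_imp_le_of_dense fun r hr ↦ ?_
    rcases eq_or_ne r 0 with rfl | hr'
    · simp
    · lift r to NNReal using hr.ne_top
      apply FormalMultilinearSeries.le_radius_of_summable
      have := (ExB_summable hh hf (q := (r : ℝ)) (by simpa using hr) (mod_cast hr')).norm
      simpa [smul_eq_mul, norm_mul, mul_comm, mul_left_comm, mul_assoc] using this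
  · simp
  · intro y hy
    rw [← ENNReal.coe_one, Metric.eball_coe, NNReal.coe_one, mem_ball_zero_iff] at hy
    have hs : Summable (fun m : ℕ => (PowerSeries.coeff m a) • y ^ m) := by
      rcases eq_or_ne y 0 with rfl | hy'
      · refine summable_of_ne_finset_zero (s := {0}) (fun m hm => ?_)
        have : m ≠ 0 := by simpa using hm
        simp [this]
      · exact ExB_summable hh hf hy hy'
    have := hs.hasSum
    simpa [mul_comm] using this

private lemma ExB_eq {h : ℕ} {f : ℍ → ℂ} {a : PowerSeries ℂ} (hf : Ex h f a)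
    (τ : ℍ) : f τ = (fun q : ℂ => ∑' m : ℕ, (PowerSeries.coeff m a) • q ^ m)
      (Function.Periodic.qParam (h : ℝ) (τ : ℂ)) := (hf τ).tsum_eq.symm

lemma Ex.mdiff {h : ℕ} (hh : 0 < h) {f : ℍ → ℂ} {a : PowerSeries ℂ} (hf : Ex h f a) :
    MDiff f := by
  have hh' : (0 : ℝ) < h := by exact_mod_cast hh
  rw [UpperHalfPlane.mdifferentiable_iff]
  have h1 : DifferentiableOn ℂ (fun q : ℂ => ∑' m : ℕ, (PowerSeries.coeff m a) • q ^ m)
      (Metric.ball 0 1) := by
    have := (ExB_series hh hf).differentiableOn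
    rwa [← ENNReal.coe_one, Metric.eball_coe, NNReal.coe_one] at this
  have h2 : DifferentiableOn ℂ ((fun q : ℂ => ∑' m : ℕ, (PowerSeries.coeff m a) • q ^ m) ∘
      (Function.Periodic.qParam (h : ℝ))) {z | 0 < z.im} := by
    refine h1.comp Function.Periodic.differentiable_qParam.differentiableOn ?_
    intro z hz
    rw [mem_ball_zero_iff]
    exact Function.Periodic.norm_qParam_lt_one hh' hz
  refine h2.congr (fun z hz => ?_)
  have := ExB_eq hf (UpperHalfPlane.ofComplex z)
  rw [Function.comp_apply, this, UpperHalfPlane.ofComplex_apply_of_im_pos hz]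
  rfl

lemma Ex.bdd {h : ℕ} (hh : 0 < h) {f : ℍ → ℂ} {a : PowerSeries ℂ} (hf : Ex h f a) :
    UpperHalfPlane.IsBoundedAtImInfty f := by
  have hh' : (0 : ℝ) < h := by exact_mod_cast hh
  exact UpperHalfPlane.isBoundedAtImInfty_of_hasSum_qExpansion hh' hf

lemma Ex.tendsto {h : ℕ} (hh : 0 < h) {f : ℍ → ℂ} {a : PowerSeries ℂ} (hf : Ex h f a) :
    Filter.Tendsto f UpperHalfPlane.atImInfty (nhds (PowerSeries.constantCoeff a)) := by
  have hh' : (0 : ℝ) < h := by exact_mod_cast hh
  have h1 := (ExB_series hh hf).hasFPowerSeriesAt.continuousAt.tendsto.comp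
    (UpperHalfPlane.qParam_tendsto_atImInfty hh')
  have h0 : (∑' m : ℕ, (PowerSeries.coeff m a) • (0 : ℂ) ^ m) =
      PowerSeries.constantCoeff a := by
    rw [tsum_eq_single 0 (fun m hm => by simp [hm])]
    simp
  change Filter.Tendsto _ _ (nhds (∑' m : ℕ, (PowerSeries.coeff m a) • (0 : ℂ) ^ m)) at h1
  rw [h0] at h1
  refine h1.congr (fun τ => ?_)
  exact (ExB_eq hf τ).symm

lemma Ex.T1 {f : ℍ → ℂ} {a : PowerSeries ℂ} (hf : Ex 1 f a) (τ : ℍ) :
    f (T1 τ) = f τ := by
  have h1 := ExB_eq hf (Pool.Agent.Lib.SCG.T1 τ)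
  have h2 := ExB_eq hf τ
  have h3 : Function.Periodic.qParam ((1 : ℕ) : ℝ) ((Pool.Agent.Lib.SCG.T1 τ : ℍ) : ℂ) =
      Function.Periodic.qParam ((1 : ℕ) : ℝ) (τ : ℂ) := by
    unfold Function.Periodic.qParam Pool.Agent.Lib.SCG.T1
    rw [coe_mob, Complex.exp_eq_exp_iff_exists_int]
    refine ⟨1, ?_⟩
    push_cast
    ring
  rw [h1, h2, h3]

lemma ex_of_mdiff {f : ℍ → ℂ} (hf : MDiff f) (hp : ∀ τ, f (T1 τ) = f τ)
    (hb : UpperHalfPlane.IsBoundedAtImInfty f) : ∃ a, Ex 1 f a := by
  refine ⟨UpperHalfPlane.qExpansion 1 f, fun τ => ?_⟩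
  have hper : Function.Periodic (f ∘ UpperHalfPlane.ofComplex) (1 : ℝ) := by
    intro w
    by_cases! hw : 0 < w.im
    · have hw2 : 0 < (w + (1 : ℝ)).im := by simp [hw]
      simp only [Function.comp_apply, UpperHalfPlane.ofComplex_apply_of_im_pos hw2,
        UpperHalfPlane.ofComplex_apply_of_im_pos hw]
      rw [← hp ⟨w, hw⟩]
      congr 1
      ext
      rw [T1, coe_mob]
      simp
    · have hw2 : (w + (1 : ℝ)).im ≤ 0 := by simpa using hw
      simp only [Function.comp_apply, UpperHalfPlane.ofComplex_apply_of_im_nonpos hw2,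
        UpperHalfPlane.ofComplex_apply_of_im_nonpos hw]
  have := UpperHalfPlane.hasSum_qExpansion one_pos hper hf hb τ
  rw [Nat.cast_one]
  exact this

end Pool.Agent.Lib.SCG
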