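import Pool.Agent.Lib.SCG.ExB

/-!
ExC: substitutions in expansions, and expansions of polynomials.
PLAN. `qParam h τ = exp(2πiτ/h)`. `Ex.tm`: `qParam 1 (kτ) = (qParam 1 τ)^k`, the coefficients of
`PowerSeries.expand k _ a` are `a_n` at `kn` and 0 elsewhere; use
`Function.Injective.hasSum_iff` for `n ↦ k n`. `Ex.lift`: `qParam 1 τ = (qParam l τ)^l`.
`Ex.shift`: `qParam 1 ((τ+j)/l) = zt l ^ j * qParam l τ`, `PowerSeries.coeff_rescale`.
`Ex.descend`: converse of `Ex.lift`. `ExP.*`: coefficientwise (`Polynomial.coeff_mul`, finite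
sums of products via `Ex.mul`, `Ex.sum`).
-/

namespace Pool.Agent.Lib.SCG

open UpperHalfPlane

private lemma ExC_expand (a : PowerSeries ℂ) (k : ℕ) (hk : k ≠ 0) (q s : ℂ) :
    HasSum (fun m : ℕ => (PowerSeries.coeff m (PowerSeries.expand k hk a)) • q ^ m) s ↔
      HasSum (fun m : ℕ => (PowerSeries.coeff m a) • (q ^ k) ^ m) s := by
  have hinj : Function.Injective (fun n : ℕ => k * n) := fun x y hxy => by
    simpa [hk] using hxy
  rw [← hinj.hasSum_iff]
  · have : ((fun m : ℕ => (PowerSeries.coeff m (PowerSeries.expand k hk a)) • q ^ m) ∘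
        fun n : ℕ => k * n) = fun m : ℕ => (PowerSeries.coeff m a) • (q ^ k) ^ m := by
      funext n
      simp only [Function.comp_apply]
      rw [PowerSeries.coeff_expand_mul, pow_mul]
    rw [this]
  · intro m hm
    have : ¬ k ∣ m := by
      rintro ⟨n, rfl⟩
      exact hm ⟨n, rfl⟩
    rw [PowerSeries.coeff_expand_of_not_dvd _ _ _ this]
    simp

private lemma ExC_qpow (l : ℕ) (hl : l ≠ 0) (z : ℂ) :
    Function.Periodic.qParam (l : ℝ) z ^ l = Function.Periodic.qParam ((1 : ℕ) : ℝ) z := by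
  unfold Function.Periodic.qParam
  rw [← Complex.exp_nat_mul]
  congr 1
  have : (l : ℂ) ≠ 0 := by exact_mod_cast hl
  push_cast
  field_simp

lemma Ex.tm {f : ℍ → ℂ} {a : PowerSeries ℂ} (hf : Ex 1 f a) (k : ℕ) (hk : 0 < k) :
    Ex 1 (fun τ => f (tm k hk τ)) (PowerSeries.expand k hk.ne' a) := by
  intro τ
  rw [ExC_expand]
  have h1 := hf (Pool.Agent.Lib.SCG.tm k hk τ)
  have h2 : Function.Periodic.qParam ((1 : ℕ) : ℝ) ((Pool.Agent.Lib.SCG.tm k hk τ : ℍ) : ℂ) =
      Function.Periodic.qParam ((1 : ℕ) : ℝ) (τ : ℂ) ^ k := by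
    unfold Function.Periodic.qParam Pool.Agent.Lib.SCG.tm
    rw [coe_mob, ← Complex.exp_nat_mul]
    congr 1
    push_cast
    ring
  rw [h2] at h1
  exact h1

lemma Ex.lift {f : ℍ → ℂ} {a : PowerSeries ℂ} (hf : Ex 1 f a) (l : ℕ) (hl : l ≠ 0) :
    Ex l f (PowerSeries.expand l hl a) := by
  intro τ
  rw [ExC_expand, ExC_qpow l hl]
  exact hf τ

lemma Ex.shift {f : ℍ → ℂ} {a : PowerSeries ℂ} (hf : Ex 1 f a) (l j : ℕ)
    (hl : 0 < (1 : ℤ) * l - j * 0) :
    Ex l (fun τ => f (mob 1 j 0 l hl τ)) (PowerSeries.rescale (zt l ^ j) a) := by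
  intro τ
  have hl0 : (l : ℂ) ≠ 0 := by
    have : (0 : ℤ) < l := by simpa using hl
    have h2 : l ≠ 0 := by omega
    exact_mod_cast h2
  have h1 := hf (mob 1 j 0 l hl τ)
  have h2 : Function.Periodic.qParam ((1 : ℕ) : ℝ) ((mob 1 j 0 l hl τ : ℍ) : ℂ) =
      zt l ^ j * Function.Periodic.qParam (l : ℝ) (τ : ℂ) := by
    unfold Function.Periodic.qParam zt
    rw [coe_mob, ← Complex.exp_nat_mul, ← Complex.exp_add]
    congr 1
    push_cast
    rw [zero_mul, zero_add]
    field_simp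
    ring
  rw [h2] at h1
  convert h1 using 2 with m
  rw [PowerSeries.coeff_rescale, mul_pow]
  simp only [smul_eq_mul]
  ring

lemma Ex.descend {f : ℍ → ℂ} {a : PowerSeries ℂ} (l : ℕ) (hl : l ≠ 0)
    (hf : Ex l f (PowerSeries.expand l hl a)) : Ex 1 f a := by
  intro τ
  have := hf τ
  rw [ExC_expand, ExC_qpow l hl] at this
  exact this

private lemma ExC_zero (h : ℕ) : Ex h (fun _ => 0) 0 := by
  have := Ex.const h 0
  simpa using this

lemma ExP.C {h : ℕ} {f : ℍ → ℂ} {a : PowerSeries ℂ} (hf : Ex h f a) :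
    ExP h (fun τ => Polynomial.C (f τ)) (Polynomial.C a) := by
  intro n
  simp only [Polynomial.coeff_C]
  split_ifs
  · exact hf
  · exact ExC_zero h

lemma ExP.X (h : ℕ) : ExP h (fun _ => Polynomial.X) Polynomial.X := by
  intro n
  simp only [Polynomial.coeff_X]
  split_ifs
  · have := Ex.const h 1
    simpa using this
  · exact ExC_zero h

lemma ExP.sub {h : ℕ} {P Q : ℍ → Polynomial ℂ} {A B : Polynomial (PowerSeries ℂ)}
    (hP : ExP h P A) (hQ : ExP h Q B) : ExP h (fun τ => P τ - Q τ) (A - B) := by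
  intro n
  simp only [Polynomial.coeff_sub]
  exact (hP n).sub (hQ n)

lemma ExP.mul {h : ℕ} {P Q : ℍ → Polynomial ℂ} {A B : Polynomial (PowerSeries ℂ)}
    (hP : ExP h P A) (hQ : ExP h Q B) : ExP h (fun τ => P τ * Q τ) (A * B) := by
  intro n
  simp only [Polynomial.coeff_mul]
  exact Ex.sum _ (fun i _ => (hP i.1).mul (hQ i.2))

lemma ExP.sum {h : ℕ} {ι : Type*} (s : Finset ι) {P : ι → ℍ → Polynomial ℂ}
    {A : ι → Polynomial (PowerSeries ℂ)} (hP : ∀ i ∈ s, ExP h (P i) (A i)) :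
    ExP h (fun τ => ∑ i ∈ s, P i τ) (∑ i ∈ s, A i) := by
  intro n
  simp only [Polynomial.finsetSum_coeff]
  exact Ex.sum _ (fun i hi => hP i hi n)

lemma ExP.prod {h : ℕ} {ι : Type*} (s : Finset ι) {P : ι → ℍ → Polynomial ℂ}
    {A : ι → Polynomial (PowerSeries ℂ)} (hP : ∀ i ∈ s, ExP h (P i) (A i)) :
    ExP h (fun τ => ∏ i ∈ s, P i τ) (∏ i ∈ s, A i) := by
  classical
  induction s using Finset.induction_on with
  | empty =>
    have := ExP.C (Ex.const h 1)
    simpa using this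
  | insert i s hi ih =>
    have h1 := (hP i (Finset.mem_insert_self i s)).mul
      (ih (fun j hj => hP j (Finset.mem_insert_of_mem hj)))
    simpa only [Finset.prod_insert hi] using h1

end Pool.Agent.Lib.SCG
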