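import Pool.Agent.Lib.SCG.ExC

/-!
FamA: expansions of the Hecke family.
PLAN. `none`: `Ex.tm`, `Ex.lift` (`F(lτ)` has the period-1 expansion `expand l Fs` and so the
period-`l` expansion `exC l (expand l Fs)`), times the constant. `some j`: `Ex.shift`;
`rsc l j Fs = rescale (zt l ^ j) (toC Fs)`.
-/

namespace Pool.Agent.Lib.SCG

open UpperHalfPlane

lemma fam_none_ex (l : ℕ) [NeZero l] (w : ℕ) {F : ℍ → ℂ} {Fs : PowerSeries ℤ}
    (hF : Ex 1 F (toC Fs)) :
    Ex l (fam l w F none) (exC l (PowerSeries.C ((chi l) ^ w * (l : ℤ) ^ w)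
      * PowerSeries.expand l (NeZero.ne l) Fs)) := by
  have h1 := (hF.tm l (NeZero.pos l)).lift l (NeZero.ne l)
  have h2 := h1.smul (((chi l : ℤ) : ℂ) ^ w * (l : ℂ) ^ w)
  have e : exC l (PowerSeries.C ((chi l) ^ w * (l : ℤ) ^ w)
      * PowerSeries.expand l (NeZero.ne l) Fs) =
      PowerSeries.C (((chi l : ℤ) : ℂ) ^ w * (l : ℂ) ^ w) *
      PowerSeries.expand l (NeZero.ne l) (PowerSeries.expand l (NeZero.pos l).ne' (toC Fs)) := by
    unfold exC toC
    simp only [RingHom.coe_comp, RingHom.coe_coe, Function.comp_apply, map_mul,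
      PowerSeries.map_expand, PowerSeries.map_C, PowerSeries.expand_C]
    simp
  rw [e]
  exact h2

lemma fam_some_ex (l : ℕ) [NeZero l] (w : ℕ) {F : ℍ → ℂ} {Fs : PowerSeries ℤ}
    (hF : Ex 1 F (toC Fs)) (j : ZMod l) :
    Ex l (fam l w F (some j)) (rsc l j.val Fs) :=
  hF.shift l j.val (by simpa using NeZero.pos l)

end Pool.Agent.Lib.SCG
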