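import Pool.Agent.Lib.SCG.Act

/-!
FamB: the Fricke involution acts on the Hecke family.
PLAN. (`l` prime, `l ≠ 3`.) `swC`: `none ↔ some 0`, `some j ↦ some (-(3j)⁻¹)` for `j ≠ 0`
(an involution: `-(3·(-(3j)⁻¹))⁻¹ = j`). `fam_W`: `none`: `l·W τ = W(τ/l)`, `jW(τ/l) = jW τ/l`.
`some 0`: `W τ/l = W(lτ)`, `jW(lτ) = l jW τ`, `χ(l)² = 1`. `some j`, `j ≠ 0`: let
`j' = (-(3j)⁻¹).val`, `j = j.val`; `3 j j' ≡ -1 mod l`, so `l n - 3 j j' = 1` for an integer `n`;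
with `σ = (τ+j')/l` and `γ = (l, -j'; -3j, n)`: `(Wτ + j)/l = W(γ σ)` (both are
`(3jτ-1)/(3lτ)`), so `F((Wτ+j)/l) = ε jW(γσ)^w χ(n)^w (-3jσ+n)^w F(σ)` by `Aut.fr`, `Aut.act`;
`-3jσ + n = (1 - 3jτ)/l`, `γσ = lτ/(1-3jτ)`, product `(-i√3 τ)^w`, and `χ(n) = χ(l)` as
`l n ≡ 1 mod 3`.
-/

namespace Pool.Agent.Lib.SCG

open UpperHalfPlane

private lemma fb_chi_sq (l : ℕ) [Fact l.Prime] (h3 : l ≠ 3) : ((chi l : ℤ) : ℂ) ^ 2 = 1 := by
  have hlp : l.Prime := Fact.out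
  have h : (l : ℤ) % 3 ≠ 0 := by
    intro h0
    have h1 : (3 : ℤ) ∣ l := Int.dvd_of_emod_eq_zero h0
    have h2 : 3 ∣ l := by exact_mod_cast h1
    exact h3 ((Nat.prime_dvd_prime_iff_eq Nat.prime_three hlp).1 h2).symm
  rw [chi_mod, if_neg h]
  split_ifs <;> norm_num

private lemma fb_three (l : ℕ) [Fact l.Prime] (h3 : l ≠ 3) : (3 : ZMod l) ≠ 0 := by
  have hlp : l.Prime := Fact.out
  intro h
  have h1 : ((3 : ℕ) : ZMod l) = 0 := by exact_mod_cast h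
  rw [ZMod.natCast_eq_zero_iff] at h1
  exact h3 ((Nat.prime_dvd_prime_iff_eq hlp Nat.prime_three).1 h1)

private def fbSw (l : ℕ) [Fact l.Prime] : Option (ZMod l) → Option (ZMod l)
  | none => some 0
  | some j => if j = 0 then none else some (-(3 * j)⁻¹)

private lemma fbSw_invol (l : ℕ) [Fact l.Prime] (h3 : l ≠ 3) : Function.Involutive (fbSw l) := by
  have h30 := fb_three l h3
  intro C
  cases C with
  | none => simp [fbSw]
  | some j =>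
    by_cases hj : j = 0
    · simp [fbSw, hj]
    · have h1 : (-(3 * j)⁻¹ : ZMod l) ≠ 0 := by
        rw [neg_ne_zero]
        exact inv_ne_zero (mul_ne_zero h30 hj)
      simp only [fbSw, if_neg hj, if_neg h1]
      congr 1
      field_simp

private lemma fb_jW (τ : ℍ) (z : ℍ) (c : ℂ) (h : (z : ℂ) = c * τ) : jW z = c * jW τ := by
  unfold jW
  rw [h]
  ring

private lemma fb_W (τ : ℍ) : ((W τ : ℍ) : ℂ) = -1 / (3 * τ) := by
  unfold W
  rw [coe_mob]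
  push_cast
  ring

private lemma fb_none (l : ℕ) [Fact l.Prime] [NeZero l] (w : ℕ) (ε : ℂ)
    (F : ℍ → ℂ) (hF : Aut w ε F) (τ : ℍ) :
    fam l w F none (W τ) = ε * ((chi l : ℤ) : ℂ) ^ w * jW τ ^ w * fam l w F (some 0) τ := by
  have hlp : l.Prime := Fact.out
  have hl0 : (l : ℂ) ≠ 0 := by exact_mod_cast hlp.ne_zero
  have hτ : (τ : ℂ) ≠ 0 := UpperHalfPlane.ne_zero τ
  set σ : ℍ := mob 1 ((0 : ZMod l).val : ℤ) 0 l (by simpa using NeZero.pos l) τ with hσ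
  have hσc : (σ : ℂ) = (1 / (l : ℂ)) * τ := by
    rw [hσ, coe_mob]
    simp
    ring
  have h1 : tm l (NeZero.pos l) (W τ) = W σ := by
    apply UpperHalfPlane.ext
    rw [fb_W, hσc]
    unfold tm
    rw [coe_mob, fb_W]
    push_cast
    field_simp
    try ring
  have h2 := hF.fr σ
  rw [fb_jW τ σ _ hσc, zpow_natCast] at h2
  show ((chi l : ℤ) : ℂ) ^ w * (l : ℂ) ^ w * F (tm l (NeZero.pos l) (W τ)) =
    ε * ((chi l : ℤ) : ℂ) ^ w * jW τ ^ w * F σ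
  rw [h1, h2, mul_pow, div_pow, one_pow]
  field_simp

private lemma fb_zero (l : ℕ) [Fact l.Prime] [NeZero l] (h3 : l ≠ 3) (w : ℕ) (ε : ℂ)
    (F : ℍ → ℂ) (hF : Aut w ε F) (τ : ℍ) :
    fam l w F (some 0) (W τ) = ε * ((chi l : ℤ) : ℂ) ^ w * jW τ ^ w * fam l w F none τ := by
  have hlp : l.Prime := Fact.out
  have hl0 : (l : ℂ) ≠ 0 := by exact_mod_cast hlp.ne_zero
  have hτ : (τ : ℂ) ≠ 0 := UpperHalfPlane.ne_zero τ
  have hσc : ((tm l (NeZero.pos l) τ : ℍ) : ℂ) = (l : ℂ) * τ := by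
    unfold tm
    rw [coe_mob]
    simp
  have h1 : mob 1 ((0 : ZMod l).val : ℤ) 0 l (by simpa using NeZero.pos l) (W τ) =
      W (tm l (NeZero.pos l) τ) := by
    apply UpperHalfPlane.ext
    rw [fb_W, hσc, coe_mob, fb_W]
    simp
    field_simp
  have h2 := hF.fr (tm l (NeZero.pos l) τ)
  rw [fb_jW τ _ _ hσc, zpow_natCast] at h2
  show F (mob 1 ((0 : ZMod l).val : ℤ) 0 l (by simpa using NeZero.pos l) (W τ)) =
    ε * ((chi l : ℤ) : ℂ) ^ w * jW τ ^ w *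
      (((chi l : ℤ) : ℂ) ^ w * (l : ℂ) ^ w * F (tm l (NeZero.pos l) τ))
  rw [h1, h2, mul_pow]
  have h4 : ((chi l : ℤ) : ℂ) ^ w * ((chi l : ℤ) : ℂ) ^ w = 1 := by
    rw [← mul_pow, ← pow_two, fb_chi_sq l h3, one_pow]
  calc ε * ((l : ℂ) ^ w * jW τ ^ w) * F (tm l (NeZero.pos l) τ) =
      (((chi l : ℤ) : ℂ) ^ w * ((chi l : ℤ) : ℂ) ^ w) *
        (ε * ((l : ℂ) ^ w * jW τ ^ w) * F (tm l (NeZero.pos l) τ)) := by rw [h4, one_mul]
    _ = _ := by ring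

private lemma fb_cx (x J l : ℂ) (hx : x ≠ 0) (hl : l ≠ 0) (h : 1 - 3 * J * x ≠ 0) :
    (-1 / (3 * x) + J) / l = -1 / (3 * (l / (1 - 3 * J * x) * x)) := by
  have e1 : (3 : ℂ) * (l / (1 - 3 * J * x) * x) = (3 * l * x) / (1 - 3 * J * x) := by
    field_simp
  rw [e1, div_div_eq_mul_div]
  field_simp
  ring

private lemma fb_some (l : ℕ) [Fact l.Prime] [NeZero l] (h3 : l ≠ 3) (w : ℕ) (ε : ℂ)
    (hε : ε = 1 ∨ ε = -1)
    (F : ℍ → ℂ) (hF : Aut w ε F) (j : ZMod l) (hj : j ≠ 0) (τ : ℍ) :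
    fam l w F (some j) (W τ) = ε * ((chi l : ℤ) : ℂ) ^ w * jW τ ^ w *
      fam l w F (some (-(3 * j)⁻¹)) τ := by
  have hlp : l.Prime := Fact.out
  have hl0 : (l : ℂ) ≠ 0 := by exact_mod_cast hlp.ne_zero
  have hτ : (τ : ℂ) ≠ 0 := UpperHalfPlane.ne_zero τ
  have h30 := fb_three l h3
  set j' : ZMod l := -(3 * j)⁻¹ with hj'
  have hjj : (3 : ZMod l) * j * j' + 1 = 0 := by
    rw [hj']
    field_simp
    ring
  have hdvd : (l : ℤ) ∣ 3 * (j.val : ℤ) * (j'.val : ℤ) + 1 := by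
    rw [← ZMod.intCast_zmod_eq_zero_iff_dvd]
    push_cast
    rw [ZMod.natCast_zmod_val, ZMod.natCast_zmod_val]
    exact hjj
  obtain ⟨n, hn⟩ := hdvd
  have hnC : (3 : ℂ) * (j.val : ℂ) * (j'.val : ℂ) + 1 = l * n := by exact_mod_cast hn
  set σ : ℍ := mob 1 (j'.val : ℤ) 0 l (by simpa using NeZero.pos l) τ with hσ
  have hσc : (σ : ℂ) = ((τ : ℂ) + (j'.val : ℂ)) / l := by
    rw [hσ, coe_mob]
    push_cast
    ring
  have hdet : (l : ℤ) * n - (-(j'.val : ℤ)) * (-3 * (j.val : ℤ)) = 1 := by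
    linear_combination -hn
  have hpos : 0 < (l : ℤ) * n - (-(j'.val : ℤ)) * (-3 * (j.val : ℤ)) := by rw [hdet]; norm_num
  have hc3 : (3 : ℤ) ∣ -3 * (j.val : ℤ) := ⟨-(j.val : ℤ), by ring⟩
  have hact := Aut.act hε hF l (-(j'.val : ℤ)) (-3 * (j.val : ℤ)) n hdet hc3 hpos σ
  have hne := denom_ne l (-(j'.val : ℤ)) (-3 * (j.val : ℤ)) n hpos σ
  have hden : (((-3 * (j.val : ℤ) : ℤ) : ℂ) * σ + n) = (1 - 3 * (j.val : ℂ) * τ) / l := by
    rw [hσc]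
    push_cast
    rw [eq_div_iff hl0]
    field_simp
    linear_combination -hnC
  have hne' : (1 - 3 * (j.val : ℂ) * τ) ≠ 0 := by
    intro h0
    rw [hden, h0, zero_div] at hne
    exact hne rfl
  set γσ : ℍ := mob l (-(j'.val : ℤ)) (-3 * (j.val : ℤ)) n hpos σ with hγ
  have hγc : (γσ : ℂ) = (l / (1 - 3 * (j.val : ℂ) * τ)) * τ := by
    rw [hγ, coe_mob, hden, hσc]
    push_cast
    field_simp
    ring
  have h1 : mob 1 (j.val : ℤ) 0 l (by simpa using NeZero.pos l) (W τ) = W γσ := by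
    apply UpperHalfPlane.ext
    rw [fb_W, hγc, coe_mob, fb_W]
    push_cast
    rw [one_mul, zero_mul, zero_add]
    exact fb_cx _ _ _ hτ hl0 hne'
  have h2 := hF.fr γσ
  rw [fb_jW τ _ _ hγc, zpow_natCast, hact, hden, zpow_natCast, zpow_natCast] at h2
  show F (mob 1 (j.val : ℤ) 0 l (by simpa using NeZero.pos l) (W τ)) =
    ε * ((chi l : ℤ) : ℂ) ^ w * jW τ ^ w * F σ
  rw [h1, h2]
  have hchi : ((chi n : ℤ) : ℂ) = ((chi l : ℤ) : ℂ) := by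
    have h5 : chi l * chi n = 1 := by
      rw [← chi_mul, chi_mod]
      have h6 : ((l : ℤ) * n) % 3 = 1 := by
        rw [← hn]
        have : 3 * (j.val : ℤ) * (j'.val : ℤ) + 1 = 1 + 3 * ((j.val : ℤ) * (j'.val : ℤ)) := by ring
        rw [this]
        omega
      rw [h6]
      norm_num
    have h5' : ((chi l : ℤ) : ℂ) * ((chi n : ℤ) : ℂ) = 1 := by exact_mod_cast h5
    have h7 := fb_chi_sq l h3
    calc ((chi n : ℤ) : ℂ) = ((chi l : ℤ) : ℂ) ^ 2 * ((chi n : ℤ) : ℂ) := by rw [h7, one_mul]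
      _ = ((chi l : ℤ) : ℂ) * (((chi l : ℤ) : ℂ) * ((chi n : ℤ) : ℂ)) := by ring
      _ = _ := by rw [h5', mul_one]
  rw [hchi, mul_pow, div_pow, div_pow]
  field_simp

theorem fam_W (l : ℕ) [Fact l.Prime] [NeZero l] (h3 : l ≠ 3) :
    ∃ σ : Equiv.Perm (Option (ZMod l)), ∀ (w : ℕ) (ε : ℂ), (ε = 1 ∨ ε = -1) →
      ∀ F : ℍ → ℂ, Aut w ε F → ∀ (C : Option (ZMod l)) (τ : ℍ),
        fam l w F C (W τ) = ε * ((chi l : ℤ) : ℂ) ^ w * jW τ ^ w * fam l w F (σ C) τ := by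
  refine ⟨(fbSw_invol l h3).toPerm, ?_⟩
  intro w ε hε F hF C τ
  show fam l w F C (W τ) = ε * ((chi l : ℤ) : ℂ) ^ w * jW τ ^ w * fam l w F (fbSw l C) τ
  cases C with
  | none => exact fb_none l w ε F hF τ
  | some j =>
    by_cases hj : j = 0
    · subst hj
      simp only [fbSw, if_true]
      exact fb_zero l h3 w ε F hF τ
    · simp only [fbSw, if_neg hj]
      exact fb_some l h3 w ε hε F hF j hj τ

end Pool.Agent.Lib.SCG
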