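import Pool.Agent.Lib.SCG.Act

/-!
FamC: integral matrices of determinant `l` and the Hecke family.
PLAN. `fam_mat`: `m = (a b; c d)`, `det = l`, `3 ∣ c`. If `l ∣ a` and `l ∣ c`: `m = γ (l 0; 0 1)`,
`γ = (a/l, b; c/l, d)`, `C = none`. Otherwise there is `j ∈ {0..l-1}` with `a j ≡ b`,
`c j ≡ d mod l` (`(a,c) ≢ 0` and `ad - bc ≡ 0`), `m = γ (1 j; 0 l)`,
`γ = (a, (b-aj)/l; c, (d-cj)/l)`, `C = some j`. Then `Aut.act` for `γ` (`3 ∣ c/l` as `l ≠ 3`):
case `some j`: `σ = (τ+j)/l`, `cτ + d = l (c σ + d_γ)`, `χ(d_γ) = χ(a)` (`a d_γ ≡ 1 mod 3`);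
case `none`: `χ(d) = χ(a/l)`, `χ(a) = χ(a/l) χ(l)`, `χ(..)^2 = 1`.
`C` depends only on the matrix, not on `F`.
-/

namespace Pool.Agent.Lib.SCG

open UpperHalfPlane

private lemma chi_one_of (x y : ℤ) (h : x * y % 3 = 1) : (((chi x : ℤ) : ℂ)) * ((chi y : ℤ) : ℂ) = 1 := by
  have h1 : chi x * chi y = 1 := by
    rw [← chi_mul, chi_mod, h]
    norm_num
  exact_mod_cast h1

private lemma det_mod (a b c d : ℤ) (hdet : a * d - b * c = 1) (hc : 3 ∣ c) : a * d % 3 = 1 := by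
  obtain ⟨e, rfl⟩ := hc
  have : a * d = 1 + 3 * (b * e) := by linarith
  rw [this]
  omega

private lemma fam_none (l : ℕ) [Fact l.Prime] [NeZero l] (h3 : l ≠ 3) (a b c d : ℤ)
    (hdet : a * d - b * c = l) (hc : 3 ∣ c) (h : 0 < a * d - b * c)
    (ha : (l : ℤ) ∣ a) (hcl : (l : ℤ) ∣ c) (w : ℕ) (ε : ℂ) (hε : ε = 1 ∨ ε = -1)
    (F : ℍ → ℂ) (hF : Aut w ε F) (τ : ℍ) :
    fam l w F none τ = ((chi a : ℤ) : ℂ) ^ w * (l : ℂ) ^ w * (((c : ℂ) * τ + d) ^ w)⁻¹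
          * F (mob a b c d h τ) := by
  have hlp : l.Prime := Fact.out
  have hl0 : (l : ℤ) ≠ 0 := by exact_mod_cast hlp.ne_zero
  obtain ⟨a', rfl⟩ := ha
  obtain ⟨c', rfl⟩ := hcl
  have hdet' : a' * d - b * c' = 1 := by
    have : (l : ℤ) * (a' * d - b * c') = l * 1 := by linarith
    exact mul_left_cancel₀ hl0 this
  have hc' : 3 ∣ c' := by
    have hcop : IsCoprime (3 : ℤ) (l : ℤ) := by
      have : Nat.Coprime 3 l := (Nat.coprime_primes Nat.prime_three hlp).2 (fun h => h3 h.symm)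
      exact_mod_cast Nat.isCoprime_iff_coprime.2 this
    exact hcop.dvd_of_dvd_mul_left hc
  have hpos' : 0 < a' * d - b * c' := by rw [hdet']; norm_num
  have hmob : mob (l * a') b (l * c') d h τ = mob a' b c' d hpos' (tm l (NeZero.pos l) τ) := by
    apply UpperHalfPlane.ext
    unfold tm
    rw [coe_mob, coe_mob, coe_mob]
    push_cast
    congr 1
    · ring
    · ring
  rw [hmob, Aut.act hε hF a' b c' d hdet' hc' hpos']
  have hden : ((c' : ℂ) * (tm l (NeZero.pos l) τ : ℍ) + d) = (((l * c' : ℤ) : ℂ) * τ + d) := by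
    unfold tm
    rw [coe_mob]
    push_cast
    ring
  rw [hden]
  have hne := denom_ne (l * a') b (l * c') d h τ
  rw [zpow_natCast, zpow_natCast]
  show ((chi l : ℤ) : ℂ) ^ w * (l : ℂ) ^ w * F (tm l (NeZero.pos l) τ) = _
  have h1 : ((chi (l * a') : ℤ) : ℂ) * ((chi d : ℤ) : ℂ) = ((chi l : ℤ) : ℂ) := by
    rw [chi_mul]
    push_cast
    rw [mul_assoc, chi_one_of _ _ (det_mod a' b c' d hdet' hc'), mul_one]
  rw [← h1, mul_pow]
  field_simp

private lemma fam_some (l : ℕ) [Fact l.Prime] [NeZero l] (a b c d : ℤ)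
    (hdet : a * d - b * c = l) (hc : 3 ∣ c) (h : 0 < a * d - b * c) (j : ZMod l)
    (h1 : (l : ℤ) ∣ b - a * (j.val : ℤ)) (h2 : (l : ℤ) ∣ d - c * (j.val : ℤ))
    (w : ℕ) (ε : ℂ) (hε : ε = 1 ∨ ε = -1)
    (F : ℍ → ℂ) (hF : Aut w ε F) (τ : ℍ) :
    fam l w F (some j) τ = ((chi a : ℤ) : ℂ) ^ w * (l : ℂ) ^ w * (((c : ℂ) * τ + d) ^ w)⁻¹
          * F (mob a b c d h τ) := by
  have hlp : l.Prime := Fact.out
  have hl0 : (l : ℤ) ≠ 0 := by exact_mod_cast hlp.ne_zero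
  have hl0' : (l : ℂ) ≠ 0 := by exact_mod_cast hlp.ne_zero
  obtain ⟨B, hB⟩ := h1
  obtain ⟨D, hD⟩ := h2
  have hb : b = a * (j.val : ℤ) + l * B := by linarith
  have hd : d = c * (j.val : ℤ) + l * D := by linarith
  have hdet' : a * D - B * c = 1 := by
    have : (l : ℤ) * (a * D - B * c) = l * 1 := by
      linear_combination hdet - a * hD + c * hB
    exact mul_left_cancel₀ hl0 this
  have hpos' : 0 < a * D - B * c := by rw [hdet']; norm_num
  set σ : ℍ := mob 1 (j.val : ℤ) 0 l (by simpa using NeZero.pos l) τ with hσ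
  have hσc : (σ : ℂ) = ((τ : ℂ) + (j.val : ℂ)) / l := by
    rw [hσ, coe_mob]
    push_cast
    ring
  have hden : ((c : ℂ) * σ + D) = ((c : ℂ) * τ + d) / l := by
    rw [hσc, hd]
    push_cast
    field_simp
    ring
  have hnum : ((a : ℂ) * σ + B) = ((a : ℂ) * τ + b) / l := by
    rw [hσc, hb]
    push_cast
    field_simp
    ring
  have hne := denom_ne a b c d h τ
  have hmob : mob a b c d h τ = mob a B c D hpos' σ := by
    apply UpperHalfPlane.ext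
    rw [coe_mob, coe_mob, hden, hnum]
    field_simp
  rw [hmob, Aut.act hε hF a B c D hdet' hc hpos', hden]
  rw [zpow_natCast, zpow_natCast]
  show F σ = _
  have h3 := chi_one_of _ _ (det_mod a B c D hdet' hc)
  have h4 : ((chi a : ℤ) : ℂ) ^ w * ((chi D : ℤ) : ℂ) ^ w = 1 := by
    rw [← mul_pow, h3, one_pow]
  rw [div_pow]
  have h5 : ((c : ℂ) * τ + d) ^ w ≠ 0 := pow_ne_zero _ hne
  have h6 : (l : ℂ) ^ w ≠ 0 := pow_ne_zero _ hl0'
  calc F σ = (((chi a : ℤ) : ℂ) ^ w * ((chi D : ℤ) : ℂ) ^ w) * F σ := by rw [h4, one_mul]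
    _ = _ := by field_simp

private lemma ex_j (l : ℕ) [Fact l.Prime] [NeZero l] (a b c d : ℤ)
    (hdet : a * d - b * c = l) (hn : ¬ ((l : ℤ) ∣ a ∧ (l : ℤ) ∣ c)) :
    ∃ j : ZMod l, (l : ℤ) ∣ b - a * (j.val : ℤ) ∧ (l : ℤ) ∣ d - c * (j.val : ℤ) := by
  have key : ∀ x : ℤ, (l : ℤ) ∣ x ↔ (x : ZMod l) = 0 := fun x =>
    (ZMod.intCast_zmod_eq_zero_iff_dvd x l).symm
  have hdet' : (a : ZMod l) * d - b * c = 0 := by
    have := congrArg (fun x : ℤ => (x : ZMod l)) hdet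
    simpa using this
  by_cases ha : (l : ℤ) ∣ a
  · have hc : ¬ (l : ℤ) ∣ c := fun h => hn ⟨ha, h⟩
    have ha0 : (a : ZMod l) = 0 := (key a).1 ha
    have hc0 : (c : ZMod l) ≠ 0 := fun h => hc ((key c).2 h)
    have hb0 : (b : ZMod l) = 0 := by
      rw [ha0, zero_mul, zero_sub, neg_eq_zero] at hdet'
      exact (mul_eq_zero.1 hdet').resolve_right hc0
    refine ⟨(d : ZMod l) / c, ?_, ?_⟩
    · rw [key]
      push_cast
      rw [ha0, hb0]
      ring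
    · rw [key]
      push_cast
      rw [ZMod.natCast_zmod_val]
      field_simp
      ring
  · have ha0 : (a : ZMod l) ≠ 0 := fun h => ha ((key a).2 h)
    refine ⟨(b : ZMod l) / a, ?_, ?_⟩
    · rw [key]
      push_cast
      rw [ZMod.natCast_zmod_val]
      field_simp
      ring
    · rw [key]
      push_cast
      rw [ZMod.natCast_zmod_val]
      field_simp
      linear_combination hdet'

theorem fam_mat (l : ℕ) [Fact l.Prime] [NeZero l] (h3 : l ≠ 3) (a b c d : ℤ)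
    (hdet : a * d - b * c = l) (hc : 3 ∣ c) (h : 0 < a * d - b * c) :
    ∃ C : Option (ZMod l), ∀ (w : ℕ) (ε : ℂ), (ε = 1 ∨ ε = -1) →
      ∀ F : ℍ → ℂ, Aut w ε F → ∀ τ : ℍ,
        fam l w F C τ = ((chi a : ℤ) : ℂ) ^ w * (l : ℂ) ^ w * (((c : ℂ) * τ + d) ^ w)⁻¹
          * F (mob a b c d h τ) := by
  by_cases hn : (l : ℤ) ∣ a ∧ (l : ℤ) ∣ c
  · exact ⟨none, fun w ε hε F hF τ => fam_none l h3 a b c d hdet hc h hn.1 hn.2 w ε hε F hF τ⟩
  · obtain ⟨j, h1, h2⟩ := ex_j l a b c d hdet hn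
    exact ⟨some j, fun w ε hε F hF τ => fam_some l a b c d hdet hc h j h1 h2 w ε hε F hF τ⟩

end Pool.Agent.Lib.SCG
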