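import Pool.Agent.Lib.SCG.TauA
import Pool.Agent.Lib.SCG.TauC
import Pool.Agent.Lib.SCG.HG

/-!
Five: `K/G³ = √17/4` and `D/G⁶ = -1/1728` at `τ₀`.
PLAN. `l = 5`, `χ 5 = -1`. `HG 5` gives `P k` (`k ≤ 6`): `DegOK` forces `P 1 = 0`, `P 2, P 3, P 4,
P 5` constant. Their constants: the constant coefficients (`constantCoeff`) of `formal`:
`(AF 5 1 Gs)` maps to `(X + 5)(X - 1)^5` under `constantCoeff` (`PF_const`, `Gs_zero`,
`χ 5 · 5 = -5`), `= X^6 - 15X^4 + 40X^3 - 45X^2 + 24X - 5`. So `P 2 = -15, P 3 = -40, P 4 = -45,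
P 5 = -24` (constantCoeff of `hom k (C c) Gs Ds` is `c`). Hence at `τ₀`, with `g = G, κ = K`:
`Phi 5 τ₀ = X^6 - 15g²X^4 + 40κX^3 - 45g⁴X² + 24κg²X + e6`, `e6` real
(`e6 = hom 6 (P 6) g δ`). By `tau2` (`l = 5`, `x = y = 1`: `20 = 17 + 3`) for `w = 1, ε = 1`, `F = Gf`
it has the root `ν g`, `ν = (√17 - √3 i)/2`, `ν² = √17 ν - 5`. Divide by `g^6`, `s = κ/g³` real:
`ν³ = 12ν - 5√17`, `ν⁴ = 7√17 ν - 60`, `ν⁶ = 24√17 ν - 295`: imaginary part:
`(504 s - 126√17) Im ν = 0`. So `s = √17/4`; `Kf_sq` gives `108 D/G⁶ = 1 - 17/16`.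
-/

namespace Pool.Agent.Lib.SCG

open UpperHalfPlane

private lemma five_hom_C {A : Type*} [CommRing A] (k : ℕ) (a : ℤ) (g δ : A) :
    hom k (Polynomial.C a) g δ = a * g ^ k := by
  have := hom_C_mul k a 1 g δ
  rwa [mul_one, hom_one] at this

private lemma five_hom_one (k : ℕ) (P : Polynomial ℤ) : hom k P (1 : ℤ) 0 = P.coeff 0 := by
  rw [hom, Finset.sum_range_succ']
  simp

private lemma five_sgh_one (ε : ℤ) (k : ℕ) (P : Polynomial ℤ) :
    sgh ε k P (1 : ℤ) 0 1 = P.coeff 0 := by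
  rw [sgh]
  split_ifs
  · exact five_hom_one k P
  · rw [five_hom_one, one_mul]

private lemma five_chi : chi ((5 : ℕ) : ℤ) = -1 := by rw [chi_mod]; norm_num

private lemma five_const (P : ℕ → Polynomial ℤ) (d : Polynomial ℤ) [Fact (Nat.Prime 5)]
    (H : HGdata 5 P d) (k : ℕ) (hk : k ≤ 6) :
    (Polynomial.X ^ 6 - 15 * Polynomial.X ^ 4 + 40 * Polynomial.X ^ 3 - 45 * Polynomial.X ^ 2
      + 24 * Polynomial.X - 5 : Polynomial ℤ).coeff (6 - k) = (-1) ^ k * (P k).coeff 0 := by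
  have h1 := congrArg (PowerSeries.constantCoeff (R := ℤ)) (H.formal k hk)
  rw [map_mul, map_pow, map_neg, map_one, sgh_map, Gs_zero, Ks_zero, Ds_zero, five_sgh_one] at h1
  rw [← h1, ← Polynomial.coeff_map]
  have h2 : (AF 5 1 Gs).map (PowerSeries.constantCoeff (R := ℤ))
      = (Polynomial.X - Polynomial.C (-5)) * (Polynomial.X - 1) ^ 5 := by
    rw [AF, Polynomial.map_mul, Polynomial.map_sub, Polynomial.map_X, Polynomial.map_C, map_mul,
      PowerSeries.constantCoeff_C, PowerSeries.constantCoeff_expand, Gs_zero,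
      PF_const 5 (by norm_num), Gs_zero, five_chi]
    norm_num
  rw [h2]
  congr 1
  rw [Polynomial.C_neg, show (Polynomial.C (5 : ℤ) : Polynomial ℤ) = 5 from rfl]
  ring

private lemma five_deg0 {P : Polynomial ℤ} (h : P.natDegree = 0) (a : ℤ) (ha : P.coeff 0 = a) :
    P = Polynomial.C a := by
  rw [Polynomial.eq_C_of_natDegree_eq_zero h, ha]

private lemma five_P (P : ℕ → Polynomial ℤ) (d : Polynomial ℤ) [Fact (Nat.Prime 5)]
    (H : HGdata 5 P d) : P 1 = 0 ∧ P 2 = Polynomial.C (-15) ∧ P 3 = Polynomial.C (-40) ∧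
      P 4 = Polynomial.C (-45) ∧ P 5 = Polynomial.C (-24) := by
  have hd := H.deg
  have hc := five_const P d H
  refine ⟨?_, ?_, ?_, ?_, ?_⟩
  · have h1 := hd 1 (by norm_num)
    rw [five_chi] at h1
    norm_num [DegOK] at h1
    rcases h1 with h1 | h1
    · exact h1
    · omega
  · have h1 := hd 2 (by norm_num)
    rw [five_chi] at h1
    norm_num [DegOK] at h1
    refine five_deg0 (by omega) _ ?_
    have h2 := hc 2 (by norm_num)
    norm_num [Polynomial.coeff_X, Polynomial.coeff_ofNat_mul, Polynomial.coeff_X_pow,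
      Polynomial.coeff_ofNat_succ] at h2
    linarith
  · have h1 := hd 3 (by norm_num)
    rw [five_chi] at h1
    have h2 := hc 3 (by norm_num)
    norm_num [Polynomial.coeff_X, Polynomial.coeff_ofNat_mul, Polynomial.coeff_X_pow,
      Polynomial.coeff_ofNat_succ] at h2
    norm_num [DegOK] at h1
    rcases h1 with h1 | h1
    · rw [h1] at h2
      norm_num at h2
    · exact five_deg0 (by omega) _ (by linarith)
  · have h1 := hd 4 (by norm_num)
    rw [five_chi] at h1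
    norm_num [DegOK] at h1
    refine five_deg0 (by omega) _ ?_
    have h2 := hc 4 (by norm_num)
    norm_num [Polynomial.coeff_X, Polynomial.coeff_ofNat_mul, Polynomial.coeff_X_pow,
      Polynomial.coeff_ofNat_succ] at h2
    linarith
  · have h1 := hd 5 (by norm_num)
    rw [five_chi] at h1
    have h2 := hc 5 (by norm_num)
    norm_num [Polynomial.coeff_X, Polynomial.coeff_ofNat_mul, Polynomial.coeff_X_pow,
      Polynomial.coeff_ofNat_succ] at h2
    norm_num [DegOK] at h1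
    rcases h1 with h1 | h1
    · rw [h1] at h2
      norm_num at h2
    · exact five_deg0 (by omega) _ (by linarith)

private lemma five_sgh_pos {A : Type*} [CommRing A] (k : ℕ) (a : ℤ) (g δ κ : A) :
    sgh 1 k (Polynomial.C a) g δ κ = a * g ^ k := by
  rw [sgh, if_pos rfl, five_hom_C]

private lemma five_sgh_neg {A : Type*} [CommRing A] (k : ℕ) (a : ℤ) (g δ κ : A) :
    sgh (-1) k (Polynomial.C a) g δ κ = κ * (a * g ^ (k - 3)) := by
  rw [sgh, if_neg (by norm_num), five_hom_C]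

private lemma five_real {z : ℂ} (h : z.im = 0) : ∃ r : ℝ, z = r :=
  ⟨z.re, Complex.ext (by simp) (by simp [h])⟩

theorem Kf_tau0 : Kf tau0 = ((Real.sqrt 17 / 4 : ℝ) : ℂ) * Gf tau0 ^ 3 := by
  have hf5 : Fact (Nat.Prime 5) := ⟨by norm_num⟩
  obtain ⟨P, d, H⟩ := HG 5 (by norm_num) (by norm_num)
  obtain ⟨p1, p2, p3, p4, p5⟩ := five_P P d H
  obtain ⟨g, hg⟩ := five_real Gf_tau0_im
  obtain ⟨κ, hκ⟩ := five_real Kf_tau0_im
  obtain ⟨δ, hδ⟩ := five_real Df_tau0_im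
  have hg0 : g ≠ 0 := by
    intro h
    apply Gf_tau0_ne
    rw [hg, h]; simp
  have c6 : (Phi 5 tau0).coeff 6 = 1 := by
    have h1 := PhiF_monic 5 1 Gf tau0
    have h2 := PhiF_natDegree 5 1 Gf tau0
    rw [Polynomial.Monic, Polynomial.leadingCoeff, h2] at h1
    exact h1
  have c5 : (Phi 5 tau0).coeff 5 = 0 := by
    have h1 := H.coeff 1 (by norm_num) tau0
    rw [five_chi, p1] at h1
    norm_num [sgh, hom] at h1
    exact h1
  have c4 : (Phi 5 tau0).coeff 4 = -15 * (g : ℂ) ^ 2 := by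
    have h1 := H.coeff 2 (by norm_num) tau0
    rw [five_chi, p2, hg, show (-1 : ℤ) ^ 2 = 1 by norm_num, five_sgh_pos] at h1
    norm_num at h1
    rw [h1]; ring
  have c3 : (Phi 5 tau0).coeff 3 = 40 * (κ : ℂ) := by
    have h1 := H.coeff 3 (by norm_num) tau0
    rw [five_chi, p3, hg, hκ, show (-1 : ℤ) ^ 3 = -1 by norm_num, five_sgh_neg] at h1
    norm_num at h1
    rw [h1]; ring
  have c2 : (Phi 5 tau0).coeff 2 = -45 * (g : ℂ) ^ 4 := by
    have h1 := H.coeff 4 (by norm_num) tau0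
    rw [five_chi, p4, hg, show (-1 : ℤ) ^ 4 = 1 by norm_num, five_sgh_pos] at h1
    norm_num at h1
    rw [h1]; ring
  have c1 : (Phi 5 tau0).coeff 1 = 24 * (κ : ℂ) * (g : ℂ) ^ 2 := by
    have h1 := H.coeff 5 (by norm_num) tau0
    rw [five_chi, p5, hg, hκ, show (-1 : ℤ) ^ 5 = -1 by norm_num, five_sgh_neg] at h1
    norm_num at h1
    rw [h1]; ring
  obtain ⟨e, c0⟩ : ∃ e : ℝ, (Phi 5 tau0).coeff 0 = (e : ℂ) := by
    refine ⟨hom 6 (P 6) g δ, ?_⟩
    have h1 := H.coeff 6 (by norm_num) tau0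
    rw [five_chi, hg, hδ] at h1
    norm_num [sgh] at h1
    rw [h1]
    exact (hom_map Complex.ofRealHom 6 (P 6) g δ).symm
  -- the root
  obtain ⟨C0, hC0⟩ := tau2 5 (by norm_num) 1 1 (by norm_num)
  have hroot := hC0 1 1 (Or.inl rfl) Gf (by exact_mod_cast autG)
  obtain ⟨ν, hν⟩ : ∃ ν : ℂ, ν = (((Real.sqrt 17 : ℝ) : ℂ) - ((Real.sqrt 3 : ℝ) : ℂ) * Complex.I)
      / 2 := ⟨_, rfl⟩
  have hν' : ((chi 1 : ℤ) : ℂ) * (((1 : ℤ) : ℂ) * ((Real.sqrt 17 : ℝ) : ℂ)
        - ((1 : ℤ) : ℂ) * ((Real.sqrt 3 : ℝ) : ℂ) * Complex.I) / 2 = ν := by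
    have : chi 1 = 1 := by rw [chi_mod]; norm_num
    rw [this, hν]
    push_cast
    ring
  rw [hν', one_mul, pow_one, hg] at hroot
  have hev : (Phi 5 tau0).eval (ν * g) = 0 := by
    rw [← hroot, Phi, PhiF, Polynomial.eval_prod]
    exact Finset.prod_eq_zero (Finset.mem_univ C0) (by simp)
  have hnd : (Phi 5 tau0).natDegree < 7 := by
    have := PhiF_natDegree 5 1 Gf tau0
    rw [Phi, this]; norm_num
  rw [Polynomial.eval_eq_sum_range' hnd] at hev
  simp only [Finset.sum_range_succ, Finset.sum_range_zero] at hev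
  rw [c0, c1, c2, c3, c4, c5, c6] at hev
  have hs17 : (((Real.sqrt 17 : ℝ) : ℂ)) ^ 2 = 17 := by
    norm_cast
    exact Real.sq_sqrt (by norm_num)
  have hs3 : (((Real.sqrt 3 : ℝ) : ℂ)) ^ 2 = 3 := by
    norm_cast
    exact Real.sq_sqrt (by norm_num)
  obtain ⟨s, hs⟩ : ∃ s : ℝ, s = Real.sqrt 17 := ⟨_, rfl⟩
  rw [← hs] at hs17 hν ⊢
  have q2 : ν ^ 2 = s * ν - 5 := by
    have hI := Complex.I_sq
    rw [hν]
    have e1 : (((s : ℂ) - ((Real.sqrt 3 : ℝ) : ℂ) * Complex.I) / 2) ^ 2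
      = ((s : ℂ) ^ 2 + ((Real.sqrt 3 : ℝ) : ℂ) ^ 2 * Complex.I ^ 2
        - 2 * s * ((Real.sqrt 3 : ℝ) : ℂ) * Complex.I) / 4 := by ring
    have e2 : (s : ℂ) * (((s : ℂ) - ((Real.sqrt 3 : ℝ) : ℂ) * Complex.I) / 2)
      = ((s : ℂ) ^ 2 - s * ((Real.sqrt 3 : ℝ) : ℂ) * Complex.I) / 2 := by ring
    rw [e1, e2, hs17, hs3, hI]
    ring
  have q3 : ν ^ 3 = 12 * ν - 5 * s := by
    have : ν ^ 3 = ν ^ 2 * ν := by ring
    rw [this, q2]
    linear_combination (s : ℂ) * q2 + ν * hs17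
  have q4 : ν ^ 4 = 7 * s * ν - 60 := by
    have : ν ^ 4 = ν ^ 3 * ν := by ring
    rw [this, q3]
    linear_combination 12 * q2
  have q6 : ν ^ 6 = 24 * s * ν - 295 := by
    have : ν ^ 6 = ν ^ 4 * ν ^ 2 := by ring
    rw [this, q4, q2]
    linear_combination 7 * (s : ℂ) ^ 2 * q2 + (7 * s * ν - 35) * hs17
  have hfin : ((504 * κ * g ^ 3 - 126 * s * g ^ 6 : ℝ) : ℂ) * ν
      + ((e - 295 * g ^ 6 + 900 * g ^ 6 - 200 * s * κ * g ^ 3 + 225 * g ^ 6 : ℝ) : ℂ) = 0 := by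
    push_cast
    have h1 : (ν * g) ^ 6 = (24 * s * ν - 295) * g ^ 6 := by rw [mul_pow, q6]
    have h2 : (ν * g) ^ 4 = (7 * s * ν - 60) * g ^ 4 := by rw [mul_pow, q4]
    have h3 : (ν * g) ^ 3 = (12 * ν - 5 * s) * g ^ 3 := by rw [mul_pow, q3]
    have h4 : (ν * g) ^ 2 = (s * ν - 5) * g ^ 2 := by rw [mul_pow, q2]
    rw [h1, h2, h3, h4] at hev
    linear_combination hev
  have him := congrArg Complex.im hfin
  rw [Complex.add_im, Complex.im_ofReal_mul, Complex.ofReal_im, add_zero, Complex.zero_im] at him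
  have hνim : ν.im ≠ 0 := by
    have : ν.im = -(Real.sqrt 3 / 2) := by
      rw [hν]
      have : (((s : ℂ) - ((Real.sqrt 3 : ℝ) : ℂ) * Complex.I) / 2)
        = ((s / 2 : ℝ) : ℂ) + ((-(Real.sqrt 3 / 2) : ℝ) : ℂ) * Complex.I := by push_cast; ring
      rw [this]
      simp
    rw [this]
    have : 0 < Real.sqrt 3 := by positivity
    intro h
    linarith
  have h0 := (mul_eq_zero.mp him).resolve_right hνim
  have hg3 : g ^ 3 ≠ 0 := pow_ne_zero _ hg0
  have hκ2 : κ = s / 4 * g ^ 3 := by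
    apply mul_right_cancel₀ hg3
    linear_combination h0 / 504
  rw [hκ, hg, hκ2]
  push_cast
  ring

theorem Df_tau0 : Df tau0 = -1 / 1728 * Gf tau0 ^ 6 := by
  have h1 := Kf_sq tau0
  rw [Kf_tau0] at h1
  have hs17 : (((Real.sqrt 17 / 4 : ℝ) : ℂ)) ^ 2 = 17 / 16 := by
    have : (Real.sqrt 17 / 4) ^ 2 = 17 / 16 := by
      rw [div_pow, Real.sq_sqrt (by norm_num)]; norm_num
    rw [← Complex.ofReal_pow, this]
    norm_num
  linear_combination (1 / 108 : ℂ) * h1 - (Gf tau0 ^ 6 / 108) * hs17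

end Pool.Agent.Lib.SCG
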