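import Pool.Agent.Lib.SCG.Five

/-!
FiveB: the value of a form at `τ₀`.
PLAN. `Kf_tau0`, `Df_tau0` and `hom_eval` with `y = -1/1728` (`P = 0` if `k < 3` and `ε ≠ 1`).
-/

namespace Pool.Agent.Lib.SCG

open UpperHalfPlane

/-- Forms at `τ₀`. -/
theorem sgh_tau0 (ε : ℤ) (k : ℕ) (P : Polynomial ℤ) (hP : DegOK ε k P) :
    sgh ε k P (Gf tau0) (Df tau0) (Kf tau0)
      = Gf tau0 ^ k * (if ε = 1 then 1 else ((Real.sqrt 17 / 4 : ℝ) : ℂ)) * evc P := by
  have hD : ((-1 : ℂ) / 1728) * Gf tau0 ^ 6 = Df tau0 := by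
    rw [Df_tau0]
  unfold sgh
  unfold DegOK at hP
  by_cases he : ε = 1
  · rw [if_pos he] at hP ⊢
    rw [if_pos he, hom_eval k P hP _ _ _ hD, mul_one]
    rfl
  · rw [if_neg he] at hP ⊢
    rw [if_neg he]
    rcases hP with hP | hP
    · subst hP
      rw [map_zero, mul_zero]
      unfold hom
      simp
    · rw [hom_eval (k - 3) P (by omega) _ _ _ hD, Kf_tau0]
      have h1 : Gf tau0 ^ k = Gf tau0 ^ 3 * Gf tau0 ^ (k - 3) := by
        rw [← pow_add]
        congr 1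
        omega
      rw [h1]
      change _ = _ * _ * Polynomial.eval₂ (Int.castRingHom ℂ) (-1 / 1728) P
      ring

end Pool.Agent.Lib.SCG
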