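import Pool.Agent.Lib.SCG.ExC

/-!
ThB: the expansion of `G`.
PLAN. `jacobiTheta σ = ∑_{n∈ℤ} exp(πi n² σ)` (`jacobiTheta`, `hasSum_int_..`), so
`jacobiTheta (2τ) = ∑_{n∈ℤ} q^{n²}`: group by `m = n²`: this is `∑ (coeff m thetaS) q^m` (fibres of
`n ↦ n.natAbs ^ 2`: one element over 0, two over a positive square; `HasSum.sigma`/
`hasSum_sum_disjoint` or go through `ℕ`: `HasSum` over `ℤ` equals `f 0 + 2 ∑_{n ≥ 1}` by
evenness, and `∑_{n≥1}` over the injective map `n ↦ n²`). Same for
`jacobiTheta₂ τ (2τ) = ∑_{n∈ℤ} q^{n²+n} = 2 ∑_{n≥0} q^{n(n+1)}` (involution `n ↦ -1-n`).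
`thEx`: `Ex 1 (fun τ => jacobiTheta (2 * τ)) (toC thetaS)`;
`psEx`: `Ex 1 (fun τ => jacobiTheta₂ τ (2 * τ)) (toC (2 * expand 2 psiS))`. Then `Ex.tm` with
`k = 3` gives the other two factors (`expand_expand`: `expand 3 (expand 2 ψ) = expand 6 ψ`), and
`exp(2πiτ)` has the expansion `X`. -/

namespace Pool.Agent.Lib.SCG

open UpperHalfPlane

private lemma ThB_fiber {e : ℤ → ℕ} {c : PowerSeries ℤ} {q s : ℂ}
    (hs : HasSum (fun n : ℤ => q ^ e n) s)
    (hc : ∀ m : ℕ, (Nat.card (e ⁻¹' {m}) : ℤ) = PowerSeries.coeff m c) :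
    HasSum (fun m : ℕ => (PowerSeries.coeff m (toC c)) • q ^ m) s := by
  have h := hs.tsum_fiberwise e
  have h1 : (fun m : ℕ => ∑' b : e ⁻¹' {m}, q ^ e b) =
      fun m : ℕ => (PowerSeries.coeff m (toC c)) • q ^ m := by
    funext m
    have h2 : ∀ b : e ⁻¹' {m}, q ^ e b = q ^ m := fun b => by
      have : e b = m := b.2
      rw [this]
    rw [tsum_congr h2, tsum_const, PowerSeries.coeff_map, ← hc m, nsmul_eq_mul, smul_eq_mul]
    simp
  rw [h1] at h
  exact h

private lemma ThB_card_zero {S : Set ℤ} (h : ∀ n, n ∉ S) : Nat.card S = 0 := by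
  have : S = ∅ := Set.eq_empty_of_forall_notMem h
  rw [this]
  simp

private lemma ThB_card_two {S : Set ℤ} (a b : ℤ) (hab : a ≠ b) (h : ∀ n, n ∈ S ↔ n = a ∨ n = b) :
    Nat.card S = 2 := by
  have : S = ({a, b} : Finset ℤ) := by
    ext n
    rw [h]
    simp
  rw [this]
  simp [Finset.card_pair hab]

private lemma ThB_sq (m : ℕ) : (Nat.card ((fun n : ℤ => n.natAbs ^ 2) ⁻¹' {m}) : ℤ) =
    PowerSeries.coeff m thetaS := by
  unfold thetaS
  rw [PowerSeries.coeff_mk]
  by_cases h0 : m = 0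
  · subst h0
    rw [if_pos rfl]
    have : ((fun n : ℤ => n.natAbs ^ 2) ⁻¹' {0}) = ({0} : Finset ℤ) := by
      ext n
      simp
    rw [this]
    simp
  · rw [if_neg h0]
    by_cases h1 : IsSquare m
    · rw [if_pos h1]
      obtain ⟨k, hk⟩ := h1
      have hk0 : k ≠ 0 := by
        rintro rfl
        exact h0 (by simpa using hk)
      rw [ThB_card_two (k : ℤ) (-(k : ℤ)) (by omega)]
      · rfl
      · intro n
        rw [Set.mem_preimage, Set.mem_singleton_iff, hk, ← sq, pow_left_inj₀ (Nat.zero_le _)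
          (Nat.zero_le _) two_ne_zero]
        omega
    · rw [if_neg h1, ThB_card_zero]
      · rfl
      · intro n hn
        rw [Set.mem_preimage, Set.mem_singleton_iff] at hn
        exact h1 ⟨n.natAbs, by rw [← hn, sq]⟩

private lemma ThB_mul_nonneg (n : ℤ) : 0 ≤ n * (n + 1) := by
  rcases le_or_gt 0 n with h | h
  · positivity
  · exact mul_nonneg_of_nonpos_of_nonpos h.le (by omega)

private lemma ThB_tri (m : ℕ) : (Nat.card ((fun n : ℤ => (n * (n + 1)).toNat) ⁻¹' {m}) : ℤ) =
    PowerSeries.coeff m (2 * PowerSeries.expand 2 (by norm_num) psiS) := by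
  have hcoef : PowerSeries.coeff m (2 * PowerSeries.expand 2 (by norm_num) psiS) =
      2 * PowerSeries.coeff m (PowerSeries.expand 2 (by norm_num) psiS) := by
    have : (2 : PowerSeries ℤ) = PowerSeries.C 2 := by
      rw [map_ofNat]
    rw [this, PowerSeries.coeff_C_mul]
  rw [hcoef]
  by_cases h1 : ∃ k : ℕ, m = k * (k + 1)
  · obtain ⟨k, hk⟩ := h1
    have he : Even (k * (k + 1)) := Nat.even_mul_succ_self k
    obtain ⟨r, hr⟩ := he
    have hm : m = 2 * r := by omega
    rw [ThB_card_two (k : ℤ) (-1 - (k : ℤ)) (by omega)]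
    · rw [hm, PowerSeries.coeff_expand_mul]
      unfold psiS
      rw [PowerSeries.coeff_mk, if_pos ⟨k, by omega⟩]
      rfl
    · intro n
      rw [Set.mem_preimage, Set.mem_singleton_iff]
      have h2 : (n * (n + 1)).toNat = m ↔ n * (n + 1) = (k : ℤ) * (k + 1) := by
        have h3 : ((m : ℕ) : ℤ) = (k : ℤ) * (k + 1) := by rw [hk]; push_cast; ring
        rw [← h3]
        constructor
        · intro h
          rw [← h, Int.toNat_of_nonneg (ThB_mul_nonneg n)]
        · intro h
          rw [h]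
          simp
      rw [h2]
      constructor
      · intro h
        have h4 : (n - k) * (n + k + 1) = 0 := by linear_combination h
        rcases mul_eq_zero.1 h4 with h5 | h5
        · left; omega
        · right; omega
      · rintro (h | h)
        · rw [h]
        · rw [h]; ring
  · rw [ThB_card_zero]
    · by_cases h2 : 2 ∣ m
      · obtain ⟨r, rfl⟩ := h2
        rw [PowerSeries.coeff_expand_mul]
        unfold psiS
        rw [PowerSeries.coeff_mk, if_neg h1]
        rfl
      · rw [PowerSeries.coeff_expand_of_not_dvd _ _ _ h2]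
        rfl
    · intro n hn
      rw [Set.mem_preimage, Set.mem_singleton_iff] at hn
      have h3 : ((m : ℕ) : ℤ) = n * (n + 1) := by
        rw [← hn, Int.toNat_of_nonneg (ThB_mul_nonneg n)]
      rcases le_or_gt 0 n with h | h
      · refine h1 ⟨n.toNat, ?_⟩
        zify
        rw [Int.toNat_of_nonneg h]
        exact h3
      · refine h1 ⟨(-1 - n).toNat, ?_⟩
        zify
        rw [Int.toNat_of_nonneg (by omega)]
        rw [h3]
        ring

private lemma ThB_im (τ : ℍ) : 0 < (2 * (τ : ℂ)).im := by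
  have := τ.im_pos
  simpa using this

lemma thEx : Ex 1 (fun τ => jacobiTheta (2 * τ)) (toC thetaS) := by
  intro τ
  refine ThB_fiber (e := fun n : ℤ => n.natAbs ^ 2) ?_ ThB_sq
  have h := hasSum_jacobiTheta₂_term 0 (ThB_im τ)
  rw [← jacobiTheta_eq_jacobiTheta₂] at h
  have h1 : (fun n : ℤ => jacobiTheta₂_term n 0 (2 * (τ : ℂ))) =
      fun n : ℤ => (Function.Periodic.qParam ((1 : ℕ) : ℝ) (τ : ℂ)) ^ (n.natAbs ^ 2) := by
    funext n
    unfold jacobiTheta₂_term Function.Periodic.qParam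
    rw [← Complex.exp_nat_mul]
    congr 1
    have h2 : ((n.natAbs ^ 2 : ℕ) : ℂ) = (n : ℂ) ^ 2 := by
      have h3 : ((n.natAbs ^ 2 : ℕ) : ℤ) = n ^ 2 := by
        push_cast
        exact sq_abs n
      rw [← Int.cast_natCast (R := ℂ), h3, Int.cast_pow]
    rw [h2]
    push_cast
    ring
  rw [h1] at h
  exact h

lemma psEx : Ex 1 (fun τ => jacobiTheta₂ τ (2 * τ))
    (toC (2 * PowerSeries.expand 2 (by norm_num) psiS)) := by
  intro τ
  refine ThB_fiber (e := fun n : ℤ => (n * (n + 1)).toNat) ?_ ThB_tri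
  have h := hasSum_jacobiTheta₂_term (τ : ℂ) (ThB_im τ)
  have h1 : (fun n : ℤ => jacobiTheta₂_term n (τ : ℂ) (2 * (τ : ℂ))) =
      fun n : ℤ => (Function.Periodic.qParam ((1 : ℕ) : ℝ) (τ : ℂ)) ^ ((n * (n + 1)).toNat) := by
    funext n
    unfold jacobiTheta₂_term Function.Periodic.qParam
    rw [← Complex.exp_nat_mul]
    congr 1
    have h2 : (((n * (n + 1)).toNat : ℕ) : ℂ) = (n : ℂ) * (n + 1) := by
      have h3 : (((n * (n + 1)).toNat : ℕ) : ℤ) = n * (n + 1) :=
        Int.toNat_of_nonneg (ThB_mul_nonneg n)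
      exact_mod_cast h3
    rw [h2]
    push_cast
    ring
  rw [h1] at h
  exact h

private lemma ThB_coe_tm (τ : ℍ) : ((tm 3 (by norm_num) τ : ℍ) : ℂ) = 3 * (τ : ℂ) := by
  unfold tm
  rw [coe_mob]
  push_cast
  ring

private lemma ThB_q : Ex 1 (fun τ : ℍ => Complex.exp (2 * Real.pi * Complex.I * τ)) PowerSeries.X := by
  intro τ
  have := hasSum_single (f := fun m : ℕ => (PowerSeries.coeff m (PowerSeries.X : PowerSeries ℂ)) •
    (Function.Periodic.qParam ((1 : ℕ) : ℝ) (τ : ℂ)) ^ m) 1 (by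
      intro m hm
      simp [PowerSeries.coeff_X, hm])
  have h2 : (PowerSeries.coeff 1 (PowerSeries.X : PowerSeries ℂ)) •
      (Function.Periodic.qParam ((1 : ℕ) : ℝ) (τ : ℂ)) ^ 1 =
      Complex.exp (2 * Real.pi * Complex.I * τ) := by
    rw [PowerSeries.coeff_one_X, one_smul, pow_one]
    unfold Function.Periodic.qParam
    congr 1
    push_cast
    ring
  rw [h2] at this
  exact this

theorem Gf_ex : Ex 1 Gf (toC Gs) := by
  have a1 := thEx.mul (thEx.tm 3 (by norm_num))
  have a2 := (ThB_q.mul psEx).mul (psEx.tm 3 (by norm_num))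
  have a3 := a1.add a2
  have e : toC thetaS * PowerSeries.expand 3 (by norm_num) (toC thetaS) +
      PowerSeries.X * toC (2 * PowerSeries.expand 2 (by norm_num) psiS) *
        PowerSeries.expand 3 (by norm_num) (toC (2 * PowerSeries.expand 2 (by norm_num) psiS)) =
      toC Gs := by
    unfold toC Gs
    have h6 : PowerSeries.expand 6 (by norm_num) psiS =
        PowerSeries.expand 3 (by norm_num) (PowerSeries.expand 2 (by norm_num) psiS) :=
      PowerSeries.expand_mul 3 (by norm_num) 2 (by norm_num) psiS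
    rw [h6]
    simp only [map_add, map_mul, PowerSeries.map_expand, PowerSeries.map_X, map_ofNat]
    ring
  rw [e] at a3
  refine a3.congr fun τ => ?_
  unfold Gf
  rw [ThB_coe_tm]
  have h1 : (2 : ℂ) * (3 * (τ : ℂ)) = 6 * τ := by ring
  rw [h1]

private lemma ThB_theta0 : PowerSeries.constantCoeff thetaS = 1 := by
  rw [← PowerSeries.coeff_zero_eq_constantCoeff_apply]
  unfold thetaS
  rw [PowerSeries.coeff_mk, if_pos rfl]

private lemma ThB_theta1 : PowerSeries.coeff 1 thetaS = 2 := by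
  unfold thetaS
  rw [PowerSeries.coeff_mk, if_neg one_ne_zero, if_pos ⟨1, rfl⟩]

private lemma ThB_psi0 : PowerSeries.constantCoeff psiS = 1 := by
  rw [← PowerSeries.coeff_zero_eq_constantCoeff_apply]
  unfold psiS
  rw [PowerSeries.coeff_mk, if_pos ⟨0, rfl⟩]

lemma Gs_zero : PowerSeries.constantCoeff Gs = 1 := by
  unfold Gs
  simp [ThB_theta0]

lemma Gs_one : PowerSeries.coeff 1 Gs = 6 := by
  unfold Gs
  have h1 : PowerSeries.coeff 1 (thetaS * PowerSeries.expand 3 (by norm_num) thetaS) = 2 := by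
    rw [PowerSeries.coeff_mul, Finset.Nat.antidiagonal_succ]
    simp [ThB_theta0, ThB_theta1, PowerSeries.coeff_expand_of_not_dvd]
  have h2 : PowerSeries.coeff 1 (4 * PowerSeries.X * PowerSeries.expand 2 (by norm_num) psiS
      * PowerSeries.expand 6 (by norm_num) psiS) = 4 := by
    have h3 : (4 * PowerSeries.X * PowerSeries.expand 2 (by norm_num) psiS
        * PowerSeries.expand 6 (by norm_num) psiS : PowerSeries ℤ) =
        PowerSeries.X * (4 * PowerSeries.expand 2 (by norm_num) psiS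
        * PowerSeries.expand 6 (by norm_num) psiS) := by ring
    rw [h3]
    have h4 := PowerSeries.coeff_succ_X_mul 0 (4 * PowerSeries.expand 2 (by norm_num) psiS
        * PowerSeries.expand 6 (by norm_num) psiS : PowerSeries ℤ)
    rw [zero_add] at h4
    rw [h4, PowerSeries.coeff_zero_eq_constantCoeff_apply]
    simp [ThB_psi0]
    exact map_ofNat _ 4
  rw [map_add, h1, h2]
  norm_num

end Pool.Agent.Lib.SCG
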