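import Pool.Agent.Lib.SCG.ThA
import Pool.Agent.Lib.SCG.ThB
import Pool.Agent.Lib.SCG.EtaC
import Pool.Agent.Lib.SCG.ExD

/-!
KA: derivatives of the transformation laws; `G, D, K` are forms.
PLAN. `thf_W`: differentiate `f(-1/(3τ)) = ε (jW τ)^k f(τ)`: `d/dτ(-1/(3τ)) = 1/(3τ²)
= -(jW τ)^{-2}` (`jW τ ^2 = -3τ²`), `θ jW = (2πi)⁻¹ (-i√3) = -√3/(2π) =: cW`. Hence
`-(jW)^{-2} (θf)(Wτ) = ε (jW^k θf + k cW jW^{k-1} f)`. (`f ∘ ofComplex` differentiable on the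
upper half plane, `UpperHalfPlane.mdifferentiableAt_iff`; use `HasDerivAt` and eventual equality
near `τ`.) `Kf_W`: with `Gf_W`, and `Df_W` + `thf_Df` (so
`Lf(Wτ) = -jW² (Lf + 6 cW jW⁻¹)`, using `Df ≠ 0`):
`K(Wτ) = G(W)L(W) - 6(θG)(W) = -jW³ (G L - 6 θG)`. -/

namespace Pool.Agent.Lib.SCG

open UpperHalfPlane
open scoped Manifold Real

/-- `θ(jW) = -√3/(2π)`. -/
noncomputable def cW : ℂ := -((Real.sqrt 3 : ℝ) : ℂ) / (2 * π)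

private lemma KA_jW_ne (τ : ℍ) : jW τ ≠ 0 := by
  unfold jW
  have h3 : ((Real.sqrt 3 : ℝ) : ℂ) ≠ 0 := by
    have : Real.sqrt 3 ≠ 0 := by positivity
    exact_mod_cast this
  exact neg_ne_zero.mpr (mul_ne_zero (mul_ne_zero Complex.I_ne_zero h3) τ.ne_zero)

private lemma KA_sqrt3 : ((Real.sqrt 3 : ℝ) : ℂ) ^ 2 = 3 := by
  have h : (Real.sqrt 3) ^ 2 = 3 := Real.sq_sqrt (by norm_num)
  exact_mod_cast h

private lemma KA_jW_sq (τ : ℍ) : jW τ ^ 2 = -3 * (τ : ℂ) ^ 2 := by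
  have h : jW τ ^ 2 = Complex.I ^ 2 * ((Real.sqrt 3 : ℝ) : ℂ) ^ 2 * (τ : ℂ) ^ 2 := by
    unfold jW
    ring
  rw [h, KA_sqrt3, Complex.I_sq]
  ring

private lemma KA_coeW (τ : ℍ) : ((W τ : ℍ) : ℂ) = -1 / (3 * (τ : ℂ)) := by
  unfold W
  rw [coe_mob]
  push_cast
  ring

private lemma KA_toC_thS (F : PowerSeries ℤ) : thS (toC F) = toC (thS F) := by
  ext n
  unfold thS toC
  rw [PowerSeries.coeff_mk, PowerSeries.coeff_map, PowerSeries.coeff_map, PowerSeries.coeff_mk]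
  simp

private lemma KA_LfW (τ : ℍ) (hW : thf Df (W τ) = -1 * jW τ ^ (6 + 2 : ℤ) * (thf Df τ + (6 : ℤ) * cW * (jW τ)⁻¹ * Df τ)) :
    Lf (W τ) = -jW τ ^ 2 * (Lf τ + 6 * cW * (jW τ)⁻¹) := by
  have hj := KA_jW_ne τ
  have hD := Df_ne τ
  rw [thf_Df, thf_Df, Df_W] at hW
  have h8 : jW τ ^ (6 + 2 : ℤ) = jW τ ^ 6 * jW τ ^ 2 := by
    rw [show (6 + 2 : ℤ) = ((8 : ℕ) : ℤ) by norm_num, zpow_natCast]
    ring
  rw [h8] at hW
  have hne : jW τ ^ 6 * Df τ ≠ 0 := mul_ne_zero (pow_ne_zero _ hj) hD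
  apply mul_left_cancel₀ hne
  push_cast at hW
  linear_combination hW

theorem thf_W {f : ℍ → ℂ} (hf : MDiff f) {k : ℤ} {ε : ℂ}
    (h : ∀ τ, f (W τ) = ε * jW τ ^ k * f τ) (τ : ℍ) :
    thf f (W τ) = -ε * jW τ ^ (k + 2) * (thf f τ + k * cW * (jW τ)⁻¹ * f τ) := by
  have hτ := τ.im_pos
  have hτ0 : (τ : ℂ) ≠ 0 := τ.ne_zero
  have hj := KA_jW_ne τ
  set F : ℂ → ℂ := f ∘ UpperHalfPlane.ofComplex with hF
  have hFd : ∀ σ : ℍ, HasDerivAt F (deriv F (σ : ℂ)) (σ : ℂ) := by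
    intro σ
    exact (UpperHalfPlane.mdifferentiableAt_iff.mp (hf σ)).hasDerivAt
  have hFv : ∀ σ : ℍ, F (σ : ℂ) = f σ := by
    intro σ
    rw [hF, Function.comp_apply, UpperHalfPlane.ofComplex_apply]
  have hg : HasDerivAt (fun z : ℂ => -1 / (3 * z)) (1 / (3 * (τ : ℂ) ^ 2)) (τ : ℂ) := by
    have h1 := ((hasDerivAt_inv hτ0).const_mul (-1 / 3 : ℂ))
    have h2 : (fun z : ℂ => -1 / (3 * z)) = fun z : ℂ => (-1 / 3 : ℂ) * z⁻¹ := by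
      funext z
      by_cases hz : z = 0
      · simp [hz]
      · field_simp
    rw [h2]
    refine h1.congr_deriv ?_
    field_simp
  have hjd : HasDerivAt (fun z : ℂ => -(Complex.I * ((Real.sqrt 3 : ℝ) : ℂ) * z)) (-(Complex.I * ((Real.sqrt 3 : ℝ) : ℂ)))
      (τ : ℂ) := by
    have h0 := (hasDerivAt_id (τ : ℂ)).const_mul (-(Complex.I * ((Real.sqrt 3 : ℝ) : ℂ)))
    have h0' : (fun z : ℂ => -(Complex.I * ((Real.sqrt 3 : ℝ) : ℂ) * z)) =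
      fun z : ℂ => -(Complex.I * ((Real.sqrt 3 : ℝ) : ℂ)) * id z := by
      funext z
      simp
    rw [h0']
    exact h0.congr_deriv (mul_one _)
  have hev : (fun z : ℂ => F (-1 / (3 * z))) =ᶠ[nhds (τ : ℂ)]
      fun z : ℂ => ε * (-(Complex.I * ((Real.sqrt 3 : ℝ) : ℂ) * z)) ^ k * F z := by
    have hopen : IsOpen {z : ℂ | 0 < z.im} := isOpen_lt continuous_const Complex.continuous_im
    filter_upwards [hopen.mem_nhds hτ] with z hz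
    have h3 := h ⟨z, hz⟩
    have h4 := hFv (W ⟨z, hz⟩)
    have h5 := hFv ⟨z, hz⟩
    rw [KA_coeW] at h4
    have h4' : F (-1 / (3 * z)) = f (W ⟨z, hz⟩) := h4
    have h5' : F z = f ⟨z, hz⟩ := h5
    rw [h4', h5', h3]
    rfl
  have hL : HasDerivAt (fun z : ℂ => F (-1 / (3 * z))) (deriv F ((W τ : ℍ) : ℂ) * (1 / (3 * (τ : ℂ) ^ 2))) (τ : ℂ) := by
    have h6 := hFd (W τ)
    rw [KA_coeW] at h6 ⊢
    exact h6.comp (τ : ℂ) hg
  have hR : HasDerivAt (fun z : ℂ => ε * (-(Complex.I * ((Real.sqrt 3 : ℝ) : ℂ) * z)) ^ k * F z)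
      (ε * (k * (jW τ) ^ (k - 1) * (-(Complex.I * ((Real.sqrt 3 : ℝ) : ℂ)))) * F (τ : ℂ) +
        ε * (jW τ) ^ k * deriv F (τ : ℂ)) (τ : ℂ) := by
    have h7 := (hasDerivAt_zpow k (jW τ) (Or.inl hj))
    have h8 : HasDerivAt (fun z : ℂ => (-(Complex.I * ((Real.sqrt 3 : ℝ) : ℂ) * z)) ^ k)
      (k * (jW τ) ^ (k - 1) * (-(Complex.I * ((Real.sqrt 3 : ℝ) : ℂ)))) (τ : ℂ) := by
      have h7' : HasDerivAt (fun x : ℂ => x ^ k) (k * (jW τ) ^ (k - 1))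
        ((fun z : ℂ => -(Complex.I * ((Real.sqrt 3 : ℝ) : ℂ) * z)) (τ : ℂ)) := h7
      exact HasDerivAt.comp (τ : ℂ) h7' hjd
    exact (h8.const_mul ε).mul (hFd τ)
  have heq := (hL.congr_of_eventuallyEq hev.symm).unique hR
  show (2 * (Real.pi : ℂ) * Complex.I)⁻¹ * deriv F ((W τ : ℍ) : ℂ) =
    -ε * jW τ ^ (k + 2) * ((2 * (Real.pi : ℂ) * Complex.I)⁻¹ * deriv F (τ : ℂ) + k * cW * (jW τ)⁻¹ * f τ)
  have h9 : deriv F ((W τ : ℍ) : ℂ) = -(jW τ ^ 2) * (ε * (k * (jW τ) ^ (k - 1) * (-(Complex.I * ((Real.sqrt 3 : ℝ) : ℂ)))) * F (τ : ℂ) +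
        ε * (jW τ) ^ k * deriv F (τ : ℂ)) := by
    rw [← heq, KA_jW_sq]
    field_simp
  rw [h9, hFv τ]
  have h10 : jW τ ^ (k + 2) = jW τ ^ k * jW τ ^ 2 := by
    rw [zpow_add₀ hj]
    norm_cast
  have h11 : jW τ ^ (k - 1) = jW τ ^ k * (jW τ)⁻¹ := by
    rw [zpow_sub_one₀ hj]
  have hpi : (Real.pi : ℂ) ≠ 0 := by exact_mod_cast Real.pi_ne_zero
  have hI := Complex.I_ne_zero
  have h12 : (2 * (Real.pi : ℂ) * Complex.I)⁻¹ * (-(Complex.I * ((Real.sqrt 3 : ℝ) : ℂ))) = cW := by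
    unfold cW
    field_simp
  rw [h10, h11, ← h12]
  ring

theorem autG : Aut 1 1 Gf := by
  refine ⟨⟨toC Gs, Gf_ex⟩, fun τ => ?_⟩
  rw [Gf_W, zpow_one, one_mul]

theorem autD : Aut 6 1 Df := by
  refine ⟨⟨toC Ds, Df_ex⟩, fun τ => ?_⟩
  rw [Df_W, one_mul]
  norm_cast

theorem Kf_W (τ : ℍ) : Kf (W τ) = -jW τ ^ 3 * Kf τ := by
  have hj := KA_jW_ne τ
  have hG := thf_W (Gf_ex.mdiff one_pos) (k := 1) (ε := 1) autG.fr τ
  have hD := thf_W (Df_ex.mdiff one_pos) (k := 6) (ε := 1) autD.fr τ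
  have hL := KA_LfW τ hD
  have h3 : jW τ ^ (1 + 2 : ℤ) = jW τ ^ 3 := by
    rw [show (1 + 2 : ℤ) = ((3 : ℕ) : ℤ) by norm_num, zpow_natCast]
  unfold Kf
  rw [hL, hG, Gf_W, h3]
  push_cast
  field_simp
  ring

theorem Kf_ex : Ex 1 Kf (toC Ks) := by
  have h1 := (Gf_ex.mul Lf_ex).sub ((Ex.thf Gf_ex).smul 6)
  have h2 : toC Ks = toC Gs * toC Ls - PowerSeries.C (6 : ℂ) * thS (toC Gs) := by
    rw [KA_toC_thS]
    unfold Ks toC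
    rw [map_sub, map_mul, map_mul, map_ofNat, map_ofNat]
  rw [h2]
  exact h1

theorem autK : Aut 3 (-1) Kf := by
  refine ⟨⟨toC Ks, Kf_ex⟩, fun τ => ?_⟩
  rw [Kf_W, show (3 : ℤ) = ((3 : ℕ) : ℤ) by norm_num, zpow_natCast]
  ring

lemma Ks_zero : PowerSeries.constantCoeff Ks = 1 := by
  have h0 : PowerSeries.constantCoeff (thS Gs) = 0 := by
    rw [← PowerSeries.coeff_zero_eq_constantCoeff_apply]
    unfold thS
    rw [PowerSeries.coeff_mk]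
    simp
  unfold Ks
  rw [map_sub, map_mul, map_mul, Gs_zero, Ls_zero, h0]
  norm_num

lemma Ks_one : PowerSeries.coeff 1 Ks = -36 := by
  have h6 : (6 : PowerSeries ℤ) = PowerSeries.C 6 := (map_ofNat (PowerSeries.C (R := ℤ)) 6).symm
  have h1 : PowerSeries.coeff 1 (thS Gs) = 6 := by
    unfold thS
    rw [PowerSeries.coeff_mk, Gs_one]
    norm_num
  unfold Ks
  rw [map_sub, h6, PowerSeries.coeff_C_mul, h1, PowerSeries.coeff_mul, Finset.Nat.antidiagonal_succ]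
  simp [Gs_zero, Gs_one, Ls_zero, Ls_one]

end Pool.Agent.Lib.SCG
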