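import Pool.Agent.Lib.SCG.SupB
import Pool.Agent.Lib.SCG.CongB

/-!
SupC: case 3, both sums vanish modulo `p`.
PLAN. `S1`: `c1` modulo `p`: `evq (P p (2-d)) ≡ evq (P p)` since `p ∣ d - 1`; `supR`.
`S2`: over `ZMod p` let `f = P_p (1 - 108Y)^{(p-1)/2}`, degree `≤ (p-1)/6 + (p-1)/2 < p`. With
`g, κ, y, e = expand p g, k' = expand p κ` in `(ZMod p)⟦X⟧`: `g^p P_p(y) = N = g`, `g^p = e`,
`κ^p = k'` (`frob`), `κ² = g⁶ (1 - 108 y)`, so
`κ f(y) = (g/g^p) κ (κ/g³)^{p-1} = (g/e) κ^p g^{-3(p-1)} = g⁴ · k' e⁻⁴ = g⁴ h`,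
`h = expand p (κ g⁻⁴)`. `ode2`, `sum2` with `k = 1`. Then `evq f = evq (P p) (17/16)^{(p-1)/2} ≡ 0`.
-/

namespace Pool.Agent.Lib.SCG

private lemma SupC_deg1 (p : ℕ) [Fact p.Prime] [NeZero p] (hchi : chi p = 1)
    (P : ℕ → Polynomial ℤ) (d : Polynomial ℤ) (H : HGdata p P d) :
    6 * (P p).natDegree ≤ p := by
  have := H.deg p (by omega)
  rw [hchi, one_pow] at this
  simpa [DegOK] using this

theorem sup1 (p : ℕ) [Fact p.Prime] [NeZero p] (h3 : 3 < p) (hchi : chi p = 1)
    (h17 : jacobiSym 17 p = -1)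
    (P : ℕ → Polynomial ℤ) (d : Polynomial ℤ) (H : HGdata p P d) :
    Cong p 1 (S1 p) 0 := by
  have h1 := cong_mono (c1 p h3 hchi P d H)
  have h2 : Cong p 1 (evq (P p * (2 - d))) (evq (P p)) := by
    rw [← evz_evq p h3, ← evz_evq p h3, cong_iff, pow_one]
    have h5 : ((p : ℕ) : Zp p) ∣ evz p h3 d - 1 := by
      have := evz_dvd p h3 p _ H.done
      rw [map_sub, map_one] at this
      exact_mod_cast this
    obtain ⟨m, hm⟩ := h5
    refine ⟨-(evz p h3 (P p) * m), ?_⟩
    rw [map_mul, map_sub, map_ofNat]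
    linear_combination (-(evz p h3 (P p))) * hm
  exact cong_trans h1 (cong_trans h2 (supR p h3 hchi h17 P d H))

theorem sup2 (p : ℕ) [Fact p.Prime] [NeZero p] (h3 : 3 < p) (hchi : chi p = 1)
    (h17 : jacobiSym 17 p = -1)
    (P : ℕ → Polynomial ℤ) (d : Polynomial ℤ) (H : HGdata p P d) :
    Cong p 1 (S2 p) 0 := by
  have HR := rels_R (ZMod (p ^ 1))
  have hodd : Odd p := (Fact.out : p.Prime).odd_of_ne_two (by omega)
  obtain ⟨n, hn⟩ := hodd
  have hdeg := SupC_deg1 p hchi P d H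
  obtain ⟨gi, hgi⟩ := CongB_inv (toR (ZMod (p ^ 1)) Gs) (by rw [HR.g0]; exact isUnit_one)
  have hgi0 : PowerSeries.constantCoeff gi = 1 := by
    have h1 := congrArg PowerSeries.constantCoeff hgi
    rw [map_mul, HR.g0, one_mul, map_one] at h1
    exact h1
  set e := PowerSeries.expand p (NeZero.ne p) (toR (ZMod (p ^ 1)) Gs) with he
  set ei := PowerSeries.expand p (NeZero.ne p) gi with hei
  set k' := PowerSeries.expand p (NeZero.ne p) (toR (ZMod (p ^ 1)) Ks) with hk'
  have heei : e * ei = 1 := by rw [he, hei, ← map_mul, hgi, map_one]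
  have hA : toR (ZMod (p ^ 1)) Gs ^ p
      * Polynomial.eval₂ (Int.castRingHom _) (toR _ Ys) (P p) = toR (ZMod (p ^ 1)) Gs := by
    have h0 : PowerSeries.C ((p : ℤ) ^ 1) ∣ hom p (P p) Gs Ds - Gs := by
      have h1 := H.pform
      rw [hchi] at h1
      simp only [sgh, if_true] at h1
      have h2 : PowerSeries.C ((p : ℤ) ^ 1) ∣ hom p (P p) Gs Ds - NG p :=
        (map_dvd _ (pow_dvd_pow _ (by norm_num))).trans h1
      have h4 : PowerSeries.C ((p : ℤ) ^ 1) ∣ NG p - Gs := by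
        rw [pow_one]; exact NG_congr p
      have := dvd_add h2 h4
      rwa [sub_add_sub_cancel] at this
    have h1 := CongB_toR_dvd p 1 _ _ h0
    rw [toR, hom_map, hom_eval p (P p) hdeg _ _ (toR _ Ys) HR.hy] at h1
    exact h1
  have hge : toR (ZMod (p ^ 1)) Gs ^ p = e := by
    have h0 : PowerSeries.C ((p : ℤ) ^ 1) ∣ Gs ^ p - PowerSeries.expand p (NeZero.ne p) Gs := by
      rw [pow_one]; exact frob p (NeZero.ne p) Gs
    have h1 := CongB_toR_dvd p 1 _ _ h0
    rw [toR_expand, toR, map_pow] at h1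
    exact h1
  have hke : toR (ZMod (p ^ 1)) Ks ^ p = k' := by
    have h0 : PowerSeries.C ((p : ℤ) ^ 1) ∣ Ks ^ p - PowerSeries.expand p (NeZero.ne p) Ks := by
      rw [pow_one]; exact frob p (NeZero.ne p) Ks
    have h1 := CongB_toR_dvd p 1 _ _ h0
    rw [toR_expand, toR, map_pow] at h1
    exact h1
  have hmain : Cong p 1 (S2 p) (evq (P p * (1 - 108 * Polynomial.X) ^ n)) := by
    apply CongB_fin2 p h3 1 (P p * (1 - 108 * Polynomial.X) ^ n) _ (k' * ei ^ 4)
    · rw [hei, hk']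
      simp only [map_mul, map_pow, PowerSeries.constantCoeff_expand, hgi0, HR.k0, one_pow,
        mul_one]
    · rw [hei, hk', ← map_pow, ← map_mul]
      exact thS_expand p (NeZero.ne p) (p ^ 1) (pow_dvd_pow p (by norm_num)) _
    · rw [Polynomial.eval₂_mul, Polynomial.eval₂_pow, Polynomial.eval₂_sub,
        Polynomial.eval₂_mul, Polynomial.eval₂_X, Polynomial.eval₂_one, CongB_ofNat _ _ 108]
      set A := Polynomial.eval₂ (Int.castRingHom (PowerSeries (ZMod (p ^ 1)))) (toR _ Ys) (P p)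
      set g := toR (ZMod (p ^ 1)) Gs
      set κ := toR (ZMod (p ^ 1)) Ks
      set y := toR (ZMod (p ^ 1)) Ys
      have e5 : (1 - 108 * y) * g ^ 6 = κ ^ 2 := by rw [HR.hsq, ← HR.hy]; ring
      have e6 : (1 - 108 * y) ^ n * g ^ (6 * n) = κ ^ (2 * n) := by
        rw [pow_mul, ← mul_pow, e5, pow_mul]
      have e7 : κ * κ ^ (2 * n) = k' := by
        rw [← hke, ← pow_succ', ← hn]
      have e8 : g ^ (6 * n) * g ^ p * g ^ 3 = e ^ 4 := by
        rw [← hge, ← pow_mul, ← pow_add, ← pow_add]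
        congr 1
        omega
      have e9 : κ * (A * (1 - 108 * y) ^ n) * e ^ 4 = g ^ 4 * k' := by
        rw [← e8]
        linear_combination (κ * A * g ^ p * g ^ 3) * e6 + (A * g ^ p * g ^ 3) * e7
          + (k' * g ^ 3) * hA
      have hee : e ^ 4 * ei ^ 4 = 1 := by rw [← mul_pow, heei, one_pow]
      calc κ * (A * (1 - 108 * y) ^ n)
          = (κ * (A * (1 - 108 * y) ^ n) * e ^ 4) * ei ^ 4 := by
            linear_combination (-(κ * (A * (1 - 108 * y) ^ n))) * hee
        _ = g ^ 4 * k' * ei ^ 4 := by rw [e9]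
        _ = g ^ 4 * (k' * ei ^ 4) := by ring
    · have h4 : (P p * (1 - 108 * Polynomial.X) ^ n).natDegree
          ≤ (P p).natDegree + ((1 - 108 * Polynomial.X : Polynomial ℤ) ^ n).natDegree :=
        Polynomial.natDegree_mul_le
      have h5 : ((1 - 108 * Polynomial.X : Polynomial ℤ) ^ n).natDegree ≤ n * 1 := by
        apply Polynomial.natDegree_pow_le_of_le
        have h6 : (1 - 108 * Polynomial.X : Polynomial ℤ)
            = Polynomial.C (-108) * Polynomial.X + Polynomial.C 1 := by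
          simp only [map_neg, map_ofNat, map_one]
          ring
        rw [h6]
        exact Polynomial.natDegree_linear_le
      omega
  have hev : evq (P p * (1 - 108 * Polynomial.X) ^ n) = (17 / 16) ^ n * evq (P p) := by
    rw [map_mul, map_pow, map_sub, map_mul, map_one, map_ofNat]
    have : evq Polynomial.X = -1 / 1728 := by simp [evq]
    rw [this]
    norm_num
    ring
  have hmem : ((17 / 16 : ℚ)) ^ n ∈ Zp p := by
    apply (Zp p).pow_mem
    refine ⟨17, 16, ?_, by norm_num⟩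
    intro h
    have h' : p ∣ 2 ^ 4 := by exact_mod_cast h
    have := (Nat.prime_dvd_prime_iff_eq Fact.out Nat.prime_two).mp
      ((Fact.out : p.Prime).dvd_of_dvd_pow h')
    omega
  have h6 := cong_mul hmem (supR p h3 hchi h17 P d H)
  rw [mul_zero, ← hev] at h6
  exact cong_trans hmain h6

end Pool.Agent.Lib.SCG
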