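import Pool.Agent.Lib.SCG.Ev1
import Pool.Agent.Lib.SCG.Ev2
import Pool.Agent.Lib.SCG.CongC
import Pool.Agent.Lib.SCG.SupC

/-!
Main: assembly.
PLAN. Case 1: `c1`, `c3` with `ev1`; `(17/p) = 1`: `4p ≡ x² mod 17` and `17 ∤ x`
(`p` would be 17..), reciprocity `jacobiSym.quadratic_reciprocity_one_mod_four`. Case 2: `c2`,
`c4`, `ev2`; `(17/p) = -1`: `4p ≡ 3y² mod 17`, `(3/17) = -1`, `17 ∤ y`; then
`-(17/16) S2 ≡ -(17/16)(-4χ(x))(x - p/(17x)) = (χ(x)/4)(17x - p/x)`. Case 3: `sup1`, `sup2`,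
`(p/17) = (17/p)`. `χ = jacobiSym · 3` by definition.
-/

namespace Pool.Agent.Lib.SCG

/-- `(17/16)^((1-(p/3))/2)`. -/
def epsp (p : ℕ) : ℚ := if jacobiSym p 3 = 1 then 1 else 17 / 16

private lemma main_mod3 {p : ℕ} (hp : p.Prime) (h3 : 3 < p) : (p : ℤ) % 3 = 1 ∨ (p : ℤ) % 3 = 2 := by
  have h : ¬ 3 ∣ p := fun h => by
    have := (Nat.prime_dvd_prime_iff_eq Nat.prime_three hp).1 h
    omega
  omega

private lemma main_sq3 (x : ℤ) : x ^ 2 % 3 = 0 ∨ x ^ 2 % 3 = 1 := by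
  rcases (by omega : x % 3 = 0 ∨ x % 3 = 1 ∨ x % 3 = 2) with h | h | h <;> simp [pow_two, Int.mul_emod, h]

private lemma main_j3 {p : ℕ} (h : (p : ℤ) % 3 = 1) : jacobiSym p 3 = 1 := by
  have h1 : jacobiSym (p : ℤ) 3 = jacobiSym 1 3 := jacobiSym.mod_left' (by simpa using h)
  rw [h1]
  norm_num

private lemma main_j3' {p : ℕ} (h : (p : ℤ) % 3 = 2) : jacobiSym p 3 = -1 := by
  have h1 : jacobiSym (p : ℤ) 3 = jacobiSym 2 3 := jacobiSym.mod_left' (by simpa using h)
  rw [h1]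
  norm_num

private lemma main_rec {p : ℕ} (hp : p.Prime) (h3 : 3 < p) : jacobiSym 17 p = jacobiSym p 17 := by
  have h := jacobiSym.quadratic_reciprocity_one_mod_four (a := 17) (b := p) (by norm_num)
    (hp.odd_of_ne_two (by omega))
  simpa using h

private lemma main_dvd17 {p : ℕ} (hp : p.Prime) (h : (17 : ℤ) ∣ 4 * p) : p = 17 := by
  have h1 : (17 : ℤ) ∣ p := by
    have h2 : IsCoprime (17 : ℤ) 4 := by
      rw [Int.isCoprime_iff_gcd_eq_one]
      norm_num
    exact h2.dvd_of_dvd_mul_left h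
  have h4 : 17 ∣ p := by exact_mod_cast h1
  exact ((Nat.prime_dvd_prime_iff_eq (by norm_num) hp).1 h4).symm

private lemma main_sq17 {x : ℤ} (h : ¬ (17 : ℤ) ∣ x) : jacobiSym (x ^ 2) 17 = 1 := by
  apply jacobiSym.sq_one'
  have hp : Prime (17 : ℤ) := by
    have : Nat.Prime 17 := by norm_num
    exact_mod_cast Nat.prime_iff_prime_int.1 this
  have h1 : IsCoprime (17 : ℤ) x := (Prime.coprime_iff_not_dvd hp).2 h
  have h2 := Int.isCoprime_iff_gcd_eq_one.1 h1.symm
  exact_mod_cast h2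

theorem main (p : ℕ) (hp : p.Prime) (h3 : 3 < p) :
    (∀ x y : ℤ, (4 : ℤ) * p = x ^ 2 + 51 * y ^ 2 →
      Cong p 2 (S1 p) ((jacobiSym 17 p : ℤ) * epsp p * S2 p) ∧
      Cong p 2 ((jacobiSym 17 p : ℤ) * epsp p * S2 p) (-(jacobiSym x 3 : ℤ) * (x - p / x))) ∧
    (p ≠ 17 → ∀ x y : ℤ, (4 : ℤ) * p = 17 * x ^ 2 + 3 * y ^ 2 →
      Cong p 2 (S1 p) ((jacobiSym 17 p : ℤ) * epsp p * S2 p) ∧
      Cong p 2 ((jacobiSym 17 p : ℤ) * epsp p * S2 p)
        (1 / 4 * (jacobiSym x 3 : ℤ) * (17 * x - p / x))) ∧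
    (jacobiSym p 3 = 1 → jacobiSym p 17 = -1 →
      Cong p 1 (S1 p) ((jacobiSym 17 p : ℤ) * epsp p * S2 p) ∧
      Cong p 1 ((jacobiSym 17 p : ℤ) * epsp p * S2 p) 0) := by
  have hF : Fact p.Prime := ⟨hp⟩
  have hN : NeZero p := ⟨hp.ne_zero⟩
  obtain ⟨P, d, H⟩ := HG p (by omega) (by omega)
  obtain ⟨Q, HQ⟩ := HK p (by omega) (by omega)
  refine ⟨?_, ?_, ?_⟩
  · intro x y h
    have hp3 : (p : ℤ) % 3 = 1 := by
      rcases main_mod3 hp h3 with h1 | h1
      · exact h1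
      · rcases main_sq3 x with h4 | h4 <;> omega
    have hj3 := main_j3 hp3
    have hx17 : ¬ (17 : ℤ) ∣ x := by
      rintro ⟨z, rfl⟩
      have h1 : p = 17 := main_dvd17 hp ⟨17 * z ^ 2 + 3 * y ^ 2, by rw [h]; ring⟩
      subst h1
      have h2 : 4 = 17 * z ^ 2 + 3 * y ^ 2 := by
        have h5 : (17 : ℤ) * 4 = 17 * (17 * z ^ 2 + 3 * y ^ 2) := by
          push_cast at h
          linear_combination h
        exact mul_left_cancel₀ (by norm_num) h5
      have h6 : z ^ 2 = 0 := by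
        have := sq_nonneg y
        have := sq_nonneg z
        omega
      omega
    have hj17 : jacobiSym p 17 = 1 := by
      have h1 : jacobiSym (4 * p) 17 = jacobiSym (x ^ 2) 17 := by
        apply jacobiSym.mod_left'
        rw [h]
        push_cast
        omega
      rw [main_sq17 hx17, jacobiSym.mul_left] at h1
      have h4 : jacobiSym 4 17 = 1 := by norm_num
      rwa [h4, one_mul] at h1
    have hj : jacobiSym 17 p = 1 := by rw [main_rec hp h3, hj17]
    have he : epsp p = 1 := by rw [epsp, if_pos hj3]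
    rw [hj, he]
    have e1 := ev1 p h3 x y h P d H Q HQ
    have a1 := cong_trans (c1 p h3 hj3 P d H) e1.1
    have a2 := cong_trans (c3 p h3 hj3 P d H Q HQ) e1.2
    have hS : (((1 : ℤ) : ℚ)) * 1 * S2 p = S2 p := by push_cast; ring
    rw [hS]
    exact ⟨cong_trans a1 (cong_symm a2), a2⟩
  · intro h17 x y h
    have hp3 : (p : ℤ) % 3 = 2 := by
      rcases main_mod3 hp h3 with h1 | h1
      · rcases main_sq3 x with h4 | h4 <;> omega
      · exact h1
    have hj3 := main_j3' hp3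
    have hy17 : ¬ (17 : ℤ) ∣ y := by
      rintro ⟨z, rfl⟩
      exact h17 (main_dvd17 hp ⟨x ^ 2 + 51 * z ^ 2, by rw [h]; ring⟩)
    have hj17 : jacobiSym p 17 = -1 := by
      have h1 : jacobiSym (4 * p) 17 = jacobiSym (3 * y ^ 2) 17 := by
        apply jacobiSym.mod_left'
        rw [h]
        push_cast
        omega
      rw [jacobiSym.mul_left, jacobiSym.mul_left, main_sq17 hy17] at h1
      have h4 : jacobiSym 4 17 = 1 := by norm_num
      have h5 : jacobiSym 3 17 = -1 := by norm_num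
      rwa [h4, h5, one_mul, mul_one] at h1
    have hj : jacobiSym 17 p = -1 := by rw [main_rec hp h3, hj17]
    have he : epsp p = 17 / 16 := by rw [epsp, if_neg (by rw [hj3]; norm_num)]
    rw [hj, he]
    have e2 := ev2 p h3 h17 x y h P d H Q HQ
    have hmem : (-17 / 16 : ℚ) ∈ Zp p := by
      refine ⟨-17, 16, ?_, by norm_num⟩
      intro h1
      have h2 : (p : ℤ) ∣ 2 ^ 4 := by norm_num; exact h1
      have h4 := Int.Prime.dvd_pow' hp h2
      have h5 : p ∣ 2 := by exact_mod_cast h4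
      have := Nat.le_of_dvd (by norm_num) h5
      omega
    have hc2 := c2 p h3 hj3 P d H
    have a1 := cong_mul hmem (cong_trans hc2 e2.1)
    have a2 := cong_trans (c4 p h3 hj3 P d H Q HQ) e2.2
    have hx0 : (x : ℚ) ≠ 0 := by
      intro h0
      have h1 : x = 0 := by exact_mod_cast h0
      subst h1
      have h2 : (p : ℤ) % 3 = 0 := by omega
      omega
    have hS : (((-1 : ℤ) : ℚ)) * (17 / 16) * S2 p = -17 / 16 * S2 p := by push_cast; ring
    have hR : (-17 / 16 : ℚ) * (-4 * ((chi x : ℤ) : ℚ) * (x - p / (17 * x))) =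
        1 / 4 * ((chi x : ℤ) : ℚ) * (17 * x - p / x) := by
      field_simp
      ring
    rw [hS]
    rw [hR] at a1
    exact ⟨cong_trans a2 (cong_symm a1), a1⟩
  · intro hj3 hj17
    have hj : jacobiSym 17 p = -1 := by rw [main_rec hp h3, hj17]
    have he : epsp p = 1 := by rw [epsp, if_pos hj3]
    rw [hj, he]
    have s1 := sup1 p h3 hj3 hj P d H
    have s2 := sup2 p h3 hj3 hj P d H
    have hmem : (-1 : ℚ) ∈ Zp p := (Zp p).neg_mem (Zp p).one_mem
    have a := cong_mul hmem s2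
    have hS : (((-1 : ℤ) : ℚ)) * 1 * S2 p = -1 * S2 p := by push_cast; ring
    rw [hS]
    rw [mul_zero] at a
    exact ⟨cong_trans s1 (cong_symm a), a⟩

end Pool.Agent.Lib.SCG
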