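import Pool.Agent.Lib.SCG.Defs

/-!
SymA: `∏_j (X - F(ζ^j t))` is the characteristic polynomial of the multiplication by `F`.
PLAN. In `ℂ⟦t⟧` let `V : Matrix (Fin l) (Fin l)`, `V k i = (ζ^k t)^i` (`Matrix.vandermonde`).
Then `V * (MF l F).map (exC l) = diagonal (rsc l k F) * V`: the entry `(k,j)` says
`∑_i (ζ^k t)^i M_ij(t^l) = (ζ^k t)^j F(ζ^k t)`, where `M_ij(s) = ∑_n [j ≤ ln+i] F_{ln+i-j} s^n`:
compare the coefficient of `t^m`, `m = ln + i` (`ζ^{kl} = 1`). Hence
`det V * det(X - M) = det(V(X - M)) = det((X - Λ)V)` in `ℂ⟦t⟧[X]` (map `V` by `C`), and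
`det V ≠ 0` (`Matrix.det_vandermonde_ne_zero_iff`: `ζ^k t` are distinct, `ζ` primitive:
`Complex.isPrimitiveRoot_exp`), so `charpoly (M.map exC) = charpoly Λ = ∏ (X - C (rsc l k F))`
(`Matrix.charpoly_map`, `Matrix.charpoly_diagonal` or `det_diagonal`).
-/

namespace Pool.Agent.Lib.SCG

lemma zt_prim (l : ℕ) (hl : l ≠ 0) : IsPrimitiveRoot (zt l) l := by
  exact Complex.isPrimitiveRoot_exp l hl

private lemma exC_apply (l : ℕ) [NeZero l] (F : PowerSeries ℤ) :
    exC l F = PowerSeries.expand l (NeZero.ne l) (PowerSeries.map (Int.castRingHom ℂ) F) := rfl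

private lemma rsc_apply (l j : ℕ) (F : PowerSeries ℤ) :
    rsc l j F = PowerSeries.rescale (zt l ^ j) (PowerSeries.map (Int.castRingHom ℂ) F) := rfl

private lemma coeff_rsc (l j m : ℕ) (F : PowerSeries ℤ) :
    PowerSeries.coeff m (rsc l j F) = (zt l ^ j) ^ m * ((PowerSeries.coeff m F : ℤ) : ℂ) := by
  rw [rsc_apply, PowerSeries.coeff_rescale, PowerSeries.coeff_map]
  simp

private lemma coeff_exC_mul (l : ℕ) [NeZero l] (m : ℕ) (F : PowerSeries ℤ) :
    PowerSeries.coeff (l * m) (exC l F) = ((PowerSeries.coeff m F : ℤ) : ℂ) := by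
  rw [exC_apply, PowerSeries.coeff_expand_mul, PowerSeries.coeff_map]
  rfl

private lemma coeff_exC_not (l : ℕ) [NeZero l] (m : ℕ) (h : ¬ l ∣ m) (F : PowerSeries ℤ) :
    PowerSeries.coeff m (exC l F) = 0 := by
  rw [exC_apply, PowerSeries.coeff_expand_of_not_dvd _ _ _ h]

lemma exC_inj (l : ℕ) [NeZero l] : Function.Injective (exC l) := by
  intro F G h
  ext n
  have h1 := congrArg (PowerSeries.coeff (l * n)) h
  rw [coeff_exC_mul, coeff_exC_mul] at h1
  exact_mod_cast h1

private lemma zt_pow (l : ℕ) [NeZero l] (j m : ℕ) : (zt l ^ j) ^ (l * m) = 1 := by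
  rw [← pow_mul, show j * (l * m) = l * (j * m) by ring, pow_mul,
    (zt_prim l (NeZero.ne l)).pow_eq_one, one_pow]

lemma rsc_expand (l : ℕ) [NeZero l] (j : ℕ) (F : PowerSeries ℤ) :
    rsc l j (PowerSeries.expand l (NeZero.ne l) F) = exC l F := by
  ext m
  rw [coeff_rsc]
  by_cases h : l ∣ m
  · obtain ⟨n, rfl⟩ := h
    rw [coeff_exC_mul, zt_pow, PowerSeries.coeff_expand_mul, one_mul]
  · rw [coeff_exC_not l m h, PowerSeries.coeff_expand_of_not_dvd _ _ _ h]
    simp

/-- the node -/
private noncomputable def nd (l k : ℕ) : PowerSeries ℂ := PowerSeries.C (zt l ^ k) * PowerSeries.X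

private lemma coeff_nd_pow_mul (l k i m : ℕ) (A : PowerSeries ℂ) :
    PowerSeries.coeff m (nd l k ^ i * A)
      = if i ≤ m then (zt l ^ k) ^ i * PowerSeries.coeff (m - i) A else 0 := by
  rw [nd, mul_pow, ← map_pow (PowerSeries.C : ℂ →+* PowerSeries ℂ), mul_assoc,
    PowerSeries.coeff_C_mul, PowerSeries.coeff_X_pow_mul']
  split_ifs <;> simp

private lemma key (l : ℕ) [NeZero l] (F : PowerSeries ℤ) (k : ℕ) (j : Fin l) :
    ∑ i : Fin l, nd l k ^ (i : ℕ) * exC l (MF l F i j) = rsc l k F * nd l k ^ (j : ℕ) := by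
  ext m
  rw [map_sum, mul_comm (rsc l k F), coeff_nd_pow_mul]
  have hl : 0 < l := NeZero.pos l
  rw [Finset.sum_eq_single (⟨m % l, Nat.mod_lt m hl⟩ : Fin l)]
  · rw [coeff_nd_pow_mul, if_pos (Nat.mod_le m l)]
    have h1 : m - m % l = l * (m / l) := by
      have := Nat.mod_add_div m l
      omega
    rw [show ((⟨m % l, Nat.mod_lt m hl⟩ : Fin l) : ℕ) = m % l from rfl, h1, coeff_exC_mul]
    unfold MF
    rw [PowerSeries.coeff_mk]
    have h2 : l * (m / l) + m % l = m := Nat.div_add_mod m l
    simp only [h2]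
    split_ifs with h3
    · rw [coeff_rsc, ← mul_assoc, ← pow_add, Nat.add_sub_cancel' h3]
      congr 1
      conv_rhs => rw [← h2]
      rw [pow_add, zt_pow, one_mul]
    · simp
  · intro i _ hi
    rw [coeff_nd_pow_mul]
    split_ifs with h3
    · rw [coeff_exC_not, mul_zero]
      intro h4
      apply hi
      ext
      change (i : ℕ) = m % l
      obtain ⟨c, hc⟩ := h4
      have h5 : m = i + l * c := by omega
      rw [h5, Nat.add_mul_mod_self_left, Nat.mod_eq_of_lt i.2]
    · rfl
  · intro h
    exact absurd (Finset.mem_univ _) h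

private lemma nd_inj (l : ℕ) [NeZero l] : Function.Injective (fun k : Fin l => nd l (k : ℕ)) := by
  intro a b h
  have h1 := congrArg (PowerSeries.coeff 1) h
  simp only [nd, PowerSeries.coeff_C_mul, PowerSeries.coeff_one_X, mul_one] at h1
  ext
  exact (zt_prim l (NeZero.ne l)).pow_inj a.2 b.2 h1

theorem symA (l : ℕ) [NeZero l] (F : PowerSeries ℤ) :
    ∏ j ∈ Finset.range l, (Polynomial.X - Polynomial.C (rsc l j F))
      = (PF l F).map (exC l) := by
  set V : Matrix (Fin l) (Fin l) (PowerSeries ℂ) := Matrix.vandermonde (fun k : Fin l => nd l k)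
    with hV
  set M : Matrix (Fin l) (Fin l) (PowerSeries ℂ) := (MF l F).map (exC l) with hM
  set L : Matrix (Fin l) (Fin l) (PowerSeries ℂ) := Matrix.diagonal (fun k : Fin l => rsc l k F)
    with hL
  have h1 : V * M = L * V := by
    ext1 k j
    rw [Matrix.mul_apply, hL, Matrix.diagonal_mul, hV]
    simp only [Matrix.vandermonde_apply, hM, Matrix.map_apply]
    exact key l F k j
  have h2 : V.det ≠ 0 := Matrix.det_vandermonde_ne_zero_iff.2 (nd_inj l)
  have h3 : M.charpoly = L.charpoly := by
    have h4 : (V.map Polynomial.C) * M.charmatrix = L.charmatrix * (V.map Polynomial.C) := by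
      have h6 : (V.map Polynomial.C) * (M.map Polynomial.C)
          = (L.map Polynomial.C) * (V.map (Polynomial.C : PowerSeries ℂ →+* _)) := by
        rw [← Matrix.map_mul, ← Matrix.map_mul, h1]
      simp only [Matrix.charmatrix, RingHom.mapMatrix_apply, mul_sub, sub_mul]
      rw [h6]
      congr 1
      exact (Matrix.scalar_comm _ (fun r => Commute.all _ _) _).symm
    have h5 := congrArg Matrix.det h4
    rw [Matrix.det_mul, Matrix.det_mul, mul_comm] at h5
    have h7 : (V.map Polynomial.C).det ≠ 0 := by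
      have h8 : (V.map Polynomial.C).det = Polynomial.C V.det := by
        rw [RingHom.map_det]; rfl
      rw [h8]
      simpa using h2
    exact mul_right_cancel₀ h7 h5
  rw [PF, ← Matrix.charpoly_map, show (MF l F).map (exC l) = M from rfl, h3, hL,
    Matrix.charpoly_diagonal, Finset.prod_range]

lemma PF_monic (l : ℕ) (F : PowerSeries ℤ) : (PF l F).Monic := Matrix.charpoly_monic _

lemma PF_natDegree (l : ℕ) (F : PowerSeries ℤ) : (PF l F).natDegree = l := by
  rw [PF, Matrix.charpoly_natDegree_eq_dim, Fintype.card_fin]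

/-- Congruent series have congruent polynomials. -/
lemma PF_congr (l : ℕ) (n : ℤ) (F F' : PowerSeries ℤ) (h : PowerSeries.C n ∣ F - F') (k : ℕ) :
    PowerSeries.C n ∣ (PF l F).coeff k - (PF l F').coeff k := by
  set I : Ideal (PowerSeries ℤ) := Ideal.span {PowerSeries.C n} with hI
  have h1 : (MF l F).map (Ideal.Quotient.mk I) = (MF l F').map (Ideal.Quotient.mk I) := by
    ext1 i j
    rw [Matrix.map_apply, Matrix.map_apply, Ideal.Quotient.eq, hI, Ideal.mem_span_singleton]
    obtain ⟨G, hG⟩ := h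
    refine ⟨MF l G i j, ?_⟩
    ext m
    rw [map_sub, PowerSeries.coeff_C_mul]
    simp only [MF, PowerSeries.coeff_mk]
    split_ifs with h2
    · rw [← map_sub, hG, PowerSeries.coeff_C_mul]
    · simp
  have h2 : (PF l F).map (Ideal.Quotient.mk I) = (PF l F').map (Ideal.Quotient.mk I) := by
    rw [PF, PF, ← Matrix.charpoly_map, ← Matrix.charpoly_map, h1]
  have h3 := congrArg (fun P => Polynomial.coeff P k) h2
  simp only [Polynomial.coeff_map] at h3
  rwa [Ideal.Quotient.eq, hI, Ideal.mem_span_singleton] at h3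

lemma PF_one (l : ℕ) : PF l 1 = (Polynomial.X - 1) ^ l := by
  have h : MF l 1 = Matrix.diagonal (fun _ : Fin l => (1 : PowerSeries ℤ)) := by
    ext i j n
    simp only [MF, PowerSeries.coeff_mk, Matrix.diagonal_apply]
    by_cases hij : i = j
    · subst hij
      simp only [le_add_iff_nonneg_left, zero_le, if_true, Nat.add_sub_cancel]
      rcases Nat.eq_zero_or_pos n with rfl | hn
      · simp
      · have hl : 0 < l := i.pos
        rw [PowerSeries.coeff_one, PowerSeries.coeff_one, if_neg (by positivity), if_neg (by omega)]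
    · rw [if_neg hij]
      rw [PowerSeries.coeff_one]
      split_ifs with h1 h2
      · exfalso
        apply hij
        ext
        have h3 : l * n + i = j := by omega
        rcases Nat.eq_zero_or_pos n with rfl | hn
        · simpa using h3
        · have h4 : l ≤ l * n := Nat.le_mul_of_pos_right l hn
          have := j.2
          omega
      · simp
      · simp
  rw [PF, h, Matrix.charpoly_diagonal]
  simp

/-- The constant coefficients: `(X - F_0)^l`. -/
lemma PF_const (l : ℕ) (hl : l ≠ 0) (F : PowerSeries ℤ) :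
    (PF l F).map (PowerSeries.constantCoeff (R := ℤ))
      = (Polynomial.X - Polynomial.C (PowerSeries.constantCoeff F)) ^ l := by
  rw [PF, ← Matrix.charpoly_map, ← Matrix.charpoly_transpose]
  have h : (((MF l F).map (PowerSeries.constantCoeff (R := ℤ))).transpose).IsUpperTriangular := by
    intro i j hij
    have hij' : (j : ℕ) < i := hij
    rw [Matrix.transpose_apply, Matrix.map_apply, ← PowerSeries.coeff_zero_eq_constantCoeff_apply]
    simp only [MF, PowerSeries.coeff_mk]
    rw [if_neg (by omega)]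
  rw [Matrix.charpoly_of_isUpperTriangular _ h]
  have h2 : ∀ i : Fin l, ((MF l F).map (PowerSeries.constantCoeff (R := ℤ))).transpose i i
      = PowerSeries.constantCoeff F := by
    intro i
    rw [Matrix.transpose_apply, Matrix.map_apply, ← PowerSeries.coeff_zero_eq_constantCoeff_apply,
      ← PowerSeries.coeff_zero_eq_constantCoeff_apply]
    simp only [MF, PowerSeries.coeff_mk]
    simp
  simp only [h2]
  simp

end Pool.Agent.Lib.SCG
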