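import Pool.Agent.Lib.SCG.FamA
import Pool.Agent.Lib.SCG.SymA

/-!
PhiA: expansions of the coefficients of `PhiF l w F`.
PLAN. `PhiF_ex`: `ExP l (PhiF l w F) (A.map (exC l))` with
`A = (X - C (χ(l)^w l^w expand l Fs)) * PF l Fs`: `ExP.prod` over `Option (ZMod l)`
(`Fintype.prod_option`; `∏_{j : ZMod l} g (j.val) = ∏_{j ∈ range l} g j`), `symA`; then
`Ex.descend` coefficientwise (`exC l F = expand l (toC F)`).
-/

namespace Pool.Agent.Lib.SCG

open UpperHalfPlane

/-- The formal polynomial. -/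
noncomputable def AF (l : ℕ) [NeZero l] (w : ℕ) (Fs : PowerSeries ℤ) :
    Polynomial (PowerSeries ℤ) :=
  (Polynomial.X - Polynomial.C (PowerSeries.C ((chi l) ^ w * (l : ℤ) ^ w)
      * PowerSeries.expand l (NeZero.ne l) Fs)) * PF l Fs

private lemma PhiA_prodZMod {M : Type*} [CommMonoid M] (l : ℕ) [NeZero l] (g : ℕ → M) :
    ∏ j : ZMod l, g j.val = ∏ j ∈ Finset.range l, g j := by
  cases l with
  | zero => exact absurd rfl (NeZero.ne 0)
  | succ n =>
    rw [Finset.prod_range]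
    rfl

private noncomputable def PhiA_fac (l : ℕ) [NeZero l] (w : ℕ) (Fs : PowerSeries ℤ) :
    Option (ZMod l) → PowerSeries ℂ
  | none => exC l (PowerSeries.C ((chi l) ^ w * (l : ℤ) ^ w)
      * PowerSeries.expand l (NeZero.ne l) Fs)
  | some j => rsc l j.val Fs

theorem PhiF_ex (l : ℕ) [NeZero l] (w : ℕ) {F : ℍ → ℂ} {Fs : PowerSeries ℤ}
    (hF : Ex 1 F (toC Fs)) (n : ℕ) :
    Ex 1 (fun τ => (PhiF l w F τ).coeff n) (toC ((AF l w Fs).coeff n)) := by
  have h1 : ExP l (PhiF l w F) ((AF l w Fs).map (exC l)) := by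
    have h2 : ExP l (fun τ => ∏ C : Option (ZMod l), (Polynomial.X - Polynomial.C (fam l w F C τ)))
        (∏ C : Option (ZMod l), (Polynomial.X - Polynomial.C (PhiA_fac l w Fs C))) := by
      refine ExP.prod _ (fun C _ => (ExP.X l).sub (ExP.C ?_))
      cases C with
      | none => exact fam_none_ex l w hF
      | some j => exact fam_some_ex l w hF j
    have h3 : (∏ C : Option (ZMod l), (Polynomial.X - Polynomial.C (PhiA_fac l w Fs C))) =
        (AF l w Fs).map (exC l) := by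
      rw [Fintype.prod_option]
      simp only [PhiA_fac]
      rw [PhiA_prodZMod l (fun k => Polynomial.X - Polynomial.C (rsc l k Fs)), symA, AF,
        Polynomial.map_mul, Polynomial.map_sub, Polynomial.map_X, Polynomial.map_C]
    rw [h3] at h2
    exact h2
  refine Ex.descend l (NeZero.ne l) ?_
  have h4 := h1 n
  rw [Polynomial.coeff_map] at h4
  exact h4

lemma PhiF_natDegree (l : ℕ) [NeZero l] (w : ℕ) (F : ℍ → ℂ) (τ : ℍ) :
    (PhiF l w F τ).natDegree = l + 1 := by
  unfold PhiF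
  rw [Polynomial.natDegree_prod_of_monic _ _ (fun _ _ => Polynomial.monic_X_sub_C _)]
  simp [ZMod.card]

lemma PhiF_monic (l : ℕ) [NeZero l] (w : ℕ) (F : ℍ → ℂ) (τ : ℍ) :
    (PhiF l w F τ).Monic :=
  Polynomial.monic_prod_of_monic _ _ (fun _ _ => Polynomial.monic_X_sub_C _)

lemma AF_natDegree (l : ℕ) [NeZero l] (w : ℕ) (Fs : PowerSeries ℤ) :
    (AF l w Fs).natDegree = l + 1 := by
  unfold AF
  rw [(Polynomial.monic_X_sub_C _).natDegree_mul (PF_monic l Fs), PF_natDegree,
    Polynomial.natDegree_X_sub_C]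
  ring

lemma AF_monic (l : ℕ) [NeZero l] (w : ℕ) (Fs : PowerSeries ℤ) : (AF l w Fs).Monic :=
  (Polynomial.monic_X_sub_C _).mul (PF_monic l Fs)

end Pool.Agent.Lib.SCG
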