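import Pool.Agent.Lib.SCG.PhiA
import Pool.Agent.Lib.SCG.FamB
import Pool.Agent.Lib.SCG.AutA

/-!
PhiB: the coefficients of `PhiF l w F` are forms.
PLAN. `PhiF_aut`: the expansion (`PhiF_ex`) gives `ex`;
`PhiF l w F (Wτ) = ∏ (X - C (u F_{σC} τ))` with `u = ε χ^w jW^w` by `fam_W`, so
`coeff (l+1-k)` is multiplied by `u^k` (reindex by `σ`: `Equiv.prod_comp`; `∏ (X - u a_C)` =
scaled roots: `coeff (n-k)` of `∏_C (X - u a_C)` is `u^k` times that of `∏ (X - a_C)`, `n = l+1`,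
e.g. by `Multiset.prod_X_sub_C_coeff`/`Finset.esymm` or `Polynomial.scaleRoots`).
-/

namespace Pool.Agent.Lib.SCG

open UpperHalfPlane

lemma chi_sq (l : ℕ) [Fact l.Prime] (h3 : l ≠ 3) : chi l = 1 ∨ chi l = -1 := by
  unfold chi
  apply jacobiSym.eq_one_or_neg_one
  have h := (Nat.coprime_primes (Fact.out : l.Prime) Nat.prime_three).mpr h3
  rw [Int.gcd_eq_natAbs]
  exact_mod_cast h

private lemma phiB_scale {ι : Type*} [Fintype ι] (a : ι → ℂ) (u : ℂ) (hu : u ≠ 0) (n k : ℕ)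
    (hn : Fintype.card ι = n) (hk : k ≤ n) :
    (∏ C : ι, (Polynomial.X - Polynomial.C (u * a C))).coeff (n - k)
      = u ^ k * (∏ C : ι, (Polynomial.X - Polynomial.C (a C))).coeff (n - k) := by
  have h1 : (∏ C : ι, (Polynomial.X - Polynomial.C (u * a C))).comp
      (Polynomial.C u * Polynomial.X) =
      Polynomial.C (u ^ n) * ∏ C : ι, (Polynomial.X - Polynomial.C (a C)) := by
    rw [Polynomial.prod_comp, ← hn]
    have h2 : ∀ C : ι, (Polynomial.X - Polynomial.C (u * a C)).comp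
        (Polynomial.C u * Polynomial.X) =
        Polynomial.C u * (Polynomial.X - Polynomial.C (a C)) := by
      intro C
      rw [Polynomial.sub_comp, Polynomial.X_comp, Polynomial.C_comp, Polynomial.C_mul, mul_sub]
    rw [Finset.prod_congr rfl (fun C _ => h2 C), Finset.prod_mul_distrib, Finset.prod_const,
      Finset.card_univ, Polynomial.C_pow]
  have h3 := congrArg (fun q => Polynomial.coeff q (n - k)) h1
  simp only [Polynomial.comp_C_mul_X_coeff, Polynomial.coeff_C_mul] at h3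
  have h4 : u ^ n = u ^ k * u ^ (n - k) := by
    rw [← pow_add, Nat.add_sub_cancel' hk]
  rw [h4] at h3
  have h5 : u ^ (n - k) ≠ 0 := pow_ne_zero _ hu
  apply mul_right_cancel₀ h5
  rw [h3]
  ring

theorem PhiF_aut (l : ℕ) [Fact l.Prime] [NeZero l] (h3 : l ≠ 3) (w : ℕ) (ε : ℤ)
    (hε : ε = 1 ∨ ε = -1) {F : ℍ → ℂ} {Fs : PowerSeries ℤ} (hF : Aut w ε F)
    (hFs : Ex 1 F (toC Fs)) (k : ℕ) (hk : k ≤ l + 1) :
    Aut ((w * k : ℕ) : ℤ) ((ε ^ k * (chi l) ^ (w * k) : ℤ) : ℂ)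
      (fun τ => (PhiF l w F τ).coeff (l + 1 - k)) := by
  refine ⟨⟨_, PhiF_ex l w hFs (l + 1 - k)⟩, ?_⟩
  intro τ
  obtain ⟨σ, hσ⟩ := fam_W l h3
  have hεc : (ε : ℂ) = 1 ∨ (ε : ℂ) = -1 := by
    rcases hε with h | h
    · left; rw [h]; norm_num
    · right; rw [h]; norm_num
  have hW := fun C => hσ w ε hεc F hF C τ
  set u : ℂ := (ε : ℂ) * ((chi l : ℤ) : ℂ) ^ w * jW τ ^ w with hu
  have hu0 : u ≠ 0 := by
    have h1 : (ε : ℂ) ≠ 0 := by
      rcases hεc with h | h <;> rw [h] <;> norm_num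
    have h2 : ((chi l : ℤ) : ℂ) ≠ 0 := by
      rcases chi_sq l h3 with h | h <;> rw [h] <;> norm_num
    exact mul_ne_zero (mul_ne_zero h1 (pow_ne_zero _ h2)) (pow_ne_zero _ (jW_ne τ))
  have hP : PhiF l w F (W τ) =
      ∏ C : Option (ZMod l), (Polynomial.X - Polynomial.C (u * fam l w F C τ)) := by
    unfold PhiF
    rw [← Equiv.prod_comp σ (fun C => Polynomial.X - Polynomial.C (u * fam l w F C τ))]
    exact Finset.prod_congr rfl fun C _ => by rw [hW C]
  have hcard : Fintype.card (Option (ZMod l)) = l + 1 := by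
    rw [Fintype.card_option, ZMod.card]
  change (PhiF l w F (W τ)).coeff (l + 1 - k) = _
  rw [hP, phiB_scale (fun C => fam l w F C τ) u hu0 (l + 1) k hcard hk]
  change u ^ k * (PhiF l w F τ).coeff (l + 1 - k) = _
  congr 1
  rw [hu, zpow_natCast]
  push_cast
  rw [mul_pow, mul_pow, ← pow_mul, ← pow_mul]

end Pool.Agent.Lib.SCG
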