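import Pool.Agent.Lib.SCG.PhiA
import Pool.Agent.Lib.SCG.SymC
import Pool.Agent.Lib.SCG.KA

/-!
PsiA: expansions of the coefficients of `Psi l`.
PLAN. `Psi_ex`: with `c1 = χ(l) l expand l Gs`, `c3 = χ(l)^3 l^3 expand l Ks` and `S` from
`symC l Gs Ks`: split the sum over `Option (ZMod l)` (`Fintype.sum_option`), `C = none`:
`C c3 * (∏_j rsc_j Gs)^3 * PF.map` (`prod_rsc`, `symA`); `C = some j`:
`(C c1^3 * (X - C c1)) * ∏_{i≠j}(..)`, `∏` over `univ.erase (some j)`. So
`ExP l (Psi l) (B.map (exC l))`, `B = C c3 * C (NG l)^3 * PF l Gs + C c1^3 (X - C c1) (C l * S)`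
`= C (C (l^3)) * B'`. `Ex.descend`.
-/

namespace Pool.Agent.Lib.SCG

open UpperHalfPlane

private lemma PsiA_erase_none {α M : Type*} [Fintype α] [DecidableEq (Option α)] [CommMonoid M]
    (F : Option α → M) : ∏ C ∈ Finset.univ.erase none, F C = ∏ j : α, F (some j) := by
  have : (Finset.univ : Finset (Option α)).erase none =
      Finset.univ.map Function.Embedding.some := by
    ext C
    cases C with
    | none => simp
    | some j => simp
  rw [this, Finset.prod_map]
  rfl

private lemma PsiA_erase_some {α M : Type*} [Fintype α] [DecidableEq α] [DecidableEq (Option α)]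
    [CommMonoid M] (F : Option α → M) (j : α) :
    ∏ C ∈ Finset.univ.erase (some j), F C = F none * ∏ i ∈ Finset.univ.erase j, F (some i) := by
  have : (Finset.univ : Finset (Option α)).erase (some j) =
      Finset.cons none ((Finset.univ.erase j).map Function.Embedding.some) (by simp) := by
    ext C
    cases C with
    | none => simp
    | some j => simp
  rw [this, Finset.prod_cons, Finset.prod_map]
  rfl

private lemma PsiA_prodZMod {M : Type*} [CommMonoid M] (l : ℕ) [NeZero l] (g : ℕ → M) :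
    ∏ j : ZMod l, g j.val = ∏ j ∈ Finset.range l, g j := by
  cases l with
  | zero => exact absurd rfl (NeZero.ne 0)
  | succ n =>
    rw [Finset.prod_range]
    rfl

private lemma PsiA_sumZMod {M : Type*} [AddCommMonoid M] (l : ℕ) [NeZero l] (g : ℕ → M) :
    ∑ j : ZMod l, g j.val = ∑ j ∈ Finset.range l, g j := by
  cases l with
  | zero => exact absurd rfl (NeZero.ne 0)
  | succ n =>
    rw [Finset.sum_range]
    rfl

private lemma PsiA_eraseZMod {M : Type*} [CommMonoid M] (l : ℕ) [NeZero l] [DecidableEq (ZMod l)]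
    (g : ℕ → M) (j : ZMod l) :
    ∏ i ∈ Finset.univ.erase j, g i.val = ∏ i ∈ (Finset.range l).erase j.val, g i := by
  refine Finset.prod_bij (fun i _ => i.val) ?_ ?_ ?_ ?_
  · intro i hi
    rw [Finset.mem_erase, Finset.mem_range]
    exact ⟨fun h => (Finset.mem_erase.1 hi).1 (ZMod.val_injective l h), ZMod.val_lt i⟩
  · intro i _ i' _ h
    exact ZMod.val_injective l h
  · intro b hb
    rw [Finset.mem_erase, Finset.mem_range] at hb
    refine ⟨(b : ZMod l), ?_, ZMod.val_cast_of_lt hb.2⟩
    rw [Finset.mem_erase]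
    refine ⟨fun h => hb.1 ?_, Finset.mem_univ _⟩
    rw [← h, ZMod.val_cast_of_lt hb.2]
  · intro i _
    rfl

private noncomputable def PsiA_fac (l : ℕ) [NeZero l] (w : ℕ) (Fs : PowerSeries ℤ) :
    Option (ZMod l) → PowerSeries ℂ
  | none => exC l (PowerSeries.C ((chi l) ^ w * (l : ℤ) ^ w)
      * PowerSeries.expand l (NeZero.ne l) Fs)
  | some j => rsc l j.val Fs

private lemma PsiA_fac_ex (l : ℕ) [NeZero l] (w : ℕ) {F : ℍ → ℂ} {Fs : PowerSeries ℤ}
    (hF : Ex 1 F (toC Fs)) (C : Option (ZMod l)) :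
    Ex l (fam l w F C) (PsiA_fac l w Fs C) := by
  cases C with
  | none => exact fam_none_ex l w hF
  | some j => exact fam_some_ex l w hF j

/-- Integral formal version of `Psi / l³`. -/
theorem Psi_ex (l : ℕ) [Fact l.Prime] [NeZero l] (h2 : l ≠ 2) :
    ∃ S : Polynomial (PowerSeries ℤ), ∀ n : ℕ,
      Ex 1 (fun τ => (Psi l τ).coeff n) (toC (PowerSeries.C ((l : ℤ) ^ 3) *
        (Polynomial.C (PowerSeries.C (chi l ^ 3) * PowerSeries.expand l (NeZero.ne l) Ks
            * NG l ^ 3) * PF l Gs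
          + Polynomial.C (PowerSeries.C (chi l ^ 3) * PowerSeries.expand l (NeZero.ne l) Gs ^ 3)
            * (Polynomial.X - Polynomial.C (PowerSeries.C (chi l * l)
              * PowerSeries.expand l (NeZero.ne l) Gs))
            * (Polynomial.C (PowerSeries.C (l : ℤ)) * S)).coeff n)) := by
  classical
  obtain ⟨S, hS⟩ := symC l Gs Ks
  refine ⟨S, fun n => ?_⟩
  have hodd : Odd l := (Fact.out : l.Prime).odd_of_ne_two h2
  have hprod := prod_rsc l hodd
  have h1 : ExP l (Psi l) (∑ C : Option (ZMod l), Polynomial.C (PsiA_fac l 3 Ks C) *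
      ∏ C' ∈ Finset.univ.erase C, (Polynomial.C (PsiA_fac l 1 Gs C' ^ 3) *
        (Polynomial.X - Polynomial.C (PsiA_fac l 1 Gs C')))) := by
    have := ExP.sum (h := l) (Finset.univ : Finset (Option (ZMod l)))
      (P := fun C τ => Polynomial.C (fam l 3 Kf C τ) *
        ∏ C' ∈ Finset.univ.erase C, (Polynomial.C (fam l 1 Gf C' τ ^ 3) *
          (Polynomial.X - Polynomial.C (fam l 1 Gf C' τ))))
      (A := fun C => Polynomial.C (PsiA_fac l 3 Ks C) *
      ∏ C' ∈ Finset.univ.erase C, (Polynomial.C (PsiA_fac l 1 Gs C' ^ 3) *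
        (Polynomial.X - Polynomial.C (PsiA_fac l 1 Gs C'))))
      (fun C _ => (ExP.C (PsiA_fac_ex l 3 Kf_ex C)).mul (ExP.prod _ (fun C' _ =>
        (ExP.C ((PsiA_fac_ex l 1 Gf_ex C').pow 3)).mul
          ((ExP.X l).sub (ExP.C (PsiA_fac_ex l 1 Gf_ex C'))))))
    convert this using 2 with τ
    unfold Psi
    refine Finset.sum_congr rfl (fun C _ => ?_)
    congr 1
  set T : Polynomial (PowerSeries ℤ) :=
    (Polynomial.C (PowerSeries.C (chi l ^ 3) * PowerSeries.expand l (NeZero.ne l) Ks
            * NG l ^ 3) * PF l Gs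
          + Polynomial.C (PowerSeries.C (chi l ^ 3) * PowerSeries.expand l (NeZero.ne l) Gs ^ 3)
            * (Polynomial.X - Polynomial.C (PowerSeries.C (chi l * l)
              * PowerSeries.expand l (NeZero.ne l) Gs))
            * (Polynomial.C (PowerSeries.C (l : ℤ)) * S)) with hT
  have h3 : (∑ C : Option (ZMod l), Polynomial.C (PsiA_fac l 3 Ks C) *
      ∏ C' ∈ Finset.univ.erase C, (Polynomial.C (PsiA_fac l 1 Gs C' ^ 3) *
        (Polynomial.X - Polynomial.C (PsiA_fac l 1 Gs C')))) =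
      (Polynomial.C (PowerSeries.C ((l : ℤ) ^ 3)) * T).map (exC l) := by
    rw [Fintype.sum_option, PsiA_erase_none]
    have e1 : (∏ j : ZMod l, (Polynomial.C (PsiA_fac l 1 Gs (some j) ^ 3) *
        (Polynomial.X - Polynomial.C (PsiA_fac l 1 Gs (some j))))) =
        Polynomial.C (exC l (NG l) ^ 3) * (PF l Gs).map (exC l) := by
      simp only [PsiA_fac]
      rw [PsiA_prodZMod l (fun k => Polynomial.C (rsc l k Gs ^ 3) *
        (Polynomial.X - Polynomial.C (rsc l k Gs))), Finset.prod_mul_distrib, symA,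
        ← map_prod, Finset.prod_pow, hprod]
    have e2 : (∑ j : ZMod l, Polynomial.C (PsiA_fac l 3 Ks (some j)) *
        ∏ C' ∈ Finset.univ.erase (some j), (Polynomial.C (PsiA_fac l 1 Gs C' ^ 3) *
        (Polynomial.X - Polynomial.C (PsiA_fac l 1 Gs C')))) =
        (Polynomial.C (PsiA_fac l 1 Gs none ^ 3) *
          (Polynomial.X - Polynomial.C (PsiA_fac l 1 Gs none))) *
        (Polynomial.C (l : PowerSeries ℂ) * S.map (exC l)) := by
      rw [← hS, ← PsiA_sumZMod l (fun j => Polynomial.C (rsc l j Ks) *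
        ∏ i ∈ (Finset.range l).erase j, (Polynomial.C (rsc l i Gs ^ 3) *
          (Polynomial.X - Polynomial.C (rsc l i Gs)))), Finset.mul_sum]
      refine Finset.sum_congr rfl (fun j _ => ?_)
      rw [PsiA_erase_some, ← PsiA_eraseZMod l (fun i => Polynomial.C (rsc l i Gs ^ 3) *
          (Polynomial.X - Polynomial.C (rsc l i Gs)))]
      simp only [PsiA_fac]
      ring
    rw [e1, e2]
    simp only [PsiA_fac]
    rw [hT]
    simp only [Polynomial.map_mul, Polynomial.map_add, Polynomial.map_sub, Polynomial.map_X,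
      Polynomial.map_C, Polynomial.map_pow, Polynomial.map_natCast, map_mul, map_pow,
      map_natCast, pow_one]
    ring
  rw [h3] at h1
  refine Ex.descend l (NeZero.ne l) ?_
  have h4 := h1 n
  rw [Polynomial.coeff_map, Polynomial.coeff_C_mul] at h4
  exact h4

end Pool.Agent.Lib.SCG
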