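import Pool.Agent.Lib.SCG.PsiA
import Pool.Agent.Lib.SCG.PhiB

/-!
PsiB: the coefficients of `Psi l` are forms.
PLAN. `ex` by `Psi_ex`. `fam_W` for `G` (`w=1, ε=1`) and `K` (`w = 3,
ε = -1`) with the SAME permutation: `Psi(Wτ) = ∑_C (-χ^3 jW^3 K_{σC}) ∏_{C'≠C} (χ^3 jW^3 G³)
(X - χ jW G_{σC'})`; `coeff (l-i)` gets the factor `-(χ jW)^{3+3l+i}`, and `χ^{3+3l} = 1` (`l`
odd). (Polynomial identity: with `u = χ jW`, `Psi(Wτ)(u X) = -u^{3+4l} Psi(τ)(X)`: compare the
coefficient of `X^{l-i}`: `u^{l-i} c_i(Wτ) = -u^{3+4l} c_i(τ)`.)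
-/

namespace Pool.Agent.Lib.SCG

open UpperHalfPlane

private lemma PsiB_card (l : ℕ) [NeZero l] [DecidableEq (Option (ZMod l))]
    (C : Option (ZMod l)) : (Finset.univ.erase C).card = l := by
  rw [Finset.card_erase_of_mem (Finset.mem_univ C), Finset.card_univ, Fintype.card_option,
    ZMod.card]
  rfl

lemma Psi_natDegree (l : ℕ) [NeZero l] (τ : ℍ) : (Psi l τ).natDegree ≤ l := by
  classical
  unfold Psi
  refine Polynomial.natDegree_sum_le_of_forall_le _ _ (fun C _ => ?_)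
  refine (Polynomial.natDegree_C_mul_le _ _).trans ?_
  refine (Polynomial.natDegree_prod_le _ _).trans ?_
  refine (Finset.sum_le_card_nsmul _ _ 1 (fun C' _ => ?_)).trans ?_
  · refine (Polynomial.natDegree_C_mul_le _ _).trans ?_
    rw [Polynomial.natDegree_X_sub_C]
  · rw [PsiB_card, smul_eq_mul, mul_one]

private lemma PsiB_comp (l : ℕ) [NeZero l] (σ : Equiv.Perm (Option (ZMod l)))
    (g k g' k' : Option (ZMod l) → ℂ) (u : ℂ) (hg : ∀ C, g' C = u * g (σ C))
    (hk : ∀ C, k' C = -u ^ 3 * k (σ C)) [DecidableEq (Option (ZMod l))] :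
    (∑ C : Option (ZMod l), Polynomial.C (k' C) *
      ∏ C' ∈ Finset.univ.erase C,
        (Polynomial.C (g' C' ^ 3) * (Polynomial.X - Polynomial.C (g' C')))).comp
        (Polynomial.C u * Polynomial.X) =
    Polynomial.C (-u ^ (3 + 4 * l)) * (∑ C : Option (ZMod l), Polynomial.C (k C) *
      ∏ C' ∈ Finset.univ.erase C,
        (Polynomial.C (g C' ^ 3) * (Polynomial.X - Polynomial.C (g C')))) := by
  rw [← Polynomial.coe_compRingHom_apply, map_sum, Finset.mul_sum,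
    ← Equiv.sum_comp σ (fun C => Polynomial.C (-u ^ (3 + 4 * l)) * (Polynomial.C (k C) *
      ∏ C' ∈ Finset.univ.erase C,
        (Polynomial.C (g C' ^ 3) * (Polynomial.X - Polynomial.C (g C')))))]
  refine Finset.sum_congr rfl (fun C _ => ?_)
  rw [Polynomial.coe_compRingHom_apply, Polynomial.mul_comp, Polynomial.C_comp, Polynomial.prod_comp]
  have h1 : (∏ C' ∈ Finset.univ.erase C, (Polynomial.C (g' C' ^ 3) *
      (Polynomial.X - Polynomial.C (g' C'))).comp (Polynomial.C u * Polynomial.X)) =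
      Polynomial.C (u ^ (4 * l)) * ∏ C' ∈ Finset.univ.erase (σ C),
        (Polynomial.C (g C' ^ 3) * (Polynomial.X - Polynomial.C (g C'))) := by
    have h2 : (∏ C' ∈ Finset.univ.erase (σ C),
        (Polynomial.C (g C' ^ 3) * (Polynomial.X - Polynomial.C (g C')))) =
        ∏ C' ∈ Finset.univ.erase C,
        (Polynomial.C (g (σ C') ^ 3) * (Polynomial.X - Polynomial.C (g (σ C')))) := by
      refine (Finset.prod_equiv σ (fun C' => ?_) (fun _ _ => rfl)).symm
      simp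
    have h3 : (Polynomial.C (u ^ (4 * l)) : Polynomial ℂ) =
        ∏ C' ∈ Finset.univ.erase C, Polynomial.C (u ^ 4) := by
      rw [Finset.prod_const, PsiB_card, pow_mul, map_pow]
    rw [h2, h3, ← Finset.prod_mul_distrib]
    refine Finset.prod_congr rfl (fun C' _ => ?_)
    rw [hg C']
    rw [Polynomial.mul_comp, Polynomial.C_comp, Polynomial.sub_comp, Polynomial.X_comp,
      Polynomial.C_comp]
    simp only [map_mul, map_pow]
    ring
  rw [h1, hk C, pow_add]
  simp only [map_mul, map_neg, map_pow]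
  ring

theorem Psi_aut (l : ℕ) [Fact l.Prime] [NeZero l] (h2 : l ≠ 2) (h3 : l ≠ 3) (i : ℕ)
    (hi : i ≤ l) :
    Aut ((3 + 3 * l + i : ℕ) : ℤ) ((-(chi l) ^ i : ℤ) : ℂ)
      (fun τ => (Psi l τ).coeff (l - i)) := by
  classical
  obtain ⟨S, hS⟩ := Psi_ex l h2
  refine ⟨⟨_, hS (l - i)⟩, fun τ => ?_⟩
  obtain ⟨σ, hσ⟩ := fam_W l h3
  have hG := hσ 1 1 (Or.inl rfl) Gf (by simpa using autG)
  have hK := hσ 3 (-1) (Or.inr rfl) Kf (by simpa using autK)
  set u : ℂ := ((chi l : ℤ) : ℂ) * jW τ with hu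
  have hχ : ((chi l : ℤ) : ℂ) = 1 ∨ ((chi l : ℤ) : ℂ) = -1 := by
    rcases chi_sq l h3 with h | h
    · left
      rw [h]
      simp
    · right
      rw [h]
      simp
  have hχ0 : ((chi l : ℤ) : ℂ) ≠ 0 := by
    rcases hχ with h | h <;> rw [h] <;> simp
  have hu0 : u ≠ 0 := mul_ne_zero hχ0 (jW_ne τ)
  have h4 := PsiB_comp l σ (fun C => fam l 1 Gf C τ) (fun C => fam l 3 Kf C τ)
    (fun C => fam l 1 Gf C (W τ)) (fun C => fam l 3 Kf C (W τ)) u
    (fun C => by rw [hG C τ, hu]; ring) (fun C => by rw [hK C τ, hu]; ring)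
  have h5 := congrArg (fun P => Polynomial.coeff P (l - i)) h4
  simp only [Polynomial.comp_C_mul_X_coeff, Polynomial.coeff_C_mul] at h5
  have h6 : (Psi l (W τ)).coeff (l - i) * u ^ (l - i) =
      -u ^ (3 + 4 * l) * (Psi l τ).coeff (l - i) := by
    unfold Psi
    convert h5 using 4
  have h7 : u ^ (3 + 4 * l) = u ^ (3 + 3 * l + i) * u ^ (l - i) := by
    rw [← pow_add]
    congr 1
    omega
  have h8 : (Psi l (W τ)).coeff (l - i) = -u ^ (3 + 3 * l + i) * (Psi l τ).coeff (l - i) := by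
    have h9 : u ^ (l - i) ≠ 0 := pow_ne_zero _ hu0
    apply mul_right_cancel₀ h9
    rw [h6, h7]
    ring
  change (Psi l (W τ)).coeff (l - i) = _ * _ * (Psi l τ).coeff (l - i)
  rw [h8]
  congr 1
  rw [hu, mul_pow, zpow_natCast]
  have hodd : Odd l := (Fact.out : l.Prime).odd_of_ne_two h2
  obtain ⟨m, hm⟩ := hodd
  have h10 : ((chi l : ℤ) : ℂ) ^ (3 + 3 * l + i) = ((chi l : ℤ) : ℂ) ^ i := by
    have e : 3 + 3 * l + i = 2 * (3 + 3 * m) + i := by omega
    rw [e, pow_add, pow_mul]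
    have h11 : ((chi l : ℤ) : ℂ) ^ 2 = 1 := by
      rcases hχ with h | h <;> rw [h] <;> ring
    rw [h11, one_pow, one_mul]
  rw [h10]
  push_cast
  ring

end Pool.Agent.Lib.SCG
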