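import Pool.Agent.Lib.SCG.Act

/-!
Rigid: rigidity of forms of weight `≤ 0`.
PLAN. From `hf : Aut k ε f` build a Mathlib `ModularForm Γ k` for
`Γ = (CongruenceSubgroup.Gamma1 3).map (mapGL ℝ)` (or `Gamma 3`, or any arithmetic subgroup for
which it is convenient: e.g. all matrices of `SL(2,ℤ)` with `3 ∣ c`, `a ≡ 1`): slash invariance is
`Aut.act` (for `a ≡ d ≡ 1 mod 3`, `χ(d) = 1`; `UpperHalfPlane` action of `SL(2,ℤ)` =
`mob a b c d`, `ModularForm.SL_slash_apply`); holomorphic: `Ex.mdiff`; bounded at the cusps: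
`OnePoint.isBoundedAt_iff_exists_SL2Z`: every cusp is `γ' ∞` with `γ' ∈ SL(2,ℤ)`, and it suffices
to show that `f ∣[k] g` is bounded at `i∞` for EVERY `g = (a b; c d) ∈ SL(2,ℤ)` (`∀`-version
`isBoundedAt_iff_forall_SL2Z`). Case `3 ∣ c`: `f ∣[k] g = ± f` by `Aut.act`, bounded by `Ex.bdd`.
Case `3 ∤ c`: choose `j ∈ {0,1,2}` with `d ≡ c j mod 3`; then `g = γ S T^j` with
`γ = g T^{-j} S^{-1}`, `S = (0 -1; 1 0)`: `g T^{-j} = (a, b - aj; c, d - cj)`, times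
`S^{-1} = (0 1; -1 0)`: `(-(b-aj), a; -(d-cj), c)`, lower left entry divisible by 3. So
`f∣g (τ) = ± (f∣S)(τ+j)` and `(f∣S)(τ) = τ^{-k} f(-1/τ) = τ^{-k} f(W(τ/3)) =
ε τ^{-k} (-i√3 τ/3)^k f(τ/3) = const * f(τ/3)`, bounded as `f` is.
Then Mathlib `ModularForm.isZero_of_neg_weight` (needs `Γ.IsArithmetic`) and
`ModularForm.eq_const_of_weight_zero`; in weight 0 the constant is the limit at `i∞`
(`Ex.tendsto`), `= constantCoeff a = 0`.
-/

namespace Pool.Agent.Lib.SCG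

open UpperHalfPlane
open scoped MatrixGroups ModularForm Manifold

private lemma det_eq (g : SL(2, ℤ)) : g 0 0 * g 1 1 - g 0 1 * g 1 0 = 1 := by
  have := g.det_coe
  rw [Matrix.det_fin_two] at this
  exact this

private lemma det_pos' (g : SL(2, ℤ)) : 0 < g 0 0 * g 1 1 - g 0 1 * g 1 0 := by
  rw [det_eq]; norm_num

private lemma smul_eq (g : SL(2, ℤ)) (τ : ℍ) :
    g • τ = mob (g 0 0) (g 0 1) (g 1 0) (g 1 1) (det_pos' g) τ := by
  ext
  rw [coe_mob, UpperHalfPlane.coe_specialLinearGroup_apply]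
  simp

private lemma slash_apply' (f : ℍ → ℂ) (k : ℤ) (g : SL(2, ℤ)) (τ : ℍ) :
    (f ∣[k] g) τ = f (mob (g 0 0) (g 0 1) (g 1 0) (g 1 1) (det_pos' g) τ) *
      ((g 1 0 : ℂ) * τ + g 1 1) ^ (-k) := by
  rw [ModularForm.SL_slash_apply, smul_eq, ModularGroup.denom_apply]

private lemma slash_dvd {k : ℤ} {ε : ℂ} (hε : ε = 1 ∨ ε = -1) {f : ℍ → ℂ} (hf : Aut k ε f)
    (g : SL(2, ℤ)) (hc : 3 ∣ g 1 0) (τ : ℍ) :
    (f ∣[k] g) τ = ((chi (g 1 1) : ℤ) : ℂ) ^ k * f τ := by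
  rw [slash_apply', Aut.act hε hf _ _ _ _ (det_eq g) hc (det_pos' g) τ]
  have h0 := denom_ne _ _ _ _ (det_pos' g) τ
  rw [zpow_neg]
  field_simp

private lemma slash_ndvd {k : ℤ} {ε : ℂ} (hε : ε = 1 ∨ ε = -1) {f : ℍ → ℂ} (hf : Aut k ε f)
    (g : SL(2, ℤ)) (hc : ¬ 3 ∣ g 1 0) :
    ∃ (C : ℂ) (j : ℤ), ∀ τ : ℍ, (f ∣[k] g) τ = C * f (mob 1 j 0 3 (by norm_num) τ) := by
  set a := g 0 0 with ha
  set b := g 0 1 with hb
  set c := g 1 0 with hc'
  set d := g 1 1 with hd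
  have hdet : a * d - b * c = 1 := det_eq g
  refine ⟨((chi c : ℤ) : ℂ) ^ k * (ε * (-(Complex.I * ((Real.sqrt 3 : ℝ) : ℂ)) / 3) ^ k),
    c * d, fun τ => ?_⟩
  rw [slash_apply']
  simp only [← ha, ← hb, ← hc', ← hd]
  set j := c * d with hj
  have h3 : 3 ∣ -(d - c * j) := by
    have h1 : c % 3 = 1 ∨ c % 3 = 2 := by omega
    have h2 : (3 : ℤ) ∣ 1 - c * c := by
      rcases h1 with h1 | h1
      · obtain ⟨q, hq⟩ : ∃ q, c = 3 * q + 1 := ⟨c / 3, by omega⟩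
        exact ⟨-(3 * q ^ 2 + 2 * q), by rw [hq]; ring⟩
      · obtain ⟨q, hq⟩ : ∃ q, c = 3 * q + 2 := ⟨c / 3, by omega⟩
        exact ⟨-(3 * q ^ 2 + 4 * q + 1), by rw [hq]; ring⟩
    have h4 : -(d - c * j) = (1 - c * c) * (-d) := by rw [hj]; ring
    rw [h4]
    exact Dvd.dvd.mul_right h2 _
  have hdetM : (-(b - a * j)) * c - a * (-(d - c * j)) = 1 := by
    have : (-(b - a * j)) * c - a * (-(d - c * j)) = a * d - b * c := by ring
    rw [this, hdet]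
  have hposM : 0 < (-(b - a * j)) * c - a * (-(d - c * j)) := by rw [hdetM]; norm_num
  have hden : ((c : ℂ) * τ + d) ≠ 0 := denom_ne a b c d (by rw [hdet]; norm_num) τ
  have hτj : (τ : ℂ) + j ≠ 0 := by
    have := denom_ne 0 (-1) 1 j (by norm_num) τ
    simpa using this
  -- the point
  have hpt : mob a b c d (det_pos' g) τ
      = mob (-(b - a * j)) a (-(d - c * j)) c hposM (W (mob 1 j 0 3 (by norm_num) τ)) := by
    ext
    rw [coe_mob, coe_mob, W, coe_mob, coe_mob]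
    push_cast
    have hd2 := hden
    have h5 : ((1 : ℂ) * τ + j) ≠ 0 := by simpa using hτj
    have h6 : -(((d : ℂ)) - c * j) * ((0 * (((1 : ℂ) * τ + j) / (0 * τ + 3)) + -1) /
        (3 * (((1 : ℂ) * τ + j) / (0 * τ + 3)) + 0)) + c = ((c : ℂ) * τ + d) / (τ + j) := by
      field_simp
      ring
    have h7 : -(((b : ℂ)) - a * j) * ((0 * (((1 : ℂ) * τ + j) / (0 * τ + 3)) + -1) /
        (3 * (((1 : ℂ) * τ + j) / (0 * τ + 3)) + 0)) + a = ((a : ℂ) * τ + b) / (τ + j) := by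
      field_simp
      ring
    rw [h6, h7]
    field_simp
  rw [hpt, Aut.act hε hf _ _ _ _ hdetM h3 hposM, hf.fr]
  have hW : (((-(d - c * j) : ℤ) : ℂ) * (W (mob 1 j 0 3 (by norm_num) τ) : ℍ) + c)
      = ((c : ℂ) * τ + d) / (τ + j) := by
    rw [W, coe_mob, coe_mob]
    push_cast
    have h5 : ((1 : ℂ) * τ + j) ≠ 0 := by simpa using hτj
    field_simp
    ring
  have hjW : jW (mob 1 j 0 3 (by norm_num) τ)
      = (-(Complex.I * ((Real.sqrt 3 : ℝ) : ℂ)) / 3) * (τ + j) := by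
    rw [jW, coe_mob]
    push_cast
    ring
  rw [hW, hjW, div_zpow, mul_zpow, zpow_neg]
  have h8 : ((τ : ℂ) + j) ^ k ≠ 0 := zpow_ne_zero _ hτj
  have h9 : ((c : ℂ) * τ + d) ^ k ≠ 0 := zpow_ne_zero _ hden
  field_simp

private lemma bdd_slash {k : ℤ} {ε : ℂ} (hε : ε = 1 ∨ ε = -1) {f : ℍ → ℂ} (hf : Aut k ε f)
    (g : SL(2, ℤ)) : IsBoundedAtImInfty (f ∣[k] g) := by
  obtain ⟨a, ha⟩ := hf.ex
  have hb := Ex.bdd (by norm_num) ha
  rw [UpperHalfPlane.isBoundedAtImInfty_iff] at hb ⊢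
  obtain ⟨M, A, hMA⟩ := hb
  by_cases hc : 3 ∣ g 1 0
  · refine ⟨‖((chi (g 1 1) : ℤ) : ℂ) ^ k‖ * M, A, fun z hz => ?_⟩
    rw [slash_dvd hε hf g hc z, norm_mul]
    exact mul_le_mul_of_nonneg_left (hMA z hz) (norm_nonneg _)
  · obtain ⟨C, j, h⟩ := slash_ndvd hε hf g hc
    refine ⟨‖C‖ * M, 3 * A, fun z hz => ?_⟩
    rw [h z, norm_mul]
    refine mul_le_mul_of_nonneg_left (hMA _ ?_) (norm_nonneg _)
    have him : (mob 1 j 0 3 (by norm_num) z).im = z.im / 3 := by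
      rw [← UpperHalfPlane.coe_im, coe_mob]
      push_cast
      have : ((1 : ℂ) * z + j) / (0 * z + 3) = ((z : ℂ) + j) / (3 : ℝ) := by push_cast; ring
      rw [this, Complex.div_ofReal_im]
      simp
    rw [him]
    linarith

private noncomputable def mf {k : ℤ} {ε : ℂ} (hε : ε = 1 ∨ ε = -1) {f : ℍ → ℂ} (hf : Aut k ε f) :
    ModularForm ((CongruenceSubgroup.Gamma 3).map (Matrix.SpecialLinearGroup.mapGL ℝ)) k where
  toFun := f
  slash_action_eq' := by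
    rintro _ ⟨g, hg, rfl⟩
    funext τ
    have h1 := slash_dvd hε hf g (by
      have := (CongruenceSubgroup.Gamma_mem.mp hg).2.2.1
      exact (ZMod.intCast_zmod_eq_zero_iff_dvd _ _).mp this) τ
    have h2 : (f ∣[k] (Matrix.SpecialLinearGroup.mapGL ℝ g)) τ = (f ∣[k] g) τ := rfl
    rw [h2, h1]
    have h3 : chi (g 1 1) = 1 := by
      have := (CongruenceSubgroup.Gamma_mem.mp hg).2.2.2
      rw [chi_mod]
      have h4 : (g 1 1) % 3 = 1 := by
        have h5 : ((g 1 1 : ℤ) : ZMod 3) = ((1 : ℤ) : ZMod 3) := by simpa using this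
        have h6 := (ZMod.intCast_eq_intCast_iff _ _ _).mp h5
        have h7 := h6.eq
        simpa using h7
      rw [h4]; norm_num
    rw [h3]; simp
  holo' := by
    obtain ⟨a, ha⟩ := hf.ex
    exact Ex.mdiff (by norm_num) ha
  bdd_at_cusps' {c} hc := by
    rw [Subgroup.IsArithmetic.isCusp_iff_isCusp_SL2Z] at hc
    rw [OnePoint.isBoundedAt_iff_forall_SL2Z hc]
    intro g _
    exact bdd_slash hε hf g

theorem rigid_neg {k : ℤ} {ε : ℂ} (hε : ε = 1 ∨ ε = -1) {f : ℍ → ℂ} (hf : Aut k ε f)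
    (hk : k < 0) (τ : ℍ) : f τ = 0 := by
  have h := ModularForm.isZero_of_neg_weight hk (mf hε hf)
  have h1 : (mf hε hf) τ = 0 := by rw [h]; rfl
  exact h1

theorem rigid_zero {ε : ℂ} (hε : ε = 1 ∨ ε = -1) {f : ℍ → ℂ} (hf : Aut 0 ε f)
    {a : PowerSeries ℂ} (ha : Ex 1 f a) (h0 : PowerSeries.constantCoeff a = 0) (τ : ℍ) :
    f τ = 0 := by
  obtain ⟨c, hc⟩ := ModularForm.eq_const_of_weight_zero (mf hε hf)
  have h1 : f = Function.const ℍ c := hc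
  have h2 := Ex.tendsto (by norm_num) ha
  rw [h0, h1] at h2
  have h3 : c = 0 := tendsto_nhds_unique (tendsto_const_nhds (x := c) (f := atImInfty)) h2
  rw [h1, h3]; rfl

end Pool.Agent.Lib.SCG
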