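import Pool.Agent.Lib.SCG.AutD
import Pool.Agent.Lib.SCG.Rigid

/-!
Rel: the relations `K² = G⁶ - 108 D` and `G θ²G - 2 (θG)² = 6 D`.
PLAN. `aut6_zero`: `Aut.divD` gives `f = D g`, `g ∈ Aut 0 1` with constant coefficient
`= coeff 1 a = 0` (`coeff 1 (Ds * b) = b_0`), and `rigid_zero`. For `K²`: `autK.pow 2`,
`autG.pow 6`, `autD`; coefficients `K² = 1 - 72 q`, `G⁶ = 1 + 36 q`, `108 D = 108 q`. For the
second: the law of `θG` is `thf_W` (`k = 1`, `ε = 1`), the law of `θ²G` is obtained from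
`(θG)(W) = -jW³ θG - cW jW² G` by differentiating once more: use `thf_W`-type computation: put
`g1 = θG`; `(θg1)(W) = jW⁵ θg1 + 4 cW jW⁴ g1 + 2 cW² jW³ G` (direct differentiation; the chain
rule `-(jW)^{-2} (θg1)(Wτ) = θ(g1 ∘ W)`), hence
`G(W) (θg1)(W) - 2 g1(W)² = jW⁶ (G θg1 - 2 g1²)`. Expansion: coefficient 0 is 0, coefficient 1 of
`G θ²G` is 6, of `(θG)²` is 0. The formal versions follow from `Ex.unique` and `toC_inj`.
-/

namespace Pool.Agent.Lib.SCG

open UpperHalfPlane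
open scoped Manifold

private lemma cc_toC {F : PowerSeries ℤ} {n : ℤ} (h : PowerSeries.constantCoeff F = n) :
    PowerSeries.constantCoeff (toC F) = n := by
  rw [← PowerSeries.coeff_zero_eq_constantCoeff_apply] at h ⊢
  rw [toC, PowerSeries.coeff_map, h]
  simp

lemma aut6_zero {f : ℍ → ℂ} (hf : Aut 6 1 f) {a : PowerSeries ℂ} (ha : Ex 1 f a)
    (h0 : PowerSeries.coeff 0 a = 0) (h1 : PowerSeries.coeff 1 a = 0) (τ : ℍ) : f τ = 0 := by
  rw [PowerSeries.coeff_zero_eq_constantCoeff_apply] at h0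
  obtain ⟨g, b, hg, hb, hab, hfg⟩ := hf.divD ha h0
  have hb0 : PowerSeries.constantCoeff b = 0 := by
    rw [hab, PowerSeries.coeff_one_mul] at h1
    have e0 : PowerSeries.constantCoeff (toC Ds) = 0 := by exact_mod_cast cc_toC Ds_zero
    have e1 : PowerSeries.coeff 1 (toC Ds) = 1 := by
      have := Ds_one
      simp [toC, this]
    rw [e0, e1] at h1
    simpa using h1
  have hg0 : Aut 0 1 g := by simpa using hg
  rw [hfg, rigid_zero (Or.inl rfl) hg0 hb hb0, mul_zero]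

private lemma toC_thS (F : PowerSeries ℤ) : thS (toC F) = toC (thS F) := by
  ext n
  simp [thS, toC]

private lemma WW (τ : ℍ) : W (W τ) = τ := by
  ext
  have h := τ.ne_zero
  rw [W, W, coe_mob, coe_mob]
  push_cast
  field_simp
  ring

private lemma mdG : MDiff Gf := Gf_ex.mdiff one_pos

private lemma mdG1 : MDiff (thf Gf) := (Gf_ex.thf).mdiff one_pos

private lemma jW_mdiff : MDiff jW := by
  rw [UpperHalfPlane.mdifferentiable_iff]
  have h : DifferentiableOn ℂ (fun z : ℂ => -(Complex.I * ((Real.sqrt 3 : ℝ) : ℂ) * z))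
      {z | 0 < z.im} := by fun_prop
  refine h.congr fun z hz => ?_
  rw [Function.comp_apply, jW, UpperHalfPlane.ofComplex_apply_of_im_pos hz]

private lemma thf_jW (τ : ℍ) : thf jW τ = cW := by
  have h : (jW ∘ UpperHalfPlane.ofComplex) =ᶠ[nhds (τ : ℂ)]
      fun z : ℂ => (-(Complex.I * ((Real.sqrt 3 : ℝ) : ℂ))) * z := by
    filter_upwards [UpperHalfPlane.isOpen_upperHalfPlaneSet.mem_nhds τ.im_pos] with z hz
    rw [Function.comp_apply, jW, UpperHalfPlane.ofComplex_apply_of_im_pos hz]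
    simp
  change (2 * Real.pi * Complex.I : ℂ)⁻¹ * deriv (jW ∘ UpperHalfPlane.ofComplex) (τ : ℂ) = _
  rw [h.deriv_eq, deriv_const_mul_field, deriv_id'', mul_one, cW]
  have hpi : (Real.pi : ℂ) ≠ 0 := by exact_mod_cast Real.pi_ne_zero
  field_simp

private lemma chainW {F R : ℍ → ℂ} (hF : MDiff F) (hR : MDiff R) (h : ∀ τ, F (W τ) = R τ)
    (τ : ℍ) : thf F (W τ) = -jW τ ^ 2 * thf R τ := by
  have hRW : ∀ τ, R (W τ) = F τ := fun τ => by rw [← h (W τ), WW]
  have e1 := thf_W (f := F + R) (hF.add hR) (k := 0) (ε := 1) (fun τ => by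
    simp only [Pi.add_apply, h, hRW]; rw [zpow_zero]; ring) τ
  have e2 := thf_W (f := F - R) (hF.sub hR) (k := 0) (ε := -1) (fun τ => by
    simp only [Pi.sub_apply, h, hRW]; rw [zpow_zero]; ring) τ
  rw [thf, Derivative.normalizedDerivOfComplex_add F R hF hR] at e1
  rw [thf, Derivative.normalizedDerivOfComplex_sub F R hF hR] at e2
  simp only [Pi.add_apply, Pi.sub_apply, Int.cast_zero, zero_mul, add_zero] at e1 e2
  have h2 : (jW τ) ^ ((0 : ℤ) + 2) = jW τ ^ 2 := by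
    rw [zero_add]; exact zpow_ofNat _ 2
  rw [h2] at e1 e2
  linear_combination (e1 + e2) / 2

private lemma g1_W (τ : ℍ) :
    thf Gf (W τ) = -(jW τ ^ 3 * thf Gf τ) - cW * (jW τ ^ 2 * Gf τ) := by
  have h := thf_W mdG autG.fr τ
  have h3 : (jW τ) ^ ((1 : ℤ) + 2) = jW τ ^ 3 := by
    norm_num
  rw [h, h3]
  have := jW_ne τ
  push_cast
  field_simp
  ring

private lemma g2_W (τ : ℍ) : thf (thf Gf) (W τ) = jW τ ^ 5 * thf (thf Gf) τ +
    4 * cW * jW τ ^ 4 * thf Gf τ + 2 * cW ^ 2 * jW τ ^ 3 * Gf τ := by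
  have hj2 : MDiff (jW ^ 2) := by
    rw [pow_two]; exact jW_mdiff.mul jW_mdiff
  have hj3 : MDiff (jW ^ 3) := by
    rw [pow_succ]; exact hj2.mul jW_mdiff
  have hR : MDiff (-(jW ^ 3 * thf Gf) - cW • (jW ^ 2 * Gf)) :=
    ((hj3.mul mdG1).neg).sub ((hj2.mul mdG).const_smul cW)
  have h := chainW mdG1 hR (fun τ => by
    rw [g1_W]
    simp only [Pi.sub_apply, Pi.neg_apply, Pi.mul_apply, Pi.pow_apply, Pi.smul_apply,
      smul_eq_mul]) τ
  rw [h, thf, Derivative.normalizedDerivOfComplex_sub _ _ ((hj3.mul mdG1).neg)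
    ((hj2.mul mdG).const_smul cW), Derivative.normalizedDerivOfComplex_neg _ (hj3.mul mdG1),
    Derivative.normalizedDerivOfComplex_smul _ _ (hj2.mul mdG),
    Derivative.normalizedDerivOfComplex_mul _ _ hj3 mdG1,
    Derivative.normalizedDerivOfComplex_mul _ _ hj2 mdG,
    Derivative.normalizedDerivOfComplex_pow _ _ jW_mdiff,
    Derivative.normalizedDerivOfComplex_pow _ _ jW_mdiff]
  have hj := thf_jW τ
  simp only [Pi.sub_apply, Pi.neg_apply, Pi.mul_apply, Pi.pow_apply, Pi.smul_apply,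
      smul_eq_mul, Pi.add_apply, hj]
  simp
  ring

private lemma sq_ex : Ex 1 (fun τ => Kf τ ^ 2 - (Gf τ ^ 6 - 108 * Df τ))
    (toC Ks ^ 2 - (toC Gs ^ 6 - PowerSeries.C 108 * toC Ds)) :=
  (Kf_ex.pow 2).sub ((Gf_ex.pow 6).sub (Df_ex.smul 108))

private lemma ode_ex : Ex 1 (fun τ => Gf τ * thf (thf Gf) τ - 2 * thf Gf τ ^ 2)
    (toC Gs * thS (thS (toC Gs)) - PowerSeries.C 2 * thS (toC Gs) ^ 2) :=
  (Gf_ex.mul Gf_ex.thf.thf).sub ((Gf_ex.thf.pow 2).smul 2)

theorem Kf_sq (τ : ℍ) : Kf τ ^ 2 = Gf τ ^ 6 - 108 * Df τ := by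
  have h1 : Aut 6 1 (fun τ => Kf τ ^ 2) := by
    have := autK.pow 2
    norm_num at this
    exact this
  have h2 : Aut 6 1 (fun τ => Gf τ ^ 6) := by
    have := autG.pow 6
    norm_num at this
    exact this
  have h := aut6_zero (h1.sub (h2.sub (autD.smul 108))) sq_ex ?_ ?_ τ
  · linear_combination h
  · rw [PowerSeries.coeff_zero_eq_constantCoeff_apply, map_sub, map_sub, map_pow, map_pow,
      map_mul, cc_toC Ks_zero, cc_toC Gs_zero, cc_toC Ds_zero]
    norm_num
  · have e1 : PowerSeries.coeff 1 (toC Ks) = -36 := by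
      have := Ks_one
      simp [toC, this]
    have e2 : PowerSeries.coeff 1 (toC Gs) = 6 := by
      have := Gs_one
      simp [toC, this]
    have e3 : PowerSeries.coeff 1 (toC Ds) = 1 := by
      have := Ds_one
      simp [toC, this]
    rw [map_sub, map_sub, PowerSeries.coeff_one_pow, PowerSeries.coeff_one_pow,
      PowerSeries.coeff_C_mul, e1, e2, e3, cc_toC Ks_zero, cc_toC Gs_zero]
    norm_num

theorem Gf_ode (τ : ℍ) : Gf τ * thf (thf Gf) τ - 2 * thf Gf τ ^ 2 = 6 * Df τ := by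
  have h1 : Aut 6 1 (fun τ => Gf τ * thf (thf Gf) τ - 2 * thf Gf τ ^ 2) := by
    refine ⟨⟨_, ode_ex⟩, fun τ => ?_⟩
    have hg := autG.fr τ
    rw [zpow_one, one_mul] at hg
    rw [g2_W, g1_W, hg]
    have h6 : (jW τ) ^ (6 : ℤ) = jW τ ^ 6 := zpow_ofNat _ 6
    rw [h6]
    ring
  have h := aut6_zero (h1.sub (autD.smul 6)) (ode_ex.sub (Df_ex.smul 6)) ?_ ?_ τ
  · linear_combination h
  · rw [PowerSeries.coeff_zero_eq_constantCoeff_apply, map_sub, map_sub, map_mul, map_mul,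
      map_mul, map_pow, cc_toC Gs_zero, cc_toC Ds_zero,
      ← PowerSeries.coeff_zero_eq_constantCoeff_apply, ← PowerSeries.coeff_zero_eq_constantCoeff_apply]
    simp [thS]
  · have e2 : PowerSeries.coeff 1 (toC Gs) = 6 := by
      have := Gs_one
      simp [toC, this]
    have e3 : PowerSeries.coeff 1 (toC Ds) = 1 := by
      have := Ds_one
      simp [toC, this]
    have e4 : PowerSeries.constantCoeff (thS (toC Gs)) = 0 := by
      rw [← PowerSeries.coeff_zero_eq_constantCoeff_apply]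
      simp [thS]
    have e5 : PowerSeries.constantCoeff (thS (thS (toC Gs))) = 0 := by
      rw [← PowerSeries.coeff_zero_eq_constantCoeff_apply]
      simp [thS]
    have e6 : PowerSeries.coeff 1 (thS (thS (toC Gs))) = 6 := by
      simp only [thS, PowerSeries.coeff_mk, e2]
      norm_num
    rw [map_sub, map_sub, PowerSeries.coeff_one_mul, PowerSeries.coeff_C_mul,
      PowerSeries.coeff_one_pow,
      PowerSeries.coeff_C_mul, e6, e5, e4, e3, cc_toC Gs_zero]
    norm_num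

theorem Ks_sq : Ks ^ 2 = Gs ^ 6 - 108 * Ds := by
  apply toC_inj
  have h1 := sq_ex.congr (g := fun _ => 0) (fun τ => by rw [Kf_sq]; ring)
  have h2 : Ex 1 (fun _ => (0 : ℂ)) 0 := by simpa using Ex.const 1 0
  have h3 := Ex.unique one_pos h1 h2
  rw [sub_eq_zero] at h3
  simp only [toC, map_pow, map_sub, map_mul, map_ofNat]
  simp only [toC, map_ofNat] at h3
  exact h3

theorem Gs_ode : Gs * thS (thS Gs) - 2 * thS Gs ^ 2 = 6 * Ds := by
  apply toC_inj
  have h1 := (ode_ex.sub (Df_ex.smul 6)).congr (g := fun _ => 0) (fun τ => by rw [Gf_ode]; ring)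
  have h2 : Ex 1 (fun _ => (0 : ℂ)) 0 := by simpa using Ex.const 1 0
  have h3 := Ex.unique one_pos h1 h2
  rw [sub_eq_zero, toC_thS, toC_thS] at h3
  simp only [toC, map_pow, map_sub, map_mul, map_ofNat]
  simp only [toC, map_ofNat] at h3
  exact h3

end Pool.Agent.Lib.SCG
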