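import Pool.Agent.Lib.SCG.HG
import Pool.Agent.Lib.SCG.OdeB
import Pool.Agent.Lib.SCG.CongA

/-!
SupA: case 3, the form `E = G^{p-1} P_p(y) ≡ 1 mod p` and its family for `l = 5`.
PLAN. `χ p = 1` (so `p ≡ 1 mod 6`, `6 deg P_p ≤ p` gives `6 deg P_p ≤ p - 1`). `E = hom (p-1) (P p)
Gf Df ∈ Aut (p-1) 1` with expansion `Es = hom (p-1) (P p) Gs Ds`; `Gs * Es = hom p (P p) Gs Ds ≡
NG p ≡ Gs mod p` (`pform`, `NG_congr`), `Gs` unit: `Es ≡ 1 mod p`. `AF 5 (p-1) Es ≡ (X-1)^6 mod p`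
(`PF_congr`, `PF_one`, `5^(p-1) ≡ 1 mod p` as `p ≠ 5`: `p ≡ 1 mod 3`, `χ(5)^{p-1} = 1`).
`struct_int` for `(-1)^k (PhiF 5 (p-1) E τ).coeff (6-k)` (`PhiF_aut` with `l = 5`, `w = p-1` even,
`ε = 1`: sign `χ(5)^{(p-1)k} = 1`) gives `B k`; `hom (k(p-1)) (B k) Gs Ds ≡ C(6,k) ≡ C(6,k) Es^k =
hom (k(p-1)) (C(6,k) (P p)^k) Gs Ds mod p` (`hom_mul`), so `p ∣ B k - C(6,k) (P p)^k`
(`sgh_dvd`).
-/

namespace Pool.Agent.Lib.SCG

open UpperHalfPlane

private lemma supA_mod (p : ℕ) (hchi : chi p = 1) : p % 3 = 1 := by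
  unfold chi at hchi
  rw [jacobiSym.mod_left] at hchi
  have h1 : ((p : ℤ) % ((3 : ℕ) : ℤ)) = ((p % 3 : ℕ) : ℤ) := by simp
  rw [h1] at hchi
  have h2 : p % 3 < 3 := Nat.mod_lt _ (by norm_num)
  interval_cases h : p % 3
  · norm_num at hchi
  · rfl
  · norm_num at hchi

private lemma supA_aut_sum {k : ℤ} {g : ℍ → ℂ} (hg : Aut k 1 g) (f : ℕ → ℍ → ℂ) (n : ℕ)
    (hf : ∀ j < n, Aut k 1 (f j)) : Aut k 1 (fun τ => ∑ j ∈ Finset.range n, f j τ) := by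
  induction n with
  | zero =>
    refine (hg.smul 0).congr (fun τ => ?_)
    simp
  | succ n ih =>
    refine ((ih (fun j hj => hf j (by omega))).add (hf n (by omega))).congr (fun τ => ?_)
    rw [Finset.sum_range_succ]

private lemma supA_aut (k : ℕ) (P : Polynomial ℤ) :
    Aut (k : ℤ) 1 (fun τ => hom k P (Gf τ) (Df τ)) := by
  have hG : ∀ m : ℕ, Aut (m : ℤ) 1 (fun τ => Gf τ ^ m) := by
    intro m
    have h := autG.pow m
    rwa [one_pow, mul_one] at h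
  unfold hom
  refine supA_aut_sum (hG k) (fun j τ => ((P.coeff j : ℤ) : ℂ) * Df τ ^ j * Gf τ ^ (k - 6 * j)) _ ?_
  intro j hj
  have hD := autD.pow j
  rw [one_pow] at hD
  have h1 := (hD.smul ((P.coeff j : ℤ) : ℂ)).mul (hG (k - 6 * j))
  have e : ((j : ℤ) * 6 + ((k - 6 * j : ℕ) : ℤ)) = (k : ℤ) := by
    have : 6 * j ≤ k := by omega
    push_cast [Nat.cast_sub this]
    ring
  rw [e, one_mul] at h1
  exact h1

private lemma supA_ex (k : ℕ) (P : Polynomial ℤ) :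
    Ex 1 (fun τ => hom k P (Gf τ) (Df τ)) (toC (hom k P Gs Ds)) := by
  have h0 : toC (hom k P Gs Ds) = hom k P (toC Gs) (toC Ds) :=
    hom_map (PowerSeries.map (Int.castRingHom ℂ)) k P Gs Ds
  rw [h0]
  unfold hom
  refine Ex.sum _ (fun j _ => ?_)
  have hc : (((P.coeff j : ℤ) : PowerSeries ℂ)) = PowerSeries.C ((P.coeff j : ℤ) : ℂ) := by
    rw [map_intCast]
  rw [hc]
  exact (Ex.smul _ (Df_ex.pow j)).mul (Gf_ex.pow (k - 6 * j))

theorem supE (p : ℕ) [Fact p.Prime] [NeZero p] (h3 : 3 < p) (hchi : chi p = 1)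
    (P : ℕ → Polynomial ℤ) (d : Polynomial ℤ) (H : HGdata p P d) :
    6 * (P p).natDegree ≤ p - 1 ∧
    Aut ((p - 1 : ℕ) : ℤ) 1 (fun τ => hom (p - 1) (P p) (Gf τ) (Df τ)) ∧
    Ex 1 (fun τ => hom (p - 1) (P p) (Gf τ) (Df τ)) (toC (hom (p - 1) (P p) Gs Ds)) ∧
    PowerSeries.C (p : ℤ) ∣ hom (p - 1) (P p) Gs Ds - 1 := by
  have hp : p.Prime := Fact.out
  have hmod := supA_mod p hchi
  have hodd : p % 2 = 1 := by
    rcases hp.eq_two_or_odd with h | h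
    · omega
    · exact h
  have hdeg := H.deg p (by omega)
  rw [hchi, one_pow] at hdeg
  unfold DegOK at hdeg
  rw [if_pos rfl] at hdeg
  have hdeg2 : 6 * (P p).natDegree ≤ p - 1 := by omega
  refine ⟨hdeg2, supA_aut _ _, supA_ex _ _, ?_⟩
  have hf := H.pform
  rw [hchi] at hf
  unfold sgh at hf
  rw [if_pos rfl] at hf
  have hm := hom_mul 1 (p - 1) 1 (P p) (by simp) hdeg2 Gs Ds
  rw [hom_one, one_mul, pow_one] at hm
  have hp1 : 1 + (p - 1) = p := by omega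
  rw [hp1] at hm
  rw [hm] at hf
  have hf1 : PowerSeries.C (p : ℤ) ∣ Gs * hom (p - 1) (P p) Gs Ds - NG p := by
    refine dvd_trans ?_ hf
    rw [pow_two, map_mul]
    exact dvd_mul_right _ _
  have hf2 := dvd_add hf1 (NG_congr p)
  have e : Gs * hom (p - 1) (P p) Gs Ds - NG p + (NG p - Gs) =
      Gs * (hom (p - 1) (P p) Gs Ds - 1) := by ring
  rw [e] at hf2
  have hu : IsUnit Gs := by
    rw [PowerSeries.isUnit_iff_constantCoeff, Gs_zero]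
    exact isUnit_one
  exact (hu.dvd_mul_left).1 hf2

end Pool.Agent.Lib.SCG
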