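import Pool.Agent.Lib.SCG.SupA

/-!
SupA2: case 3, the family of `E` for `l = 5`.
PLAN. See the header of SupA: `AF 5 (p-1) Es ≡ (X-1)^6 mod p`
(`PF_congr`, `PF_one`, `5^(p-1) ≡ 1 mod p` as `p ≠ 5`: `p ≡ 1 mod 3`, `χ(5)^{p-1} = 1`).
`struct_int` for `(-1)^k (PhiF 5 (p-1) E τ).coeff (6-k)` (`PhiF_aut` with `l = 5`, `w = p-1` even,
`ε = 1`: sign `χ(5)^{(p-1)k} = 1`; `PhiF_ex`) gives `B k`;
`hom (k(p-1)) (B k) Gs Ds ≡ C(6,k) ≡ C(6,k) Es^k = hom (k(p-1)) (C(6,k) (P p)^k) Gs Ds mod p`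
(`hom_mul`, induction), so `p ∣ B k - C(6,k) (P p)^k` (`sgh_dvd`).
-/

namespace Pool.Agent.Lib.SCG

open UpperHalfPlane

private lemma sa2_even {p : ℕ} (hp : p.Prime) (h3 : 3 < p) : Even (p - 1) := by
  have h1 := Nat.odd_iff.mp (hp.odd_of_ne_two (by omega))
  exact Nat.even_iff.mpr (by omega)

private lemma sa2_chi5 : chi ((5 : ℕ) : ℤ) = -1 := by rw [chi_mod]; norm_num

private lemma sa2_hom_pow {A : Type*} [CommRing A] (n : ℕ) (P : Polynomial ℤ)
    (hP : 6 * P.natDegree ≤ n) (g δ : A) (k : ℕ) :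
    hom (k * n) (P ^ k) g δ = hom n P g δ ^ k := by
  induction k with
  | zero => rw [zero_mul, pow_zero, pow_zero, hom_one, pow_zero]
  | succ k ih =>
    have h1 : 6 * (P ^ k).natDegree ≤ k * n := by
      have := Polynomial.natDegree_pow_le (p := P) (n := k)
      nlinarith
    rw [add_mul, one_mul, pow_succ, hom_mul _ _ _ _ h1 hP, ih, pow_succ]

private lemma sa2_AF (p : ℕ) [Fact p.Prime] (h3 : 3 < p) (hp5 : p ≠ 5) (Es : PowerSeries ℤ)
    (h : PowerSeries.C (p : ℤ) ∣ Es - 1) (n : ℕ) :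
    PowerSeries.C (p : ℤ) ∣ (AF 5 (p - 1) Es).coeff n
      - ((Polynomial.X - 1 : Polynomial (PowerSeries ℤ)) ^ 6).coeff n := by
  have hp := Fact.out (p := p.Prime)
  set I : Ideal (PowerSeries ℤ) := Ideal.span {PowerSeries.C (p : ℤ)} with hI
  have hmk : ∀ a b : PowerSeries ℤ, Ideal.Quotient.mk I a = Ideal.Quotient.mk I b ↔
      PowerSeries.C (p : ℤ) ∣ a - b := by
    intro a b
    rw [Ideal.Quotient.eq, hI, Ideal.mem_span_singleton]
  have h1 : (PF 5 Es).map (Ideal.Quotient.mk I)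
      = ((Polynomial.X - 1 : Polynomial (PowerSeries ℤ)) ^ 5).map (Ideal.Quotient.mk I) := by
    ext m
    rw [Polynomial.coeff_map, Polynomial.coeff_map, hmk, ← PF_one]
    exact PF_congr 5 p Es 1 h m
  have h2 : Ideal.Quotient.mk I (PowerSeries.C ((chi ((5 : ℕ) : ℤ)) ^ (p - 1) * ((5 : ℕ) : ℤ) ^ (p - 1))
      * PowerSeries.expand 5 (NeZero.ne 5) Es) = 1 := by
    have h3' : Ideal.Quotient.mk I (PowerSeries.expand 5 (NeZero.ne 5) Es) = 1 := by
      rw [← map_one (Ideal.Quotient.mk I), hmk]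
      obtain ⟨G, hG⟩ := h
      refine ⟨PowerSeries.expand 5 (NeZero.ne 5) G, ?_⟩
      have := congrArg (PowerSeries.expand 5 (NeZero.ne 5)) hG
      rw [map_sub, map_one, map_mul] at this
      rw [this]
      congr 1
      exact PowerSeries.expand_C 5 (NeZero.ne 5) _
    have h4 : Ideal.Quotient.mk I (PowerSeries.C ((chi ((5 : ℕ) : ℤ)) ^ (p - 1)
        * ((5 : ℕ) : ℤ) ^ (p - 1))) = 1 := by
      rw [← map_one (Ideal.Quotient.mk I), hmk, sa2_chi5, (sa2_even hp h3).neg_one_pow, one_mul,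
        ← map_one (PowerSeries.C (R := ℤ)), ← map_sub]
      have h5 : (p : ℤ) ∣ ((5 : ℕ) : ℤ) ^ (p - 1) - 1 := by
        have h6 : IsCoprime (5 : ℤ) p := by
          rw [Int.isCoprime_iff_gcd_eq_one]
          have : Nat.Coprime 5 p := (Nat.coprime_primes (by norm_num) hp).mpr (Ne.symm hp5)
          exact_mod_cast this
        have h7 := Int.ModEq.pow_card_sub_one_eq_one hp h6
        exact_mod_cast (Int.modEq_iff_dvd.mp h7.symm)
      exact map_dvd (PowerSeries.C (R := ℤ)) h5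
    rw [map_mul, h3', h4, one_mul]
  have h5 : (AF 5 (p - 1) Es).map (Ideal.Quotient.mk I)
      = ((Polynomial.X - 1 : Polynomial (PowerSeries ℤ)) ^ 6).map (Ideal.Quotient.mk I) := by
    rw [AF, Polynomial.map_mul, Polynomial.map_sub, Polynomial.map_X, Polynomial.map_C, h2, h1,
      pow_succ' (Polynomial.X - 1 : Polynomial (PowerSeries ℤ)) 5, Polynomial.map_mul,
      Polynomial.map_sub, Polynomial.map_X, Polynomial.map_one, Polynomial.C_1]
  have h6 := congrArg (fun P => Polynomial.coeff P n) h5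
  simp only [Polynomial.coeff_map] at h6
  exact (hmk _ _).mp h6

private lemma sa2_binom (k : ℕ) (hk : k ≤ 6) :
    ((Polynomial.X - 1 : Polynomial (PowerSeries ℤ)) ^ 6).coeff (6 - k)
      = (-1) ^ k * PowerSeries.C ((Nat.choose 6 k : ℕ) : ℤ) := by
  have h1 : (Polynomial.X - 1 : Polynomial (PowerSeries ℤ))
      = Polynomial.X + Polynomial.C (-1) := by
    rw [Polynomial.C_neg, Polynomial.C_1]; ring
  rw [h1, Polynomial.coeff_X_add_C_pow, Nat.sub_sub_self hk, Nat.choose_symm hk]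
  congr 1

theorem supB (p : ℕ) [Fact p.Prime] [NeZero p] (h3 : 3 < p) (hchi : chi p = 1)
    (P : ℕ → Polynomial ℤ) (d : Polynomial ℤ) (H : HGdata p P d) :
    ∃ B : ℕ → Polynomial ℤ, ∀ k ≤ 6, 6 * (B k).natDegree ≤ k * (p - 1) ∧
      (∀ τ, (PhiF 5 (p - 1) (fun τ => hom (p - 1) (P p) (Gf τ) (Df τ)) τ).coeff (6 - k)
        = (-1) ^ k * hom (k * (p - 1)) (B k) (Gf τ) (Df τ)) ∧
      Polynomial.C (p : ℤ) ∣ B k - Polynomial.C ((Nat.choose 6 k : ℕ) : ℤ) * (P p) ^ k := by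
  have hp := Fact.out (p := p.Prime)
  have hf5 : Fact (Nat.Prime 5) := ⟨by norm_num⟩
  have hp5 : p ≠ 5 := by
    rintro rfl
    rw [sa2_chi5] at hchi
    norm_num at hchi
  obtain ⟨hdeg, hAut, hEx, hcong⟩ := supE p h3 hchi P d H
  obtain ⟨E, hE⟩ : ∃ E : ℍ → ℂ, E = fun τ => hom (p - 1) (P p) (Gf τ) (Df τ) := ⟨_, rfl⟩
  obtain ⟨Es, hEs⟩ : ∃ Es : PowerSeries ℤ, Es = hom (p - 1) (P p) Gs Ds := ⟨_, rfl⟩
  rw [← hE] at hAut hEx ⊢
  rw [← hEs] at hEx hcong
  suffices hmain : ∀ k, ∃ Bk : Polynomial ℤ, k ≤ 6 → (6 * Bk.natDegree ≤ k * (p - 1) ∧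
      (∀ τ, (PhiF 5 (p - 1) E τ).coeff (6 - k)
        = (-1) ^ k * hom (k * (p - 1)) Bk (Gf τ) (Df τ)) ∧
      Polynomial.C (p : ℤ) ∣ Bk - Polynomial.C ((Nat.choose 6 k : ℕ) : ℤ) * (P p) ^ k) by
    choose B hB using hmain
    exact ⟨B, hB⟩
  intro k
  by_cases hk : k ≤ 6
  swap
  · exact ⟨0, fun h => absurd h hk⟩
  have hA1 := PhiF_aut 5 (by norm_num) (p - 1) 1 (Or.inl rfl) (F := E) (Fs := Es)
    (by rw [Int.cast_one]; exact hAut) hEx k (by omega)
  have hsign : ((1 : ℤ) ^ k * (chi ((5 : ℕ) : ℤ)) ^ ((p - 1) * k) : ℤ) = 1 := by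
    rw [sa2_chi5, one_pow, one_mul, pow_mul, (sa2_even hp h3).neg_one_pow, one_pow]
  rw [hsign, Int.cast_one] at hA1
  have hA2 := hA1.smul ((-1 : ℂ) ^ k)
  have hX1 := PhiF_ex 5 (p - 1) hEx (6 - k)
  have hX2 := Ex.smul ((-1 : ℂ) ^ k) hX1
  have hX3 : PowerSeries.C ((-1 : ℂ) ^ k) * toC ((AF 5 (p - 1) Es).coeff (6 - k))
      = toC ((-1) ^ k * (AF 5 (p - 1) Es).coeff (6 - k)) := by
    rw [toC, toC, map_mul, map_pow, map_pow, map_neg, map_neg, map_one, map_one]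
  rw [hX3] at hX2
  have hkp : ((p - 1) * k : ℕ) = k * (p - 1) := by ring
  rw [hkp] at hA2
  obtain ⟨Bk, hB1, hB2, hB3⟩ := struct_int 1 (Or.inl rfl) (k * (p - 1)) (by
    rw [Int.cast_one]; exact hA2) hX2
  rw [DegOK, if_pos rfl] at hB1
  rw [sgh, if_pos rfl] at hB3
  refine ⟨Bk, fun _ => ⟨hB1, fun τ => ?_, ?_⟩⟩
  · have h1 := hB2 τ
    rw [sgh, if_pos rfl] at h1
    rw [← h1, ← mul_assoc, ← mul_pow]
    norm_num
  · refine sgh_dvd 1 (Or.inl rfl) (k * (p - 1)) _ ?_ p ?_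
    · rw [DegOK, if_pos rfl]
      have h1 : (Polynomial.C ((Nat.choose 6 k : ℕ) : ℤ) * (P p) ^ k).natDegree
          ≤ k * (P p).natDegree :=
        (Polynomial.natDegree_C_mul_le _ _).trans Polynomial.natDegree_pow_le
      have h2 := Polynomial.natDegree_sub_le Bk
        (Polynomial.C ((Nat.choose 6 k : ℕ) : ℤ) * (P p) ^ k)
      have h4 : 6 * (k * (P p).natDegree) ≤ k * (p - 1) := by nlinarith
      have h5 := max_le_iff.mp (le_refl (max Bk.natDegree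
        (Polynomial.C ((Nat.choose 6 k : ℕ) : ℤ) * (P p) ^ k).natDegree))
      rcases le_total Bk.natDegree (Polynomial.C ((Nat.choose 6 k : ℕ) : ℤ) * (P p) ^ k).natDegree
        with h6 | h6
      · rw [max_eq_right h6] at h2
        omega
      · rw [max_eq_left h6] at h2
        omega
    · rw [sgh, if_pos rfl, hom_sub, hom_C_mul, sa2_hom_pow (p - 1) (P p) hdeg, ← hEs, ← hB3]
      have h1 := sa2_AF p h3 hp5 Es hcong (6 - k)
      rw [sa2_binom k hk] at h1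
      have h2 : PowerSeries.C (p : ℤ) ∣ Es ^ k - 1 := by
        have := sub_dvd_pow_sub_pow Es 1 k
        rw [one_pow] at this
        exact hcong.trans this
      have hcc : (((Nat.choose 6 k : ℕ) : ℤ) : PowerSeries ℤ)
          = PowerSeries.C ((Nat.choose 6 k : ℕ) : ℤ) := by simp
      have hmm : ((-1 : PowerSeries ℤ)) ^ k * (-1) ^ k = 1 := by
        rw [← mul_pow]; norm_num
      have h4 : (-1) ^ k * (AF 5 (p - 1) Es).coeff (6 - k)
          - (((Nat.choose 6 k : ℕ) : ℤ) : PowerSeries ℤ) * Es ^ k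
          = (-1) ^ k * ((AF 5 (p - 1) Es).coeff (6 - k)
            - (-1) ^ k * PowerSeries.C ((Nat.choose 6 k : ℕ) : ℤ))
            - PowerSeries.C ((Nat.choose 6 k : ℕ) : ℤ) * (Es ^ k - 1) := by
        rw [hcc]
        linear_combination (PowerSeries.C ((Nat.choose 6 k : ℕ) : ℤ)) * hmm
      rw [h4]
      exact dvd_sub (Dvd.dvd.mul_left h1 _) (Dvd.dvd.mul_left h2 _)

end Pool.Agent.Lib.SCG
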