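import Pool.Agent.Lib.SCG.SupA2
import Pool.Agent.Lib.SCG.FiveB
import Pool.Agent.Lib.SCG.EvZ

/-!
SupB: case 3, `p ∣ P_p(-1/1728)`.
PLAN. `c := 1728^{(p-1)/6}`, `g₀ = G(τ₀)`, `E₀ = E(τ₀) = g₀^{p-1} R`, `R = evc (P p)` (`hom_eval`,
`Df_tau0`), `R' := c R ∈ ℤ` (`deg P_p ≤ (p-1)/6`), `b_k := c^k evc (B k) ∈ ℤ`
(`deg B_k ≤ k(p-1)/6`), `b_k ≡ C(6,k) R'^k mod p`. The monic integral polynomial
`f = ∑_{k≤6} (-1)^k b_k X^{6-k}` satisfies `f ≡ (X - R')^6 mod p` and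
`f(c E_C/g₀^{p-1}) = 0` for all `C` (`PhiF 5 (p-1) E τ₀` evaluated at `E_C`, divided by powers of
`g₀`). By `tau2` (`l = 5`, `x = y = 1`, `w = p-1`, `ε = 1`): `c E_C/g₀^{p-1} = ν^{p-1} R'`,
`ν = (√17 - √3 i)/2`. So `(ν^{p-1}R' - R')^6 = p ξ` with an algebraic integer `ξ` (an integral
polynomial in `ν`). Let `𝒪` be the ring of algebraic integers in `ℂ` (`integralClosure ℤ ℂ`), `𝔪` a
maximal ideal above `p` (`Ideal.exists_ideal_over_maximal_of_isIntegral`); in the field `𝒪/𝔪` of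
characteristic `p`: `(ν^{p-1} - 1) R' = 0`, so `(2ν^p - 2ν) R' = 0`, and (Frobenius is additive)
`2 ν^p = (2ν)^p = √17^p - (√3 i)^p = 17^{(p-1)/2} √17 - (-3)^{(p-1)/2} √3 i = -√17 - √3 i`
(Euler: `17` a non-residue, `-3` a residue as `p ≡ 1 mod 3`), so `2ν^p - 2ν = -2√17`, hence
`4·17·R'² ∈ 𝔪 ∩ ℤ = (p)`, `p ∣ R'`. ALTERNATIVE: a ring homomorphism from the finitely generated
ring `ℤ[√17, √-3, ν]` to a finite field.
-/

namespace Pool.Agent.Lib.SCG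

open Polynomial

private lemma alg_core {O : Type*} [CommRing O] (p : ℕ) (hp : p.Prime) (hp2 : p ≠ 2) (ν s t : O)
    (hs : s ^ 2 = 17) (ht : t ^ 2 = -3) (hν : 2 * ν = s - t)
    (h17 : (p : ℤ) ∣ 17 ^ (p / 2) + 1) (h3 : (p : ℤ) ∣ (-3) ^ (p / 2) - 1)
    (N r : ℤ) (x : O) (h : (N : O) * (ν ^ (p - 1) * r - r) ^ 6 = p * x) :
    ∃ y : O, ((N * r ^ 6 * 64 * 17 ^ 3 : ℤ) : O) = p * y := by
  have hodd : Odd p := hp.odd_of_ne_two hp2
  have hp1 : p = 2 * (p / 2) + 1 := by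
    have := Nat.odd_iff.mp hodd
    omega
  have hspow : s ^ p = s * 17 ^ (p / 2) := by
    conv_lhs => rw [hp1]
    rw [pow_succ, pow_mul, hs]; ring
  have htpow : t ^ p = t * (-3) ^ (p / 2) := by
    conv_lhs => rw [hp1]
    rw [pow_succ, pow_mul, ht]; ring
  obtain ⟨u, hu⟩ := h17
  obtain ⟨v, hv⟩ := h3
  have hu' : (17 : O) ^ (p / 2) = p * u - 1 := by
    have := congrArg (Int.cast : ℤ → O) hu
    push_cast at this
    linear_combination this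
  have hv' : (-3 : O) ^ (p / 2) = p * v + 1 := by
    have := congrArg (Int.cast : ℤ → O) hv
    push_cast at this
    linear_combination this
  obtain ⟨w0, hw0⟩ := exists_add_pow_prime_eq hp s (-t)
  rw [hodd.neg_pow] at hw0
  obtain ⟨w, hw⟩ : ∃ w : O, (s + -t) ^ p = s ^ p + -t ^ p + p * w := ⟨s * -t * w0, by
    rw [hw0]; ring⟩
  have hfer : (p : ℤ) ∣ 2 ^ p - 2 := by
    have : Fact p.Prime := ⟨hp⟩
    rw [← ZMod.intCast_zmod_eq_zero_iff_dvd]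
    push_cast
    rw [ZMod.pow_card]; ring
  obtain ⟨z, hz⟩ := hfer
  have hz' : (2 : O) ^ p = p * z + 2 := by
    have := congrArg (Int.cast : ℤ → O) hz
    push_cast at this
    linear_combination this
  have h2ν : (2 : O) ^ p * ν ^ p = s ^ p + -(t ^ p) + p * w := by
    have h0 : (2 : O) * ν = s + -t := by rw [hν]; ring
    rw [← mul_pow, h0, hw]
  have hkey : (p : O) ∣ (2 * ν ^ p - 2 * ν) - (-(2 * s)) := by
    refine ⟨s * u - t * v + w - z * ν ^ p, ?_⟩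
    have h1 : 2 * ν ^ p = 2 ^ p * ν ^ p - p * z * ν ^ p := by rw [hz']; ring
    rw [h1, h2ν, hspow, htpow, hu', hv', hν]
    ring
  have h6 : (p : O) ∣ (2 * ν ^ p - 2 * ν) ^ 6 - (-(2 * s)) ^ 6 :=
    hkey.trans (sub_dvd_pow_sub_pow _ _ 6)
  obtain ⟨q, hq⟩ := h6
  have hνp : ν ^ p = ν ^ (p - 1) * ν := by
    rw [← pow_succ]; congr 1; have := hp.pos; omega
  have hs6 : s ^ 6 = 17 ^ 3 := by
    have : s ^ 6 = (s ^ 2) ^ 3 := by ring
    rw [this, hs]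
  refine ⟨x * (2 * ν) ^ 6 - N * r ^ 6 * q, ?_⟩
  simp only [Int.cast_mul, Int.cast_pow, Int.cast_ofNat]
  have e1 : (N : O) * r ^ 6 * (2 * ν ^ p - 2 * ν) ^ 6
      = (N : O) * (ν ^ (p - 1) * r - r) ^ 6 * (2 * ν) ^ 6 := by
    rw [hνp]; ring
  have e2 : (N : O) * r ^ 6 * 64 * 17 ^ 3 = N * r ^ 6 * (-(2 * s)) ^ 6 := by
    have : (-(2 * s)) ^ 6 = 64 * s ^ 6 := by ring
    rw [this, hs6]; ring
  rw [e2]
  have e3 : (-(2 * s)) ^ 6 = (2 * ν ^ p - 2 * ν) ^ 6 - p * q := by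
    linear_combination -hq
  rw [e3, mul_sub, e1, h]
  ring

private lemma div17 (p : ℕ) [hp : Fact p.Prime] (h17 : jacobiSym 17 p = -1) :
    (p : ℤ) ∣ 17 ^ (p / 2) + 1 := by
  rw [← jacobiSym.legendreSym.to_jacobiSym] at h17
  have h := legendreSym.eq_pow p 17
  rw [h17] at h
  rw [← ZMod.intCast_zmod_eq_zero_iff_dvd]
  push_cast at h ⊢
  rw [← h]; ring

private lemma jac3 (p : ℕ) [hp : Fact p.Prime] (h3 : 3 < p) (hchi : chi p = 1) :
    jacobiSym (-3) p = 1 := by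
  have hodd : Odd p := hp.out.odd_of_ne_two (by omega)
  have h1 : jacobiSym (-3) p = jacobiSym (-1) p * jacobiSym 3 p := by
    rw [← jacobiSym.mul_left]; norm_num
  have hcp : jacobiSym (p : ℤ) 3 = 1 := hchi
  have h4 : p % 4 = 1 ∨ p % 4 = 3 := by
    have := Nat.odd_iff.mp hodd
    omega
  rw [h1, jacobiSym.at_neg_one hodd]
  rcases h4 with h4 | h4
  · have h5 := jacobiSym.quadratic_reciprocity_one_mod_four' (a := 3) (b := p) (by decide) h4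
    rw [ZMod.χ₄_nat_one_mod_four h4]
    have h6 : jacobiSym 3 p = 1 := by
      have : jacobiSym ((3 : ℕ) : ℤ) p = jacobiSym (p : ℤ) 3 := h5
      rw [hcp] at this
      exact_mod_cast this
    rw [h6]; norm_num
  · have h5 := jacobiSym.quadratic_reciprocity_three_mod_four (a := 3) (b := p) (by norm_num) h4
    rw [ZMod.χ₄_nat_three_mod_four h4]
    have h6 : jacobiSym 3 p = -1 := by
      have : jacobiSym ((3 : ℕ) : ℤ) p = -jacobiSym (p : ℤ) 3 := h5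
      rw [hcp] at this
      exact_mod_cast this
    rw [h6]; norm_num

private lemma div3 (p : ℕ) [hp : Fact p.Prime] (h3 : 3 < p) (hchi : chi p = 1) :
    (p : ℤ) ∣ (-3) ^ (p / 2) - 1 := by
  have h17 := jac3 p h3 hchi
  rw [← jacobiSym.legendreSym.to_jacobiSym] at h17
  have h := legendreSym.eq_pow p (-3)
  rw [h17] at h
  rw [← ZMod.intCast_zmod_eq_zero_iff_dvd]
  push_cast at h ⊢
  rw [← h]; ring

private lemma clear (Q : Polynomial ℤ) (M : ℕ) (hM : Q.natDegree ≤ M) :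
    ∃ z : ℤ, (z : ℚ) = 1728 ^ M * evq Q := by
  refine ⟨∑ i ∈ Finset.range (M + 1), Q.coeff i * (-1) ^ i * 1728 ^ (M - i), ?_⟩
  have h1 : evq Q = ∑ i ∈ Finset.range (M + 1), ((Q.coeff i : ℤ) : ℚ) * (-1 / 1728 : ℚ) ^ i := by
    have := Polynomial.eval₂_eq_sum_range' (Int.castRingHom ℚ) (Nat.lt_succ_of_le hM)
      (-1 / 1728 : ℚ)
    simpa [evq] using this
  rw [h1, Finset.mul_sum]
  push_cast
  refine Finset.sum_congr rfl fun i hi => ?_
  have hi' : i ≤ M := Nat.lt_succ_iff.mp (Finset.mem_range.mp hi)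
  have h2 : (1728 : ℚ) ^ M = 1728 ^ (M - i) * 1728 ^ i := by
    rw [← pow_add]; congr 1; omega
  rw [h2, div_pow]
  field_simp

private lemma int_of_O (p : ℕ) (hp : p.Prime) (m : ℤ) (y : integralClosure ℤ ℂ)
    (h : ((m : ℤ) : integralClosure ℤ ℂ) = p * y) : (p : ℤ) ∣ m := by
  have hp0 : (p : ℚ) ≠ 0 := by exact_mod_cast hp.ne_zero
  have hp0' : (p : ℂ) ≠ 0 := by exact_mod_cast hp.ne_zero
  have h1 : (m : ℂ) = p * (y : ℂ) := by
    have := congrArg (Subtype.val) h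
    simpa using this
  have h2 : (y : ℂ) = algebraMap ℚ ℂ ((m : ℚ) / p) := by
    have : (algebraMap ℚ ℂ) ((m : ℚ) / p) = (m : ℂ) / p := by simp
    rw [this, h1]
    field_simp
  have h3 : IsIntegral ℤ (algebraMap ℚ ℂ ((m : ℚ) / p)) := h2 ▸ y.2
  have h4 : IsIntegral ℤ ((m : ℚ) / p) :=
    (isIntegral_algebraMap_iff (algebraMap ℚ ℂ).injective).mp h3
  obtain ⟨n, hn⟩ := IsIntegrallyClosed.isIntegral_iff.mp h4
  refine ⟨n, ?_⟩
  have h5 : (n : ℚ) = (m : ℚ) / p := by simpa using hn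
  rw [eq_div_iff hp0] at h5
  have h6 : (m : ℚ) = ((p * n : ℤ) : ℚ) := by push_cast; linarith
  exact_mod_cast h6

private lemma not_dvd_1728 (p : ℕ) (hp : p.Prime) (h3 : 3 < p) (M : ℕ) :
    ¬ (p : ℤ) ∣ 1728 ^ M := by
  intro h
  have h0 := (Nat.prime_iff_prime_int.mp hp).dvd_of_dvd_pow h
  have h1 : (p : ℤ) ∣ ((2 ^ 6 * 3 ^ 3 : ℕ) : ℤ) := by simpa using h0
  have h2 : p ∣ 2 ^ 6 * 3 ^ 3 := by exact_mod_cast h1
  rcases (Nat.Prime.dvd_mul hp).mp h2 with h | h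
  · have := (Nat.prime_dvd_prime_iff_eq hp Nat.prime_two).mp (hp.dvd_of_dvd_pow h)
    omega
  · have := (Nat.prime_dvd_prime_iff_eq hp Nat.prime_three).mp (hp.dvd_of_dvd_pow h)
    omega

private lemma dvd_r (p : ℕ) [Fact p.Prime] (h3 : 3 < p) (h17 : jacobiSym 17 p = -1) (M : ℕ)
    (r : ℤ) (h : (p : ℤ) ∣ 1728 ^ M * r ^ 6 * 64 * 17 ^ 3) : (p : ℤ) ∣ r := by
  have hp := Fact.out (p := p.Prime)
  have hpi := Nat.prime_iff_prime_int.mp hp
  rcases hpi.dvd_or_dvd h with h | h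
  · rcases hpi.dvd_or_dvd h with h | h
    · rcases hpi.dvd_or_dvd h with h | h
      · exact absurd h (not_dvd_1728 p hp h3 M)
      · exact hpi.dvd_of_dvd_pow h
    · exfalso
      have h1 : (p : ℤ) ∣ 2 := hpi.dvd_of_dvd_pow (n := 6) (by norm_num; exact h)
      have h2 : p ∣ 2 := by exact_mod_cast h1
      have := Nat.le_of_dvd (by norm_num) h2
      omega
  · exfalso
    have h1 : (p : ℤ) ∣ 17 := hpi.dvd_of_dvd_pow h
    have h2 : p ∣ 17 := by exact_mod_cast h1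
    have h4 : p = 17 := (Nat.prime_dvd_prime_iff_eq hp (by norm_num)).mp h2
    subst h4
    norm_num at h17

private lemma sum_id (S R p : ℂ) (q : ℕ → ℂ) :
    ∑ k ∈ Finset.range 7, (-1) ^ k * (((Nat.choose 6 k : ℕ) : ℂ) * R ^ k + p * q k) * S ^ (6 - k)
      = (S - R) ^ 6 + p * ∑ k ∈ Finset.range 7, (-1) ^ k * q k * S ^ (6 - k) := by
  simp only [Finset.sum_range_succ, Finset.sum_range_zero]
  norm_num [Nat.choose]
  ring

theorem supR (p : ℕ) [Fact p.Prime] [NeZero p] (h3 : 3 < p) (hchi : chi p = 1)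
    (h17 : jacobiSym 17 p = -1)
    (P : ℕ → Polynomial ℤ) (d : Polynomial ℤ) (H : HGdata p P d) :
    Cong p 1 (evq (P p)) 0 := by
  have hp := Fact.out (p := p.Prime)
  obtain ⟨hdeg, hAut, -, -⟩ := supE p h3 hchi P d H
  obtain ⟨B, hB⟩ := supB p h3 hchi P d H
  have hQ : ∀ k, ∃ Q : Polynomial ℤ, k ≤ 6 →
      B k - C ((Nat.choose 6 k : ℕ) : ℤ) * (P p) ^ k = C (p : ℤ) * Q := by
    intro k
    by_cases hk : k ≤ 6
    · obtain ⟨Q, hQ⟩ := (hB k hk).2.2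
      exact ⟨Q, fun _ => hQ⟩
    · exact ⟨0, fun h => absurd h hk⟩
  choose Q hQ using hQ
  have hf5 : Fact (Nat.Prime 5) := ⟨by norm_num⟩
  obtain ⟨C0, hC0⟩ := tau2 5 (by norm_num) 1 1 (by norm_num)
  have hroot := hC0 (p - 1) 1 (Or.inl rfl) _ hAut
  obtain ⟨ν, hν⟩ : ∃ ν : ℂ, ν = (((Real.sqrt 17 : ℝ) : ℂ) - ((Real.sqrt 3 : ℝ) : ℂ) * Complex.I)
      / 2 := ⟨_, rfl⟩
  have hν' : ((chi 1 : ℤ) : ℂ) * (((1 : ℤ) : ℂ) * ((Real.sqrt 17 : ℝ) : ℂ)
        - ((1 : ℤ) : ℂ) * ((Real.sqrt 3 : ℝ) : ℂ) * Complex.I) / 2 = ν := by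
    have : chi 1 = 1 := by rw [chi_mod]; norm_num
    rw [this, hν]
    push_cast
    ring
  rw [hν', one_mul] at hroot
  obtain ⟨R, hR⟩ : ∃ R : ℂ, R = evc (P p) := ⟨_, rfl⟩
  obtain ⟨g, hg⟩ : ∃ g : ℂ, g = Gf tau0 := ⟨_, rfl⟩
  have hg0 : g ≠ 0 := hg ▸ Gf_tau0_ne
  have hE0 : hom (p - 1) (P p) (Gf tau0) (Df tau0) = g ^ (p - 1) * R := by
    have := sgh_tau0 1 (p - 1) (P p) (by simpa [DegOK] using hdeg)
    simpa [sgh, ← hg, ← hR] using this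
  have hBk : ∀ k ≤ 6, hom (k * (p - 1)) (B k) (Gf tau0) (Df tau0)
      = g ^ (k * (p - 1)) * evc (B k) := by
    intro k hk
    have := sgh_tau0 1 (k * (p - 1)) (B k) (by simpa [DegOK] using (hB k hk).1)
    simpa [sgh, ← hg] using this
  have hev : (PhiF 5 (p - 1) (fun τ => hom (p - 1) (P p) (Gf τ) (Df τ)) tau0).eval
      (fam 5 (p - 1) (fun τ => hom (p - 1) (P p) (Gf τ) (Df τ)) C0 tau0) = 0 := by
    rw [PhiF, Polynomial.eval_prod]
    exact Finset.prod_eq_zero (Finset.mem_univ C0) (by simp)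
  have hnd : (PhiF 5 (p - 1) (fun τ => hom (p - 1) (P p) (Gf τ) (Df τ)) tau0).natDegree < 7 := by
    rw [PhiF, Polynomial.natDegree_finsetProd_X_sub_C_eq_card]
    simp [ZMod.card]
  rw [Polynomial.eval_eq_sum_range' hnd, ← Finset.sum_range_reflect, hroot, hE0] at hev
  obtain ⟨S, hS⟩ : ∃ S : ℂ, S = ν ^ (p - 1) * R := ⟨_, rfl⟩
  have hq : ∀ k ≤ 6, evc (B k) = ((Nat.choose 6 k : ℕ) : ℂ) * R ^ k + p * evc (Q k) := by
    intro k hk
    have h1 := congrArg evc (hQ k hk)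
    have hCc : ∀ n : ℤ, evc (C n) = n := fun n => by simp [evc]
    rw [map_sub, map_mul, map_mul, map_pow, hCc, hCc, ← hR] at h1
    push_cast at h1
    linear_combination h1
  have hterm : ∀ k ∈ Finset.range 7,
      (PhiF 5 (p - 1) (fun τ => hom (p - 1) (P p) (Gf τ) (Df τ)) tau0).coeff (7 - 1 - k)
        * (ν ^ (p - 1) * (g ^ (p - 1) * R)) ^ (7 - 1 - k)
      = g ^ (6 * (p - 1)) * ((-1) ^ k * (((Nat.choose 6 k : ℕ) : ℂ) * R ^ k + p * evc (Q k))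
        * S ^ (6 - k)) := by
    intro k hk
    have hk6 : k ≤ 6 := by
      have := Finset.mem_range.mp hk
      omega
    have h1 : (7 - 1 - k) = 6 - k := by omega
    rw [h1, (hB k hk6).2.1 tau0, hBk k hk6, hq k hk6, hS]
    have h2 : g ^ (6 * (p - 1)) = g ^ (k * (p - 1)) * (g ^ (p - 1)) ^ (6 - k) := by
      rw [← pow_mul, ← pow_add]
      congr 1
      have : 6 * (p - 1) = (k + (6 - k)) * (p - 1) := by
        congr 1; omega
      rw [this]; ring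
    rw [h2]
    ring
  rw [Finset.sum_congr rfl hterm, ← Finset.mul_sum] at hev
  have hev2 := (mul_eq_zero.mp hev).resolve_left (pow_ne_zero _ hg0)
  rw [sum_id] at hev2
  -- clear denominators
  obtain ⟨M, hM⟩ : ∃ M : ℕ, (P p).natDegree ≤ M ∧ ∀ k < 7, (Q k).natDegree ≤ M := by
    refine ⟨(P p).natDegree + ∑ k ∈ Finset.range 7, (Q k).natDegree, by omega, fun k hk => ?_⟩
    have := Finset.single_le_sum (f := fun k => (Q k).natDegree) (fun i _ => Nat.zero_le _)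
      (Finset.mem_range.mpr hk)
    omega
  obtain ⟨r, hr⟩ := clear (P p) M hM.1
  have hz : ∀ k, ∃ z : ℤ, k < 7 → (z : ℚ) = 1728 ^ M * evq (Q k) := by
    intro k
    by_cases hk : k < 7
    · obtain ⟨z, hz⟩ := clear (Q k) M (hM.2 k hk)
      exact ⟨z, fun _ => hz⟩
    · exact ⟨0, fun h => absurd h hk⟩
  choose z hz using hz
  have hrc : (r : ℂ) = 1728 ^ M * R := by
    rw [hR, ← evq_evc]
    exact_mod_cast congrArg (Rat.cast : ℚ → ℂ) hr
  have hzc : ∀ k < 7, (z k : ℂ) = 1728 ^ M * evc (Q k) := by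
    intro k hk
    rw [← evq_evc]
    exact_mod_cast congrArg (Rat.cast : ℚ → ℂ) (hz k hk)
  -- algebraic integers
  have hs17 : (((Real.sqrt 17 : ℝ) : ℂ)) ^ 2 = 17 := by
    norm_cast
    exact Real.sq_sqrt (by norm_num)
  have hs3 : (((Real.sqrt 3 : ℝ) : ℂ)) ^ 2 = 3 := by
    norm_cast
    exact Real.sq_sqrt (by norm_num)
  have ht3 : (((Real.sqrt 3 : ℝ) : ℂ) * Complex.I) ^ 2 = -3 := by
    rw [mul_pow, hs3, Complex.I_sq]; ring
  have int17 : IsIntegral ℤ (((Real.sqrt 17 : ℝ) : ℂ)) := by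
    refine IsIntegral.of_pow (n := 2) (by norm_num) ?_
    rw [hs17]
    exact isIntegral_algebraMap (R := ℤ) (x := 17)
  have int3 : IsIntegral ℤ (((Real.sqrt 3 : ℝ) : ℂ) * Complex.I) := by
    refine IsIntegral.of_pow (n := 2) (by norm_num) ?_
    rw [ht3]
    have := isIntegral_algebraMap (R := ℤ) (A := ℂ) (x := -3)
    simpa using this
  have hν2 : 2 * ν = ((Real.sqrt 17 : ℝ) : ℂ) - ((Real.sqrt 3 : ℝ) : ℂ) * Complex.I := by
    rw [hν]; ring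
  have intν : IsIntegral ℤ ν := by
    refine ⟨X ^ 4 - 7 * X ^ 2 + 25, by monicity!, ?_⟩
    have h1 : ν ^ 4 - 7 * ν ^ 2 + 25 = 0 := by
      have h2 : (2 * ν) ^ 4 - 28 * (2 * ν) ^ 2 + 400 = 0 := by
        rw [hν2]
        have e : ∀ a b : ℂ, a ^ 2 = 17 → b ^ 2 = -3 →
            (a - b) ^ 4 - 28 * (a - b) ^ 2 + 400 = 0 := by
          intro a b ha hb
          have e1 : (a - b) ^ 4 - 28 * (a - b) ^ 2 + 400
            = (a ^ 2) ^ 2 + 6 * a ^ 2 * b ^ 2 + (b ^ 2) ^ 2 - 4 * a * b * a ^ 2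
              - 4 * a * b * b ^ 2 - 28 * (a ^ 2 + b ^ 2) + 56 * a * b + 400 := by ring
          rw [e1, ha, hb]; ring
        exact e _ _ hs17 ht3
      have h3 : (2 * ν) ^ 4 - 28 * (2 * ν) ^ 2 + 400 = 16 * (ν ^ 4 - 7 * ν ^ 2 + 25) := by ring
      rw [h3] at h2
      exact (mul_eq_zero.mp h2).resolve_left (by norm_num)
    simpa using h1
  have hrel : (((1728 ^ M : ℤ) : ℤ) : ℂ) * (ν ^ (p - 1) * r - r) ^ 6
      = p * (-∑ k ∈ Finset.range 7, (-1) ^ k * (z k : ℂ) * (ν ^ (p - 1) * r) ^ (6 - k)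
        * (1728 ^ M) ^ k) := by
    have hsum : ∑ k ∈ Finset.range 7, (-1) ^ k * (z k : ℂ) * (ν ^ (p - 1) * r) ^ (6 - k)
        * (1728 ^ M) ^ k
        = (1728 ^ M) ^ 7 * ∑ k ∈ Finset.range 7, (-1) ^ k * evc (Q k) * S ^ (6 - k) := by
      rw [Finset.mul_sum]
      refine Finset.sum_congr rfl fun k hk => ?_
      have hk7 := Finset.mem_range.mp hk
      rw [hzc k hk7, hrc, hS]
      have h1 : ((1728 : ℂ) ^ M) ^ 7 = 1728 ^ M * ((1728 ^ M) ^ (6 - k) * (1728 ^ M) ^ k) := by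
        rw [← pow_add, ← pow_succ']
        congr 1
        omega
      rw [h1]
      ring
    rw [hsum, hrc]
    push_cast
    have h2 : (S - R) ^ 6 = -(p * ∑ k ∈ Finset.range 7, (-1) ^ k * evc (Q k) * S ^ (6 - k)) := by
      linear_combination hev2
    have h3 : (1728 : ℂ) ^ M * (ν ^ (p - 1) * (1728 ^ M * R) - 1728 ^ M * R) ^ 6
        = (1728 ^ M) ^ 7 * (S - R) ^ 6 := by
      rw [hS]; ring
    rw [h3, h2]
    ring
  have hO : ∀ x : ℂ, IsIntegral ℤ x → x ∈ integralClosure ℤ ℂ := fun x hx => hx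
  obtain ⟨nu, hnu⟩ : ∃ nu : integralClosure ℤ ℂ, (nu : ℂ) = ν := ⟨⟨ν, hO _ intν⟩, rfl⟩
  obtain ⟨s, hs⟩ : ∃ s : integralClosure ℤ ℂ, (s : ℂ) = ((Real.sqrt 17 : ℝ) : ℂ) :=
    ⟨⟨_, hO _ int17⟩, rfl⟩
  obtain ⟨t, ht⟩ : ∃ t : integralClosure ℤ ℂ, (t : ℂ) = ((Real.sqrt 3 : ℝ) : ℂ) * Complex.I :=
    ⟨⟨_, hO _ int3⟩, rfl⟩
  obtain ⟨y, hy⟩ := alg_core p hp (by omega) nu s t
    (Subtype.ext (by push_cast; rw [hs, hs17]; rfl))
    (Subtype.ext (by push_cast; rw [ht, ht3]; simp; rfl))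
    (Subtype.ext (by push_cast; rw [hs, ht, hnu]; exact hν2))
    (div17 p h17) (div3 p h3 hchi) (1728 ^ M) r
    (-∑ k ∈ Finset.range 7, (-1) ^ k * ((z k : ℤ) : integralClosure ℤ ℂ)
      * (nu ^ (p - 1) * r) ^ (6 - k) * (1728 ^ M) ^ k)
    (Subtype.ext (by
      push_cast
      rw [hnu]
      push_cast at hrel
      exact hrel))
  have hdvd := int_of_O p hp _ y hy
  obtain ⟨r', hr'⟩ := dvd_r p h3 h17 M r hdvd
  refine ⟨r', 1728 ^ M, not_dvd_1728 p hp h3 M, ?_⟩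
  have h8 : evq (P p) = (r : ℚ) / 1728 ^ M := by
    rw [hr]; field_simp
  rw [h8, hr']
  push_cast
  ring

end Pool.Agent.Lib.SCG
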