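import Pool.Agent.Lib.SCG.SymA

/-!
SymB: traces, one factor removed.
PLAN. `trace`: the coefficient of `t^m` is `a_m ∑_j ζ^{jm} = l a_m` if `l ∣ m`, else 0
(`IsPrimitiveRoot.geom_sum_eq_zero`, or `sum_pow`...). `symR`: `(PF l F).map (expand l)` over
`ℤ⟦t⟧` has the root `F` (apply the injective `rsc l 0 = toC` and `symA`, `rsc_expand`), so
`(PF l F).map (expand l) = (X - C F) * R`; apply `rsc l j`:
`∏_i (X - C (rsc l i F)) = (X - C (rsc l j F)) * R.map (rsc l j)` and cancel the nonzero factor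
in the domain `ℂ⟦t⟧[X]`.
-/

namespace Pool.Agent.Lib.SCG

private lemma coeff_rsc' (l j m : ℕ) (F : PowerSeries ℤ) :
    PowerSeries.coeff m (rsc l j F) = (zt l ^ j) ^ m * ((PowerSeries.coeff m F : ℤ) : ℂ) := by
  change PowerSeries.coeff m (PowerSeries.rescale (zt l ^ j) (PowerSeries.map (Int.castRingHom ℂ) F)) = _
  rw [PowerSeries.coeff_rescale, PowerSeries.coeff_map]
  simp

lemma trace (l : ℕ) [NeZero l] (f : PowerSeries ℤ) :
    ∑ j ∈ Finset.range l, rsc l j f = (l : PowerSeries ℂ) * exC l (sec l f) := by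
  have hex : exC l (sec l f) = PowerSeries.expand l (NeZero.ne l) (PowerSeries.map (Int.castRingHom ℂ) (sec l f)) := rfl
  ext m
  rw [map_sum, hex]
  have hl : (l : PowerSeries ℂ) = PowerSeries.C (l : ℂ) := by rw [map_natCast]
  rw [hl, PowerSeries.coeff_C_mul]
  by_cases h : l ∣ m
  · obtain ⟨n, rfl⟩ := h
    rw [PowerSeries.coeff_expand_mul, PowerSeries.coeff_map]
    have h1 : ∀ j ∈ Finset.range l, PowerSeries.coeff (l * n) (rsc l j f) = ((PowerSeries.coeff (l * n) f : ℤ) : ℂ) := by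
      intro j _
      rw [coeff_rsc', ← pow_mul, show j * (l * n) = l * (j * n) by ring, pow_mul,
        (zt_prim l (NeZero.ne l)).pow_eq_one, one_pow, one_mul]
    rw [Finset.sum_congr rfl h1, Finset.sum_const, Finset.card_range, nsmul_eq_mul]
    congr 1
    unfold sec
    rw [PowerSeries.coeff_mk]
    rfl
  · rw [PowerSeries.coeff_expand_of_not_dvd _ _ _ h, mul_zero]
    have h1 : ∀ j ∈ Finset.range l, PowerSeries.coeff m (rsc l j f) = (zt l ^ m) ^ j * ((PowerSeries.coeff m f : ℤ) : ℂ) := by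
      intro j _
      rw [coeff_rsc', ← pow_mul, ← pow_mul, mul_comm j m]
    rw [Finset.sum_congr rfl h1, ← Finset.sum_mul]
    have hz := zt_prim l (NeZero.ne l)
    have h2 : zt l ^ m ≠ 1 := fun h0 => h ((hz.pow_eq_one_iff_dvd m).mp h0)
    have h3 : (zt l ^ m) ^ l = 1 := by rw [← pow_mul, mul_comm, pow_mul, hz.pow_eq_one, one_pow]
    have h4 : ∑ i ∈ Finset.range l, (zt l ^ m) ^ i = 0 := by
      have h5 := mul_geom_sum (zt l ^ m) l
      rw [h3, sub_self] at h5
      exact (mul_eq_zero.mp h5).resolve_left (sub_ne_zero.mpr h2)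
    rw [h4, zero_mul]

theorem symR (l : ℕ) [NeZero l] (F : PowerSeries ℤ) :
    ∃ R : Polynomial (PowerSeries ℤ), ∀ j ∈ Finset.range l,
      ∏ i ∈ (Finset.range l).erase j, (Polynomial.X - Polynomial.C (rsc l i F))
        = R.map (rsc l j) := by
  set e : PowerSeries ℤ →+* PowerSeries ℤ := ((PowerSeries.expand l (NeZero.ne l) : PowerSeries ℤ →ₐ[ℤ] PowerSeries ℤ) :
    PowerSeries ℤ →+* PowerSeries ℤ) with he
  have hcomp : ∀ j, (rsc l j).comp e = exC l := by
    intro j
    ext1 G
    exact rsc_expand l j G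
  have hmap : ∀ j, ((PF l F).map e).map (rsc l j) = ∏ i ∈ Finset.range l, (Polynomial.X - Polynomial.C (rsc l i F)) := by
    intro j
    rw [Polynomial.map_map, hcomp]
    exact (symA l F).symm
  have hinj : Function.Injective (rsc l 0) := by
    intro A B hAB
    ext n
    have h1 := congrArg (PowerSeries.coeff n) hAB
    rw [coeff_rsc', coeff_rsc'] at h1
    simp only [pow_zero, one_pow, one_mul] at h1
    exact_mod_cast h1
  have hroot : ((PF l F).map e).IsRoot F := by
    rw [Polynomial.IsRoot.def]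
    apply hinj
    rw [map_zero, ← Polynomial.eval_map_apply, hmap, Polynomial.eval_prod]
    apply Finset.prod_eq_zero (Finset.mem_range.mpr (NeZero.pos l))
    simp
  obtain ⟨R, hR⟩ := Polynomial.dvd_iff_isRoot.mpr hroot
  refine ⟨R, fun j hj => ?_⟩
  have h1 := hmap j
  rw [hR, Polynomial.map_mul, Polynomial.map_sub, Polynomial.map_X, Polynomial.map_C,
    ← Finset.mul_prod_erase _ _ hj] at h1
  have h2 : (Polynomial.X - Polynomial.C (rsc l j F) : Polynomial (PowerSeries ℂ)) ≠ 0 := Polynomial.X_sub_C_ne_zero _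
  exact (mul_left_cancel₀ h2 h1).symm

end Pool.Agent.Lib.SCG
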