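import Pool.Agent.Lib.SCG.KA

/-!
TauA: the CM point `τ₀ = -1/2 + i√51/6`.
PLAN. `qParam 1 τ₀ = exp(2πiτ₀) = -exp(-π√51/3)` is real. `G, D, K` have integral expansions
(`Gf_ex`, `Df_ex`, `Kf_ex`), so the values are real (a `HasSum` of reals: apply
`Complex.hasSum_im`/`HasSum.mapL imCLM`, uniqueness). `Gf_ne`: `|q₀| < 1/1000`
(`π√51/3 > 3·7/3 = 7`, `exp 7 > 1000`: `Real.exp_one_gt_d9`, `2.7^7 > 1000`), and
`‖jacobiTheta (2τ₀) - 1‖ ≤ 2|q₀|/(1-|q₀|)` (`norm_jacobiTheta_sub_one_le`), `jacobiTheta (6τ₀)` the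
same, and the second term is bounded by `|q₀| ‖jacobiTheta₂ τ₀ (2τ₀)‖ ‖jacobiTheta₂ (3τ₀) (6τ₀)‖`,
each factor `≤ 2/(1-|q₀|)` (`psEx`: `= 2 ∑_{n≥0} q^{n(n+1)}`); or bound `G - 1` through its
expansion. -/

namespace Pool.Agent.Lib.SCG

open UpperHalfPlane

private lemma ta_coe : (tau0 : ℂ) = -1 / 2 + ((Real.sqrt 51 / 6 : ℝ) : ℂ) * Complex.I := rfl

private lemma ta_im : (tau0 : ℂ).im = Real.sqrt 51 / 6 := by
  rw [ta_coe]
  simp

private noncomputable def taR : ℝ := Real.exp (-(Real.pi * Real.sqrt 51 / 3))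

private lemma ta_q : Function.Periodic.qParam ((1 : ℕ) : ℝ) (tau0 : ℂ) = ((-taR : ℝ) : ℂ) := by
  unfold Function.Periodic.qParam taR
  rw [ta_coe]
  have h1 : 2 * (Real.pi : ℂ) * Complex.I * (-1 / 2 + ((Real.sqrt 51 / 6 : ℝ) : ℂ) * Complex.I) /
      (((1 : ℕ) : ℝ) : ℂ) = -(Real.pi * Complex.I) + ((-(Real.pi * Real.sqrt 51 / 3) : ℝ) : ℂ) := by
    push_cast
    linear_combination (2 * (Real.pi : ℂ) * ((Real.sqrt 51 : ℝ) : ℂ) / 6) * Complex.I_sq
  rw [h1, Complex.exp_add, Complex.exp_neg, Complex.exp_pi_mul_I]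
  push_cast
  norm_num

private lemma ta_R_pos : 0 < taR := Real.exp_pos _

private lemma ta_R_le : taR ≤ 1 / 32 := by
  have h7 : (7 : ℝ) ≤ Real.sqrt 51 := by
    apply Real.le_sqrt_of_sq_le
    norm_num
  have hpi := Real.pi_gt_three
  have h1 : (7 : ℝ) ≤ Real.pi * Real.sqrt 51 / 3 := by
    rw [le_div_iff₀ (by norm_num)]
    nlinarith
  have h2 : (32 : ℝ) ≤ Real.exp (Real.pi * Real.sqrt 51 / 3) := by
    have h3 := Real.quadratic_le_exp_of_nonneg (x := Real.pi * Real.sqrt 51 / 3) (by linarith)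
    nlinarith
  unfold taR
  rw [Real.exp_neg, one_div]
  exact inv_anti₀ (by norm_num) h2

private lemma ta_real {f : ℍ → ℂ} {F : PowerSeries ℤ} (hf : Ex 1 f (toC F)) :
    (f tau0).im = 0 := by
  have h := hf tau0
  rw [ta_q, Complex.hasSum_iff] at h
  have h1 := h.2
  have h2 : (fun m : ℕ => (PowerSeries.coeff m (toC F) • (((-taR : ℝ) : ℂ)) ^ m).im) =
      fun _ => (0 : ℝ) := by
    funext m
    have h3 : PowerSeries.coeff m (toC F) • (((-taR : ℝ) : ℂ)) ^ m =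
        (((PowerSeries.coeff m F : ℤ) : ℝ) * (-taR) ^ m : ℝ) := by
      push_cast
      simp
    rw [h3, Complex.ofReal_im]
  rw [h2] at h1
  exact h1.unique hasSum_zero

private lemma ta_bound {f : ℍ → ℂ} {a : PowerSeries ℂ} (hf : Ex 1 f a) {C : ℝ}
    (hC : ∀ m, ‖PowerSeries.coeff m a‖ ≤ C) (τ : ℍ) {r : ℝ} (hr0 : 0 ≤ r) (hr1 : r < 1)
    (hr : ‖Function.Periodic.qParam ((1 : ℕ) : ℝ) (τ : ℂ)‖ ≤ r) :
    ‖f τ‖ ≤ C / (1 - r) := by
  have h1 : HasSum (fun m : ℕ => C * r ^ m) (C * (1 - r)⁻¹) :=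
    (hasSum_geometric_of_lt_one hr0 hr1).mul_left C
  have h2 := hf τ
  rw [div_eq_mul_inv]
  refine h2.norm_le_of_bounded h1 (fun m => ?_)
  rw [norm_smul, norm_pow]
  have hC0 : 0 ≤ C := (norm_nonneg _).trans (hC 0)
  exact mul_le_mul (hC m) (pow_le_pow_left₀ (norm_nonneg _) hr m) (by positivity) hC0

private lemma ta_coeff (m : ℕ) :
    ‖PowerSeries.coeff m (toC (2 * PowerSeries.expand 2 (by norm_num) psiS))‖ ≤ 2 := by
  classical
  have h1 : PowerSeries.coeff m (toC (2 * PowerSeries.expand 2 (by norm_num) psiS)) =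
      ((2 * PowerSeries.coeff m (PowerSeries.expand 2 (by norm_num) psiS) : ℤ) : ℂ) := by
    rw [PowerSeries.coeff_map]
    have : (2 : PowerSeries ℤ) = PowerSeries.C 2 := by simp
    rw [this, PowerSeries.coeff_C_mul]
    simp
  have h2 : PowerSeries.coeff m (PowerSeries.expand 2 (by norm_num) psiS) = 0 ∨
      PowerSeries.coeff m (PowerSeries.expand 2 (by norm_num) psiS) = 1 := by
    rw [PowerSeries.coeff_expand]
    split_ifs
    · unfold psiS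
      rw [PowerSeries.coeff_mk]
      split_ifs <;> simp
    · simp
  rw [h1]
  rcases h2 with h2 | h2 <;> rw [h2] <;> norm_num

lemma tau0_eq : 3 * (tau0 : ℂ) ^ 2 + 3 * (tau0 : ℂ) + 5 = 0 := by
  rw [ta_coe]
  have h1 : ((Real.sqrt 51 : ℝ) : ℂ) ^ 2 = 51 := by
    have : (Real.sqrt 51) ^ 2 = 51 := Real.sq_sqrt (by norm_num)
    exact_mod_cast this
  push_cast
  linear_combination (3 * ((Real.sqrt 51 : ℝ) : ℂ) ^ 2 / 36) * Complex.I_sq - (1 / 12) * h1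

theorem Gf_tau0_im : (Gf tau0).im = 0 := by
  exact ta_real Gf_ex

theorem Df_tau0_im : (Df tau0).im = 0 := by
  exact ta_real Df_ex

theorem Kf_tau0_im : (Kf tau0).im = 0 := by
  exact ta_real Kf_ex

theorem Gf_tau0_ne : Gf tau0 ≠ 0 := by
  have hr := ta_R_le
  have hr0 := ta_R_pos
  set r := taR with hrdef
  have him := ta_im
  have hs : (0 : ℝ) < Real.sqrt 51 := Real.sqrt_pos.2 (by norm_num)
  have hA : ‖jacobiTheta (2 * (tau0 : ℂ)) - 1‖ ≤ 2 / (1 - r) * r := by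
    have h := norm_jacobiTheta_sub_one_le (τ := 2 * (tau0 : ℂ)) (by
      simp [tau0.im_pos])
    have h2 : Real.exp (-Real.pi * (2 * (tau0 : ℂ)).im) = r := by
      rw [hrdef]
      unfold taR
      congr 1
      have : (2 * (tau0 : ℂ)).im = 2 * (tau0 : ℂ).im := by simp
      rw [this, him]
      ring
    rw [h2] at h
    exact h
  have hB : ‖jacobiTheta (6 * (tau0 : ℂ)) - 1‖ ≤ 2 / (1 - r ^ 3) * r ^ 3 := by
    have h := norm_jacobiTheta_sub_one_le (τ := 6 * (tau0 : ℂ)) (by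
      simp [tau0.im_pos])
    have h2 : Real.exp (-Real.pi * (6 * (tau0 : ℂ)).im) = r ^ 3 := by
      rw [hrdef]
      unfold taR
      rw [← Real.exp_nat_mul]
      congr 1
      have : (6 * (tau0 : ℂ)).im = 6 * (tau0 : ℂ).im := by simp
      rw [this, him]
      push_cast
      ring
    rw [h2] at h
    exact h
  have hq : ‖Function.Periodic.qParam ((1 : ℕ) : ℝ) (tau0 : ℂ)‖ = r := by
    rw [ta_q, Complex.norm_real, norm_neg, Real.norm_of_nonneg hr0.le]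
  have h3c : ((tm 3 (by norm_num) tau0 : ℍ) : ℂ) = 3 * (tau0 : ℂ) := by
    unfold tm
    rw [coe_mob]
    simp
  have hq3 : ‖Function.Periodic.qParam ((1 : ℕ) : ℝ) ((tm 3 (by norm_num) tau0 : ℍ) : ℂ)‖ ≤ r := by
    have h : Function.Periodic.qParam ((1 : ℕ) : ℝ) ((tm 3 (by norm_num) tau0 : ℍ) : ℂ) =
        Function.Periodic.qParam ((1 : ℕ) : ℝ) (tau0 : ℂ) ^ 3 := by
      rw [h3c]
      unfold Function.Periodic.qParam
      rw [← Complex.exp_nat_mul]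
      congr 1
      push_cast
      ring
    rw [h, norm_pow, hq]
    calc r ^ 3 ≤ r ^ 1 := pow_le_pow_of_le_one hr0.le (by linarith) (by norm_num)
      _ = r := pow_one r
  have hr1 : r < 1 := by linarith
  have hP1 : ‖jacobiTheta₂ (tau0 : ℂ) (2 * (tau0 : ℂ))‖ ≤ 2 / (1 - r) :=
    ta_bound psEx ta_coeff tau0 hr0.le hr1 hq.le
  have hP2 : ‖jacobiTheta₂ (3 * (tau0 : ℂ)) (6 * (tau0 : ℂ))‖ ≤ 2 / (1 - r) := by
    have h := ta_bound psEx ta_coeff (tm 3 (by norm_num) tau0) hr0.le hr1 hq3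
    rw [h3c] at h
    have h6 : 2 * (3 * (tau0 : ℂ)) = 6 * (tau0 : ℂ) := by ring
    rw [h6] at h
    exact h
  have hE : ‖Complex.exp (2 * Real.pi * Complex.I * (tau0 : ℂ))‖ = r := by
    rw [← hq]
    unfold Function.Periodic.qParam
    simp
  have h31 : (32 : ℝ) / 31 ≥ 1 / (1 - r) := by
    rw [ge_iff_le, div_le_div_iff₀ (by linarith) (by norm_num)]
    linarith
  have hb2 : 2 / (1 - r) ≤ 64 / 31 := by
    have : 2 / (1 - r) = 2 * (1 / (1 - r)) := by ring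
    rw [this]
    linarith
  have hb0 : 0 ≤ 2 / (1 - r) := by
    apply div_nonneg (by norm_num)
    linarith
  have hA' : ‖jacobiTheta (2 * (tau0 : ℂ)) - 1‖ ≤ 1 / 10 := by
    refine hA.trans ?_
    nlinarith
  have hB' : ‖jacobiTheta (6 * (tau0 : ℂ)) - 1‖ ≤ 1 / 10 := by
    refine hB.trans ?_
    have hr3 : r ^ 3 ≤ r := by
      calc r ^ 3 ≤ r ^ 1 := pow_le_pow_of_le_one hr0.le (by linarith) (by norm_num)
        _ = r := pow_one r
    have hr30 : 0 < r ^ 3 := by positivity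
    have h2 : 2 / (1 - r ^ 3) ≤ 64 / 31 := by
      rw [div_le_div_iff₀ (by linarith) (by norm_num)]
      linarith
    have h20 : 0 ≤ 2 / (1 - r ^ 3) := by
      apply div_nonneg (by norm_num)
      linarith
    nlinarith
  set A := jacobiTheta (2 * (tau0 : ℂ)) - 1 with hAd
  set B := jacobiTheta (6 * (tau0 : ℂ)) - 1 with hBd
  set E := Complex.exp (2 * Real.pi * Complex.I * (tau0 : ℂ)) with hEd
  set P := jacobiTheta₂ (tau0 : ℂ) (2 * (tau0 : ℂ)) with hPd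
  set Q := jacobiTheta₂ (3 * (tau0 : ℂ)) (6 * (tau0 : ℂ)) with hQd
  have hG : Gf tau0 = (1 + A) * (1 + B) + E * P * Q := by
    rw [hAd, hBd]
    unfold Gf
    ring
  intro h0
  rw [hG] at h0
  have h1 : (1 : ℂ) = -(A + B + A * B + E * P * Q) := by linear_combination h0
  have h2 : (1 : ℝ) ≤ ‖A‖ + ‖B‖ + ‖A‖ * ‖B‖ + ‖E‖ * ‖P‖ * ‖Q‖ := by
    calc (1 : ℝ) = ‖(1 : ℂ)‖ := by simp
      _ = ‖A + B + A * B + E * P * Q‖ := by rw [h1, norm_neg]
      _ ≤ ‖A + B + A * B‖ + ‖E * P * Q‖ := norm_add_le _ _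
      _ ≤ (‖A + B‖ + ‖A * B‖) + ‖E * P * Q‖ := by gcongr; exact norm_add_le _ _
      _ ≤ ((‖A‖ + ‖B‖) + ‖A * B‖) + ‖E * P * Q‖ := by gcongr; exact norm_add_le _ _
      _ = _ := by rw [norm_mul, norm_mul, norm_mul]
  have h3 : ‖A‖ * ‖B‖ ≤ 1 / 10 * (1 / 10) :=
    mul_le_mul hA' hB' (norm_nonneg _) (by norm_num)
  have h4 : ‖E‖ * ‖P‖ * ‖Q‖ ≤ 1 / 32 * (64 / 31) * (64 / 31) := by
    refine mul_le_mul (mul_le_mul (by rw [hE]; exact hr) (hP1.trans hb2) (norm_nonneg _)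
      (by norm_num)) (hP2.trans hb2) (norm_nonneg _) (by norm_num)
  have h5 : (1 : ℝ) / 32 * (64 / 31) * (64 / 31) ≤ 1 / 5 := by norm_num
  linarith

end Pool.Agent.Lib.SCG
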