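import Pool.Agent.Lib.SCG.Defs

/-!
ThA: the Fricke transformation of `G`.
PLAN. Put `A(τ) = jacobiTheta τ`, `B(τ) = ∑ exp(πiτ(n+1/2)²)`, i.e. for `τ ∈ ℍ`:
`B(2τ) = exp(πiτ/2) * jacobiTheta₂ τ (2τ)`, `B(6τ) = exp(3πiτ/2) * jacobiTheta₂ (3τ) (6τ)`; so
`Gf τ = A(2τ)A(6τ) + B(2τ)B(6τ)`. With `C(τ) = jacobiTheta₂ (1/2) τ = ∑ (-1)^n exp(πi n² τ)`:
(i) `A(τ/2) = A(2τ) + B(2τ)`, `C(τ/2) = A(2τ) - B(2τ)` (split `n` into even and odd: `n = 2m`
gives `exp(πi m² 2τ)`, `n = 2m+1` gives `exp(πi (m+1/2)² 2τ)`), the same for `3τ`.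
(ii) `jacobiTheta₂_functional_equation`: `A(-1/σ) = (-iσ)^{1/2} A(σ)` and, with `z = σ'/2`,
`jacobiTheta₂ (σ'/2) σ' = (-iσ')^{-1/2} exp(-πiσ'/4) jacobiTheta₂ (1/2) (-1/σ')`.
With `w = W τ = -1/(3τ)`: `A(2w) = (-i 3τ/2)^{1/2} A(3τ/2)`, `A(6w) = (-iτ/2)^{1/2} A(τ/2)`,
`jacobiTheta₂ w (2w) = (-2iw)^{-1/2} exp(-πiw/2) C(3τ/2)`,
`jacobiTheta₂ (3w) (6w) = (-6iw)^{-1/2} exp(-3πiw/2) C(τ/2)`; the exponentials cancel
`exp(2πiw)`. The products of the two square roots are `√3 (-iτ)/2` in both cases (the arguments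
are `r x` with `r > 0` real and `re x > 0`; `Complex.mul_cpow_ofReal_nonneg`/`ofReal_cpow`), so
`G(w) = (√3(-iτ)/2) (A(τ/2)A(3τ/2) + C(τ/2)C(3τ/2))
      = (√3(-iτ)/2) ((A+B)(A'+B') + (A-B)(A'-B')) = √3 (-iτ) (A A' + B B') = jW τ * G τ`.
-/

namespace Pool.Agent.Lib.SCG

open UpperHalfPlane
open scoped Real

private lemma tha_split {f : ℤ → ℂ} {a b : ℂ} (ha : HasSum (fun m : ℤ => f (2 * m)) a)
    (hb : HasSum (fun m : ℤ => f (2 * m + 1)) b) : HasSum f (a + b) := by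
  have h1 : Function.Injective (fun m : ℤ => 2 * m) := fun x y h => by
    have : 2 * x = 2 * y := h
    omega
  have h2 : Function.Injective (fun m : ℤ => 2 * m + 1) := fun x y h => by
    have : 2 * x + 1 = 2 * y + 1 := h
    omega
  have hc : IsCompl (Set.range (fun m : ℤ => 2 * m)) (Set.range (fun m : ℤ => 2 * m + 1)) := by
    constructor
    · rw [Set.disjoint_left]
      rintro _ ⟨x, rfl⟩ ⟨y, hy⟩
      have : 2 * y + 1 = 2 * x := hy
      omega
    · rw [codisjoint_iff]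
      refine Set.eq_univ_of_forall fun n => ?_
      rcases Int.even_or_odd n with ⟨m, hm⟩ | ⟨m, hm⟩
      · exact Or.inl ⟨m, by change 2 * m = n; omega⟩
      · exact Or.inr ⟨m, by change 2 * m + 1 = n; omega⟩
  exact (h1.hasSum_range_iff.2 ha).add_isCompl hc (h2.hasSum_range_iff.2 hb)

private lemma tha_A {σ : ℂ} (hσ : 0 < σ.im) :
    jacobiTheta₂ 0 (σ / 4) = jacobiTheta₂ 0 σ + Complex.exp (π * Complex.I * σ / 4) * jacobiTheta₂ (σ / 2) σ := by
  have h4 : 0 < (σ / 4).im := by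
    have : (σ / 4).im = σ.im / 4 := by simp
    rw [this]
    positivity
  refine (hasSum_jacobiTheta₂_term 0 h4).unique (tha_split ?_ ?_)
  · refine (hasSum_jacobiTheta₂_term 0 hσ).congr_fun ?_
    intro m
    unfold jacobiTheta₂_term
    congr 1
    push_cast
    ring
  · refine ((hasSum_jacobiTheta₂_term (σ / 2) hσ).mul_left _).congr_fun ?_
    intro m
    unfold jacobiTheta₂_term
    rw [← Complex.exp_add]
    congr 1
    push_cast
    ring

private lemma tha_C {σ : ℂ} (hσ : 0 < σ.im) :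
    jacobiTheta₂ (1 / 2) (σ / 4) = jacobiTheta₂ 0 σ - Complex.exp (π * Complex.I * σ / 4) * jacobiTheta₂ (σ / 2) σ := by
  have h4 : 0 < (σ / 4).im := by
    have : (σ / 4).im = σ.im / 4 := by simp
    rw [this]
    positivity
  rw [sub_eq_add_neg]
  refine (hasSum_jacobiTheta₂_term (1 / 2) h4).unique (tha_split ?_ ?_)
  · refine (hasSum_jacobiTheta₂_term 0 hσ).congr_fun ?_
    intro m
    unfold jacobiTheta₂_term
    have h1 : 2 * (π : ℂ) * Complex.I * ((2 * m : ℤ) : ℂ) * (1 / 2) + π * Complex.I * ((2 * m : ℤ) : ℂ) ^ 2 * (σ / 4) =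
        (m : ℂ) * (2 * π * Complex.I) + (2 * π * Complex.I * m * 0 + π * Complex.I * (m : ℂ) ^ 2 * σ) := by
      push_cast
      ring
    rw [h1, Complex.exp_add, Complex.exp_int_mul_two_pi_mul_I, one_mul]
  · refine (((hasSum_jacobiTheta₂_term (σ / 2) hσ).mul_left _).neg).congr_fun ?_
    intro m
    unfold jacobiTheta₂_term
    have h1 : 2 * (π : ℂ) * Complex.I * ((2 * m + 1 : ℤ) : ℂ) * (1 / 2) + π * Complex.I * ((2 * m + 1 : ℤ) : ℂ) ^ 2 * (σ / 4) =
        (m : ℂ) * (2 * π * Complex.I) + (π * Complex.I + (π * Complex.I * σ / 4 +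
          (2 * π * Complex.I * m * (σ / 2) + π * Complex.I * (m : ℂ) ^ 2 * σ))) := by
      push_cast
      ring
    rw [h1, Complex.exp_add, Complex.exp_int_mul_two_pi_mul_I, one_mul, Complex.exp_add, Complex.exp_pi_mul_I,
      Complex.exp_add]
    ring

private lemma tha_sqrt {x : ℂ} (hx : x ≠ 0) :
    x ^ (1 / 2 : ℂ) * (3 * x) ^ (1 / 2 : ℂ) = ((Real.sqrt 3 : ℝ) : ℂ) * x := by
  have h3 : (3 * x : ℂ) ≠ 0 := mul_ne_zero (by norm_num) hx
  have hl : Complex.log (3 * x) = ((Real.log 3 : ℝ) : ℂ) + Complex.log x := by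
    have := Complex.log_ofReal_mul (r := 3) (by norm_num) hx
    simpa using this
  rw [Complex.cpow_def_of_ne_zero hx, Complex.cpow_def_of_ne_zero h3, hl, ← Complex.exp_add]
  have h4 : Complex.log x * (1 / 2) + (((Real.log 3 : ℝ) : ℂ) + Complex.log x) * (1 / 2) =
      ((Real.log 3 * (1 / 2) : ℝ) : ℂ) + Complex.log x := by
    push_cast
    ring
  rw [h4, Complex.exp_add, Complex.exp_log hx, ← Complex.ofReal_exp]
  congr 2
  rw [Real.sqrt_eq_rpow, Real.rpow_def_of_pos (by norm_num)]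

theorem Gf_W (τ : ℍ) : Gf (W τ) = jW τ * Gf τ := by
  obtain ⟨t, ht⟩ : ∃ t : ℂ, t = (τ : ℂ) := ⟨_, rfl⟩
  have hτ : 0 < t.im := by rw [ht]; exact τ.im_pos
  have ht0 : t ≠ 0 := fun h => by rw [h] at hτ; simp at hτ
  obtain ⟨w, hw⟩ : ∃ w : ℂ, w = -1 / (3 * t) := ⟨_, rfl⟩
  have hWw : ((W τ : ℍ) : ℂ) = w := by
    rw [W, coe_mob, hw, ht]
    push_cast
    ring
  have hw0 : w ≠ 0 := by
    rw [hw]
    exact div_ne_zero (by norm_num) (mul_ne_zero (by norm_num) ht0)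
  have e1 : -1 / (2 * w) = (6 * t) / 4 := by
    rw [hw]
    field_simp
    ring
  have e2 : -1 / (6 * w) = (2 * t) / 4 := by
    rw [hw]
    field_simp
    ring
  have him2 : 0 < (2 * t).im := by
    have : (2 * t).im = 2 * t.im := by simp
    rw [this]
    positivity
  have him6 : 0 < (6 * t).im := by
    have : (6 * t).im = 6 * t.im := by simp
    rw [this]
    positivity
  have f1 := jacobiTheta₂_functional_equation 0 (2 * w)
  have f2 := jacobiTheta₂_functional_equation 0 (6 * w)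
  have f3 := jacobiTheta₂_functional_equation w (2 * w)
  have f4 := jacobiTheta₂_functional_equation (3 * w) (6 * w)
  have z3 : w / (2 * w) = 1 / 2 := by field_simp
  have z4 : 3 * w / (6 * w) = 1 / 2 := by
    field_simp
    norm_num
  rw [e1, zero_div] at f1
  rw [e2, zero_div] at f2
  rw [e1, z3] at f3
  rw [e2, z4] at f4
  have x1 : Complex.exp (-π * Complex.I * 0 ^ 2 / (2 * w)) = 1 := by simp
  have x2 : Complex.exp (-π * Complex.I * 0 ^ 2 / (6 * w)) = 1 := by simp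
  rw [x1, mul_one] at f1
  rw [x2, mul_one] at f2
  have x3 : Complex.exp (2 * π * Complex.I * w) * Complex.exp (-π * Complex.I * w ^ 2 / (2 * w)) *
      Complex.exp (-π * Complex.I * (3 * w) ^ 2 / (6 * w)) = 1 := by
    rw [← Complex.exp_add, ← Complex.exp_add, ← Complex.exp_zero]
    congr 1
    field_simp
    ring
  obtain ⟨u, hu⟩ : ∃ u : ℂ, u = (-Complex.I * (2 * w)) ^ (1 / 2 : ℂ) := ⟨_, rfl⟩
  obtain ⟨v, hv⟩ : ∃ v : ℂ, v = (-Complex.I * (6 * w)) ^ (1 / 2 : ℂ) := ⟨_, rfl⟩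
  have hx0 : -Complex.I * (2 * w) ≠ 0 :=
    mul_ne_zero (neg_ne_zero.2 Complex.I_ne_zero) (mul_ne_zero (by norm_num) hw0)
  have huv : u * v = ((Real.sqrt 3 : ℝ) : ℂ) * (-Complex.I * (2 * w)) := by
    have h1 := tha_sqrt hx0
    have h2 : 3 * (-Complex.I * (2 * w)) = -Complex.I * (6 * w) := by ring
    rw [h2] at h1
    rw [hu, hv, h1]
  rw [← hu] at f1 f3
  rw [← hv] at f2 f4
  have hs3 : ((Real.sqrt 3 : ℝ) : ℂ) * ((Real.sqrt 3 : ℝ) : ℂ) = 3 := by
    rw [← Complex.ofReal_mul, Real.mul_self_sqrt (by norm_num)]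
    norm_num
  have hs0 : ((Real.sqrt 3 : ℝ) : ℂ) ≠ 0 := fun h => by
    rw [h] at hs3
    norm_num at hs3
  have huv2 : 1 / u * (1 / v) = jW τ / 2 := by
    rw [div_mul_div_comm, huv, jW, ← ht, hw, one_mul, div_eq_div_iff ?_ (by norm_num)]
    · have h3 := Complex.I_mul_I
      field_simp
      linear_combination (Complex.I ^ 2) * hs3 + 3 * h3
    · rw [← hw]
      exact mul_ne_zero hs0 hx0
  have hG : Gf (W τ) = (1 / u * (1 / v)) * (jacobiTheta₂ 0 (6 * t / 4) * jacobiTheta₂ 0 (2 * t / 4) +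
      jacobiTheta₂ (1 / 2) (6 * t / 4) * jacobiTheta₂ (1 / 2) (2 * t / 4)) := by
    rw [Gf, hWw, jacobiTheta_eq_jacobiTheta₂, jacobiTheta_eq_jacobiTheta₂, f1, f2, f3, f4]
    linear_combination (1 / u * (1 / v) * jacobiTheta₂ (1 / 2) (6 * t / 4) * jacobiTheta₂ (1 / 2) (2 * t / 4)) * x3
  rw [hG, huv2, tha_A him2, tha_A him6, tha_C him2, tha_C him6, Gf, ← ht, jacobiTheta_eq_jacobiTheta₂,
    jacobiTheta_eq_jacobiTheta₂]
  have y1 : 2 * t / 2 = t := by ring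
  have y2 : 6 * t / 2 = 3 * t := by ring
  rw [y1, y2]
  have x4 : Complex.exp (π * Complex.I * (2 * t) / 4) * Complex.exp (π * Complex.I * (6 * t) / 4) =
      Complex.exp (2 * π * Complex.I * t) := by
    rw [← Complex.exp_add]
    congr 1
    ring
  linear_combination (jW τ * jacobiTheta₂ t (2 * t) * jacobiTheta₂ (3 * t) (6 * t)) * x4

end Pool.Agent.Lib.SCG
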